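import Mathlib.Data.Multiset.Sort
import Mathlib.Algebra.BigOperators.Group.Multiset.Basic
import Mathlib.Algebra.Order.BigOperators.Group.List
import Mathlib.Algebra.Group.Prod
import Mathlib.Algebra.Order.Group.Multiset
import Mathlib.Algebra.Group.Nat.Even
import Mathlib.Algebra.Ring.Parity
import Mathlib.Data.Nat.Bitwise
import Mathlib.Data.List.GetD
import Mathlib.Tactic.Abel
import Mathlib.Tactic.NormNum
import Mathlib.Tactic.SplitIfs
import Mathlib.Tactic.Push

/-!
Paths, cycles and tangles of labels.  A vertex is a natural number (its label), an edge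
contributes the sum of the labels of its two ends.
-/

namespace Pool.Agent.Lib.MP84

abbrev W := Multiset ℕ × Multiset ℕ

def psums : List ℕ → List ℕ
  | x :: y :: l => (x + y) :: psums (y :: l)
  | _ => []

def csums (l : List ℕ) : List ℕ := psums (l ++ l.take 1)

def pw (l : List ℕ) : W := ((l : Multiset ℕ), (psums l : Multiset ℕ))
def cw (l : List ℕ) : W := ((l : Multiset ℕ), (csums l : Multiset ℕ))
def ed (s : ℕ) : W := (0, {s})

theorem psums_append : ∀ (l1 l2 : List ℕ) (y x : ℕ), l1.getLast? = some y → l2.head? = some x →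
    psums (l1 ++ l2) = psums l1 ++ (y + x) :: psums l2
  | [], _, _, _, h, _ => by simp at h
  | [a], l2, y, x, h, h2 => by
    cases l2 with
    | nil => simp at h2
    | cons b l2 =>
      simp at h h2
      subst h h2
      simp [psums]
  | a :: b :: l1, l2, y, x, h, h2 => by
    have h' : (b :: l1).getLast? = some y := by simpa [List.getLast?_cons_cons] using h
    have := psums_append (b :: l1) l2 y x h' h2
    simp only [List.cons_append, psums] at this ⊢
    rw [this]

theorem psums_reverse : ∀ l : List ℕ, psums l.reverse = (psums l).reverse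
  | [] => rfl
  | [_] => rfl
  | a :: b :: l => by
    have ih := psums_reverse (b :: l)
    have h1 : (b :: l).reverse.getLast? = some b := by simp
    rw [List.reverse_cons, psums_append _ [a] b a h1 rfl, ih]
    simp [psums, Nat.add_comm]

theorem length_psums : ∀ l : List ℕ, (psums l).length = l.length - 1
  | [] => rfl
  | [_] => rfl
  | a :: b :: l => by
    have := length_psums (b :: l)
    simp only [psums, List.length_cons] at this ⊢
    omega

def Pth (x y n : ℕ) (w : W) : Prop :=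
  ∃ l : List ℕ, l.head? = some x ∧ l.getLast? = some y ∧ l.length = n ∧ pw l = w

def Cys (ms : Multiset ℕ) (w : W) : Prop :=
  ∃ Cs : List (List ℕ), ((Cs.map List.length : List ℕ) : Multiset ℕ) = ms ∧ (Cs.map cw).sum = w

theorem Pth.join {x y n w x' y' n' w'} (h : Pth x y n w) (h' : Pth x' y' n' w') :
    Pth x y' (n + n') (w + ed (y + x') + w') := by
  obtain ⟨l, a1, a2, rfl, rfl⟩ := h
  obtain ⟨l', b1, b2, rfl, rfl⟩ := h'
  refine ⟨l ++ l', by simp [a1], by simp [b2], by simp, ?_⟩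
  simp only [pw, ed, psums_append l l' y x' a2 b1, Prod.mk_add_mk, add_zero, Prod.mk.injEq]
  refine ⟨by simp, ?_⟩
  rw [← Multiset.coe_add, ← Multiset.cons_coe, ← Multiset.singleton_add, add_assoc]

theorem Pth.rev {x y n w} (h : Pth x y n w) : Pth y x n w := by
  obtain ⟨l, a1, a2, rfl, rfl⟩ := h
  refine ⟨l.reverse, by simpa using a2, by simpa using a1, by simp, ?_⟩
  simp [pw, psums_reverse]

theorem Pth.close {x y n w} (h : Pth x y n w) : Cys {n} (w + ed (y + x)) := by
  obtain ⟨l, a1, a2, rfl, rfl⟩ := h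
  refine ⟨[l], by simp, ?_⟩
  have ht : l.take 1 = [x] := by
    cases l with
    | nil => simp at a1
    | cons a l => simp at a1; simp [a1]
  simp only [List.map_cons, List.map_nil, List.sum_cons, List.sum_nil, add_zero, cw, csums, ht,
    psums_append l [x] y x a2 rfl, pw, ed, Prod.mk_add_mk, Prod.mk.injEq, true_and]
  rw [← Multiset.coe_add]
  rfl

theorem Cys.zero : Cys 0 0 := ⟨[], rfl, rfl⟩

theorem Cys.add {ms w ms' w'} (h : Cys ms w) (h' : Cys ms' w') : Cys (ms + ms') (w + w') := by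
  obtain ⟨C, rfl, rfl⟩ := h
  obtain ⟨C', rfl, rfl⟩ := h'
  exact ⟨C ++ C', by simp, by simp⟩

def Arc : Option (ℕ × ℕ) → ℕ → W → Prop
  | none, n, w => n = 0 ∧ w = 0
  | some e, n, w => Pth e.1 e.2 n w

inductive Shape
  | thru (n : ℕ)
  | brk (a : ℕ) (ms : Multiset ℕ) (b : ℕ)

def Thru (x1 x2 y1 y2 n : ℕ) (w : W) : Prop :=
  ∃ n1 n2 w1 w2, Pth x1 y1 n1 w1 ∧ Pth x2 y2 n2 w2 ∧ n = n1 + n2 ∧ w = w1 + w2

def Tangle (A B : Option (ℕ × ℕ)) : Shape → W → Prop
  | .thru n, w => ∃ x y : ℕ × ℕ, A = some x ∧ B = some y ∧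
      (Thru x.1 x.2 y.1 y.2 n w ∨ Thru x.1 x.2 y.2 y.1 n w)
  | .brk a ms b, w => ∃ w1 w2 w3, Arc A a w1 ∧ Cys ms w2 ∧ Arc B b w3 ∧ w = w1 + w2 + w3

def Shape.rev : Shape → Shape
  | .thru n => .thru n
  | .brk a ms b => .brk b ms a

def Shape.comp : Shape → Shape → Shape
  | .thru n, .thru m => .thru (n + m)
  | .thru n, .brk a ms b => .brk (n + a) ms b
  | .brk a ms b, .thru m => .brk a ms (b + m)
  | .brk a ms b, .brk a' ms' b' => .brk a (ms + {b + a'} + ms') b'

theorem Thru.swap {x1 x2 y1 y2 n w} (h : Thru x1 x2 y1 y2 n w) : Thru x2 x1 y2 y1 n w := by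
  obtain ⟨n1, n2, w1, w2, a, b, rfl, rfl⟩ := h
  exact ⟨n2, n1, w2, w1, b, a, add_comm _ _, add_comm _ _⟩

theorem Thru.rev {x1 x2 y1 y2 n w} (h : Thru x1 x2 y1 y2 n w) : Thru y1 y2 x1 x2 n w := by
  obtain ⟨n1, n2, w1, w2, a, b, rfl, rfl⟩ := h
  exact ⟨n1, n2, w1, w2, a.rev, b.rev, rfl, rfl⟩

theorem Tangle.rev {A B s w} (h : Tangle A B s w) : Tangle B A s.rev w := by
  cases s with
  | thru n =>
    obtain ⟨x, y, a, b, h⟩ := h
    refine ⟨y, x, b, a, ?_⟩
    rcases h with h | h
    · exact Or.inl h.rev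
    · exact Or.inr h.rev.swap
  | brk a ms b =>
    obtain ⟨w1, w2, w3, h1, h2, h3, rfl⟩ := h
    exact ⟨w3, w2, w1, h3, h2, h1, by abel⟩

def sw (b : Bool) (o : Option (ℕ × ℕ)) : Option (ℕ × ℕ) :=
  cond b (o.map fun e => (e.2, e.1)) o

theorem Arc.sw {A n w} (b : Bool) (h : Arc A n w) : Arc (sw b A) n w := by
  cases b
  · exact h
  · cases A with
    | none => exact h
    | some e => exact Pth.rev h

theorem Tangle.swA {A B s w} (b : Bool) (h : Tangle A B s w) : Tangle (sw b A) B s w := by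
  cases s with
  | thru n =>
    cases b
    · exact h
    · obtain ⟨x, y, rfl, rfl, h⟩ := h
      refine ⟨(x.2, x.1), y, rfl, rfl, ?_⟩
      rcases h with h | h
      · exact Or.inr h.swap
      · exact Or.inl h.swap
  | brk a ms c =>
    obtain ⟨w1, w2, w3, h1, h2, h3, rfl⟩ := h
    exact ⟨w1, w2, w3, h1.sw b, h2, h3, rfl⟩

def jw (b c : ℕ × ℕ) : W := ed (b.1 + c.1) + ed (b.2 + c.2)

theorem Thru.comp {x1 x2 b1 b2 c1 c2 y1 y2 n m w w'} (h : Thru x1 x2 b1 b2 n w)
    (h' : Thru c1 c2 y1 y2 m w') : Thru x1 x2 y1 y2 (n + m) (w + jw (b1, b2) (c1, c2) + w') := by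
  obtain ⟨n1, n2, w1, w2, a, b, rfl, rfl⟩ := h
  obtain ⟨m1, m2, v1, v2, c, d, rfl, rfl⟩ := h'
  exact ⟨_, _, _, _, a.join c, b.join d, by omega, by simp only [jw]; abel⟩

theorem Thru.cap {x1 x2 b1 b2 c1 c2 n m w w'} (h : Thru x1 x2 b1 b2 n w)
    (h' : Pth c1 c2 m w') : Pth x1 x2 (n + m) (w + jw (b1, b2) (c1, c2) + w') := by
  obtain ⟨n1, n2, w1, w2, a, b, rfl, rfl⟩ := h
  have := (a.join h').join b.rev
  rw [show n1 + n2 + m = n1 + m + n2 by omega]
  convert this using 1
  simp only [jw, Nat.add_comm c2 b2]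
  abel

theorem jw_swap (b1 b2 c1 c2 : ℕ) : jw (b2, b1) (c2, c1) = jw (b1, b2) (c1, c2) := by
  simp only [jw]; abel

theorem jw_comm (b c : ℕ × ℕ) : jw b c = jw c b := by
  simp only [jw, Nat.add_comm]

theorem Tangle.comp {A B s s' w w'} {b c : ℕ × ℕ} (h : Tangle A (some b) s w)
    (h' : Tangle (some c) B s' w') : Tangle A B (s.comp s') (w + jw b c + w') := by
  obtain ⟨b1, b2⟩ := b
  obtain ⟨c1, c2⟩ := c
  cases s with
  | thru n =>
    obtain ⟨x, y, rfl, hy, h⟩ := h
    obtain rfl : y = (b1, b2) := by simpa using hy.symm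
    cases s' with
    | thru m =>
      obtain ⟨x', y', hx, rfl, h'⟩ := h'
      obtain rfl : x' = (c1, c2) := by simpa using hx.symm
      refine ⟨x, y', rfl, rfl, ?_⟩
      rcases h with h | h <;> rcases h' with h' | h'
      · exact Or.inl (h.comp h')
      · exact Or.inr (h.comp h')
      · exact Or.inr (jw_swap b1 b2 c1 c2 ▸ h.comp h'.swap)
      · exact Or.inl (jw_swap b1 b2 c1 c2 ▸ h.comp h'.swap)
    | brk a ms d =>
      obtain ⟨w1, w2, w3, h1, h2, h3, rfl⟩ := h'
      refine ⟨w + jw (b1, b2) (c1, c2) + w1, w2, w3, ?_, h2, h3, by abel⟩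
      rcases h with h | h
      · exact h.cap h1
      · exact jw_swap b1 b2 c1 c2 ▸ h.cap (Pth.rev h1)
  | brk a ms d =>
    obtain ⟨w1, w2, w3, h1, h2, h3, rfl⟩ := h
    cases s' with
    | thru m =>
      obtain ⟨x', y', hx, rfl, h'⟩ := h'
      obtain rfl : x' = (c1, c2) := by simpa using hx.symm
      refine ⟨w1, w2, w' + jw (c1, c2) (b1, b2) + w3, h1, h2, ?_, by rw [jw_comm]; abel⟩
      rw [Nat.add_comm d m]
      rcases h' with h' | h'
      · exact h'.rev.cap h3
      · exact Pth.rev (h'.rev.cap h3)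
    | brk a' ms' d' =>
      obtain ⟨v1, v2, v3, g1, g2, g3, rfl⟩ := h'
      have := (Pth.join (Pth.rev h3) g1).close
      refine ⟨w1, _, v3, h1, (h2.add this).add g2, g3, ?_⟩
      simp only [jw, Nat.add_comm c2 b2]
      abel

theorem Tangle.closed {A B a ms b w w'} (h : Arc A a w)
    (h' : Tangle none B (.brk 0 ms b) w') : Tangle A B (.brk a ms b) (w + w') := by
  obtain ⟨v1, v2, v3, g1, g2, g3, rfl⟩ := h'
  obtain ⟨-, rfl⟩ := g1
  exact ⟨w, v2, v3, h, g2, g3, by abel⟩

/-- class dependent shift: even labels move by `2U`, odd labels by `2V` -/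
def sh (U V x : ℕ) : ℕ := cond (Nat.beq (x % 2) 0) (x + 2 * U) (x + 2 * V)

theorem sh_eq (U V x : ℕ) : sh U V x = if x % 2 = 0 then x + 2 * U else x + 2 * V := by
  unfold sh
  by_cases h : x % 2 = 0
  · simp [h]
  · have : Nat.beq (x % 2) 0 = false := by
      rw [Bool.eq_false_iff]; intro h'; exact h (Nat.eq_of_beq_eq_true h')
    simp [this, h]

def shW (U V : ℕ) (w : W) : W := (w.1.map (sh U V), w.2.map (· + 2 * (U + V)))

def sho (U V : ℕ) (o : Option (ℕ × ℕ)) : Option (ℕ × ℕ) := o.map fun e => (sh U V e.1, sh U V e.2)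

theorem shW_add (U V : ℕ) (w w' : W) : shW U V (w + w') = shW U V w + shW U V w' := by
  simp [shW]

theorem shW_zero (U V : ℕ) : shW U V 0 = 0 := by simp [shW]

theorem psums_sh (U V : ℕ) : ∀ l : List ℕ, (∀ s ∈ psums l, s % 2 = 1) →
    psums (l.map (sh U V)) = (psums l).map (· + 2 * (U + V))
  | [], _ => rfl
  | [_], _ => rfl
  | a :: b :: l, h => by
    have ih := psums_sh U V (b :: l) (fun s hs => h s (by simp [psums, hs]))
    have h0 := h (a + b) (by simp [psums])
    simp only [List.map_cons, psums] at ih ⊢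
    rw [ih]
    congr 1
    rw [sh_eq, sh_eq]
    split_ifs <;> omega

def OddW (w : W) : Prop := ∀ s ∈ w.2, s % 2 = 1

theorem OddW.left {w w' : W} (h : OddW (w + w')) : OddW w :=
  fun s hs => h s (by simp [hs])

theorem OddW.right {w w' : W} (h : OddW (w + w')) : OddW w' :=
  fun s hs => h s (by simp [hs])

theorem Pth.shift {x y n w} (U V : ℕ) (h : Pth x y n w) (ho : OddW w) :
    Pth (sh U V x) (sh U V y) n (shW U V w) := by
  obtain ⟨l, a1, a2, rfl, rfl⟩ := h
  refine ⟨l.map (sh U V), by simp [a1], by simp [a2], by simp, ?_⟩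
  simp only [pw, shW, Multiset.map_coe]
  rw [psums_sh U V l (fun s hs => ho s (by simpa [pw] using hs))]

theorem cw_shift (U V : ℕ) (l : List ℕ) (ho : OddW (cw l)) :
    cw (l.map (sh U V)) = shW U V (cw l) := by
  simp only [cw, shW, Multiset.map_coe, csums]
  rw [← psums_sh U V _ (fun s hs => ho s (by simpa [cw, csums] using hs))]
  simp [List.map_take]

theorem Cys.shift {ms w} (U V : ℕ) (h : Cys ms w) (ho : OddW w) : Cys ms (shW U V w) := by
  obtain ⟨C, rfl, rfl⟩ := h
  refine ⟨C.map (List.map (sh U V)), by simp [Function.comp_def], ?_⟩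
  induction C with
  | nil => simp [shW_zero]
  | cons l C ih =>
    simp only [List.map_cons, List.sum_cons] at ho ⊢
    rw [shW_add, ih ho.right, cw_shift U V l ho.left]

theorem Arc.shift {A n w} (U V : ℕ) (h : Arc A n w) (ho : OddW w) :
    Arc (sho U V A) n (shW U V w) := by
  cases A with
  | none => obtain ⟨rfl, rfl⟩ := h; exact ⟨rfl, shW_zero U V⟩
  | some e => exact Pth.shift U V h ho

theorem Thru.shift {x1 x2 y1 y2 n w} (U V : ℕ) (h : Thru x1 x2 y1 y2 n w) (ho : OddW w) :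
    Thru (sh U V x1) (sh U V x2) (sh U V y1) (sh U V y2) n (shW U V w) := by
  obtain ⟨n1, n2, w1, w2, a, b, rfl, rfl⟩ := h
  exact ⟨_, _, _, _, a.shift U V ho.left, b.shift U V ho.right, rfl, shW_add _ _ _ _⟩

theorem Tangle.shift {A B s w} (U V : ℕ) (h : Tangle A B s w) (ho : OddW w) :
    Tangle (sho U V A) (sho U V B) s (shW U V w) := by
  cases s with
  | thru n =>
    obtain ⟨x, y, rfl, rfl, h⟩ := h
    refine ⟨_, _, rfl, rfl, ?_⟩
    rcases h with h | h
    · exact Or.inl (h.shift U V ho)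
    · exact Or.inr (h.shift U V ho)
  | brk a ms b =>
    obtain ⟨w1, w2, w3, h1, h2, h3, rfl⟩ := h
    exact ⟨_, _, _, h1.shift U V ho.left.left, h2.shift U V ho.left.right, h3.shift U V ho.right,
      by rw [shW_add, shW_add]⟩

/-- first and last entry of a list -/
def ends (l : List ℕ) : Option (ℕ × ℕ) :=
  match l with
  | [] => none
  | x :: l' => some (x, l'.getLastD x)

theorem arc_ends (l : List ℕ) : Arc (ends l) l.length (pw l) := by
  cases l with
  | nil => exact ⟨rfl, rfl⟩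
  | cons x l => exact ⟨x :: l, rfl, by simp [List.getLast?_cons], rfl, rfl⟩

end Pool.Agent.Lib.MP84
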