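import Pool.Agent.Lib.MP_84c3e0_co.Glue

/-!
A block is good if all admissible shapes, apart from a list of exceptions, are realized.
Certificates deduce goodness of a block from goodness of smaller blocks.
-/

namespace Pool.Agent.Lib.MP84

abbrev Ex := ℕ × List ℕ × ℕ

structure Pr where
  g : Ty
  n : ℕ
  e : List Ex

def Pr.at (x : Pr) (j : ℕ) : Pr := ⟨x.g.at j, x.n + 4 * j, x.e⟩

theorem Pr.at_zero (x : Pr) : x.at 0 = x := by cases x; simp [Pr.at, Ty.at_zero]
theorem Pr.at_at (x : Pr) (n m : ℕ) : (x.at n).at m = x.at (n + m) := by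
  cases x; simp [Pr.at, Ty.at_at, Nat.mul_add, Nat.add_assoc]

def Pc (o : Option (ℕ × ℕ)) (a : ℕ) : Prop :=
  (o.isSome = true → 2 ≤ a ∧ a % 2 = 0) ∧ (o.isSome = false → a = 0)

def Valid (x : Pr) (a : ℕ) (ms : Multiset ℕ) (b : ℕ) : Prop :=
  a + ms.sum + b = x.n ∧ Pc x.g.Z a ∧ Pc x.g.Y b ∧ ∀ m ∈ ms, 4 ≤ m ∧ m % 2 = 0

def NotEx (E : List Ex) (a : ℕ) (ms : Multiset ℕ) (b : ℕ) : Prop :=
  ∀ e ∈ E, ¬ (e.1 = a ∧ (e.2.1 : Multiset ℕ) = ms ∧ e.2.2 = b)

def Good (x : Pr) : Prop :=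
  (∀ a ms b, Valid x a ms b → NotEx x.e a ms b → Real x.g (.brk a ms b)) ∧
    (x.g.Z.isSome = true → x.g.Y.isSome = true → Real x.g (.thru x.n))

theorem Pc.even {o a} (h : Pc o a) : a % 2 = 0 := by
  cases ho : o.isSome
  · rw [h.2 ho]
  · exact (h.1 ho).2

theorem Pc.isSome {o a} (h : Pc o a) (ha : 0 < a) : o.isSome = true := by
  cases ho : o.isSome
  · have := h.2 ho; omega
  · rfl

theorem Pc.mk' {o : Option (ℕ × ℕ)} {a} (ho : o.isSome = true) (h : 0 < a) (h2 : a % 2 = 0) :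
    Pc o a := ⟨fun _ => ⟨by omega, h2⟩, fun h' => by simp [ho] at h'⟩

theorem sum_even : ∀ l : List ℕ, (∀ m ∈ l, 4 ≤ m ∧ m % 2 = 0) → l.sum % 2 = 0
  | [], _ => rfl
  | a :: l, h => by
    have := sum_even l (fun m hm => h m (by simp [hm]))
    have := (h a (by simp)).2
    simp only [List.sum_cons]
    omega

theorem cut_exists : ∀ (l : List ℕ) (x : ℕ), (∀ k, (l.take k).sum ≠ x) →
    l.sum < x ∨ ∃ l1 m l3, l = l1 ++ m :: l3 ∧ l1.sum < x ∧ x < l1.sum + m
  | [], x, h => Or.inl (by have := h 0; simp at this ⊢; omega)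
  | a :: l, x, h => by
    have h0 := h 0
    have h1 := h 1
    simp at h0 h1
    by_cases hx : x < a
    · exact Or.inr ⟨[], a, l, rfl, by simp; omega, by simpa using hx⟩
    · rcases cut_exists l (x - a) (fun k hk => h (k + 1) (by simp; omega)) with h' | h'
      · exact Or.inl (by simp; omega)
      · obtain ⟨l1, m, l3, rfl, a1, a2⟩ := h'
        exact Or.inr ⟨a :: l1, m, l3, rfl, by simp; omega, by simp; omega⟩

theorem no_close_breaks : ∀ (l : List ℕ), (∀ m ∈ l, 4 ≤ m ∧ m % 2 = 0) → ∀ k k',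
    (l.take k).sum + 2 ≠ (l.take k').sum
  | [], _, k, k' => by simp
  | a :: l, h, k, k' => by
    have ha := (h a (by simp)).1
    cases k' with
    | zero => simp
    | succ k' =>
      cases k with
      | zero => simp; omega
      | succ k =>
        have := no_close_breaks l (fun m hm => h m (by simp [hm])) k k'
        simp only [List.take_succ_cons, List.sum_cons]
        omega

theorem cut2 {x1 x3 : Pr} (g1 : Good x1) (g3 : Good x3) (z1 : x1.g.Z.isSome = true)
    (z3 : x3.g.Z.isSome = true) (n1 : x1.n % 2 = 0) {f b : ℕ} {l : List ℕ} (hf : Pc x1.g.Y f)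
    (hb : Pc x3.g.Y b) (hl : ∀ m ∈ l, 4 ≤ m ∧ m % 2 = 0) (hs : f + l.sum + b = x1.n + x3.n)
    (hk : ∀ k, f + (l.take k).sum ≠ x1.n)
    (e1 : ∀ a l1 l2, l = l1 ++ l2 → NotEx x1.e a (l1 : Multiset ℕ) f)
    (e3 : ∀ a l1 l2, l = l1 ++ l2 → NotEx x3.e a (l2 : Multiset ℕ) b) :
    ∃ s1 s3, Real x1.g s1 ∧ Real x3.g s3 ∧ s1.rev.comp s3 = .brk f l b := by
  have fe := hf.even
  have le := sum_even l hl
  by_cases h : x1.n < f
  · refine ⟨.thru x1.n, .brk (f - x1.n) l b, g1.2 z1 (hf.isSome (by omega)),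
      g3.1 _ _ _ ⟨by simp; omega, Pc.mk' z3 (by omega) (by omega), hb, by simpa using hl⟩
        (e3 _ [] l rfl), ?_⟩
    simp only [Shape.rev, Shape.comp]
    congr 1
    omega
  · have h0 := hk 0
    simp at h0
    rcases cut_exists l (x1.n - f) (fun k hk' => hk k (by omega)) with h' | h'
    · refine ⟨.brk (x1.n - f - l.sum) l f, .thru x3.n,
        g1.1 _ _ _ ⟨by simp; omega, Pc.mk' z1 (by omega) (by omega), hf, by simpa using hl⟩
          (e1 _ l [] (by simp)), g3.2 z3 (hb.isSome (by omega)), ?_⟩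
      simp only [Shape.rev, Shape.comp]
      congr 1
      omega
    · obtain ⟨l1, m, l3, rfl, a1, a2⟩ := h'
      have hl1 : ∀ m ∈ l1, 4 ≤ m ∧ m % 2 = 0 := fun k hk => hl k (by simp [hk])
      have hl3 : ∀ m ∈ l3, 4 ≤ m ∧ m % 2 = 0 := fun k hk => hl k (by simp [hk])
      have hm := hl m (by simp)
      have := sum_even l1 hl1
      simp only [List.sum_append, List.sum_cons] at hs
      refine ⟨.brk (x1.n - f - l1.sum) l1 f, .brk (l1.sum + m - (x1.n - f)) l3 b,
        g1.1 _ _ _ ⟨by simp; omega, Pc.mk' z1 (by omega) (by omega), hf, by simpa using hl1⟩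
          (e1 _ l1 _ rfl),
        g3.1 _ _ _ ⟨by simp; omega, Pc.mk' z3 (by omega) (by omega), hb, by simpa using hl3⟩
          (e3 _ (l1 ++ [m]) l3 (by simp)), ?_⟩
      simp only [Shape.rev, Shape.comp]
      congr 1
      rw [show x1.n - f - l1.sum + (l1.sum + m - (x1.n - f)) = m by omega, ← Multiset.coe_add,
        ← Multiset.cons_coe, ← Multiset.singleton_add, add_assoc]

/-- applicability of a rule in case `i` (first piece `2 i`, or at least 16 when `i = 8`) -/
def app (i : ℕ) (th : Bool) (lP lQ : ℕ) (E : List Ex) : Bool :=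
  cond th
    (decide (lP + lQ < 2 * i) && decide ((lP + lQ) % 2 = 0) &&
      cond (decide (i < 8)) (E.all fun e => decide (e.2.2 + (lP + lQ) ≠ 2 * i))
        (E.all fun e => decide (e.2.2 + (lP + lQ) < 16)))
    (decide (i < 8) && decide (lP = 2 * i) &&
      ((decide (lQ = 0) && E.isEmpty) ||
        (decide (lQ = 2) && E.all fun e => e.2.1.any fun m => decide (m < e.2.2 + 2))))

def c3 (B bm : ℕ) (E : List Ex) : Bool :=
  E.all fun e => !e.2.1.isEmpty && e.2.1.all (fun m => decide (m ≤ B)) && decide (e.2.2 ≤ bm)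

theorem rule_brk {x x1 x3 : Pr} {c : Core} (h : RuleP x.g x1.g x3.g c) (g1 : Good x1)
    (g3 : Good x3) (hn : x.n = c.P.length + c.Q.length + x1.n + x3.n) (n1 : x1.n % 2 = 0)
    {a b B bm : ℕ} {l : List ℕ} (hv : Valid x a l b) (hl : l.Pairwise (· ≤ ·))
    (ha : app (min (a / 2) 8) c.th c.P.length c.Q.length x1.e = true) (h3 : c3 B bm x3.e = true)
    (hf : ¬ (l ≠ [] ∧ (∀ m ∈ l, m ≤ B) ∧ b ≤ bm))
    (hk : ∀ k, a + (l.take k).sum ≠ c.P.length + c.Q.length + x1.n) :
    Real x.g (.brk a l b) := by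
  obtain ⟨hs, pa, pb, hm⟩ := hv
  have hm' : ∀ m ∈ l, 4 ≤ m ∧ m % 2 = 0 := by simpa using hm
  simp only [Multiset.sum_coe] at hs
  have ae := pa.even
  have pb3 : Pc x3.g.Y b := by
    have : x3.g.Y.isSome = x.g.Y.isSome := by rw [h.hY]; simp [sho]
    simpa only [Pc, this] using pb
  have e3 : ∀ a l1 l2, l = l1 ++ l2 → NotEx x3.e a (l2 : Multiset ℕ) b := by
    rintro a' l1 l2 rfl e he ⟨-, k2, k3⟩
    simp only [c3, List.all_eq_true, Bool.and_eq_true, Bool.not_eq_true', decide_eq_true_eq,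
      List.isEmpty_eq_false_iff] at h3
    obtain ⟨⟨j1, j2⟩, j3⟩ := h3 e he
    have hp := Multiset.coe_eq_coe.1 k2
    obtain ⟨m0, hm0⟩ := List.exists_mem_of_ne_nil _ j1
    refine hf ⟨?_, ?_, k3 ▸ j3⟩
    · intro h0
      have := hp.subset hm0
      simp [(List.append_eq_nil_iff.1 h0).2] at this
    · intro m hm
      rcases List.mem_append.1 hm with hm | hm
      · exact ((List.pairwise_append.1 hl).2.2 m hm m0 (hp.subset hm0)).trans (j2 m0 hm0)
      · exact j2 m (hp.symm.subset hm)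
  cases ht : c.th with
  | true =>
    simp only [app, ht, cond_true, Bool.and_eq_true, decide_eq_true_eq] at ha
    obtain ⟨⟨a1, a2⟩, a3⟩ := ha
    have hy : x1.g.Y.isSome = true := by
      have hA := h.hth ht
      rw [← h.hB]
      simp only [Core.A, Core.B, ht, cond_true] at hA ⊢
      revert hA
      cases ends c.P <;> cases ends c.Q <;> simp [fsts, snds]
    obtain ⟨s1, s3, r1, r3, e⟩ := cut2 g1 g3 h.hZ1 h.hZ3 n1
      (f := a - (c.P.length + c.Q.length)) (b := b) (l := l)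
      (Pc.mk' hy (by omega) (by omega)) pb3 hm' (by omega)
      (fun k hk' => hk k (by omega)) (by
        rintro a' l1 l2 - e he ⟨-, -, k3⟩
        by_cases hi : min (a / 2) 8 < 8
        · simp only [hi, decide_true, cond_true, List.all_eq_true, decide_eq_true_eq] at a3
          have := a3 e he
          omega
        · simp only [hi, decide_false, cond_false, List.all_eq_true, decide_eq_true_eq] at a3
          have := a3 e he
          omega) e3
    have := h.glue_th ht r1 r3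
    rw [e] at this
    simp only [Shape.comp] at this
    rwa [show c.P.length + c.Q.length + (a - (c.P.length + c.Q.length)) = a by omega] at this
  | false =>
    simp only [app, ht, cond_false, Bool.and_eq_true, decide_eq_true_eq, Bool.or_eq_true,
      List.isEmpty_iff, List.all_eq_true, List.any_eq_true] at ha
    obtain ⟨⟨a1, a2⟩, a3⟩ := ha
    have hP : c.P.length = a := by omega
    have hB := h.hB
    simp only [Core.B, ht, cond_false] at hB
    rcases a3 with ⟨q0, a3⟩ | ⟨q2, a3⟩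
    · have hy : x1.g.Y = none := by
        rw [List.length_eq_zero_iff.1 q0] at hB
        simpa [ends] using hB.symm
      obtain ⟨s1, s3, r1, r3, e⟩ := cut2 g1 g3 h.hZ1 h.hZ3 n1 (f := 0) (b := b) (l := l)
        ⟨by simp [hy], fun _ => rfl⟩ pb3 hm' (by omega)
        (fun k hk' => hk k (by omega)) (by rw [a3]; intro _ _ _ _ e he; simp at he) e3
      exact hP ▸ h.glue_cl ht hy r1 r3 e
    · have hy : x1.g.Y.isSome = true := by
        rw [← hB]
        cases hq : c.Q with
        | nil => simp [hq] at q2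
        | cons _ _ => rfl
      cases l with
      | nil =>
        simp only [List.sum_nil] at hs
        have := h.glue_op ht hy (g1.2 h.hZ1 hy) (g3.2 h.hZ3 (pb3.isSome (by omega)))
        simp only [Shape.rev, Shape.comp] at this
        rwa [hP, show c.Q.length + (x1.n + x3.n) = b by omega] at this
      | cons m l =>
        have hm0 := hm' m (by simp)
        simp only [List.sum_cons] at hs
        obtain ⟨s1, s3, r1, r3, e⟩ := cut2 g1 g3 h.hZ1 h.hZ3 n1 (f := m - 2) (b := b) (l := l)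
          (Pc.mk' hy (by omega) (by omega)) pb3 (fun k hk => hm' k (by simp [hk])) (by omega)
          (fun k hk' => hk (k + 1) (by simp; omega)) (by
            rintro a' l1 l2 rfl e he ⟨-, k2, k3⟩
            obtain ⟨m', j1, j2⟩ := a3 e he
            have := (List.pairwise_cons.1 hl).1 m'
              (List.mem_append_left _ ((Multiset.coe_eq_coe.1 k2).subset j1))
            omega) (fun a' l1 l2 hh => e3 a' (m :: l1) l2 (by simp [hh]))
        have := h.glue_op ht hy r1 r3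
        rw [e] at this
        simp only [Shape.comp] at this
        rwa [hP, show c.Q.length + (m - 2) = m by omega, zero_add, Multiset.singleton_add,
          Multiset.cons_coe] at this

theorem rule_thru {x x1 x3 : Pr} {c : Core} (h : RuleP x.g x1.g x3.g c) (g1 : Good x1)
    (g3 : Good x3) (hn : x.n = c.P.length + c.Q.length + x1.n + x3.n)
    (ha : app 8 c.th c.P.length c.Q.length x1.e = true) (hY : x.g.Y.isSome = true) :
    Real x.g (.thru x.n) := by
  have ht : c.th = true := by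
    cases ht : c.th
    · simp [app, ht] at ha
    · rfl
  have hy : x1.g.Y.isSome = true := by
    have hA := h.hth ht
    rw [← h.hB]
    simp only [Core.A, Core.B, ht, cond_true] at hA ⊢
    revert hA
    cases ends c.P <;> cases ends c.Q <;> simp [fsts, snds]
  have := h.glue_th ht (g1.2 h.hZ1 hy) (g3.2 h.hZ3 (by rw [h.hY] at hY; simpa [sho] using hY))
  simp only [Shape.rev, Shape.comp] at this
  rwa [hn, Nat.add_assoc]

structure Rule where
  x1 : Pr
  x3 : Pr
  c : Core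

def rulePB (G g1 g3 : Ty) (c : Core) : Bool :=
  decide (G.p = g1.p + c.ra + g3.p) && decide (G.q = g1.q + c.rb + g3.q) &&
  decide (0 < g1.p + g1.q) && decide (0 < g3.p + g3.q) &&
  decide (G.LH = g1.LH) && decide (G.LU = g1.LU) &&
  decide (G.RH = g3.RH.map (sh (g1.p + c.ra) (g1.q + c.rb))) &&
  decide (G.RU = ad (2 * (g1.p + c.ra + (g1.q + c.rb))) g3.RU) &&
  decide (G.Y = sho (g1.p + c.ra) (g1.q + c.rb) g3.Y) &&
  g1.CH.isEmpty && g3.CH.isEmpty && decide (G.Z = c.A) && g1.Z.isSome && g3.Z.isSome &&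
  decide (c.B.isSome = g1.Y.isSome) && (!c.th || c.A.isSome) &&
  (c.P ++ c.Q ++ G.CH).isPerm
    (ev g1.p c.ra ++ od g1.q c.rb ++ g1.RH ++ g3.LH.map (sh (g1.p + c.ra) (g1.q + c.rb))) &&
  (psums c.P ++ psums c.Q ++ jn c.B (sw c.s1 g1.Y) ++
      jn g1.Z (sw c.s3 (sho (g1.p + c.ra) (g1.q + c.rb) g3.Z))).isPerm
    (od (g1.p + g1.q - 1) (c.ra + c.rb + 1) ++ g1.RU ++
      ad (2 * (g1.p + c.ra + (g1.q + c.rb))) g3.LU)

theorem rulePB_sound {G g1 g3 : Ty} {c : Core} (h : rulePB G g1 g3 c = true) :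
    RuleP G g1 g3 c := by
  simp only [rulePB, Bool.and_eq_true, decide_eq_true_eq, List.isEmpty_iff, List.isPerm_iff,
    Bool.or_eq_true, Bool.not_eq_true'] at h
  obtain ⟨⟨⟨⟨⟨⟨⟨⟨⟨⟨⟨⟨⟨⟨⟨⟨⟨a1, a2⟩, a3⟩, a4⟩, a5⟩, a6⟩, a7⟩, a8⟩, a9⟩, a10⟩, a11⟩, a12⟩, a13⟩,
    a14⟩, a15⟩, a16⟩, a17⟩, a18⟩ := h
  refine ⟨a1, a2, a3, a4, a5, a6, a7, a8, a9, a10, a11, a12, a13, a14, a15, ?_, a17, a18⟩
  intro ht
  rcases a16 with h | h
  · simp [ht] at h
  · exact h

def Rule.X (r : Rule) : ℕ := r.c.P.length + r.c.Q.length + r.x1.n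

def ruleOK (x : Pr) (r : Rule) : Bool :=
  rulePB x.g r.x1.g r.x3.g r.c && decide (x.n = r.X + r.x3.n) && decide (r.x1.n % 2 = 0)

abbrev Spec := ℕ × ℕ × Bool

def spec (sp : List Spec) (i : ℕ) : Spec := sp.getD i (0, 0, false)

def hasPair (xs : List ℕ) : Bool := xs.any fun x => xs.any fun y => Nat.beq y (x + 2)

def caseOK (sp : List Spec) (rs : List Rule) (i : ℕ) : Bool :=
  (spec sp i).2.2 || hasPair ((rs.filter fun r =>
    app i r.c.th r.c.P.length r.c.Q.length r.x1.e && c3 (spec sp i).1 (spec sp i).2.1 r.x3.e).map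
      Rule.X)

def certOK (x : Pr) (sp : List Spec) (rs : List Rule) : Bool :=
  rs.all (ruleOK x) && (cond x.g.Z.isSome [1, 2, 3, 4, 5, 6, 7, 8] [0]).all (caseOK sp rs)

def InFam (s : Spec) (ms : Multiset ℕ) (b : ℕ) : Prop :=
  s.2.2 = true ∨ (ms ≠ 0 ∧ (∀ m ∈ ms, m ≤ s.1) ∧ b ≤ s.2.1)

def TabReal (x : Pr) (sp : List Spec) : Prop :=
  (∀ a ms b, Valid x a ms b → NotEx x.e a ms b → InFam (spec sp (min (a / 2) 8)) ms b →
    Real x.g (.brk a ms b)) ∧
  ((spec sp 8).2.2 = true → x.g.Z.isSome = true → x.g.Y.isSome = true → Real x.g (.thru x.n))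

theorem tabReal_nil (x : Pr) : TabReal x [] := by
  refine ⟨?_, by simp [spec]⟩
  rintro a ms b ⟨-, -, -, h⟩ - (h' | ⟨h1, h2, -⟩)
  · simp [spec] at h'
  · obtain ⟨m, hm⟩ := Multiset.exists_mem_of_ne_zero h1
    have := h m hm
    have := h2 m hm
    simp [spec] at this
    omega

theorem caseOK_spec {sp rs i} (h : caseOK sp rs i = true) (hf : (spec sp i).2.2 = false) :
    ∃ r ∈ rs, ∃ r' ∈ rs, (app i r.c.th r.c.P.length r.c.Q.length r.x1.e = true ∧
      c3 (spec sp i).1 (spec sp i).2.1 r.x3.e = true) ∧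
      (app i r'.c.th r'.c.P.length r'.c.Q.length r'.x1.e = true ∧
      c3 (spec sp i).1 (spec sp i).2.1 r'.x3.e = true) ∧ r'.X = r.X + 2 := by
  simp only [caseOK, hf, Bool.false_or, hasPair, List.any_eq_true, List.mem_map, List.mem_filter,
    Bool.and_eq_true] at h
  obtain ⟨_, ⟨r, ⟨a1, a2⟩, rfl⟩, _, ⟨r', ⟨b1, b2⟩, rfl⟩, h⟩ := h
  exact ⟨r, a1, r', b1, a2, b2, Nat.eq_of_beq_eq_true h⟩

theorem good_of_cert {x : Pr} {sp : List Spec} {rs : List Rule} (h : certOK x sp rs = true)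
    (j : ℕ) (hg : ∀ r ∈ rs, Good (r.x1.at j) ∧ Good (r.x3.at j))
    (ht : TabReal (x.at (2 * j)) sp) : Good (x.at (2 * j)) := by
  simp only [certOK, Bool.and_eq_true, List.all_eq_true] at h
  obtain ⟨h1, h2⟩ := h
  have hz : (x.at (2 * j)).g.Z.isSome = x.g.Z.isSome := by simp [Pr.at, Ty.at, ado_isSome]
  have key : ∀ r ∈ rs, RuleP (x.at (2 * j)).g (r.x1.at j).g (r.x3.at j).g (r.c.at j) ∧
      (x.at (2 * j)).n = (r.c.at j).P.length + (r.c.at j).Q.length + (r.x1.at j).n +
        (r.x3.at j).n ∧ (r.x1.at j).n % 2 = 0 := by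
    intro r hr
    have := h1 r hr
    simp only [ruleOK, Bool.and_eq_true, decide_eq_true_eq, Rule.X] at this
    obtain ⟨⟨t1, t2⟩, t3⟩ := this
    refine ⟨(rulePB_sound t1).lift j, ?_, ?_⟩
    · simp only [Pr.at, Core.at, ad, List.length_map]; omega
    · simp only [Pr.at]; omega
  have lP : ∀ r : Rule, (r.c.at j).P.length = r.c.P.length := fun r => by simp [Core.at, ad]
  have lQ : ∀ r : Rule, (r.c.at j).Q.length = r.c.Q.length := fun r => by simp [Core.at, ad]
  constructor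
  · intro a ms b hv hn
    by_cases hf : InFam (spec sp (min (a / 2) 8)) ms b
    · exact ht.1 a ms b hv hn hf
    have hc : caseOK sp rs (min (a / 2) 8) = true := by
      apply h2
      have pa := hv.2.1
      cases hs : x.g.Z.isSome
      · have := pa.2 (hz.trans hs)
        simp [this]
      · have := pa.1 (hz.trans hs)
        simp only [cond_true, List.mem_cons]
        omega
    simp only [InFam, not_or, Bool.not_eq_true] at hf
    obtain ⟨r, hr, r', hr', ⟨a1, a2⟩, ⟨b1, b2⟩, hX⟩ := caseOK_spec hc hf.1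
    have hl : ((ms.sort (· ≤ ·) : List ℕ) : Multiset ℕ) = ms := Multiset.sort_eq _ _
    have hp : (ms.sort (· ≤ ·)).Pairwise (· ≤ ·) := Multiset.pairwise_sort _ _
    generalize ms.sort (· ≤ ·) = l at hl hp
    subst hl
    have hf' : ¬ (l ≠ [] ∧ (∀ m ∈ l, m ≤ (spec sp (min (a / 2) 8)).1) ∧
        b ≤ (spec sp (min (a / 2) 8)).2.1) := by simpa using hf.2
    by_cases hk : ∀ k, a + (l.take k).sum ≠ r.X + 4 * j
    · obtain ⟨k1, k2, k3⟩ := key r hr
      refine rule_brk k1 (hg r hr).1 (hg r hr).2 k2 k3 hv hp (by rw [lP, lQ]; exact a1) a2 hf' ?_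
      intro k hk'
      apply hk k
      rw [hk', lP, lQ]
      simp only [Rule.X, Pr.at]
      omega
    · obtain ⟨k1, k2, k3⟩ := key r' hr'
      refine rule_brk k1 (hg r' hr').1 (hg r' hr').2 k2 k3 hv hp (by rw [lP, lQ]; exact b1) b2
        hf' ?_
      intro k hk'
      push Not at hk
      obtain ⟨k0, hk0⟩ := hk
      apply no_close_breaks l (by simpa using hv.2.2.2) k0 k
      rw [lP, lQ] at hk'
      simp only [Rule.X, Pr.at] at hk' hk0 hX
      omega
  · intro z y
    cases hf : (spec sp 8).2.2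
    · have hc : caseOK sp rs 8 = true := by
        apply h2
        rw [← hz, z]
        simp
      obtain ⟨r, hr, -, -, ⟨a1, -⟩, -⟩ := caseOK_spec hc hf
      obtain ⟨k1, k2, -⟩ := key r hr
      exact rule_thru k1 (hg r hr).1 (hg r hr).2 k2 (by rw [lP, lQ]; exact a1) y
    · exact ht.2 hf z y

end Pool.Agent.Lib.MP84
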