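import Mathlib
import Pool.Agent.Lib.MP_84c3e0_co.Main

/-!
From realized shapes to labelings of disjoint unions of cycles, and the necessary conditions.
-/

namespace Pool.Agent.Lib.MP84

abbrev Vx {t : ℕ} (n : Fin t → ℕ) := Σ i : Fin t, Fin (n i)

def nx {t : ℕ} {n : Fin t → ℕ} (u : Vx n) : Vx n :=
  ⟨u.1, ⟨(u.2 + 1) % n u.1, Nat.mod_lt _ u.2.pos⟩⟩

theorem vx_ext {t : ℕ} {n : Fin t → ℕ} {u v : Vx n} (h1 : u.1 = v.1) (h2 : (u.2 : ℕ) = v.2) :
    u = v := by
  obtain ⟨i, j⟩ := u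
  obtain ⟨i', j'⟩ := v
  dsimp only at h1 h2
  subst h1
  rw [Fin.ext h2]

theorem mod_succ {a m : ℕ} (h : a < m) : (a + 1) % m = if a + 1 = m then 0 else a + 1 := by
  split_ifs with h'
  · rw [h', Nat.mod_self]
  · exact Nat.mod_eq_of_lt (by omega)

theorem nx_val {t : ℕ} {n : Fin t → ℕ} (u : Vx n) :
    ((nx u).2 : ℕ) = if (u.2 : ℕ) + 1 = n u.1 then 0 else (u.2 : ℕ) + 1 := mod_succ u.2.2

theorem nx_inj {t : ℕ} {n : Fin t → ℕ} : Function.Injective (nx (n := n)) := by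
  rintro ⟨i, j⟩ ⟨i', j'⟩ h
  obtain rfl : i = i' := congrArg Sigma.fst h
  have h2 : ((nx (n := n) ⟨i, j⟩).2 : ℕ) = (nx (n := n) ⟨i, j'⟩).2 := by rw [h]
  rw [nx_val, nx_val] at h2
  refine vx_ext rfl ?_
  dsimp only at h2 ⊢
  split_ifs at h2 <;> omega

theorem nx_ne {t : ℕ} {n : Fin t → ℕ} (hn : ∀ i, 3 ≤ n i) (u : Vx n) : nx u ≠ u := by
  intro h
  have h2 : ((nx u).2 : ℕ) = u.2 := by rw [h]
  rw [nx_val] at h2
  have := hn u.1
  split_ifs at h2 <;> omega

theorem nx_nx_ne {t : ℕ} {n : Fin t → ℕ} (hn : ∀ i, 3 ≤ n i) (u : Vx n) : nx (nx u) ≠ u := by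
  intro h
  have h2 : ((nx (nx u)).2 : ℕ) = u.2 := by rw [h]
  rw [nx_val, nx_val] at h2
  have := hn u.1
  have e : n (nx u).1 = n u.1 := rfl
  rw [e] at h2
  split_ifs at h2 <;> omega

def AlphaN {t : ℕ} (n : Fin t → ℕ) (f : Vx n → ℕ) : Prop :=
  Function.Injective f ∧ (∀ v, f v ≤ ∑ i, n i) ∧
    Function.Injective (fun u => |(f u : ℤ) - f (nx u)|) ∧
    ∃ k, k < ∑ i, n i ∧ ∀ u, min (f u) (f (nx u)) ≤ k ∧ k < max (f u) (f (nx u))

theorem perm_lift {α β : Type} (f : α → β) {l1 l2 : List β} (h : l1.Perm l2) :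
    ∀ Cs : List α, Cs.map f = l1 → ∃ Cs' : List α, Cs'.Perm Cs ∧ Cs'.map f = l2 := by
  induction h with
  | nil => exact fun Cs h => ⟨Cs, List.Perm.refl _, h⟩
  | cons x _ ih =>
    intro Cs h
    obtain ⟨a, Ds, rfl, rfl, h'⟩ := List.map_eq_cons_iff.1 h
    obtain ⟨Cs', h1, h2⟩ := ih Ds h'
    exact ⟨a :: Cs', h1.cons a, by simp [h2]⟩
  | swap x y l =>
    intro Cs h
    obtain ⟨a, Ds, rfl, rfl, h'⟩ := List.map_eq_cons_iff.1 h
    obtain ⟨b, Es, rfl, rfl, h''⟩ := List.map_eq_cons_iff.1 h'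
    exact ⟨b :: a :: Es, List.Perm.swap _ _ _, by simp [h'']⟩
  | trans _ _ ih1 ih2 =>
    intro Cs h
    obtain ⟨Cs', h1, h2⟩ := ih1 Cs h
    obtain ⟨Cs'', h3, h4⟩ := ih2 Cs' h2
    exact ⟨Cs'', h3.trans h1, h4⟩

theorem flat_inj {L : List (List ℕ)} (h : L.flatten.Nodup) {i i' j j' : ℕ} (hi : i < L.length)
    (hi' : i' < L.length) (hj : j < L[i].length) (hj' : j' < L[i'].length)
    (e : L[i][j] = L[i'][j']) : i = i' ∧ j = j' := by
  rw [List.nodup_flatten] at h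
  have hii : i = i' := by
    by_contra hne
    rcases Nat.lt_or_gt_of_ne hne with hlt | hlt
    · exact List.pairwise_iff_getElem.1 h.2 i i' hi hi' hlt (List.getElem_mem hj)
        (e ▸ List.getElem_mem hj')
    · exact List.pairwise_iff_getElem.1 h.2 i' i hi' hi hlt (List.getElem_mem hj')
        (e ▸ List.getElem_mem hj)
  subst hii
  exact ⟨rfl, (List.Nodup.getElem_inj_iff (h.1 _ (List.getElem_mem hi))).1 e⟩

theorem psums_get : ∀ (l : List ℕ) (j : ℕ), j + 1 < l.length →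
    (psums l).getD j 0 = l.getD j 0 + l.getD (j + 1) 0
  | [], _, h => by simp at h
  | [_], _, h => by simp at h
  | a :: b :: l, 0, _ => by simp [psums]
  | a :: b :: l, j + 1, h => by
    have := psums_get (b :: l) j (by simpa using h)
    simpa [psums] using this

theorem length_csums (l : List ℕ) : (csums l).length = l.length := by
  rw [csums, length_psums]
  cases l <;> simp

theorem csums_get (l : List ℕ) (j : ℕ) (hj : j < l.length) :
    (csums l)[j]'(by rw [length_csums]; exact hj) =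
      l[j] + l[(j + 1) % l.length]'(Nat.mod_lt _ (by omega)) := by
  have hl : (l ++ l.take 1).length = l.length + 1 := by
    simp only [List.length_append, List.length_take]; omega
  have := psums_get (l ++ l.take 1) j (by omega)
  rw [List.getD_eq_getElem _ _ (by rw [length_psums]; omega),
    List.getD_eq_getElem _ _ (by omega), List.getD_eq_getElem _ _ (by omega)] at this
  refine this.trans ?_
  rw [List.getElem_append_left hj]
  congr 1
  by_cases h : j + 1 < l.length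
  · rw [List.getElem_append_left h]
    congr 1
    exact (Nat.mod_eq_of_lt h).symm
  · have e : j + 1 = l.length := by omega
    rw [List.getElem_append_right (by omega)]
    simp [e]

def phi (m x : ℕ) : ℕ := if x % 2 = 0 then x / 2 else 4 + 4 * m - x / 2
def InR (m x : ℕ) : Prop := x % 2 = 0 ∧ x / 2 ≤ 2 + 2 * m ∨ x % 2 = 1 ∧ x / 2 < 2 + 2 * m

theorem phi_inj {m x y : ℕ} (hx : InR m x) (hy : InR m y) (h : phi m x = phi m y) : x = y := by
  simp only [phi, InR] at *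
  split_ifs at h <;> omega

theorem phi_le {m x : ℕ} (hx : InR m x) : phi m x ≤ 4 + 4 * m := by
  simp only [phi, InR] at *
  split_ifs <;> omega

theorem phi_abs {m x y : ℕ} (hx : InR m x) (hy : InR m y) (h : (x + y) % 2 = 1) :
    |(phi m x : ℤ) - phi m y| = 4 + 4 * m - ((x + y) / 2 : ℕ) := by
  simp only [phi, InR] at *
  rw [abs_eq (by omega)]
  split_ifs <;> omega

theorem phi_k {m x y : ℕ} (hx : InR m x) (hy : InR m y) (h : (x + y) % 2 = 1) :
    min (phi m x) (phi m y) ≤ 2 + 2 * m ∧ 2 + 2 * m < max (phi m x) (phi m y) := by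
  simp only [phi, InR] at *
  split_ifs <;> omega

theorem exists_alpha {t : ℕ} (ht : 0 < t) (n : Fin t → ℕ) (hn : ∀ i, 3 ≤ n i)
    (h1 : ∀ i, Even (n i)) (h2 : 4 ∣ ∑ i, n i) (h3 : ¬ (t = 3 ∧ ∀ i, n i = 4)) :
    ∃ f, AlphaN n f := by
  have hpos : 3 ≤ ∑ i, n i :=
    (hn ⟨0, ht⟩).trans (Finset.single_le_sum (f := n) (fun _ _ => Nat.zero_le _) (Finset.mem_univ _))
  obtain ⟨m, hm⟩ : ∃ m, ∑ i, n i = 4 + 4 * m := ⟨(∑ i, n i) / 4 - 1, by omega⟩
  have hr := (top_good m).1 0 (List.ofFn n : List ℕ) 0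
    ⟨by simp [List.sum_ofFn, hm, top, Pr.at], ⟨by simp [top, Pr.at, Ty.at, ado], fun _ => rfl⟩,
      ⟨by simp [top, Pr.at, Ty.at, ado], fun _ => rfl⟩, by
        intro k hk
        simp only [Multiset.mem_coe, List.mem_ofFn] at hk
        obtain ⟨i, rfl⟩ := hk
        have := hn i
        have := Nat.even_iff.1 (h1 i)
        omega⟩ (by
      intro e he hh
      dsimp only at he
      split_ifs at he
      · simp only [List.mem_singleton] at he
        subst he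
        have hp := Multiset.coe_eq_coe.1 hh.2.1
        refine h3 ⟨by simpa using hp.length_eq.symm, fun i => ?_⟩
        have := hp.symm.subset (List.mem_ofFn.2 ⟨i, rfl⟩)
        simpa using this
      · simp at he)
  obtain ⟨w, ⟨w1, w2, w3, ⟨-, rfl⟩, ⟨Cs0, c1, rfl⟩, ⟨-, rfl⟩, rfl⟩, hb⟩ := hr
  obtain ⟨Cs, hperm, hlen⟩ := perm_lift List.length (Multiset.coe_eq_coe.1 c1) Cs0 rfl
  rw [← (hperm.map cw).sum_eq, sum_cw, zero_add, add_zero, Ty.holes, lw_add, Ty.full] at hb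
  simp only [top, Pr.at, Ty.at, lw, ad, List.map_nil, List.append_nil, List.nil_append,
    Prod.mk.injEq, Multiset.coe_eq_coe, List.map_cons] at hb
  obtain ⟨hv, hs⟩ := hb
  have nv : Cs.flatten.Nodup := (hv.nodup_iff.2 (nodup_evod _ _)).of_append_left
  have ns : (Cs.map csums).flatten.Nodup := hs.nodup_iff.2 (nodup_od _ _)
  have hl : Cs.length = t := by simpa using congrArg List.length hlen
  have hli : ∀ i : Fin t, (Cs[(i : ℕ)]'(by omega)).length = n i := by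
    intro i
    have := congrArg (fun l => l.getD i 0) hlen
    simpa [List.getD_eq_getElem, hl] using this
  let lb : Vx n → ℕ := fun u => (Cs[(u.1 : ℕ)]'(by omega))[(u.2 : ℕ)]'(by rw [hli]; exact u.2.2)
  have lb_inj : Function.Injective lb := fun u v h => by
    have := flat_inj nv _ _ _ _ h
    exact vx_ext (Fin.ext this.1) this.2
  have lb_mem : ∀ u, InR m (lb u) := by
    intro u
    have : lb u ∈ ev 0 (3 + 2 * m) ++ od 0 (2 + 2 * m) := hv.subset (List.mem_append_left _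
      (List.mem_flatten.2 ⟨_, List.getElem_mem _, List.getElem_mem _⟩))
    simp only [ev, od, List.mem_append, List.mem_map, List.mem_range'_1] at this
    unfold InR
    rcases this with ⟨c, h, e⟩ | ⟨c, h, e⟩ <;> omega
  have sm_eq : ∀ u : Vx n, lb u + lb (nx u) = ((Cs.map csums)[(u.1 : ℕ)]'(by simp; omega))[(u.2 : ℕ)]'(by
      rw [List.getElem_map, length_csums, hli]; exact u.2.2) := by
    intro u
    simp only [List.getElem_map]
    rw [csums_get _ _ (by rw [hli]; exact u.2.2)]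
    simp only [lb, nx, hli]
  have sm_inj : ∀ u v, lb u + lb (nx u) = lb v + lb (nx v) → u = v := fun u v h => by
    rw [sm_eq, sm_eq] at h
    have := flat_inj ns _ _ _ _ h
    exact vx_ext (Fin.ext this.1) this.2
  have sm_odd : ∀ u, (lb u + lb (nx u)) % 2 = 1 := fun u => by
    rw [sm_eq]
    exact od_odd (hs.subset (List.mem_flatten.2 ⟨_, List.getElem_mem _, List.getElem_mem _⟩))
  refine ⟨fun u => phi m (lb u), fun u v h => lb_inj (phi_inj (lb_mem u) (lb_mem v) h),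
    fun u => hm ▸ phi_le (lb_mem u), ?_, 2 + 2 * m, by omega,
    fun u => phi_k (lb_mem u) (lb_mem _) (sm_odd u)⟩
  intro u v h
  apply sm_inj
  dsimp only at h
  rw [phi_abs (lb_mem u) (lb_mem _) (sm_odd u), phi_abs (lb_mem v) (lb_mem _) (sm_odd v)] at h
  have := sm_odd u
  have := sm_odd v
  omega

theorem even_of_alpha {t : ℕ} {n : Fin t → ℕ} (hn : ∀ i, 3 ≤ n i) {f} (h : AlphaN n f) (i : Fin t) :
    Even (n i) := by
  obtain ⟨-, -, -, k, -, hk⟩ := h
  have h3 := hn i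
  have key : ∀ j (hj : j < n i), (f ⟨i, ⟨j, hj⟩⟩ ≤ k ↔ (f ⟨i, ⟨0, by omega⟩⟩ ≤ k ↔ j % 2 = 0)) := by
    intro j
    induction j with
    | zero => intro hj; simp
    | succ j ih =>
      intro hj
      have e : nx (n := n) ⟨i, ⟨j, by omega⟩⟩ = ⟨i, ⟨j + 1, hj⟩⟩ :=
        vx_ext rfl (Nat.mod_eq_of_lt hj)
      have := hk ⟨i, ⟨j, by omega⟩⟩
      rw [e] at this
      have := ih (by omega)
      omega
  have e : nx (n := n) ⟨i, ⟨n i - 1, by omega⟩⟩ = ⟨i, ⟨0, by omega⟩⟩ :=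
    vx_ext rfl (by rw [nx_val]; simp; omega)
  have := hk ⟨i, ⟨n i - 1, by omega⟩⟩
  rw [e] at this
  have := key (n i - 1) (by omega)
  rw [Nat.even_iff]
  omega

theorem card_vx {t : ℕ} (n : Fin t → ℕ) : Fintype.card (Vx n) = ∑ i, n i := by
  simp [Vx, Fintype.card_sigma]

theorem four_dvd_of_alpha {t : ℕ} {n : Fin t → ℕ} (hn : ∀ i, 3 ≤ n i) {f} (h : AlphaN n f) :
    4 ∣ ∑ i, n i := by
  have he : Even (∑ i, n i) := Finset.even_sum _ fun i _ => even_of_alpha hn h i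
  obtain ⟨-, h2, h3, k, -, hk⟩ := h
  set q := ∑ i, n i with hq
  let g : Vx n → ℕ := fun u => Nat.dist (f u) (f (nx u)) - 1
  have gi : Function.Injective g := fun u v e => by
    apply h3
    have := hk u
    have := hk v
    simp only [g, Nat.dist] at e
    apply abs_eq_abs.2
    omega
  have im : Finset.univ.image g = Finset.range q := by
    apply Finset.eq_of_subset_of_card_le
    · intro x hx
      obtain ⟨u, -, rfl⟩ := Finset.mem_image.1 hx
      have := hk u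
      have := h2 u
      have := h2 (nx u)
      simp only [g, Nat.dist, Finset.mem_range]
      omega
    · rw [Finset.card_image_of_injective _ gi, Finset.card_univ, card_vx, Finset.card_range]
  have s1 : (∑ u, g u) * 2 = q * (q - 1) := by
    rw [← Finset.sum_range_id_mul_two, ← im, Finset.sum_image (fun u _ v _ e => gi e)]
  have s2 : ∑ u, f (nx u) = ∑ u, f u :=
    Fintype.sum_bijective nx (Finite.injective_iff_bijective.1 nx_inj) _ _ (fun _ => rfl)
  have s3 : ∑ u, (g u + 1 + 2 * min (f u) (f (nx u))) = ∑ u, (f u + f (nx u)) := by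
    apply Finset.sum_congr rfl
    intro u _
    have := hk u
    simp only [g, Nat.dist]
    omega
  rw [Finset.sum_add_distrib, Finset.sum_add_distrib, Finset.sum_add_distrib, s2,
    ← Finset.mul_sum, Finset.sum_const, Finset.card_univ, card_vx, ← hq, smul_eq_mul] at s3
  obtain ⟨r, hr⟩ := he
  have s4 : ∑ u, g u = r * (q - 1) := by
    have : (∑ u, g u) * 2 = r * (q - 1) * 2 := by rw [s1]; nth_rewrite 1 [hr]; ring
    omega
  have s5 : Even (r * (q - 1)) := by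
    rw [← s4, Nat.even_iff]; omega
  rcases Nat.even_mul.1 s5 with h | h
  · obtain ⟨c, rfl⟩ := h
    exact ⟨c, by omega⟩
  · rw [Nat.even_iff] at h
    exact ⟨0, by omega⟩

def rect (a a' c c' : ℕ) : List ℕ :=
  [a, a', c, c', 13 + (c - a), 13 + (c - a'), 13 + (c' - a), 13 + (c' - a')]

noncomputable def rects (k : ℕ) : List ℕ :=
  (List.range (k + 1)).flatMap fun a' => (List.range a').flatMap fun a =>
    (List.range (12 - k)).flatMap fun d' => (List.range d').flatMap fun d =>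
      cond (Nat.beq (a + d') (a' + d)) [] [maskL (rect a a' (12 - d') (12 - d))]

noncomputable def allR (f : ℕ → Bool) (l : List ℕ) : Bool :=
  List.rec true (fun a _ ih => Bool.rec false ih (f a)) l

noncomputable def filtR (r : ℕ) (l : List ℕ) : List ℕ :=
  List.rec [] (fun a _ ih => Bool.rec ih (a :: ih) (Nat.beq (Nat.land r a) 0)) l

theorem allR_eq (f : ℕ → Bool) : ∀ l, allR f l = l.all f
  | [] => rfl
  | a :: l => by
    change (Bool.rec false (allR f l) (f a) : Bool) = _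
    rw [List.all_cons, allR_eq f l]
    cases f a <;> rfl

theorem filtR_eq (r : ℕ) : ∀ l, filtR r l = l.filter fun a => Nat.beq (Nat.land r a) 0
  | [] => rfl
  | a :: l => by
    change (Bool.rec (filtR r l) (a :: filtR r l) (Nat.beq (Nat.land r a) 0) : List ℕ) = _
    rw [List.filter_cons, filtR_eq r l]
    cases Nat.beq (Nat.land r a) 0 <;> rfl

noncomputable def no3 (R : List ℕ) : Bool :=
  allR (fun r1 => (fun R1 : List ℕ => allR (fun r2 => allR (fun r3 => Nat.ble 1 (Nat.land r2 r3)) R1) R1)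
    (filtR r1 R)) R

theorem no3_all : (List.range 12).all (fun k => no3 (rects k)) = true := by decide +kernel

theorem maskL_congr {l l' : List ℕ} (h : ∀ x, x ∈ l ↔ x ∈ l') : maskL l = maskL l' :=
  Nat.eq_of_testBit_eq fun x => by
    rw [Bool.eq_iff_iff, testBit_maskL, testBit_maskL, h]

theorem land_maskL {l l' : List ℕ} (h : ∀ x ∈ l, x ∉ l') : Nat.land (maskL l) (maskL l') = 0 :=
  Nat.eq_of_testBit_eq fun x => by
    change (maskL l &&& maskL l').testBit x = _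
    rw [Nat.testBit_and, Nat.zero_testBit, Bool.and_eq_false_imp, testBit_maskL, Bool.eq_false_iff,
      ne_eq, testBit_maskL]
    exact h x

theorem mem_rects0 {k a a' c c' : ℕ} (h1 : a < a') (h2 : a' ≤ k) (h3 : k < c) (h4 : c < c')
    (h5 : c' ≤ 12) (h6 : c - a ≠ c' - a') : maskL (rect a a' c c') ∈ rects k := by
  simp only [rects, List.mem_flatMap, List.mem_range]
  refine ⟨a', by omega, a, h1, 12 - c, by omega, 12 - c', by omega, ?_⟩
  have : Nat.beq (a + (12 - c)) (a' + (12 - c')) = false := by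
    rw [Bool.eq_false_iff, ne_eq, Nat.beq_eq]; omega
  rw [this, show 12 - (12 - c) = c by omega, show 12 - (12 - c') = c' by omega]
  simp

theorem mem_rects {k a a' c c' : ℕ} (h1 : a ≠ a') (h2 : a ≤ k) (h2' : a' ≤ k) (h3 : k < c)
    (h3' : k < c') (h4 : c ≠ c') (h5 : c ≤ 12) (h5' : c' ≤ 12) (h6 : c - a ≠ c' - a')
    (h7 : c - a' ≠ c' - a) : maskL (rect a a' c c') ∈ rects k := by
  rcases Nat.lt_or_gt_of_ne h1 with h | h <;> rcases Nat.lt_or_gt_of_ne h4 with h' | h'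
  · exact mem_rects0 h h2' h3 h' h5' h6
  · rw [maskL_congr (l' := rect a a' c' c) (fun x => List.Perm.mem_iff (by
      simp only [rect, ← Multiset.coe_eq_coe, ← Multiset.cons_coe, ← Multiset.singleton_add]
      abel))]
    exact mem_rects0 h h2' h3' h' h5 h7.symm
  · rw [maskL_congr (l' := rect a' a c c') (fun x => List.Perm.mem_iff (by
      simp only [rect, ← Multiset.coe_eq_coe, ← Multiset.cons_coe, ← Multiset.singleton_add]
      abel))]
    exact mem_rects0 h h2 h3 h' h5' h7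
  · rw [maskL_congr (l' := rect a' a c' c) (fun x => List.Perm.mem_iff (by
      simp only [rect, ← Multiset.coe_eq_coe, ← Multiset.cons_coe, ← Multiset.singleton_add]
      abel))]
    exact mem_rects0 h h2 h3' h' h5 h6.symm

theorem quad {k a c a' c' : ℕ} (h1 : a ≤ k) (h2 : a' ≤ k) (h3 : k < c) (h4 : k < c') (b1 : c ≤ 12)
    (b2 : c' ≤ 12) (d1 : a ≠ a') (d2 : c ≠ c') (g1 : Nat.dist a c ≠ Nat.dist a' c')
    (g2 : Nat.dist c a' ≠ Nat.dist c' a) : ∃ l : List ℕ, maskL l ∈ rects k ∧ ∀ x ∈ l,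
      (x = a ∨ x = 13 + Nat.dist a c) ∨ (x = c ∨ x = 13 + Nat.dist c a') ∨
      (x = a' ∨ x = 13 + Nat.dist a' c') ∨ (x = c' ∨ x = 13 + Nat.dist c' a) := by
  rw [Nat.dist_eq_sub_of_le (by omega : a ≤ c), Nat.dist_eq_sub_of_le (by omega : a' ≤ c')] at *
  rw [Nat.dist_eq_sub_of_le_right (by omega : a' ≤ c),
    Nat.dist_eq_sub_of_le_right (by omega : a ≤ c')] at *
  refine ⟨_, mem_rects d1 h1 h2 h3 h4 d2 b1 b2 g1 g2, fun x hx => ?_⟩
  simp only [rect, List.mem_cons, List.not_mem_nil, or_false] at hx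
  rcases hx with h | h | h | h | h | h | h | h <;> simp [h]

theorem alt {k x y : ℕ} (h : min x y ≤ k ∧ k < max x y) : (x ≤ k → k < y) ∧ (k < x → y ≤ k) := by
  omega

theorem not_alpha_444 (f) : ¬ AlphaN (fun _ : Fin 3 => 4) f := by
  rintro ⟨h1, h2, h3, k, hk0, hk⟩
  simp only [Finset.sum_const, Finset.card_univ, Fintype.card_fin, smul_eq_mul] at h2 hk0
  let g : Vx (fun _ : Fin 3 => 4) → ℕ := fun u => Nat.dist (f u) (f (nx u))
  have gi : ∀ u v, g u = g v → u = v := fun u v e => by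
    apply h3
    simp only [g, Nat.dist] at e
    apply abs_eq_abs.2
    omega
  have key : ∀ i : Fin 3, ∃ l : List ℕ, maskL l ∈ rects k ∧
      ∀ x ∈ l, ∃ j : Fin 4, x = f ⟨i, j⟩ ∨ x = 13 + g ⟨i, j⟩ := by
    intro i
    have e0 : nx (n := fun _ : Fin 3 => 4) ⟨i, 0⟩ = ⟨i, 1⟩ := vx_ext rfl rfl
    have e1 : nx (n := fun _ : Fin 3 => 4) ⟨i, 1⟩ = ⟨i, 2⟩ := vx_ext rfl rfl
    have e2 : nx (n := fun _ : Fin 3 => 4) ⟨i, 2⟩ = ⟨i, 3⟩ := vx_ext rfl rfl
    have e3 : nx (n := fun _ : Fin 3 => 4) ⟨i, 3⟩ = ⟨i, 0⟩ :=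
      vx_ext rfl (show (3 + 1) % 4 = 0 by norm_num)
    have k0 := alt (hk ⟨i, 0⟩)
    have k1 := alt (hk ⟨i, 1⟩)
    have k2 := alt (hk ⟨i, 2⟩)
    have k3 := alt (hk ⟨i, 3⟩)
    have d02 : f ⟨i, 0⟩ ≠ f ⟨i, 2⟩ := fun h => by simpa using h1 h
    have d13 : f ⟨i, 1⟩ ≠ f ⟨i, 3⟩ := fun h => by simpa using h1 h
    have g02 : g ⟨i, 0⟩ ≠ g ⟨i, 2⟩ := fun h => by simpa using gi _ _ h
    have g13 : g ⟨i, 1⟩ ≠ g ⟨i, 3⟩ := fun h => by simpa using gi _ _ h
    have G0 : g ⟨i, 0⟩ = Nat.dist (f ⟨i, 0⟩) (f ⟨i, 1⟩) := by simp only [g, e0]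
    have G1 : g ⟨i, 1⟩ = Nat.dist (f ⟨i, 1⟩) (f ⟨i, 2⟩) := by simp only [g, e1]
    have G2 : g ⟨i, 2⟩ = Nat.dist (f ⟨i, 2⟩) (f ⟨i, 3⟩) := by simp only [g, e2]
    have G3 : g ⟨i, 3⟩ = Nat.dist (f ⟨i, 3⟩) (f ⟨i, 0⟩) := by simp only [g, e3]
    rw [e0] at k0
    rw [e1] at k1
    rw [e2] at k2
    rw [e3] at k3
    rw [G0, G2] at g02
    rw [G1, G3] at g13
    rcases Nat.lt_or_ge k (f ⟨i, 0⟩) with c | c
    · have c1 := k0.2 c
      have c2 := k1.1 c1
      obtain ⟨l, hl, hx⟩ := quad c1 (k2.2 c2) c2 c (h2 _) (h2 _) d13 d02.symm g13 g02.symm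
      refine ⟨l, hl, fun x h => ?_⟩
      rw [← G0, ← G1, ← G2, ← G3] at hx
      rcases hx x h with h | h | h | h
      exacts [⟨1, h⟩, ⟨2, h⟩, ⟨3, h⟩, ⟨0, h⟩]
    · have c1 := k0.1 c
      have c2 := k1.2 c1
      obtain ⟨l, hl, hx⟩ := quad c c2 c1 (k2.1 c2) (h2 _) (h2 _) d02 d13 g02 g13
      refine ⟨l, hl, fun x h => ?_⟩
      rw [← G0, ← G1, ← G2, ← G3] at hx
      rcases hx x h with h | h | h | h
      exacts [⟨0, h⟩, ⟨1, h⟩, ⟨2, h⟩, ⟨3, h⟩]
  choose l hl hx using key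
  have dj : ∀ i i' : Fin 3, i ≠ i' → Nat.land (maskL (l i)) (maskL (l i')) = 0 := by
    intro i i' hne
    apply land_maskL
    intro x h h'
    obtain ⟨j, e⟩ := hx i x h
    obtain ⟨j', e'⟩ := hx i' x h'
    have := h2 ⟨i, j⟩
    have := h2 ⟨i', j'⟩
    rcases e with e | e <;> rcases e' with e' | e'
    · exact hne (congrArg Sigma.fst (h1 (e.symm.trans e')))
    · omega
    · omega
    · exact hne (congrArg Sigma.fst (gi ⟨i, j⟩ ⟨i', j'⟩ (by omega)))
  have := List.all_eq_true.1 no3_all k (List.mem_range.2 hk0)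
  simp only [no3, allR_eq, filtR_eq, List.all_eq_true, List.mem_filter, Nat.beq_eq,
    Nat.ble_eq] at this
  have h := this _ (hl 0) _ ⟨hl 1, dj 0 1 (by decide)⟩ _ ⟨hl 2, dj 0 2 (by decide)⟩
  rw [dj 1 2 (by decide)] at h
  omega

theorem alphaN_iff {t : ℕ} (ht : 0 < t) (n : Fin t → ℕ) (hn : ∀ i, 3 ≤ n i) :
    (∃ f, AlphaN n f) ↔ (∀ i, Even (n i)) ∧ 4 ∣ ∑ i, n i ∧ ¬ (t = 3 ∧ ∀ i, n i = 4) := by
  refine ⟨?_, fun h => exists_alpha ht n hn h.1 h.2.1 h.2.2⟩
  rintro ⟨f, hf⟩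
  refine ⟨even_of_alpha hn hf, four_dvd_of_alpha hn hf, ?_⟩
  rintro ⟨rfl, h⟩
  obtain rfl : n = fun _ => 4 := funext h
  exact not_alpha_444 f hf

def Gr {t : ℕ} (n : Fin t → ℕ) : SimpleGraph (Vx n) :=
  SimpleGraph.fromRel fun u v => u.1 = v.1 ∧ ((u.2 : ℕ) + 1) % n u.1 = v.2

theorem gr_adj {t : ℕ} {n : Fin t → ℕ} (hn : ∀ i, 3 ≤ n i) (u v : Vx n) :
    (Gr n).Adj u v ↔ v = nx u ∨ u = nx v := by
  have e : ∀ u v : Vx n, (u.1 = v.1 ∧ ((u.2 : ℕ) + 1) % n u.1 = v.2) ↔ v = nx u := fun u v =>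
    ⟨fun h => (vx_ext (u := nx u) h.1 h.2).symm, by rintro rfl; exact ⟨rfl, rfl⟩⟩
  rw [Gr, SimpleGraph.fromRel_adj, e, e]
  refine ⟨fun h => h.2, fun h => ⟨?_, h⟩⟩
  rintro rfl
  exact nx_ne hn u (by tauto)

theorem edge_inj {t : ℕ} {n : Fin t → ℕ} (hn : ∀ i, 3 ≤ n i) :
    Function.Injective fun u : Vx n => s(u, nx u) := by
  intro u v h
  rcases Sym2.eq_iff.1 h with h | h
  · exact h.1
  · exact absurd (by rw [h.2, ← h.1]) (nx_nx_ne hn u)

theorem gr_ncard {t : ℕ} {n : Fin t → ℕ} (hn : ∀ i, 3 ≤ n i) :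
    (Gr n).edgeSet.ncard = ∑ i, n i := by
  have : (Gr n).edgeSet = Set.range fun u : Vx n => s(u, nx u) := by
    ext e
    induction e using Sym2.ind with
    | h u v =>
      rw [SimpleGraph.mem_edgeSet, gr_adj hn]
      constructor
      · rintro (rfl | rfl)
        · exact ⟨u, rfl⟩
        · exact ⟨v, Sym2.eq_swap⟩
      · rintro ⟨x, hx⟩
        rcases Sym2.eq_iff.1 hx with ⟨rfl, rfl⟩ | ⟨rfl, rfl⟩
        · exact Or.inl rfl
        · exact Or.inr rfl
  rw [this, Set.ncard_range_of_injective (edge_inj hn), Nat.card_eq_fintype_card, card_vx]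

theorem gr_alpha {t : ℕ} {n : Fin t → ℕ} (hn : ∀ i, 3 ≤ n i) (f : Vx n → ℕ) :
    (Function.Injective f ∧ (∀ v, f v ≤ (Gr n).edgeSet.ncard) ∧
      (∀ u v u' v', (Gr n).Adj u v → (Gr n).Adj u' v' →
        |(f u : ℤ) - f v| = |(f u' : ℤ) - f v'| → s(u, v) = s(u', v')) ∧
      ∃ k, k < (Gr n).edgeSet.ncard ∧
        ∀ u v, (Gr n).Adj u v → min (f u) (f v) ≤ k ∧ k < max (f u) (f v)) ↔ AlphaN n f := by
  rw [gr_ncard hn, AlphaN]
  refine and_congr_right fun _ => and_congr_right fun _ => and_congr ?_ ?_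
  · constructor
    · intro h u v e
      exact edge_inj hn (h _ _ _ _ ((gr_adj hn _ _).2 (Or.inl rfl)) ((gr_adj hn _ _).2 (Or.inl rfl)) e)
    · intro h u v u' v' a a' e
      rcases (gr_adj hn _ _).1 a with rfl | rfl <;> rcases (gr_adj hn _ _).1 a' with rfl | rfl
      · rw [h e]
      · rw [abs_sub_comm (f (nx v') : ℤ)] at e
        rw [h e, Sym2.eq_swap]
      · rw [abs_sub_comm (f (nx v) : ℤ)] at e
        rw [h e, Sym2.eq_swap]
      · rw [abs_sub_comm (f (nx v) : ℤ), abs_sub_comm (f (nx v') : ℤ)] at e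
        rw [h e]
  · refine exists_congr fun k => and_congr_right fun _ => ?_
    constructor
    · exact fun h u => h _ _ ((gr_adj hn _ _).2 (Or.inl rfl))
    · intro h u v a
      rcases (gr_adj hn _ _).1 a with rfl | rfl
      · exact h u
      · rw [min_comm, max_comm]; exact h v

end Pool.Agent.Lib.MP84
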