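import Pool.Agent.Lib.MP_84c3e0_co.Basic

/-!
Blocks (`Ty`), realizable shapes, and the gluing of two blocks through a small core.
-/

namespace Pool.Agent.Lib.MP84

structure Ty where
  p : ℕ
  q : ℕ
  Z : Option (ℕ × ℕ)
  CH : List ℕ
  LH : List ℕ
  LU : List ℕ
  RH : List ℕ
  RU : List ℕ
  Y : Option (ℕ × ℕ)

def ev (o m : ℕ) : List ℕ := (List.range' o m).map (2 * ·)
def od (o m : ℕ) : List ℕ := (List.range' o m).map (2 * · + 1)
def ad (c : ℕ) (l : List ℕ) : List ℕ := l.map (· + c)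
def ado (c : ℕ) (o : Option (ℕ × ℕ)) : Option (ℕ × ℕ) := o.map fun e => (e.1 + c, e.2 + c)

def lw (a b : List ℕ) : W := ((a : Multiset ℕ), (b : Multiset ℕ))

def Ty.full (G : Ty) : W := lw (ev 0 G.p ++ od 0 G.q) (od 0 (G.p + G.q - 1))
def Ty.holes (G : Ty) : W := lw (G.LH ++ G.CH ++ G.RH) (G.LU ++ G.RU)

def Real (G : Ty) (s : Shape) : Prop := ∃ w, Tangle G.Z G.Y s w ∧ w + G.holes = G.full

def Ty.at (G : Ty) (n : ℕ) : Ty :=
  ⟨G.p + 2 * n, G.q + 2 * n, ado (2 * n) G.Z, ad (2 * n) G.CH, G.LH, G.LU, ad (4 * n) G.RH,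
    ad (8 * n) G.RU, ado (4 * n) G.Y⟩

theorem ad_zero (l : List ℕ) : ad 0 l = l := by simp [ad]
theorem ado_zero (o : Option (ℕ × ℕ)) : ado 0 o = o := by cases o <;> simp [ado]
theorem ad_ad (a b : ℕ) (l : List ℕ) : ad a (ad b l) = ad (b + a) l := by
  simp only [ad, List.map_map, Function.comp_def, Nat.add_assoc]
theorem ado_ado (a b : ℕ) (o : Option (ℕ × ℕ)) : ado a (ado b o) = ado (b + a) o := by
  cases o <;> simp [ado, Nat.add_assoc]

theorem Ty.at_zero (G : Ty) : G.at 0 = G := by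
  cases G; simp [Ty.at, ad_zero, ado_zero]

theorem Ty.at_at (G : Ty) (n m : ℕ) : (G.at n).at m = G.at (n + m) := by
  cases G; simp [Ty.at, ad_ad, ado_ado, Nat.mul_add, Nat.add_assoc]

theorem ev_add (o m n : ℕ) : ev o (m + n) = ev o m ++ ev (o + m) n := by
  simp only [ev, ← List.range'_append_1, List.map_append]
theorem od_add (o m n : ℕ) : od o (m + n) = od o m ++ od (o + m) n := by
  simp only [od, ← List.range'_append_1, List.map_append]

theorem ev_sh (U V o m : ℕ) : (ev o m).map (sh U V) = ev (o + U) m := by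
  simp only [ev, List.range'_eq_map_range, List.map_map]
  apply List.map_congr_left
  intro a _
  simp only [Function.comp, sh_eq]
  split_ifs <;> omega
theorem od_sh (U V o m : ℕ) : (od o m).map (sh U V) = od (o + V) m := by
  simp only [od, List.range'_eq_map_range, List.map_map]
  apply List.map_congr_left
  intro a _
  simp only [Function.comp, sh_eq]
  split_ifs <;> omega
theorem ev_ad (c o m : ℕ) : ad (2 * c) (ev o m) = ev (o + c) m := by
  simp only [ad, ev, List.range'_eq_map_range, List.map_map]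
  apply List.map_congr_left
  intro a _
  simp only [Function.comp]
  omega
theorem od_ad (c o m : ℕ) : ad (2 * c) (od o m) = od (o + c) m := by
  simp only [ad, od, List.range'_eq_map_range, List.map_map]
  apply List.map_congr_left
  intro a _
  simp only [Function.comp]
  omega

theorem od_odd {o m s : ℕ} (h : s ∈ od o m) : s % 2 = 1 := by
  simp only [od, List.mem_map] at h
  obtain ⟨a, -, rfl⟩ := h
  omega

theorem lw_add (a b c d : List ℕ) : lw a b + lw c d = lw (a ++ c) (b ++ d) := by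
  simp [lw]

theorem shW_lw (U V : ℕ) (a b : List ℕ) :
    shW U V (lw a b) = lw (a.map (sh U V)) (ad (2 * (U + V)) b) := by
  simp [shW, lw, ad]

theorem Ty.odd_of_bal {G : Ty} {w : W} (h : w + G.holes = G.full) : OddW w := by
  have : OddW G.full := fun s hs => od_odd (by simpa [Ty.full, lw] using hs)
  rw [← h] at this
  exact this.left

structure Core where
  th : Bool
  P : List ℕ
  Q : List ℕ
  ra : ℕ
  rb : ℕ
  s1 : Bool
  s3 : Bool

def fsts : Option (ℕ × ℕ) → Option (ℕ × ℕ) → Option (ℕ × ℕ)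
  | some e, some f => some (e.1, f.1)
  | _, _ => none
def snds : Option (ℕ × ℕ) → Option (ℕ × ℕ) → Option (ℕ × ℕ)
  | some e, some f => some (e.2, f.2)
  | _, _ => none
def jn : Option (ℕ × ℕ) → Option (ℕ × ℕ) → List ℕ
  | some b, some c => [b.1 + c.1, b.2 + c.2]
  | _, _ => []

def Core.A (c : Core) : Option (ℕ × ℕ) := cond c.th (fsts (ends c.P) (ends c.Q)) (ends c.P)
def Core.B (c : Core) : Option (ℕ × ℕ) := cond c.th (snds (ends c.P) (ends c.Q)) (ends c.Q)

structure RuleP (G g1 g3 : Ty) (c : Core) : Prop where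
  hp : G.p = g1.p + c.ra + g3.p
  hq : G.q = g1.q + c.rb + g3.q
  h1 : 0 < g1.p + g1.q
  h3 : 0 < g3.p + g3.q
  hLH : G.LH = g1.LH
  hLU : G.LU = g1.LU
  hRH : G.RH = g3.RH.map (sh (g1.p + c.ra) (g1.q + c.rb))
  hRU : G.RU = ad (2 * (g1.p + c.ra + (g1.q + c.rb))) g3.RU
  hY : G.Y = sho (g1.p + c.ra) (g1.q + c.rb) g3.Y
  hC1 : g1.CH = []
  hC3 : g3.CH = []
  hZ : G.Z = c.A
  hZ1 : g1.Z.isSome = true
  hZ3 : g3.Z.isSome = true
  hB : c.B.isSome = g1.Y.isSome
  hth : c.th = true → c.A.isSome = true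
  hv : (c.P ++ c.Q ++ G.CH).Perm
    (ev g1.p c.ra ++ od g1.q c.rb ++ g1.RH ++ g3.LH.map (sh (g1.p + c.ra) (g1.q + c.rb)))
  hs : (psums c.P ++ psums c.Q ++ jn c.B (sw c.s1 g1.Y) ++
      jn g1.Z (sw c.s3 (sho (g1.p + c.ra) (g1.q + c.rb) g3.Z))).Perm
    (od (g1.p + g1.q - 1) (c.ra + c.rb + 1) ++ g1.RU ++
      ad (2 * (g1.p + c.ra + (g1.q + c.rb))) g3.LU)

theorem RuleP.bal {G g1 g3 : Ty} {c : Core} (h : RuleP G g1 g3 c) {w1 w3 : W}
    (b1 : w1 + g1.holes = g1.full) (b3 : w3 + g3.holes = g3.full) :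
    (pw c.P + pw c.Q + lw [] (jn c.B (sw c.s1 g1.Y)) +
      (w1 + lw [] (jn g1.Z (sw c.s3 (sho (g1.p + c.ra) (g1.q + c.rb) g3.Z))) +
        shW (g1.p + c.ra) (g1.q + c.rb) w3)) + G.holes = G.full := by
  set U := g1.p + c.ra with hU
  set V := g1.q + c.rb with hV
  have b3' := congrArg (shW U V) b3
  rw [shW_add] at b3'
  have hv := Multiset.coe_eq_coe.2 h.hv
  have hs := Multiset.coe_eq_coe.2 h.hs
  have e1 : ev 0 G.p = ev 0 g1.p ++ ev g1.p c.ra ++ (ev 0 g3.p).map (sh U V) := by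
    rw [h.hp, ev_add, ev_add, ev_sh]; simp [hU]
  have e2 : od 0 G.q = od 0 g1.q ++ od g1.q c.rb ++ (od 0 g3.q).map (sh U V) := by
    rw [h.hq, od_add, od_add, od_sh]; simp [hV]
  have e3 : od 0 (G.p + G.q - 1) = od 0 (g1.p + g1.q - 1) ++ od (g1.p + g1.q - 1) (c.ra + c.rb + 1)
      ++ ad (2 * (U + V)) (od 0 (g3.p + g3.q - 1)) := by
    have := h.h1
    have := h.h3
    rw [show G.p + G.q - 1 = (g1.p + g1.q - 1) + (c.ra + c.rb + 1) + (g3.p + g3.q - 1) by
      rw [h.hp, h.hq]; omega, od_add, od_add, od_ad]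
    congr 2
    · simp
    · omega
  simp only [Ty.full, Ty.holes, shW_lw, h.hC1, h.hC3, List.append_nil, List.map_append] at b1 b3' ⊢
  rw [e1, e2, e3, h.hLH, h.hLU, h.hRH, h.hRU]
  simp only [← hU, ← hV] at hv hs ⊢
  generalize shW U V w3 = w3' at b3' ⊢
  obtain ⟨x1, y1⟩ := w1
  obtain ⟨x3, y3⟩ := w3'
  simp only [lw, pw, Prod.mk_add_mk, Prod.mk.injEq, ← Multiset.coe_add, ad, List.map_append,
    Multiset.coe_nil] at b1 b3' hv hs ⊢
  obtain ⟨b1a, b1b⟩ := b1
  obtain ⟨b3a, b3b⟩ := b3'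
  constructor
  · refine Multiset.ext.2 fun a => ?_
    have k1 := congrArg (Multiset.count a) b1a
    have k2 := congrArg (Multiset.count a) b3a
    have k3 := congrArg (Multiset.count a) hv
    simp only [Multiset.count_add, Multiset.count_zero] at k1 k2 k3 ⊢
    omega
  · refine Multiset.ext.2 fun a => ?_
    have k1 := congrArg (Multiset.count a) b1b
    have k2 := congrArg (Multiset.count a) b3b
    have k3 := congrArg (Multiset.count a) hs
    simp only [Multiset.count_add] at k1 k2 k3 ⊢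
    omega

theorem jn_some (b c : ℕ × ℕ) : lw [] (jn (some b) (some c)) = jw b c := by
  simp only [lw, jn, jw, ed, Prod.mk_add_mk, add_zero]
  rfl

theorem sw_isSome (b : Bool) (o : Option (ℕ × ℕ)) : (sw b o).isSome = o.isSome := by
  cases b <;> cases o <;> rfl

theorem RuleP.rest {G g1 g3 : Ty} {c : Core} (h : RuleP G g1 g3 c) {s1 s3 : Shape}
    (r1 : Real g1 s1) (r3 : Real g3 s3) :
    ∃ w, Tangle (sw c.s1 g1.Y) G.Y (s1.rev.comp s3) w ∧
      (pw c.P + pw c.Q + lw [] (jn c.B (sw c.s1 g1.Y)) + w) + G.holes = G.full := by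
  obtain ⟨w1, t1, b1⟩ := r1
  obtain ⟨w3, t3, b3⟩ := r3
  refine ⟨_, ?_, h.bal b1 b3⟩
  have t3' := (t3.shift (g1.p + c.ra) (g1.q + c.rb) (Ty.odd_of_bal b3)).swA c.s3
  have t1' := t1.rev.swA c.s1
  obtain ⟨z1, hz1⟩ := Option.isSome_iff_exists.1 h.hZ1
  have : (sw c.s3 (sho (g1.p + c.ra) (g1.q + c.rb) g3.Z)).isSome = true := by
    rw [sw_isSome]; simpa [sho] using h.hZ3
  obtain ⟨z3, hz3⟩ := Option.isSome_iff_exists.1 this
  rw [hz3] at t3'
  rw [hz1] at t1'
  rw [hz1, hz3, jn_some, h.hY]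
  exact t1'.comp t3'

theorem RuleP.glue_th {G g1 g3 : Ty} {c : Core} (h : RuleP G g1 g3 c) (ht : c.th = true)
    {s1 s3 : Shape} (r1 : Real g1 s1) (r3 : Real g3 s3) :
    Real G ((Shape.thru (c.P.length + c.Q.length)).comp (s1.rev.comp s3)) := by
  obtain ⟨w, t, b⟩ := h.rest r1 r3
  refine ⟨_, ?_, b⟩
  have hA := h.hth ht
  have hB := h.hB
  rw [h.hZ]
  have a1 := arc_ends c.P
  have a2 := arc_ends c.Q
  simp only [Core.A, Core.B, ht, cond_true] at hA hB ⊢
  cases hP : ends c.P with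
  | none => simp [hP, fsts] at hA
  | some e =>
    cases hQ : ends c.Q with
    | none => simp [hP, hQ, fsts] at hA
    | some f =>
      rw [hP] at a1
      rw [hQ] at a2
      have : (sw c.s1 g1.Y).isSome = true := by
        rw [sw_isSome, ← hB, hP, hQ]; rfl
      obtain ⟨y, hy⟩ := Option.isSome_iff_exists.1 this
      rw [hy] at t ⊢
      simp only [fsts, snds, jn_some]
      refine Tangle.comp ?_ t
      exact ⟨_, _, rfl, rfl, Or.inl ⟨_, _, _, _, a1, a2, rfl, rfl⟩⟩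

theorem RuleP.glue_op {G g1 g3 : Ty} {c : Core} (h : RuleP G g1 g3 c) (ht : c.th = false)
    (hy : g1.Y.isSome = true) {s1 s3 : Shape} (r1 : Real g1 s1) (r3 : Real g3 s3) :
    Real G ((Shape.brk c.P.length 0 c.Q.length).comp (s1.rev.comp s3)) := by
  obtain ⟨w, t, b⟩ := h.rest r1 r3
  refine ⟨_, ?_, b⟩
  have hB := h.hB
  rw [h.hZ]
  have a1 := arc_ends c.P
  have a2 := arc_ends c.Q
  simp only [Core.A, Core.B, ht, cond_false] at hB ⊢
  rw [hy] at hB
  obtain ⟨f, hQ⟩ := Option.isSome_iff_exists.1 hB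
  have : (sw c.s1 g1.Y).isSome = true := by rw [sw_isSome, hy]
  obtain ⟨y, hy⟩ := Option.isSome_iff_exists.1 this
  rw [hQ] at a2 ⊢
  rw [hy] at t ⊢
  rw [jn_some]
  refine Tangle.comp ?_ t
  exact ⟨_, 0, _, a1, Cys.zero, a2, by simp⟩

theorem RuleP.glue_cl {G g1 g3 : Ty} {c : Core} (h : RuleP G g1 g3 c) (ht : c.th = false)
    (hy : g1.Y = none) {s1 s3 : Shape} (r1 : Real g1 s1) (r3 : Real g3 s3) {ms b}
    (hs : s1.rev.comp s3 = .brk 0 ms b) : Real G (.brk c.P.length ms b) := by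
  obtain ⟨w, t, hb⟩ := h.rest r1 r3
  refine ⟨_, ?_, hb⟩
  have hB := h.hB
  rw [h.hZ]
  have a1 := arc_ends c.P
  simp only [Core.A, Core.B, ht, cond_false, hy] at hB ⊢
  have hQ : c.Q = [] := by
    cases hq : c.Q with
    | nil => rfl
    | cons x l => simp [hq, ends] at hB
  have e : sw c.s1 (none : Option (ℕ × ℕ)) = none := by cases c.s1 <;> rfl
  rw [hs, hy, e] at t
  have := Tangle.closed a1 t
  convert this using 2
  rw [hQ, e]
  simp only [ends, jn]
  change pw c.P + 0 + 0 = _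
  simp

def Core.at (c : Core) (j : ℕ) : Core := ⟨c.th, ad (4 * j) c.P, ad (4 * j) c.Q, c.ra, c.rb, c.s1, c.s3⟩

theorem ends_ad (k : ℕ) (l : List ℕ) : ends (ad k l) = ado k (ends l) := by
  cases l with
  | nil => rfl
  | cons x l =>
    simp only [ad, List.map_cons, ends, ado, Option.map_some, Option.some.injEq, Prod.mk.injEq,
      true_and]
    exact List.getLastD_map (f := (· + k))

theorem Core.A_at (c : Core) (j : ℕ) : (c.at j).A = ado (4 * j) c.A := by
  simp only [Core.A, Core.at, ends_ad]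
  cases c.th
  · rfl
  · cases ends c.P <;> cases ends c.Q <;> rfl

theorem Core.B_at (c : Core) (j : ℕ) : (c.at j).B = ado (4 * j) c.B := by
  simp only [Core.B, Core.at, ends_ad]
  cases c.th
  · rfl
  · cases ends c.P <;> cases ends c.Q <;> rfl

theorem ado_isSome (k : ℕ) (o : Option (ℕ × ℕ)) : (ado k o).isSome = o.isSome := by
  cases o <;> rfl

theorem sh_add (U V j k x : ℕ) :
    sh (U + 2 * j) (V + 2 * j) (x + 2 * k) = sh U V x + (4 * j + 2 * k) := by
  rw [sh_eq, sh_eq]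
  split_ifs <;> omega

theorem map_sh_ad (U V j k : ℕ) (l : List ℕ) :
    (ad (2 * k) l).map (sh (U + 2 * j) (V + 2 * j)) = ad (4 * j + 2 * k) (l.map (sh U V)) := by
  simp [ad, Function.comp_def, sh_add]

theorem sho_ado (U V j k : ℕ) (o : Option (ℕ × ℕ)) :
    sho (U + 2 * j) (V + 2 * j) (ado (2 * k) o) = ado (4 * j + 2 * k) (sho U V o) := by
  cases o <;> simp [sho, ado, sh_add]

theorem psums_ad (k : ℕ) : ∀ l : List ℕ, psums (ad k l) = ad (2 * k) (psums l)
  | [] => rfl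
  | [_] => rfl
  | a :: b :: l => by
    have ih := psums_ad k (b :: l)
    simp only [ad, List.map_cons, psums] at ih ⊢
    rw [ih]
    congr 1
    omega

theorem sw_ado (b : Bool) (k : ℕ) (o : Option (ℕ × ℕ)) : sw b (ado k o) = ado k (sw b o) := by
  cases b <;> cases o <;> rfl

theorem jn_ado (k m : ℕ) (o o' : Option (ℕ × ℕ)) :
    jn (ado k o) (ado m o') = ad (k + m) (jn o o') := by
  cases o <;> cases o' <;> simp [jn, ado, ad]
  omega

theorem ad_append (k : ℕ) (a b : List ℕ) : ad k (a ++ b) = ad k a ++ ad k b := by simp [ad]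

theorem RuleP.lift {G g1 g3 : Ty} {c : Core} (h : RuleP G g1 g3 c) (j : ℕ) :
    RuleP (G.at (2 * j)) (g1.at j) (g3.at j) (c.at j) := by
  have eU : (g1.at j).p + (c.at j).ra = g1.p + c.ra + 2 * j := by
    simp only [Ty.at, Core.at]; omega
  have eV : (g1.at j).q + (c.at j).rb = g1.q + c.rb + 2 * j := by
    simp only [Ty.at, Core.at]; omega
  have hp := h.hp
  have hq := h.hq
  have h1 := h.h1
  have h3 := h.h3
  refine ⟨?_, ?_, ?_, ?_, h.hLH, h.hLU, ?_, ?_, ?_, ?_, ?_, ?_, ?_, ?_, ?_, ?_, ?_, ?_⟩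
  · simp only [Ty.at, Core.at]; omega
  · simp only [Ty.at, Core.at]; omega
  · simp only [Ty.at]; omega
  · simp only [Ty.at]; omega
  · rw [eU, eV]
    simp only [Ty.at]
    rw [show 4 * j = 2 * (2 * j) by omega, map_sh_ad, h.hRH]
    congr 1
    omega
  · rw [eU, eV]
    simp only [Ty.at, ad_ad]
    rw [h.hRU, ad_ad]
    congr 1
    omega
  · rw [eU, eV]
    simp only [Ty.at]
    rw [show 4 * j = 2 * (2 * j) by omega, sho_ado, h.hY]
    congr 1
    omega
  · simp [Ty.at, h.hC1, ad]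
  · simp [Ty.at, h.hC3, ad]
  · rw [Core.A_at]
    simp only [Ty.at]
    rw [h.hZ]
    congr 1
    omega
  · simp only [Ty.at, ado_isSome, h.hZ1]
  · simp only [Ty.at, ado_isSome, h.hZ3]
  · rw [Core.B_at]
    simp only [Ty.at, ado_isSome, h.hB]
  · intro ht
    rw [Core.A_at, ado_isSome]
    exact h.hth ht
  · rw [eU, eV]
    have := h.hv.map (· + 4 * j)
    change (ad (4 * j) _).Perm (ad (4 * j) _) at this
    simp only [ad_append] at this
    have e0 := map_sh_ad (g1.p + c.ra) (g1.q + c.rb) j 0 g3.LH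
    simp only [Nat.mul_zero, ad_zero, Nat.add_zero] at e0
    simp only [Ty.at, Core.at]
    rw [e0, ← ev_ad, ← od_ad, show 2 * (2 * j) = 4 * j by omega]
    exact this
  · rw [eU, eV, Core.B_at]
    have := h.hs.map (· + 8 * j)
    change (ad (8 * j) _).Perm (ad (8 * j) _) at this
    simp only [ad_append, ad_ad] at this
    simp only [Ty.at, Core.at]
    rw [sho_ado, sw_ado, sw_ado, jn_ado, jn_ado, psums_ad, psums_ad,
      show g1.p + 2 * j + (g1.q + 2 * j) - 1 = g1.p + g1.q - 1 + 4 * j by omega, ← od_ad,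
      show 2 * (4 * j) = 8 * j by omega, show 4 * j + 4 * j = 8 * j by omega,
      show 2 * j + (4 * j + 2 * j) = 8 * j by omega,
      show 2 * (g1.p + c.ra + 2 * j + (g1.q + c.rb + 2 * j)) =
        2 * (g1.p + c.ra + (g1.q + c.rb)) + 8 * j by omega]
    exact this

end Pool.Agent.Lib.MP84
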