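import Pool.Agent.Lib.MP_84c3e0_co.Defs

set_option maxRecDepth 100000

namespace Pool.Agent.Lib.MP84

theorem cc0 : certOK x0 s0 [] = true := by decide +kernel
theorem cc1 : certOK x1 s1 [] = true := by decide +kernel
theorem cc2 : certOK x2 s1 [] = true := by decide +kernel
theorem cc3 : certOK x3 s1 [] = true := by decide +kernel
theorem cc4 : certOK x4 s1 [] = true := by decide +kernel
theorem cc5 : certOK x5 s1 [] = true := by decide +kernel
theorem cc6 : certOK x6 s1 [] = true := by decide +kernel
theorem cc7 : certOK x7 s1 [] = true := by decide +kernel
theorem cc8 : certOK x8 s1 [] = true := by decide +kernel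
theorem cc9 : certOK x9 s0 [] = true := by decide +kernel
theorem cc10 : certOK x10 s1 [] = true := by decide +kernel
theorem cc11 : certOK x11 s1 [] = true := by decide +kernel
theorem cc12 : certOK x12 s1 [] = true := by decide +kernel
theorem cc13 : certOK x13 s1 [] = true := by decide +kernel
theorem cc14 : certOK x14 s1 [] = true := by decide +kernel
theorem cc15 : certOK x15 s1 [] = true := by decide +kernel
theorem cc16 : certOK x16 s1 [] = true := by decide +kernel
theorem cc17 : certOK x17 s1 [] = true := by decide +kernel
theorem cc18 : certOK x18 s1 [] = true := by decide +kernel
theorem cc19 : certOK x19 s1 [] = true := by decide +kernel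
theorem cc20 : certOK x20 s1 [] = true := by decide +kernel
theorem cc21 : certOK x21 s1 [] = true := by decide +kernel
theorem cc22 : certOK x22 s1 [] = true := by decide +kernel
theorem cc23 : certOK x23 s1 [] = true := by decide +kernel
theorem cc24 : certOK x24 s1 [] = true := by decide +kernel
theorem cc25 : certOK x25 s1 [] = true := by decide +kernel
theorem cc26 : certOK x26 s1 [] = true := by decide +kernel
theorem cc27 : certOK x27 s1 [] = true := by decide +kernel
theorem cc28 : certOK x28 s1 [] = true := by decide +kernel
theorem cc29 : certOK x29 s1 [] = true := by decide +kernel
theorem cc30 : certOK x30 s1 [] = true := by decide +kernel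
theorem cc31 : certOK x31 s1 [] = true := by decide +kernel
theorem cc32 : certOK x32 s1 [] = true := by decide +kernel
theorem cc33 : certOK x33 s1 [] = true := by decide +kernel
theorem cc34 : certOK x34 s1 [] = true := by decide +kernel
theorem cc35 : certOK x35 s1 [] = true := by decide +kernel
theorem cc36 : certOK x36 s1 [] = true := by decide +kernel
theorem cc37 : certOK x37 s1 [] = true := by decide +kernel
theorem cc38 : certOK x38 s1 [] = true := by decide +kernel
theorem cc39 : certOK x39 s1 [] = true := by decide +kernel
theorem cc40 : certOK x40 s1 [] = true := by decide +kernel
theorem cc41 : certOK x41 s1 [] = true := by decide +kernel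
theorem cc42 : certOK x42 s1 [] = true := by decide +kernel
theorem cc43 : certOK x43 s1 [] = true := by decide +kernel
theorem cc44 : certOK x44 s1 [] = true := by decide +kernel
theorem cc45 : certOK x45 s1 [] = true := by decide +kernel
theorem cc46 : certOK x46 s1 [] = true := by decide +kernel
theorem cc47 : certOK x47 s1 [] = true := by decide +kernel
theorem cc48 : certOK x48 s1 [] = true := by decide +kernel
theorem cc49 : certOK x49 s1 [] = true := by decide +kernel
theorem cc50 : certOK x50 s1 [] = true := by decide +kernel
theorem cc51 : certOK x51 s1 [] = true := by decide +kernel
theorem cc52 : certOK x52 s1 [] = true := by decide +kernel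
theorem cc53 : certOK x53 s1 [] = true := by decide +kernel
theorem cc54 : certOK x54 s1 [] = true := by decide +kernel
theorem cc55 : certOK x55 s1 [] = true := by decide +kernel
theorem cc56 : certOK x56 s1 [] = true := by decide +kernel
theorem cc57 : certOK x57 s1 [] = true := by decide +kernel
theorem cc58 : certOK x58 s1 [] = true := by decide +kernel
theorem cc59 : certOK x59 s1 [] = true := by decide +kernel
theorem cc60 : certOK x60 s1 [] = true := by decide +kernel
theorem cc61 : certOK x61 s1 [] = true := by decide +kernel
theorem cc62 : certOK x62 s1 [] = true := by decide +kernel
theorem cc63 : certOK x63 s1 [] = true := by decide +kernel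
theorem cc64 : certOK x64 s1 [] = true := by decide +kernel
theorem cc65 : certOK x65 s1 [] = true := by decide +kernel
theorem cc66 : certOK x66 s1 [] = true := by decide +kernel
theorem cc67 : certOK x67 s1 [] = true := by decide +kernel
theorem cc68 : certOK x68 s1 [] = true := by decide +kernel
theorem cc69 : certOK x69 s1 [] = true := by decide +kernel
theorem cc70 : certOK x70 s1 [] = true := by decide +kernel
theorem cc71 : certOK x71 s1 [] = true := by decide +kernel
theorem cc72 : certOK x72 s1 [] = true := by decide +kernel
theorem cc73 : certOK x73 s0 [] = true := by decide +kernel
theorem cc74 : certOK x74 s1 [] = true := by decide +kernel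
theorem cc75 : certOK x75 s1 [] = true := by decide +kernel
theorem cc76 : certOK x76 s1 [] = true := by decide +kernel
theorem cc77 : certOK x77 s1 [] = true := by decide +kernel
theorem cc78 : certOK x78 s1 [] = true := by decide +kernel
theorem cc79 : certOK x79 s1 [] = true := by decide +kernel
theorem cc80 : certOK x80 s1 [] = true := by decide +kernel
theorem cc81 : certOK x81 s1 [] = true := by decide +kernel
theorem cc82 : certOK x82 s1 [] = true := by decide +kernel
theorem cc83 : certOK x83 s1 [] = true := by decide +kernel
theorem cc84 : certOK x84 s1 [] = true := by decide +kernel
theorem cc85 : certOK x85 s1 [] = true := by decide +kernel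
theorem cc86 : certOK x86 s1 [] = true := by decide +kernel
theorem cc87 : certOK x87 s1 [] = true := by decide +kernel
theorem cc88 : certOK x88 s1 [] = true := by decide +kernel
theorem cc89 : certOK x89 s1 [] = true := by decide +kernel
theorem cc90 : certOK x90 s1 [] = true := by decide +kernel
theorem cc91 : certOK x91 s1 [] = true := by decide +kernel
theorem cc92 : certOK x92 s1 [] = true := by decide +kernel
theorem cc93 : certOK x93 s1 [] = true := by decide +kernel
theorem cc94 : certOK x94 s1 [] = true := by decide +kernel
theorem cc95 : certOK x95 s1 [] = true := by decide +kernel
theorem cc96 : certOK x96 s1 [] = true := by decide +kernel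
theorem cc97 : certOK x97 s1 [] = true := by decide +kernel
theorem cc98 : certOK x98 s1 [] = true := by decide +kernel
theorem cc99 : certOK x99 s1 [] = true := by decide +kernel
theorem cc100 : certOK x100 s1 [] = true := by decide +kernel
theorem cc101 : certOK x101 s1 [] = true := by decide +kernel
theorem cc102 : certOK x102 s1 [] = true := by decide +kernel
theorem cc103 : certOK x103 s1 [] = true := by decide +kernel
theorem cc104 : certOK x104 s1 [] = true := by decide +kernel
theorem cc105 : certOK x105 s1 [] = true := by decide +kernel
theorem cc106 : certOK x106 s1 [] = true := by decide +kernel
theorem cc107 : certOK x107 s1 [] = true := by decide +kernel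
theorem cc108 : certOK x108 s1 [] = true := by decide +kernel
theorem cc109 : certOK x109 s1 [] = true := by decide +kernel
theorem cc110 : certOK x110 s1 [] = true := by decide +kernel
theorem cc111 : certOK x111 s1 [] = true := by decide +kernel
theorem cc112 : certOK x112 s1 [] = true := by decide +kernel
theorem cc113 : certOK x113 s1 [] = true := by decide +kernel
theorem cc114 : certOK x114 s1 [] = true := by decide +kernel
theorem cc115 : certOK x115 s1 [] = true := by decide +kernel
theorem cc116 : certOK x116 s1 [] = true := by decide +kernel
theorem cc117 : certOK x117 s1 [] = true := by decide +kernel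
theorem cc118 : certOK x118 s1 [] = true := by decide +kernel
theorem cc119 : certOK x119 s1 [] = true := by decide +kernel
theorem cc120 : certOK x120 s1 [] = true := by decide +kernel
theorem cc121 : certOK x121 s1 [] = true := by decide +kernel
theorem cc122 : certOK x122 s1 [] = true := by decide +kernel
theorem cc123 : certOK x123 s1 [] = true := by decide +kernel
theorem cc124 : certOK x124 s1 [] = true := by decide +kernel
theorem cc125 : certOK x125 s1 [] = true := by decide +kernel
theorem cc126 : certOK x126 s1 [] = true := by decide +kernel
theorem cc127 : certOK x127 s1 [] = true := by decide +kernel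
theorem cc128 : certOK x128 s1 [] = true := by decide +kernel
theorem cc129 : certOK x129 s1 [] = true := by decide +kernel
theorem cc130 : certOK x130 s1 [] = true := by decide +kernel
theorem cc131 : certOK x131 s1 [] = true := by decide +kernel
theorem cc132 : certOK x132 s1 [] = true := by decide +kernel
theorem cc133 : certOK x133 s1 [] = true := by decide +kernel
theorem cc134 : certOK x134 s1 [] = true := by decide +kernel
theorem cc135 : certOK x135 s1 [] = true := by decide +kernel
theorem cc136 : certOK x136 s1 [] = true := by decide +kernel
theorem cc137 : certOK x137 s1 [] = true := by decide +kernel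
theorem cc138 : certOK x138 s1 [] = true := by decide +kernel
theorem cc139 : certOK x139 s1 [] = true := by decide +kernel
theorem cc140 : certOK x140 s1 [] = true := by decide +kernel
theorem cc141 : certOK x141 s1 [] = true := by decide +kernel
theorem cc142 : certOK x142 s1 [] = true := by decide +kernel
theorem cc143 : certOK x143 s1 [] = true := by decide +kernel
theorem cc144 : certOK x144 s1 [] = true := by decide +kernel
theorem cc145 : certOK x145 s1 [] = true := by decide +kernel
theorem cc146 : certOK x146 s1 [] = true := by decide +kernel
theorem cc147 : certOK x147 s1 [] = true := by decide +kernel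
theorem cc148 : certOK x148 s1 [] = true := by decide +kernel
theorem cc149 : certOK x149 s1 [] = true := by decide +kernel
theorem cc150 : certOK x150 s1 [] = true := by decide +kernel
theorem cc151 : certOK x151 s1 [] = true := by decide +kernel
theorem cc152 : certOK x152 s1 [] = true := by decide +kernel
theorem cc153 : certOK x153 s1 [] = true := by decide +kernel
theorem cc154 : certOK x154 s1 [] = true := by decide +kernel
theorem cc155 : certOK x155 s1 [] = true := by decide +kernel
theorem cc156 : certOK x156 s1 [] = true := by decide +kernel
theorem cc157 : certOK x157 s1 [] = true := by decide +kernel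
theorem cc158 : certOK x158 s1 [] = true := by decide +kernel
theorem cc159 : certOK x159 s1 [] = true := by decide +kernel
theorem cc160 : certOK x160 s1 [] = true := by decide +kernel
theorem cc161 : certOK x161 s1 [] = true := by decide +kernel
theorem cc162 : certOK x162 s1 [] = true := by decide +kernel
theorem cc163 : certOK x163 s1 [] = true := by decide +kernel
theorem cc164 : certOK x164 s1 [] = true := by decide +kernel
theorem cc165 : certOK x165 s1 [] = true := by decide +kernel
theorem cc166 : certOK x166 s1 [] = true := by decide +kernel
theorem cc167 : certOK x167 s1 [] = true := by decide +kernel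
theorem cc168 : certOK x168 s1 [] = true := by decide +kernel
theorem cc169 : certOK x169 s1 [] = true := by decide +kernel
theorem cc170 : certOK x170 s1 [] = true := by decide +kernel
theorem cc171 : certOK x171 s1 [] = true := by decide +kernel
theorem cc172 : certOK x172 s1 [] = true := by decide +kernel
theorem cc173 : certOK x173 s1 [] = true := by decide +kernel
theorem cc174 : certOK x174 s1 [] = true := by decide +kernel
theorem cc175 : certOK x175 s1 [] = true := by decide +kernel
theorem cc176 : certOK x176 s1 [] = true := by decide +kernel
theorem cc177 : certOK x177 s1 [] = true := by decide +kernel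
theorem cc178 : certOK x178 s1 [] = true := by decide +kernel
theorem cc179 : certOK x179 s1 [] = true := by decide +kernel
theorem cc180 : certOK x180 s1 [] = true := by decide +kernel
theorem cc181 : certOK x181 s1 [] = true := by decide +kernel
theorem cc182 : certOK x182 s1 [] = true := by decide +kernel
theorem cc183 : certOK x183 s1 [] = true := by decide +kernel
theorem cc184 : certOK x184 s1 [] = true := by decide +kernel
theorem cc185 : certOK x185 s1 [] = true := by decide +kernel
theorem cc186 : certOK x186 s1 [] = true := by decide +kernel
theorem cc187 : certOK x187 s1 [] = true := by decide +kernel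
theorem cc188 : certOK x188 s1 [] = true := by decide +kernel
theorem cc189 : certOK x189 s1 [] = true := by decide +kernel
theorem cc190 : certOK x190 s1 [] = true := by decide +kernel
theorem cc191 : certOK x191 s1 [] = true := by decide +kernel
theorem cc192 : certOK x192 s1 [] = true := by decide +kernel
theorem cc193 : certOK x193 s1 [] = true := by decide +kernel
theorem cc194 : certOK x194 s1 [] = true := by decide +kernel
theorem cc195 : certOK x195 s1 [] = true := by decide +kernel
theorem cc196 : certOK x196 s1 [] = true := by decide +kernel
theorem cc197 : certOK x197 s1 [] = true := by decide +kernel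
theorem cc198 : certOK x198 s1 [] = true := by decide +kernel
theorem cc199 : certOK x199 s1 [] = true := by decide +kernel
theorem cc200 : certOK x200 s1 [] = true := by decide +kernel
theorem cc201 : certOK x201 s1 [] = true := by decide +kernel
theorem cc202 : certOK x202 s1 [] = true := by decide +kernel
theorem cc203 : certOK x203 s1 [] = true := by decide +kernel
theorem cc204 : certOK x204 s1 [] = true := by decide +kernel
theorem cc205 : certOK x205 s1 [] = true := by decide +kernel
theorem cc206 : certOK x206 s1 [] = true := by decide +kernel
theorem cc207 : certOK x207 s1 [] = true := by decide +kernel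
theorem cc208 : certOK x208 s1 [] = true := by decide +kernel
theorem cc209 : certOK x209 s1 [] = true := by decide +kernel
theorem cc210 : certOK x210 s1 [] = true := by decide +kernel
theorem cc211 : certOK x211 s0 [] = true := by decide +kernel
theorem cc212 : certOK x212 s1 [] = true := by decide +kernel
theorem cc213 : certOK x213 s1 [] = true := by decide +kernel
theorem cc214 : certOK x214 s1 [] = true := by decide +kernel
theorem cc215 : certOK x215 s1 [] = true := by decide +kernel
theorem cc216 : certOK x216 s1 [] = true := by decide +kernel
theorem cc217 : certOK x217 s1 [] = true := by decide +kernel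
theorem cc218 : certOK x218 s1 [] = true := by decide +kernel
theorem cc219 : certOK x219 s1 [] = true := by decide +kernel
theorem cc220 : certOK x220 s1 [] = true := by decide +kernel
theorem cc221 : certOK x221 s1 [] = true := by decide +kernel
theorem cc222 : certOK x222 s1 [] = true := by decide +kernel
theorem cc223 : certOK x223 s1 [] = true := by decide +kernel
theorem cc224 : certOK x224 s1 [] = true := by decide +kernel
theorem cc225 : certOK x225 s1 [] = true := by decide +kernel
theorem cc226 : certOK x226 s1 [] = true := by decide +kernel
theorem cc227 : certOK x227 s1 [] = true := by decide +kernel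
theorem cc228 : certOK x228 s1 [] = true := by decide +kernel
theorem cc229 : certOK x229 s1 [] = true := by decide +kernel
theorem cc230 : certOK x230 s1 [] = true := by decide +kernel
theorem cc231 : certOK x231 s1 [] = true := by decide +kernel
theorem cc232 : certOK x232 s1 [] = true := by decide +kernel
theorem cc233 : certOK x233 s1 [] = true := by decide +kernel
theorem cc234 : certOK x234 s1 [] = true := by decide +kernel
theorem cc235 : certOK x235 s1 [] = true := by decide +kernel
theorem cc236 : certOK x236 s1 [] = true := by decide +kernel
theorem cc237 : certOK x237 s1 [] = true := by decide +kernel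
theorem cc238 : certOK x238 s1 [] = true := by decide +kernel
theorem cc239 : certOK x239 s1 [] = true := by decide +kernel
theorem cc240 : certOK x240 s1 [] = true := by decide +kernel
theorem cc241 : certOK x241 s1 [] = true := by decide +kernel
theorem cc242 : certOK x242 s1 [] = true := by decide +kernel
theorem cc243 : certOK x243 s1 [] = true := by decide +kernel
theorem cc244 : certOK x244 s1 [] = true := by decide +kernel
theorem cc245 : certOK x245 s1 [] = true := by decide +kernel
theorem cc246 : certOK x246 s1 [] = true := by decide +kernel
theorem cc247 : certOK x247 s1 [] = true := by decide +kernel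
theorem cc248 : certOK x248 s1 [] = true := by decide +kernel
theorem cc249 : certOK x249 s1 [] = true := by decide +kernel
theorem cc250 : certOK x250 s1 [] = true := by decide +kernel
theorem cc251 : certOK x251 s1 [] = true := by decide +kernel
theorem cc252 : certOK x252 s1 [] = true := by decide +kernel
theorem cc253 : certOK x253 s1 [] = true := by decide +kernel
theorem cc254 : certOK x254 s1 [] = true := by decide +kernel
theorem cc255 : certOK x255 s1 [] = true := by decide +kernel
theorem cc256 : certOK x256 s1 [] = true := by decide +kernel
theorem cc257 : certOK x257 s1 [] = true := by decide +kernel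
theorem cc258 : certOK x258 s1 [] = true := by decide +kernel
theorem cc259 : certOK x259 s1 [] = true := by decide +kernel
theorem cc260 : certOK x260 s1 [] = true := by decide +kernel
theorem cc261 : certOK x261 s1 [] = true := by decide +kernel
theorem cc262 : certOK x262 s1 [] = true := by decide +kernel
theorem cc263 : certOK x263 s1 [] = true := by decide +kernel
theorem cc264 : certOK x264 s1 [] = true := by decide +kernel
theorem cc265 : certOK x265 s1 [] = true := by decide +kernel
theorem cc266 : certOK x266 s1 [] = true := by decide +kernel
theorem cc267 : certOK x267 s1 [] = true := by decide +kernel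
theorem cc268 : certOK x268 s1 [] = true := by decide +kernel
theorem cc269 : certOK x269 s1 [] = true := by decide +kernel
theorem cc270 : certOK x270 s1 [] = true := by decide +kernel
theorem cc271 : certOK x271 s1 [] = true := by decide +kernel
theorem cc272 : certOK x272 s1 [] = true := by decide +kernel
theorem cc273 : certOK x273 s1 [] = true := by decide +kernel
theorem cc274 : certOK x274 s1 [] = true := by decide +kernel
theorem cc275 : certOK x275 s1 [] = true := by decide +kernel
theorem cc276 : certOK x276 s1 [] = true := by decide +kernel
theorem cc277 : certOK x277 s1 [] = true := by decide +kernel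
theorem cc278 : certOK x278 s1 [] = true := by decide +kernel
theorem cc279 : certOK x279 s1 [] = true := by decide +kernel
theorem cc280 : certOK x280 s1 [] = true := by decide +kernel
theorem cc281 : certOK x281 s1 [] = true := by decide +kernel
theorem cc282 : certOK x282 s1 [] = true := by decide +kernel
theorem cc283 : certOK x283 s1 [] = true := by decide +kernel
theorem cc284 : certOK x284 s1 [] = true := by decide +kernel
theorem cc285 : certOK x285 s1 [] = true := by decide +kernel
theorem cc286 : certOK x286 s1 [] = true := by decide +kernel
theorem cc287 : certOK x287 s1 [] = true := by decide +kernel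
theorem cc288 : certOK x288 s1 [] = true := by decide +kernel
theorem cc289 : certOK x289 s1 [] = true := by decide +kernel
theorem cc290 : certOK x290 s1 [] = true := by decide +kernel
theorem cc291 : certOK x291 s1 [] = true := by decide +kernel
theorem cc292 : certOK x292 s1 [] = true := by decide +kernel
theorem cc293 : certOK x293 s1 [] = true := by decide +kernel
theorem cc294 : certOK x294 s1 [] = true := by decide +kernel
theorem cc295 : certOK x295 s1 [] = true := by decide +kernel
theorem cc296 : certOK x296 s1 [] = true := by decide +kernel
theorem cc297 : certOK x297 s1 [] = true := by decide +kernel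
theorem cc298 : certOK x298 s1 [] = true := by decide +kernel
theorem cc299 : certOK x299 s1 [] = true := by decide +kernel
theorem cc300 : certOK x300 s1 [] = true := by decide +kernel
theorem cc301 : certOK x301 s1 [] = true := by decide +kernel
theorem cc302 : certOK x302 s1 [] = true := by decide +kernel
theorem cc303 : certOK x303 s1 [] = true := by decide +kernel
theorem cc304 : certOK x304 s1 [] = true := by decide +kernel
theorem cc305 : certOK x305 s1 [] = true := by decide +kernel
theorem cc306 : certOK x306 s1 [] = true := by decide +kernel
theorem cc307 : certOK x307 s1 [] = true := by decide +kernel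
theorem cc308 : certOK x308 s1 [] = true := by decide +kernel
theorem cc309 : certOK x309 s1 [] = true := by decide +kernel
theorem cc310 : certOK x310 s1 [] = true := by decide +kernel
theorem cc311 : certOK x311 s1 [] = true := by decide +kernel
theorem cc312 : certOK x312 s1 [] = true := by decide +kernel
theorem cc313 : certOK x313 s1 [] = true := by decide +kernel
theorem cc314 : certOK x314 s1 [] = true := by decide +kernel
theorem cc315 : certOK x315 s1 [] = true := by decide +kernel
theorem cc316 : certOK x316 s1 [] = true := by decide +kernel
theorem cc317 : certOK x317 s1 [] = true := by decide +kernel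
theorem cc318 : certOK x318 s1 [] = true := by decide +kernel
theorem cc319 : certOK x319 s1 [] = true := by decide +kernel
theorem cc320 : certOK x320 s1 [] = true := by decide +kernel
theorem cc321 : certOK x321 s1 [] = true := by decide +kernel
theorem cc322 : certOK x322 s1 [] = true := by decide +kernel
theorem cc323 : certOK x323 s1 [] = true := by decide +kernel
theorem cc324 : certOK x324 s1 [] = true := by decide +kernel
theorem cc325 : certOK x325 s1 [] = true := by decide +kernel
theorem cc326 : certOK x326 s1 [] = true := by decide +kernel
theorem cc327 : certOK x327 s1 [] = true := by decide +kernel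
theorem cc328 : certOK x328 s1 [] = true := by decide +kernel
theorem cc329 : certOK x329 s1 [] = true := by decide +kernel
theorem cc330 : certOK x330 s1 [] = true := by decide +kernel
theorem cc331 : certOK x331 s1 [] = true := by decide +kernel
theorem cc332 : certOK x332 s1 [] = true := by decide +kernel
theorem cc333 : certOK x333 s1 [] = true := by decide +kernel
theorem cc334 : certOK x334 s1 [] = true := by decide +kernel
theorem cc335 : certOK x335 s1 [] = true := by decide +kernel
theorem cc336 : certOK x336 s1 [] = true := by decide +kernel
theorem cc337 : certOK x337 s1 [] = true := by decide +kernel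
theorem cc338 : certOK x338 s1 [] = true := by decide +kernel
theorem cc339 : certOK x339 s1 [] = true := by decide +kernel
theorem cc340 : certOK x340 s1 [] = true := by decide +kernel
theorem cc341 : certOK x341 s1 [] = true := by decide +kernel
theorem cc342 : certOK x342 s1 [] = true := by decide +kernel
theorem cc343 : certOK x343 s1 [] = true := by decide +kernel
theorem cc344 : certOK x344 s1 [] = true := by decide +kernel
theorem cc345 : certOK x345 s1 [] = true := by decide +kernel
theorem cc346 : certOK x346 s1 [] = true := by decide +kernel
theorem cc347 : certOK x347 s1 [] = true := by decide +kernel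
theorem cc348 : certOK x348 s1 [] = true := by decide +kernel
theorem cc349 : certOK x349 s1 [] = true := by decide +kernel
theorem cc350 : certOK x350 s1 [] = true := by decide +kernel
theorem cc351 : certOK x351 s0 [] = true := by decide +kernel
theorem cc352 : certOK x352 s1 [] = true := by decide +kernel
theorem cc353 : certOK x353 s1 [] = true := by decide +kernel
theorem cc354 : certOK x354 s1 [] = true := by decide +kernel
theorem cc355 : certOK x355 s1 [] = true := by decide +kernel
theorem cc356 : certOK x356 s1 [] = true := by decide +kernel
theorem cc357 : certOK x357 s1 [] = true := by decide +kernel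
theorem cc358 : certOK x358 s1 [] = true := by decide +kernel
theorem cc359 : certOK x359 s1 [] = true := by decide +kernel
theorem cc360 : certOK x360 s1 [] = true := by decide +kernel
theorem cc361 : certOK x361 s1 [] = true := by decide +kernel
theorem cc362 : certOK x362 s1 [] = true := by decide +kernel
theorem cc363 : certOK x363 s1 [] = true := by decide +kernel
theorem cc364 : certOK x364 s1 [] = true := by decide +kernel
theorem cc365 : certOK x365 s1 [] = true := by decide +kernel
theorem cc366 : certOK x366 s1 [] = true := by decide +kernel
theorem cc367 : certOK x367 s1 [] = true := by decide +kernel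
theorem cc368 : certOK x368 s1 [] = true := by decide +kernel
theorem cc369 : certOK x369 s1 [] = true := by decide +kernel
theorem cc370 : certOK x370 s1 [] = true := by decide +kernel
theorem cc371 : certOK x371 s1 [] = true := by decide +kernel
theorem cc372 : certOK x372 s1 [] = true := by decide +kernel
theorem cc373 : certOK x373 s1 [] = true := by decide +kernel
theorem cc374 : certOK x374 s1 [] = true := by decide +kernel
theorem cc375 : certOK x375 s1 [] = true := by decide +kernel
theorem cc376 : certOK x376 s1 [] = true := by decide +kernel
theorem cc377 : certOK x377 s1 [] = true := by decide +kernel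
theorem cc378 : certOK x378 s1 [] = true := by decide +kernel
theorem cc379 : certOK x379 s1 [] = true := by decide +kernel
theorem cc380 : certOK x380 s1 [] = true := by decide +kernel
theorem cc381 : certOK x381 s1 [] = true := by decide +kernel
theorem cc382 : certOK x382 s1 [] = true := by decide +kernel
theorem cc383 : certOK x383 s1 [] = true := by decide +kernel
theorem cc384 : certOK x384 s1 [] = true := by decide +kernel
theorem cc385 : certOK x385 s1 [] = true := by decide +kernel
theorem cc386 : certOK x386 s1 [] = true := by decide +kernel
theorem cc387 : certOK x387 s1 [] = true := by decide +kernel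
theorem cc388 : certOK x388 s1 [] = true := by decide +kernel
theorem cc389 : certOK x389 s1 [] = true := by decide +kernel
theorem cc390 : certOK x390 s1 [] = true := by decide +kernel
theorem cc391 : certOK x391 s1 [] = true := by decide +kernel
theorem cc392 : certOK x392 s1 [] = true := by decide +kernel
theorem cc393 : certOK x393 s1 [] = true := by decide +kernel
theorem cc394 : certOK x394 s1 [] = true := by decide +kernel
theorem cc395 : certOK x395 s1 [] = true := by decide +kernel
theorem cc396 : certOK x396 s1 [] = true := by decide +kernel
theorem cc397 : certOK x397 s1 [] = true := by decide +kernel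
theorem cc398 : certOK x398 s1 [] = true := by decide +kernel
theorem cc399 : certOK x399 s1 [] = true := by decide +kernel
theorem cc400 : certOK x400 s1 [] = true := by decide +kernel
theorem cc401 : certOK x401 s1 [] = true := by decide +kernel
theorem cc402 : certOK x402 s1 [] = true := by decide +kernel
theorem cc403 : certOK x403 s1 [] = true := by decide +kernel
theorem cc404 : certOK x404 s1 [] = true := by decide +kernel
theorem cc405 : certOK x405 s1 [] = true := by decide +kernel
theorem cc406 : certOK x406 s1 [] = true := by decide +kernel
theorem cc407 : certOK x407 s1 [] = true := by decide +kernel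
theorem cc408 : certOK x408 s1 [] = true := by decide +kernel
theorem cc409 : certOK x409 s1 [] = true := by decide +kernel
theorem cc410 : certOK x410 s1 [] = true := by decide +kernel
theorem cc411 : certOK x411 s1 [] = true := by decide +kernel
theorem cc412 : certOK x412 s1 [] = true := by decide +kernel
theorem cc413 : certOK x413 s1 [] = true := by decide +kernel
theorem cc414 : certOK x414 s1 [] = true := by decide +kernel
theorem cc415 : certOK x415 s1 [] = true := by decide +kernel
theorem cc416 : certOK x416 s1 [] = true := by decide +kernel
theorem cc417 : certOK x417 s1 [] = true := by decide +kernel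
theorem cc418 : certOK x418 s1 [] = true := by decide +kernel
theorem cc419 : certOK x419 s1 [] = true := by decide +kernel
theorem cc420 : certOK x420 s1 [] = true := by decide +kernel
theorem cc421 : certOK x421 s1 [] = true := by decide +kernel
theorem cc422 : certOK x422 s1 [] = true := by decide +kernel
theorem cc423 : certOK x423 s1 [] = true := by decide +kernel
theorem cc424 : certOK x424 s1 [] = true := by decide +kernel
theorem cc425 : certOK x425 s2 [mkR x1 x114 (nat_lit 4431656522540626589916552061671335592449),mkR x6 x74 (nat_lit 17285156242062441175959279114899161601)] = true := by decide +kernel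
theorem cc426 : certOK x426 s1 [] = true := by decide +kernel
theorem cc427 : certOK x427 s1 [] = true := by decide +kernel
theorem cc428 : certOK x428 s1 [] = true := by decide +kernel
theorem cc429 : certOK x429 s3 [mkR x7 x162 (nat_lit 14626700250492609429570423556887543809),mkR x29 x65 (nat_lit 14626700250492609429570423556887609345),mkR x31 x18 (nat_lit 962335829193249754185254024915710608802305)] = true := by decide +kernel
theorem cc430 : certOK x430 s1 [] = true := by decide +kernel
theorem cc431 : certOK x431 s1 [] = true := by decide +kernel
theorem cc432 : certOK x432 s1 [] = true := by decide +kernel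
theorem cc433 : certOK x433 s1 [] = true := by decide +kernel
theorem cc434 : certOK x434 s1 [] = true := by decide +kernel
theorem cc435 : certOK x435 s1 [] = true := by decide +kernel
theorem cc436 : certOK x436 s1 [] = true := by decide +kernel
theorem cc437 : certOK x437 s1 [] = true := by decide +kernel
theorem cc438 : certOK x438 s1 [] = true := by decide +kernel
theorem cc439 : certOK x439 s1 [] = true := by decide +kernel
theorem cc440 : certOK x440 s0 [] = true := by decide +kernel
theorem cc441 : certOK x441 s1 [] = true := by decide +kernel
theorem cc442 : certOK x442 s1 [] = true := by decide +kernel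
theorem cc443 : certOK x443 s1 [] = true := by decide +kernel
theorem cc444 : certOK x444 s1 [] = true := by decide +kernel
theorem cc445 : certOK x445 s1 [] = true := by decide +kernel
theorem cc446 : certOK x446 s1 [] = true := by decide +kernel
theorem cc447 : certOK x447 s1 [] = true := by decide +kernel
theorem cc448 : certOK x448 s4 [mkR x57 x36 (nat_lit 19943612233632272921185649598985732353),mkR x54 x11 (nat_lit 5122855080348782843826532872111161147905),mkR x58 x11 (nat_lit 5122855080348782843826532872111161147905)] = true := by decide +kernel
theorem cc449 : certOK x449 s1 [] = true := by decide +kernel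
theorem cc450 : certOK x450 s1 [] = true := by decide +kernel
theorem cc451 : certOK x451 s1 [] = true := by decide +kernel
theorem cc452 : certOK x452 s1 [] = true := by decide +kernel
theorem cc453 : certOK x453 s1 [] = true := by decide +kernel
theorem cc454 : certOK x454 s1 [] = true := by decide +kernel
theorem cc455 : certOK x455 s1 [] = true := by decide +kernel
theorem cc456 : certOK x456 s1 [] = true := by decide +kernel
theorem cc457 : certOK x457 s1 [] = true := by decide +kernel
theorem cc458 : certOK x458 s1 [] = true := by decide +kernel
theorem cc459 : certOK x459 s1 [] = true := by decide +kernel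
theorem cc460 : certOK x460 s1 [] = true := by decide +kernel
theorem cc461 : certOK x461 s1 [] = true := by decide +kernel
theorem cc462 : certOK x462 s1 [] = true := by decide +kernel
theorem cc463 : certOK x463 s2 [mkR x18 x90 (nat_lit 1137918872068462431500609514734183421968385),mkR x50 x25 (nat_lit 17285156242062441176247513889097449985)] = true := by decide +kernel
theorem cc464 : certOK x464 s1 [] = true := by decide +kernel
theorem cc465 : certOK x465 s1 [] = true := by decide +kernel
theorem cc466 : certOK x466 s1 [] = true := by decide +kernel
theorem cc467 : certOK x467 s1 [] = true := by decide +kernel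
theorem cc468 : certOK x468 s5 [mkR x55 x50 (nat_lit 19943612233632272921185649598985732353),mkR x56 x18 (nat_lit 19943612233632272922055128009658204673)] = true := by decide +kernel
theorem cc469 : certOK x469 s6 [mkR x23 x115 (nat_lit 22602068225202104666993261520523100417),mkR x24 x56 (nat_lit 5800761358199089939007473901108090438145)] = true := by decide +kernel
theorem cc470 : certOK x470 s1 [] = true := by decide +kernel
theorem cc471 : certOK x471 s7 [mkR x1 x188 (nat_lit 19943612233632272921764637037599719937),mkR x5 x137 (nat_lit 5117538168365643180334916509174039839233)] = true := by decide +kernel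
theorem cc472 : certOK x472 s1 [] = true := by decide +kernel
theorem cc473 : certOK x473 s6 [mkR x30 x115 (nat_lit 19943612233632272921185649598985666817),mkR x28 x56 (nat_lit 1311462879198141047866930564524385209745921),mkR x7 x56 (nat_lit 1311462879198141047866931431746598022021889)] = true := by decide +kernel
theorem cc474 : certOK x474 s1 [] = true := by decide +kernel
theorem cc475 : certOK x475 s1 [] = true := by decide +kernel
theorem cc476 : certOK x476 s1 [] = true := by decide +kernel
theorem cc477 : certOK x477 s1 [] = true := by decide +kernel
theorem cc478 : certOK x478 s8 [mkR x51 x120 (nat_lit 19943612233632272921185651798008922113),mkR x103 x34 (nat_lit 19943612233632272921185651798008987905)] = true := by decide +kernel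
theorem cc479 : certOK x479 s1 [] = true := by decide +kernel
theorem cc480 : certOK x480 s7 [mkR x50 x35 (nat_lit 1310784972920290740771749622925841257333249),mkR x103 x33 (nat_lit 19943612233632272922199812744757182721),mkR x106 x10 (nat_lit 5125513536340352675572341046982652002817)] = true := by decide +kernel
theorem cc481 : certOK x481 s1 [] = true := by decide +kernel
theorem cc482 : certOK x482 s7 [mkR x107 x38 (nat_lit 22602068225202104666993265918569611521),mkR x103 x16 (nat_lit 1487053897441328434677523477189617751556353),mkR x50 x16 (nat_lit 97321764873065145799750496726965081036623643137)] = true := by decide +kernel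
theorem cc483 : certOK x483 s1 [] = true := by decide +kernel
theorem cc484 : certOK x484 s1 [] = true := by decide +kernel
theorem cc485 : certOK x485 s9 [mkR x24 x69 (nat_lit 1310104408186448863844822873708778697654785),mkR x56 x37 (nat_lit 19943612233632272922055690959611560449),mkR x22 x46 (nat_lit 5128171992331922507540445210619880342017)] = true := by decide +kernel
theorem cc486 : certOK x486 s2 [mkR x23 x148 (nat_lit 22602068225202104666993261520523100417),mkR x21 x120 (nat_lit 5803419814190659770753281515228651127041),mkR x6 x120 (nat_lit 97366014511494810795662347034166288913258381825)] = true := by decide +kernel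
theorem cc487 : certOK x487 s10 [mkR x57 x71 (nat_lit 19943612233632272921185649598985732353),mkR x54 x41 (nat_lit 5122855080348782843826532872111161147905),mkR x55 x70 (nat_lit 19943612233632272921185649598985732353),mkR x56 x35 (nat_lit 19943612233632272922055128009658204673)] = true := by decide +kernel
theorem cc488 : certOK x488 s1 [] = true := by decide +kernel
theorem cc489 : certOK x489 s2 [mkR x54 x83 (nat_lit 22602068225202104666993263719546355969),mkR x57 x45 (nat_lit 1486373332707486557750596727972555191877889)] = true := by decide +kernel
theorem cc490 : certOK x490 s4 [mkR x56 x95 (nat_lit 19943612233632272921185651798008987649),mkR x54 x38 (nat_lit 19943612233632272922199803948664160769),mkR x57 x38 (nat_lit 19943612233632272922199803948664160769)] = true := by decide +kernel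
theorem cc491 : certOK x491 s11 [mkR x28 x148 (nat_lit 19943612233632272921185649598985666817),mkR x7 x120 (nat_lit 335908050407218944798850966408815222156558849)] = true := by decide +kernel
theorem cc492 : certOK x492 s1 [] = true := by decide +kernel
theorem cc493 : certOK x493 s1 [] = true := by decide +kernel
theorem cc494 : certOK x494 s12 [mkR x64 x83 (nat_lit 19943612233632272921185651798008922369),mkR x66 x45 (nat_lit 1312826667121816371552529870570431866601729),mkR x64 x45 (nat_lit 1312826667121816371552529870570431866601729)] = true := by decide +kernel
theorem cc495 : certOK x495 s13 [mkR x52 x162 (nat_lit 19943612233632272921185653997032177665),mkR x105 x65 (nat_lit 19943612233632272921185653997032243201),mkR x104 x65 (nat_lit 19943612233632272921185653997032243201),mkR x106 x18 (nat_lit 1311470854566115757362167987371144938390017)] = true := by decide +kernel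
theorem cc496 : certOK x496 s1 [] = true := by decide +kernel
theorem cc497 : certOK x497 s1 [] = true := by decide +kernel
theorem cc498 : certOK x498 s2 [mkR x18 x114 (nat_lit 1310101749730457294013077066094658136900097),mkR x52 x74 (nat_lit 19943612233632272922055690959611494913)] = true := by decide +kernel
theorem cc499 : certOK x499 s1 [] = true := by decide +kernel
theorem cc500 : certOK x500 s1 [] = true := by decide +kernel
theorem cc501 : certOK x501 s1 [] = true := by decide +kernel
theorem cc502 : certOK x502 s1 [] = true := by decide +kernel
theorem cc503 : certOK x503 s1 [] = true := by decide +kernel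
theorem cc504 : certOK x504 s14 [mkR x56 x126 (nat_lit 19943612233632272921185651798008987649),mkR x54 x56 (nat_lit 19943612233632272922199803948664160769),mkR x56 x60 (nat_lit 1310795606744257020098732853382323500024321),mkR x58 x18 (nat_lit 85904131105313371933533532031833143453795156737)] = true := by decide +kernel
theorem cc505 : certOK x505 s1 [] = true := by decide +kernel
theorem cc506 : certOK x506 s1 [] = true := by decide +kernel
theorem cc507 : certOK x507 s1 [] = true := by decide +kernel
theorem cc508 : certOK x508 s12 [mkR x5 x298 (nat_lit 19943612233632272921185647399962411009),mkR x22 x186 (nat_lit 19943612233632272921185647399962411265),mkR x6 x186 (nat_lit 19943612233632272921909317374652252673)] = true := by decide +kernel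
theorem cc509 : certOK x509 s15 [mkR x77 x59 (nat_lit 222733978131740230144),mkR x183 x25 (nat_lit 222878656269769507072),mkR x77 x25 (nat_lit 14587686730653957309399808),mkR x183 x8 (nat_lit 14606649840009492606091520),mkR x23 x114 (nat_lit 4436973434523766253408168424608456835585),mkR x21 x61 (nat_lit 290785933305680645806344058329387130018726657)] = true := by decide +kernel
theorem cc510 : certOK x510 s16 [mkR x30 x123 (nat_lit 3759067156673459158227227945367341498625),mkR x30 x54 (nat_lit 3759067156673459158523600266703975613185)] = true := by decide +kernel
theorem cc511 : certOK x511 s17 [mkR x64 x110 (nat_lit 19943612233632272921185651798008922369),mkR x66 x65 (nat_lit 5128171992331922507318148654506142990593),mkR x67 x65 (nat_lit 5128171992331922507318148654506142990593)] = true := by decide +kernel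
theorem cc512 : certOK x512 s1 [] = true := by decide +kernel
theorem cc513 : certOK x513 s1 [] = true := by decide +kernel
theorem cc514 : certOK x514 s18 [mkR x30 x185 (nat_lit 17285156242062441175378035478424977665),mkR x31 x108 (nat_lit 17285156242062441176245825039237251585),mkR x28 x186 (nat_lit 17285156242062441175378035478424977665),mkR x7 x128 (nat_lit 17285156242062498047413130554392117761)] = true := by decide +kernel
theorem cc515 : certOK x515 s19 [mkR x104 x91 (nat_lit 19943612233632272921185653997032243201),mkR x103 x37 (nat_lit 19943612233632272922343921335763272193),mkR x50 x37 (nat_lit 5122855080348782844123049862789731582721),mkR x103 x26 (nat_lit 86082884835480610117775477346863127811978297857)] = true := by decide +kernel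
theorem cc516 : certOK x516 s20 [mkR x106 x35 (nat_lit 22602068225202104668006296567364583937),mkR x105 x10 (nat_lit 97456091340065642249772495599056385658656523009),mkR x104 x27 (nat_lit 1486373332707486557750597743261600870171137)] = true := by decide +kernel
theorem cc517 : certOK x517 s21 [mkR x204 x10 (nat_lit 296666197713584390656),mkR x317 x2 (nat_lit 296810875851613667584),mkR x174 x10 (nat_lit 19395018917855207647871744),mkR x205 x2 (nat_lit 19432908674297795142812416),mkR x104 x93 (nat_lit 19943612233632272921185653997032243201),mkR x106 x35 (nat_lit 1311470854566115757362167987371144938390017),mkR x103 x27 (nat_lit 336261268820994862063589440867690135658037761)] = true := by decide +kernel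
theorem cc518 : certOK x518 s22 [mkR x132 x14 (nat_lit 19395092847822989678412544),mkR x243 x4 (nat_lit 19442390010834654863753216),mkR x170 x16 (nat_lit 22602068225202104668151542053393793281),mkR x172 x3 (nat_lit 22602068225202180687472097996174394113)] = true := by decide +kernel
theorem cc519 : certOK x519 s23 [mkR x207 x53 (nat_lit 0),mkR x284 x19 (nat_lit 0)] = true := by decide +kernel
theorem cc520 : certOK x520 s12 [mkR x56 x156 (nat_lit 19943612233632272921185651798008987649),mkR x54 x84 (nat_lit 1310795606744257020098732853382323500024321),mkR x57 x69 (nat_lit 19943612233632272922199240998710804993)] = true := by decide +kernel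
theorem cc521 : certOK x521 s24 [mkR x184 x41 (nat_lit 223022212905938518016),mkR x253 x33 (nat_lit 223024464705752137728),mkR x77 x41 (nat_lit 14615983460169623458087680),mkR x144 x27 (nat_lit 14625539305945369233457408),mkR x23 x142 (nat_lit 22602068225202104667861611832265474561),mkR x57 x97 (nat_lit 22602068225202104667862183578311983361),mkR x21 x261 (nat_lit 22602068225202104666993263719546355713)] = true := by decide +kernel
theorem cc522 : certOK x522 s25 [mkR x56 x159 (nat_lit 19943612233632272921185651798008987649),mkR x54 x86 (nat_lit 1310795606744257020098732853382323500024321),mkR x21 x161 (nat_lit 1310104408186448863844822873710977720910081),mkR x56 x85 (nat_lit 1310795606744257020098732853382323500024321)] = true := by decide +kernel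
theorem cc523 : certOK x523 s26 [mkR x80 x36 (nat_lit 16996093491117836478906880),mkR x184 x17 (nat_lit 17024353906979409185931264),mkR x112 x72 (nat_lit 22602068225202104666993265918569677057),mkR x113 x39 (nat_lit 5806078270182229602499090264045211681281),mkR x110 x39 (nat_lit 22602068225202104668007985417224782337),mkR x113 x16 (nat_lit 5806078270182229602758859577211368964609),mkR x110 x12 (nat_lit 1487059214353311574341016108263257434882817)] = true := by decide +kernel
theorem cc524 : certOK x524 s27 [mkR x144 x81 (nat_lit 3398599031390208),mkR x222 x36 (nat_lit 3398599031455744),mkR x183 x17 (nat_lit 14606575622383080470348032),mkR x252 x3 (nat_lit 14606576630626447047917824),mkR x58 x151 (nat_lit 25260524216771936412800877840107045121),mkR x54 x81 (nat_lit 1659917339837165174116917777762756979655169),mkR x54 x151 (nat_lit 25260524216771936412800877840107045121),mkR x57 x81 (nat_lit 1659917339837165174116917777762756979655169)] = true := by decide +kernel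
theorem cc525 : certOK x525 s25 [mkR x64 x141 (nat_lit 19943612233632272921185651798008922369),mkR x66 x96 (nat_lit 19943612233632272922198123894896984321),mkR x64 x69 (nat_lit 1312146102387974494625603121355568330179073),mkR x66 x46 (nat_lit 86126615883583087603469009471162611872882164225)] = true := by decide +kernel
theorem cc526 : certOK x526 s25 [mkR x64 x143 (nat_lit 19943612233632272921185651798008922369),mkR x66 x97 (nat_lit 19943612233632272922198123894896984321),mkR x29 x142 (nat_lit 1310782314464299170940003815311720696578561),mkR x64 x70 (nat_lit 1312146102387974494625603121355568330179073)] = true := by decide +kernel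
theorem cc527 : certOK x527 s26 [mkR x92 x38 (nat_lit 19385647826624675213017856),mkR x196 x12 (nat_lit 19451760526728135878640384),mkR x123 x72 (nat_lit 19943612233632272921185653997032243457),mkR x126 x39 (nat_lit 19943612233632272922343925733809783297),mkR x124 x45 (nat_lit 1313512548767641388142948235015735547658497),mkR x126 x12 (nat_lit 1313512548767641388142949394413372232041217),mkR x123 x14 (nat_lit 5128171992331922507614955577604864869121)] = true := by decide +kernel
theorem cc528 : certOK x528 s28 [mkR x208 x56 (nat_lit 3961548984811520),mkR x284 x18 (nat_lit 3961548984877056),mkR x107 x115 (nat_lit 25260524216771936412800880039130300673),mkR x105 x56 (nat_lit 1660597904571007051043844526979819539333633),mkR x52 x56 (nat_lit 1660597904571007051043845539443120334308097)] = true := by decide +kernel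
theorem cc529 : certOK x529 s29 [mkR x170 x50 (nat_lit 22602068225202104666993268117592932609),mkR x172 x18 (nat_lit 22602068225202104668151539854370537985)] = true := by decide +kernel
theorem cc530 : certOK x530 s18 [mkR x18 x188 (nat_lit 1484326321593977787306324865099723461165569),mkR x50 x137 (nat_lit 5803419814190659770753282080377627738625),mkR x18 x114 (nat_lit 97366189413972952166462735462906896920581636865)] = true := by decide +kernel
theorem cc531 : certOK x531 s30 [mkR x51 x226 (nat_lit 19943612233632272921185651798008922113),mkR x105 x108 (nat_lit 19943612233632272921185651798008987905),mkR x50 x108 (nat_lit 1310784972920290740771749622925841257333249),mkR x103 x61 (nat_lit 5125513536340352675572341049181675258369),mkR x104 x32 (nat_lit 5125513536340352675831966244960733430273)] = true := by decide +kernel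
theorem cc532 : certOK x532 s1 [] = true := by decide +kernel
theorem cc533 : certOK x533 s1 [] = true := by decide +kernel
theorem cc534 : certOK x534 s31 [mkR x112 x104 (nat_lit 22602068225202104666993265918569677057),mkR x113 x65 (nat_lit 1487059214353311574341015092417858872934657),mkR x110 x56 (nat_lit 22602068225202104668007985417224782337),mkR x21 x136 (nat_lit 97277509790117610068823231005770149853650813697)] = true := by decide +kernel
theorem cc535 : certOK x535 s32 [mkR x54 x187 (nat_lit 25260524216771936412800877840107045121),mkR x56 x110 (nat_lit 6483984548032536697680031295241164227073),mkR x54 x110 (nat_lit 1659917339837165174116917777762756979655169)] = true := by decide +kernel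
theorem cc536 : certOK x536 s33 [mkR x57 x175 (nat_lit 19943612233632272921185649598985732353),mkR x54 x117 (nat_lit 5122855080348782843826532872111161147905),mkR x56 x114 (nat_lit 19943612233632272922055690959611560449),mkR x54 x74 (nat_lit 85993681857344943616779166219580144088468488961),mkR x5 x212 (nat_lit 1309421184996615417086151186916757179794177)] = true := by decide +kernel
theorem cc537 : certOK x537 s34 [mkR x23 x258 (nat_lit 22602068225202104666993261520523100417),mkR x24 x186 (nat_lit 5800761358199089939007473901108090438145)] = true := by decide +kernel
theorem cc538 : certOK x538 s35 [mkR x64 x187 (nat_lit 22602068225202104666993265918569611521),mkR x66 x110 (nat_lit 1486370674251494987918850920360633654379009),mkR x64 x110 (nat_lit 1486370674251494987918850920360633654379009)] = true := by decide +kernel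

end Pool.Agent.Lib.MP84
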