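import Pool.Agent.Lib.MP_84c3e0_co.Defs

set_option maxRecDepth 100000

namespace Pool.Agent.Lib.MP84

theorem cc680 : certOK x680 s139 [mkR x329 x285 (nat_lit 5654796891652352),mkR x323 x222 (nat_lit 9216877307366323732370260871773459382784),mkR x291 x285 (nat_lit 370452619854562328832),mkR x330 x222 (nat_lit 370886654268650095104),mkR x249 x332 (nat_lit 7855747839682569878516762439847363346433),mkR x323 x225 (nat_lit 7855747839682569878516762448643456303617),mkR x287 x285 (nat_lit 7845114015716290551533531983365120590081)] = true := by decide +kernel
theorem cc681 : certOK x681 s136 [mkR x359 x294 (nat_lit 5094045961420800),mkR x404 x210 (nat_lit 5094045961486336),mkR x249 x265 (nat_lit 7175183105840692951923713636229967970560),mkR x354 x166 (nat_lit 9216877307366323732703961843770530660608),mkR x248 x294 (nat_lit 2184640724997226994272678845271502313554433),mkR x354 x210 (nat_lit 8536312573524446805443511093959969603841),mkR x249 x294 (nat_lit 2184640724997226994272678845271502313554433)] = true := by decide +kernel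
theorem cc682 : certOK x682 s137 [mkR x371 x279 (nat_lit 5652597868396544),mkR x368 x259 (nat_lit 9222194219349463395861876097815557505024),mkR x267 x358 (nat_lit 27918980208341768158608500756760756481),mkR x303 x304 (nat_lit 370166639079200981248),mkR x267 x303 (nat_lit 1837550052281878191708290938079177200500993),mkR x303 x216 (nat_lit 24259204259089354976199424),mkR x266 x303 (nat_lit 1837550052281878191708290938079177200500993)] = true := by decide +kernel
theorem cc683 : certOK x683 s138 [mkR x369 x279 (nat_lit 6213348798497024),mkR x367 x204 (nat_lit 7858406295674139710262570614718854136320),mkR x268 x369 (nat_lit 25260524216771936412800888835223388161),mkR x307 x295 (nat_lit 407634333980086567168),mkR x267 x295 (nat_lit 6491959916007246192917456963347729678849),mkR x307 x218 (nat_lit 26695982255484240488694272),mkR x229 x295 (nat_lit 425113766752556762721860275537168868059513345)] = true := by decide +kernel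
theorem cc684 : certOK x684 s140 [mkR x371 x282 (nat_lit 5652597868396544),mkR x368 x260 (nat_lit 9222194219349463395861876097815557505024),mkR x267 x360 (nat_lit 27918980208341768158608500756760756481),mkR x303 x311 (nat_lit 370167202029154402560),mkR x266 x306 (nat_lit 1837550052281878191708290938079177200500993),mkR x303 x219 (nat_lit 24259241152014552441881344),mkR x230 x311 (nat_lit 7180500017823832615451643633469321511425)] = true := by decide +kernel
theorem cc685 : certOK x685 s138 [mkR x338 x285 (nat_lit 6215547821818112),mkR x333 x222 (nat_lit 8538971029516016637189319831781413814784),mkR x303 x284 (nat_lit 407059001326713242112),mkR x386 x210 (nat_lit 407060127226620019200),mkR x268 x284 (nat_lit 1836188922814194437854437439651649150910977),mkR x333 x225 (nat_lit 7177841561832262783335821408651410735617),mkR x300 x284 (nat_lit 7167207737865983456352590943373075022081)] = true := by decide +kernel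
theorem cc686 : certOK x686 s141 [mkR x240 x353 (nat_lit 7169866193857553288098398001140751925760),mkR x394 x251 (nat_lit 5656995914842112),mkR x321 x251 (nat_lit 370454310903445783040),mkR x416 x200 (nat_lit 370311884565230190592),mkR x313 x250 (nat_lit 8536312573524446805443511654710899704321),mkR x345 x194 (nat_lit 24268648848507254190768640),mkR x342 x200 (nat_lit 8544287941499156301051239037991060111873)] = true := by decide +kernel
theorem cc687 : certOK x687 s133 [mkR x344 x241 (nat_lit 407203118713812353536),mkR x417 x187 (nat_lit 407923131704238211072),mkR x281 x241 (nat_lit 26667537089022502161744640),mkR x374 x187 (nat_lit 7858406295674139710262570625713970414081),mkR x312 x241 (nat_lit 2010416153133706500979431046270835035865601)] = true := by decide +kernel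
theorem cc688 : certOK x688 s102 [mkR x347 x329 (nat_lit 5091846938165248),mkR x395 x245 (nat_lit 5091846938230784),mkR x346 x271 (nat_lit 333561383506956910592),mkR x341 x189 (nat_lit 9897442041208200659630565815347061064192),mkR x241 x329 (nat_lit 7853089383691000046770954260577825915393),mkR x341 x245 (nat_lit 7855747839682569878516761876897409925377),mkR x341 x186 (nat_lit 515017051316258538215642519376340715669946881),mkR x173 x398 (nat_lit 2009052365210031177293831740222589355688449)] = true := by decide +kernel
theorem cc689 : certOK x689 s109 [mkR x320 x321 (nat_lit 5652597868396800),mkR x313 x258 (nat_lit 9216877307366323732370260869574436127232),mkR x280 x366 (nat_lit 370021960941171703808),mkR x320 x254 (nat_lit 370742536881550983680),mkR x241 x320 (nat_lit 1835508358080352560927510690434586591232513),mkR x280 x254 (nat_lit 24249759524434765825508096),mkR x202 x321 (nat_lit 1834144570156677237241912830888453840503297),mkR x312 x257 (nat_lit 7175183105840692951590013231580896625153)] = true := by decide +kernel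
theorem cc690 : certOK x690 s142 [mkR x329 x313 (nat_lit 5654796891652352),mkR x323 x250 (nat_lit 9216877307366323732370260871773459382784),mkR x291 x313 (nat_lit 370452619854562328832),mkR x330 x251 (nat_lit 370886654268650095104),mkR x218 x365 (nat_lit 24277982467534888066220288),mkR x323 x256 (nat_lit 7855747839682569878516762448643456303617),mkR x287 x353 (nat_lit 7845114015716290551533531989962190225665)] = true := by decide +kernel
theorem cc691 : certOK x691 s143 [mkR x360 x323 (nat_lit 5094045961420800),mkR x404 x241 (nat_lit 5094045961486336),mkR x359 x268 (nat_lit 333705500894056022016),mkR x354 x187 (nat_lit 10578006775050077586557459147597696598528),mkR x354 x241 (nat_lit 8536312573524446805443511093959969603841),mkR x359 x200 (nat_lit 21869797642778392924455168),mkR x354 x200 (nat_lit 33235892191481517079120749020452159745)] = true := by decide +kernel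
theorem cc692 : certOK x692 s144 [mkR x216 x375 (nat_lit 333270899131968193024),mkR x326 x320 (nat_lit 333272025031874970112),mkR x248 x339 (nat_lit 1836874804460019454444855804090355762200833),mkR x326 x254 (nat_lit 21841315869924187330052864),mkR x214 x398 (nat_lit 7161890825882843792860974595829116436737),mkR x249 x338 (nat_lit 27918980208341768159912013581521125633)] = true := by decide +kernel
theorem cc693 : certOK x693 s135 [mkR x291 x382 (nat_lit 4528896984743936),mkR x361 x320 (nat_lit 4528896984809472),mkR x218 x381 (nat_lit 296377976133525701120),mkR x355 x321 (nat_lit 30577436199911599904416110479274999809),mkR x355 x275 (nat_lit 7861064751665709542008376546586624393217)] = true := by decide +kernel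
theorem cc694 : certOK x694 s143 [mkR x370 x323 (nat_lit 5654796891586560),mkR x412 x241 (nat_lit 5654796891652096),mkR x303 x323 (nat_lit 370166078328270750208),mkR x371 x268 (nat_lit 370455434604329435136),mkR x266 x323 (nat_lit 2011094059411556808074611987869378988278273),mkR x368 x241 (nat_lit 7858406295674139710262570053967924035841)] = true := by decide +kernel
theorem cc695 : certOK x695 s145 [mkR x338 x313 (nat_lit 6215547821818112),mkR x333 x250 (nat_lit 8538971029516016637189319831781413814784),mkR x303 x312 (nat_lit 407059001326713242112),mkR x386 x241 (nat_lit 407060127226620019200),mkR x268 x312 (nat_lit 1836188922814194437854437439651649150910977),mkR x333 x256 (nat_lit 7177841561832262783335821408651410735617),mkR x300 x313 (nat_lit 7167207737865983456352590943373075022081)] = true := by decide +kernel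
theorem cc696 : certOK x696 s106 [mkR x197 x381 (nat_lit 333272025031875035648),mkR x335 x339 (nat_lit 333129035743706021888),mkR x299 x320 (nat_lit 7175183105840692951590012659834850246913),mkR x336 x275 (nat_lit 21869649494049502758371328),mkR x301 x339 (nat_lit 7177841561832262783335820273955410935809),mkR x301 x275 (nat_lit 1838911181749561945562145740021729033650433)] = true := by decide +kernel
theorem cc697 : certOK x697 s127 [mkR x231 x375 (nat_lit 370020832842241606144),mkR x337 x331 (nat_lit 370740845832667463680),mkR x267 x339 (nat_lit 1663328138874349268246788946688232436924673),mkR x336 x275 (nat_lit 24287464383903602741280768),mkR x266 x331 (nat_lit 6494618371998816024663264014518336946689),mkR x266 x275 (nat_lit 109097082386026653021564248300856938034700157441)] = true := by decide +kernel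
theorem cc698 : certOK x698 s97 [mkR x394 x288 (nat_lit 5656995914842112),mkR x438 x204 (nat_lit 5656995914907648),mkR x344 x288 (nat_lit 370310195715369861632),mkR x416 x239 (nat_lit 370311884565230190592),mkR x344 x264 (nat_lit 24268685742558351563292928),mkR x394 x156 (nat_lit 24287575496720206295924992),mkR x312 x288 (nat_lit 8536312573524446805443511654710899704321),mkR x313 x231 (nat_lit 2186682419198752625053460540546304782303745),mkR x240 x340 (nat_lit 2186679760742761055221714732364836221616641)] = true := by decide +kernel
theorem cc699 : certOK x699 s82 [mkR x344 x279 (nat_lit 407203118713812353536),mkR x415 x204 (nat_lit 407204244613719130624),mkR x374 x216 (nat_lit 30577436199911599906008986177163559425),mkR x415 x168 (nat_lit 26686537670578736994517504),mkR x312 x279 (nat_lit 2010416153133706500979431046270835035865601)] = true := by decide +kernel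
theorem cc700 : certOK x700 s144 [mkR x344 x282 (nat_lit 407203118713812353536),mkR x415 x238 (nat_lit 407205370513625972992),mkR x374 x219 (nat_lit 30577436199911599906008986177163559425),mkR x415 x142 (nat_lit 26686537813568025163465472),mkR x374 x150 (nat_lit 2012463164247215271423704503138667492147969)] = true := by decide +kernel
theorem cc701 : certOK x701 s138 [mkR x314 x322 (nat_lit 7853089383691000046770955393074802459136),mkR x436 x210 (nat_lit 6219945868328960),mkR x344 x294 (nat_lit 407203120912835543552),mkR x390 x235 (nat_lit 407348924950771728640),mkR x341 x294 (nat_lit 2183960160263385117345752096061036823642369),mkR x346 x235 (nat_lit 26705316022576508207038720),mkR x341 x210 (nat_lit 143261822669046099990643114841055800333812564481)] = true := by decide +kernel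
theorem cc702 : certOK x702 s136 [mkR x313 x332 (nat_lit 7175183105840692951590014353082757021696),mkR x434 x210 (nat_lit 6780696798429440),mkR x374 x307 (nat_lit 30577436199911599904416119275368022017),mkR x394 x221 (nat_lit 444673067613534880000),mkR x374 x225 (nat_lit 2011107351691514657233341025944379838235137)] = true := by decide +kernel
theorem cc703 : certOK x703 s136 [mkR x329 x345 (nat_lit 5654796891652352),mkR x323 x295 (nat_lit 9897442041208200659297010086636995805696),mkR x291 x345 (nat_lit 370452619854562328832),mkR x329 x288 (nat_lit 370886654268650095104),mkR x249 x383 (nat_lit 7855747839682569878516762439847363346433),mkR x323 x340 (nat_lit 30577436199911599905864873188110958849),mkR x287 x377 (nat_lit 7845114015716290551533531989962190225665)] = true := by decide +kernel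
theorem cc704 : certOK x704 s138 [mkR x359 x358 (nat_lit 5094045961420800),mkR x404 x279 (nat_lit 5094045961486336),mkR x359 x303 (nat_lit 333705500894056022016),mkR x404 x218 (nat_lit 334137846458283524352),mkR x326 x304 (nat_lit 21841315438145971102482944),mkR x359 x231 (nat_lit 21869686963439850573988096),mkR x248 x304 (nat_lit 143261997571524241361443503269796401744066052609),mkR x354 x216 (nat_lit 559619222278053626375640882670854501241586177),mkR x249 x303 (nat_lit 143261823349610833832520041767805010799302476289)] = true := by decide +kernel
theorem cc705 : certOK x705 s136 [mkR x329 x347 (nat_lit 5654796891652352),mkR x323 x291 (nat_lit 9216877307366323732370260871773459382784),mkR x329 x306 (nat_lit 370743102030527725824),mkR x323 x261 (nat_lit 8536312573524446805814682012657740022272),mkR x248 x378 (nat_lit 30577436199911599905864864392017871361),mkR x290 x291 (nat_lit 24306427345770648287904512),mkR x249 x378 (nat_lit 30577436199911599905864864392017871361),mkR x324 x291 (nat_lit 30577436199911599905864868790064448001)] = true := by decide +kernel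
theorem cc706 : certOK x706 s146 [mkR x359 x360 (nat_lit 5094045961420800),mkR x404 x282 (nat_lit 5094045961486336),mkR x359 x306 (nat_lit 333705500894056022016),mkR x404 x220 (nat_lit 334137846458283524352),mkR x326 x311 (nat_lit 21841315438708921055904256),mkR x359 x219 (nat_lit 21869687106992088696357376),mkR x249 x306 (nat_lit 143261823349610833832520041767805010799302476289),mkR x354 x219 (nat_lit 33235892191481517078833081594253804033),mkR x250 x311 (nat_lit 2186682419198752625053460396428917683192321)] = true := by decide +kernel
theorem cc707 : certOK x707 s136 [mkR x329 x361 (nat_lit 5656995914842368),mkR x402 x284 (nat_lit 5656995914907648),mkR x357 x285 (nat_lit 370454310903445783040),mkR x402 x235 (nat_lit 370887782367580258304),mkR x249 x361 (nat_lit 8530995661541307141951896426469778326017),mkR x290 x284 (nat_lit 24287464093990973799006976),mkR x249 x307 (nat_lit 2186001854464910748126533791327043199369729),mkR x286 x361 (nat_lit 2183279595529543240418825346843974263963905),mkR x286 x307 (nat_lit 143261821988481366148766187914306583271252885761)] = true := by decide +kernel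
theorem cc708 : certOK x708 s136 [mkR x329 x372 (nat_lit 6217746845073408),mkR x400 x284 (nat_lit 6217746845008128),mkR x323 x372 (nat_lit 30577436199911599904416117076344766465),mkR x359 x297 (nat_lit 407923131704238211328),mkR x354 x294 (nat_lit 2009743563767839333547741719898333181444353)] = true := by decide +kernel
theorem cc709 : certOK x709 s135 [mkR x371 x358 (nat_lit 5654796891586560),mkR x368 x303 (nat_lit 7180500017823832615081628455423971557376),mkR x303 x357 (nat_lit 370166078328270750208),mkR x371 x303 (nat_lit 370455434604329435136),mkR x231 x357 (nat_lit 24249685306241005689832192),mkR x368 x310 (nat_lit 7863723207657279373754185282209045413889),mkR x368 x216 (nat_lit 515017056633170521355306010992131906744746497)] = true := by decide +kernel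
theorem cc710 : certOK x710 s136 [mkR x338 x345 (nat_lit 6215547821818112),mkR x333 x295 (nat_lit 9219535763357893564116069046644950237696),mkR x303 x344 (nat_lit 407059001326713242112),mkR x386 x279 (nat_lit 407060127226620019200),mkR x268 x344 (nat_lit 1836188922814194437854437439651649150910977),mkR x333 x340 (nat_lit 27918980208341768160200813504695959809),mkR x300 x344 (nat_lit 7167207737865983456352590943373075022081)] = true := by decide +kernel
theorem cc711 : certOK x711 s136 [mkR x338 x347 (nat_lit 6215547821818112),mkR x333 x291 (nat_lit 8538971029516016637189319831781413814784),mkR x386 x282 (nat_lit 407060127226620019200),mkR x333 x261 (nat_lit 7858406295674139710670490345625037701632),mkR x267 x378 (nat_lit 27918980208341768160200804708602872321),mkR x303 x296 (nat_lit 26677019148945653982364416),mkR x300 x378 (nat_lit 7167207737865983456352590949970144657665),mkR x267 x291 (nat_lit 7172524649849123120251836544045298090753),mkR x266 x291 (nat_lit 27918980208341872402895680437944976129)] = true := by decide +kernel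
theorem cc712 : certOK x712 s136 [mkR x338 x361 (nat_lit 6217746845008128),mkR x409 x284 (nat_lit 6217746845073408),mkR x369 x285 (nat_lit 407204244613719196160),mkR x409 x235 (nat_lit 407637716077853671424),mkR x266 x361 (nat_lit 7853089383691000046770955386477732758017),mkR x367 x307 (nat_lit 30577436199911599906006736576373129473)] = true := by decide +kernel
theorem cc713 : certOK x713 s147 [mkR x313 x365 (nat_lit 7175183105840692951590014353082757021696),mkR x434 x241 (nat_lit 6780696798429440),mkR x374 x333 (nat_lit 30577436199911599904416119275368022017),mkR x394 x251 (nat_lit 444673067613534880000),mkR x374 x251 (nat_lit 2011104693235523087401595218330259277545985)] = true := by decide +kernel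
theorem cc714 : certOK x714 s135 [mkR x321 x381 (nat_lit 5654796891586816),mkR x394 x321 (nat_lit 5654796891652096),mkR x344 x339 (nat_lit 370310756466300092672),mkR x313 x258 (nat_lit 7175183105840692951961038904792637899520),mkR x240 x381 (nat_lit 7850430927699430215025147209407218647553),mkR x280 x321 (nat_lit 24249759236206588697117440),mkR x202 x382 (nat_lit 7850430927699430215395305381138784190977),mkR x312 x321 (nat_lit 7855747839682569878516762439847363346945)] = true := by decide +kernel
theorem cc715 : certOK x715 s136 [mkR x320 x387 (nat_lit 6215547821817856),mkR x390 x320 (nat_lit 6215547821752576),mkR x346 x321 (nat_lit 407490783940987453696),mkR x390 x254 (nat_lit 407780703166999298560),mkR x312 x387 (nat_lit 27918980208341768158608502955784077313),mkR x341 x329 (nat_lit 1835516333448327270422748113279147296489729)] = true := by decide +kernel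
theorem cc716 : certOK x716 s148 [mkR x329 x385 (nat_lit 6217746845073408),mkR x355 x323 (nat_lit 9208901939391614237132838592361730736384),mkR x323 x385 (nat_lit 30577436199911599904416117076344766465),mkR x360 x324 (nat_lit 407779016516162355456),mkR x355 x313 (nat_lit 30577436199911599906008414431117181185)] = true := by decide +kernel
theorem cc717 : certOK x717 s138 [mkR x359 x375 (nat_lit 5091846938230784),mkR x354 x329 (nat_lit 9216877307366323732370260308823505961216),mkR x248 x426 (nat_lit 30577436199911599904416112678298190081),mkR x289 x387 (nat_lit 333272590180851712256),mkR x248 x398 (nat_lit 30577436199911599905720751402965271041),mkR x290 x329 (nat_lit 21841352762851583819055872),mkR x215 x388 (nat_lit 7855747839682569878850027686381463142913)] = true := by decide +kernel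
theorem cc718 : certOK x718 s149 [mkR x357 x375 (nat_lit 5652597868331264),mkR x356 x373 (nat_lit 9222194219349463395861876097815557439744),mkR x219 x432 (nat_lit 370307939517509795840),mkR x291 x382 (nat_lit 370740848031690719488),mkR x248 x381 (nat_lit 7169866193857553288098398001140751991297),mkR x326 x339 (nat_lit 24259130472113060137992704),mkR x214 x432 (nat_lit 7161890825882843792860975152182000222209),mkR x249 x381 (nat_lit 27918980208341768160056687321503826433)] = true := by decide +kernel
theorem cc719 : certOK x719 s150 [mkR x339 x380 (nat_lit 6217746845008128),mkR x409 x312 (nat_lit 6217746845073408),mkR x308 x380 (nat_lit 407201992813905510656),mkR x369 x313 (nat_lit 407204244613719196160),mkR x267 x380 (nat_lit 7853089383691000046770955386477732758017),mkR x333 x313 (nat_lit 7858406295674139710262570616917877457409),mkR x406 x250 (nat_lit 30577436199911599906008988376186814721)] = true := by decide +kernel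
theorem cc720 : certOK x720 s148 [mkR x338 x385 (nat_lit 6778497775239168),mkR x407 x313 (nat_lit 6778497775173888),mkR x333 x385 (nat_lit 27918980208341768158608505154807332865),mkR x370 x312 (nat_lit 444384835038359978240),mkR x303 x323 (nat_lit 29132685891824176626467584),mkR x299 x323 (nat_lit 469890164944671362944983632438862590446273025),mkR x300 x323 (nat_lit 7167207737865983456797114241001642394113)] = true := by decide +kernel
theorem cc721 : certOK x721 s149 [mkR x371 x375 (nat_lit 5652597868396544),mkR x368 x364 (nat_lit 9222194219349463395861876097815557505024),mkR x266 x425 (nat_lit 27918980208341768158608500756760756481),mkR x303 x388 (nat_lit 370166639079200981248),mkR x267 x398 (nat_lit 27918980208341768160056691719550272001),mkR x266 x387 (nat_lit 1837550052281878191708290938079177200500993)] = true := by decide +kernel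
theorem cc722 : certOK x722 s138 [mkR x369 x375 (nat_lit 6213348798497024),mkR x367 x339 (nat_lit 7861064751665709542008378228839414825216),mkR x268 x431 (nat_lit 25260524216771936412800888835223388161),mkR x308 x381 (nat_lit 407490218792010711296),mkR x266 x381 (nat_lit 1661969667862657084224681255874824947958273),mkR x307 x330 (nat_lit 26695982255484240488694272)] = true := by decide +kernel
theorem cc723 : certOK x723 s151 [mkR x313 x383 (nat_lit 7175183105840692951590014353082757021696),mkR x434 x279 (nat_lit 6780696798429440),mkR x374 x369 (nat_lit 30577436199911599904416119275368022017),mkR x394 x295 (nat_lit 444817182801610735872),mkR x344 x288 (nat_lit 29142130768907303016006400),mkR x341 x295 (nat_lit 514492335906466451104981995733378575041167873)] = true := by decide +kernel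
theorem cc724 : certOK x724 s152 [mkR x314 x376 (nat_lit 7853089383691000046770955393074802459136),mkR x436 x282 (nat_lit 6219945868328960),mkR x344 x360 (nat_lit 407203120912835543552),mkR x390 x311 (nat_lit 407349487900725149952),mkR x341 x360 (nat_lit 2183960160263385117345752096061036823642369),mkR x374 x282 (nat_lit 8538971029516016637189319833980437135873),mkR x342 x311 (nat_lit 8544287941499156301088131963188525793793)] = true := by decide +kernel
theorem cc725 : certOK x725 s138 [mkR x313 x384 (nat_lit 7175183105840692951590014353082757021696),mkR x434 x282 (nat_lit 6780696798429440),mkR x374 x371 (nat_lit 30577436199911599904416119275368022017),mkR x394 x292 (nat_lit 444673067613534880000),mkR x374 x292 (nat_lit 2011104693235523087401595218330259277545985)] = true := by decide +kernel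
theorem cc726 : certOK x726 s138 [mkR x419 x285 (nat_lit 6782895821750528),mkR x497 x210 (nat_lit 6782895821684736),mkR x390 x284 (nat_lit 444241287198283989504),mkR x420 x235 (nat_lit 444675321612371886336),mkR x374 x284 (nat_lit 2185323948187060441031351402107083480498689),mkR x414 x225 (nat_lit 8541629485507586468935128019847044203009)] = true := by decide +kernel
theorem cc727 : certOK x727 s105 [mkR x436 x320 (nat_lit 0),mkR x482 x245 (nat_lit 0)] = true := by decide +kernel
theorem cc728 : certOK x728 s135 [mkR x330 x407 (nat_lit 6217746845073408),mkR x400 x344 (nat_lit 6217746845008128),mkR x359 x358 (nat_lit 407779016516162355456),mkR x355 x310 (nat_lit 8528337205549737310613864991017278832896),mkR x324 x407 (nat_lit 30577436199911599904416117076344766465),mkR x354 x358 (nat_lit 2009743563767839333547741719898333181444353)] = true := by decide +kernel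
theorem cc729 : certOK x729 s135 [mkR x329 x402 (nat_lit 5656995914842368),mkR x402 x346 (nat_lit 5656995914907648),mkR x357 x370 (nat_lit 370454873853399204096),mkR x402 x296 (nat_lit 371175449793778483456),mkR x323 x378 (nat_lit 33235892191481431651673045860578492929),mkR x399 x291 (nat_lit 33235892191481431651673048059601813761)] = true := by decide +kernel
theorem cc730 : certOK x730 s135 [mkR x329 x409 (nat_lit 6217746845073408),mkR x400 x346 (nat_lit 6217746845008128),mkR x323 x409 (nat_lit 30577436199911599904416117076344766465),mkR x359 x360 (nat_lit 407779016516162355456),mkR x354 x360 (nat_lit 2009743563767839333547741719898333181444353)] = true := by decide +kernel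
theorem cc731 : certOK x731 s135 [mkR x381 x349 (nat_lit 6219945868329216),mkR x380 x293 (nat_lit 9900100497199770491042818265906533171712),mkR x381 x294 (nat_lit 407924822753121731072),mkR x380 x225 (nat_lit 9222194219349463396270083498346962617088),mkR x355 x350 (nat_lit 8528337205549737310206089377498194379009),mkR x380 x294 (nat_lit 33235892191481431651817163247677669889)] = true := by decide +kernel
theorem cc732 : certOK x732 s153 [mkR x402 x361 (nat_lit 5659194938097664),mkR x449 x284 (nat_lit 5659194938163200),mkR x357 x361 (nat_lit 370454313102468973056),mkR x402 x307 (nat_lit 370743669378527657984),mkR x399 x285 (nat_lit 9219535763357893564116068488093043392769),mkR x402 x235 (nat_lit 24297020373803332685463808),mkR x323 x308 (nat_lit 604393576117510709398151713517289512458453505),mkR x399 x222 (nat_lit 35894348183051358306411829938576556545)] = true := by decide +kernel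
theorem cc733 : certOK x733 s138 [mkR x409 x344 (nat_lit 6217746845073408),mkR x406 x288 (nat_lit 9222194219349463395861876662964534182144),mkR x369 x345 (nat_lit 407204244613719196160),mkR x409 x304 (nat_lit 407637716077853671424),mkR x301 x400 (nat_lit 2009732929943873054220758489441850938687745),mkR x333 x345 (nat_lit 7858406295674139710262570616917877457409)] = true := by decide +kernel
theorem cc734 : certOK x734 s135 [mkR x339 x407 (nat_lit 6778497775239168),mkR x407 x345 (nat_lit 6778497775173888),mkR x371 x358 (nat_lit 444528950226435768576),mkR x407 x310 (nat_lit 444531764976202875136),mkR x267 x407 (nat_lit 7172524649849123119844206734564149821697),mkR x303 x357 (nat_lit 29132685891824176626467584),mkR x300 x407 (nat_lit 7167207737865983456352591506323028443137),mkR x266 x358 (nat_lit 1836869487548036314781365925283453582050049)] = true := by decide +kernel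
theorem cc735 : certOK x735 s135 [mkR x338 x402 (nat_lit 6217746845008128),mkR x409 x346 (nat_lit 6217746845073408),mkR x369 x370 (nat_lit 407204807563672617216),mkR x409 x296 (nat_lit 407925383504051896576),mkR x301 x402 (nat_lit 2009732929943873054220758489441850938687745),mkR x333 x378 (nat_lit 30577436199911599906008986177163493889)] = true := by decide +kernel
theorem cc736 : certOK x736 s135 [mkR x339 x427 (nat_lit 6780696798429184),mkR x387 x349 (nat_lit 6780696798494976),mkR x369 x348 (nat_lit 444097169811184878080),mkR x430 x284 (nat_lit 444098295711091655168),mkR x333 x348 (nat_lit 2011096717867548377906357795487897595544065),mkR x385 x293 (nat_lit 30577436199911599906153103564262670849)] = true := by decide +kernel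
theorem cc737 : certOK x737 s143 [mkR x437 x323 (nat_lit 6222144891518976),mkR x482 x241 (nat_lit 6222144891584512),mkR x390 x323 (nat_lit 407348364199841497600),mkR x436 x268 (nat_lit 407637720475900182528),mkR x374 x323 (nat_lit 9219535763357893564116069048843973493249),mkR x415 x241 (nat_lit 26686537381226858982474496),mkR x374 x268 (nat_lit 604567803347830221461276707124471648296829441)] = true := by decide +kernel
theorem cc738 : certOK x738 s154 [mkR x419 x313 (nat_lit 6782895821750528),mkR x414 x250 (nat_lit 9902758953191340322788626442977047282176),mkR x390 x312 (nat_lit 444241287198283989504),mkR x419 x268 (nat_lit 444675321612371886336),mkR x374 x313 (nat_lit 2185323948187060441031351402107083480498689),mkR x414 x256 (nat_lit 8541629485507586468935128019847044203009)] = true := by decide +kernel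
theorem cc739 : certOK x739 s135 [mkR x394 x382 (nat_lit 5656995914842112),mkR x438 x320 (nat_lit 5656995914907648),mkR x345 x381 (nat_lit 370310195715369861632),mkR x416 x339 (nat_lit 370311321615276769280),mkR x313 x381 (nat_lit 8536312573524446805443511654710899704321),mkR x344 x339 (nat_lit 24268648848507254190768640),mkR x313 x338 (nat_lit 559791405155715621238153350222775726886814209)] = true := by decide +kernel
theorem cc740 : certOK x740 s144 [mkR x344 x375 (nat_lit 407203118713812353536),mkR x415 x320 (nat_lit 407204244613719130624),mkR x374 x329 (nat_lit 30577436199911599906008986177163559425),mkR x415 x254 (nat_lit 26686537813568025163465472),mkR x374 x257 (nat_lit 2012463164247215271423704503138667492147969)] = true := by decide +kernel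
theorem cc741 : certOK x741 s148 [mkR x381 x374 (nat_lit 6219945868329216),mkR x380 x323 (nat_lit 9900100497199770491042818265906533171712),mkR x357 x374 (nat_lit 407347236100911464960),mkR x381 x324 (nat_lit 407924822753121731072),mkR x323 x374 (nat_lit 2184643383453218564104424652890020920820225),mkR x358 x333 (nat_lit 26695908615444480563216896),mkR x354 x333 (nat_lit 143306946833158751798406066020998112252797321473)] = true := by decide +kernel
theorem cc742 : certOK x742 s155 [mkR x323 x380 (nat_lit 7855747839682569878516762446444433048064),mkR x449 x312 (nat_lit 5659194938163200),mkR x358 x380 (nat_lit 370454313102468973056),mkR x402 x333 (nat_lit 370743669378527657984),mkR x290 x380 (nat_lit 24287464093993172822196992),mkR x399 x313 (nat_lit 9219535763357893564116068488093043392769),mkR x324 x380 (nat_lit 9216877307366323732370260871773459382785)] = true := by decide +kernel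
theorem cc743 : certOK x743 s135 [mkR x329 x420 (nat_lit 5654796891652352),mkR x323 x381 (nat_lit 9216877307366323732370260871773459382784),mkR x291 x421 (nat_lit 370452619854562328832),mkR x329 x387 (nat_lit 370743102030527725824),mkR x249 x450 (nat_lit 7855747839682569878516762439847363346433),mkR x290 x381 (nat_lit 24306427345770648287904512),mkR x324 x381 (nat_lit 30577436199911599905864868790064448001),mkR x287 x442 (nat_lit 7845114015716290551533531989962190225665)] = true := by decide +kernel
theorem cc744 : certOK x744 s138 [mkR x359 x426 (nat_lit 5094045961420800),mkR x404 x375 (nat_lit 5094045961486336),mkR x359 x387 (nat_lit 333705500894056022016),mkR x404 x330 (nat_lit 334137846458283524352),mkR x326 x388 (nat_lit 21841315438145971102482944),mkR x359 x339 (nat_lit 21869686963439850573988096),mkR x248 x388 (nat_lit 143261997571524241361443503269796401744066052609),mkR x354 x329 (nat_lit 559619222278053626375640882670854501241586177),mkR x249 x398 (nat_lit 143173317945010443272234167066852038357551219457)] = true := by decide +kernel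
theorem cc745 : certOK x745 s156 [mkR x333 x380 (nat_lit 7177841561832262783335821406452387480064),mkR x456 x312 (nat_lit 6219945868328960),mkR x338 x380 (nat_lit 407348362000818307584),mkR x409 x333 (nat_lit 407493603088801071104),mkR x305 x380 (nat_lit 26695907750190402154595072),mkR x406 x313 (nat_lit 8541629485507586468935127448100997824769),mkR x299 x380 (nat_lit 143261648441815780478579989847449181147927544321),mkR x406 x250 (nat_lit 33235892191481535968587247847032881665)] = true := by decide +kernel
theorem cc746 : certOK x746 s135 [mkR x387 x374 (nat_lit 6780696798494976),mkR x475 x313 (nat_lit 6780696798429184),mkR x369 x374 (nat_lit 444097169811184878080),mkR x387 x323 (nat_lit 444674756463395144192),mkR x333 x374 (nat_lit 2011096717867548377906357795487897595544065),mkR x385 x323 (nat_lit 30577436199911599906153103564262670849)] = true := by decide +kernel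
theorem cc747 : certOK x747 s135 [mkR x371 x426 (nat_lit 5654796891586560),mkR x368 x387 (nat_lit 7180500017823832615081628455423971557376),mkR x303 x425 (nat_lit 370166078328270750208),mkR x371 x387 (nat_lit 370455434604329435136),mkR x231 x441 (nat_lit 24278019216907847409337088),mkR x303 x388 (nat_lit 24259203971424127801229824),mkR x266 x398 (nat_lit 30577436199911694703970893968191849217),mkR x368 x329 (nat_lit 515017056633170521355306010992131906744746497)] = true := by decide +kernel
theorem cc748 : certOK x748 s136 [mkR x338 x420 (nat_lit 6215547821818112),mkR x333 x381 (nat_lit 8538971029516016637189319831781413814784),mkR x303 x419 (nat_lit 407059001326713242112),mkR x386 x375 (nat_lit 407060127226620019200),mkR x268 x419 (nat_lit 1836188922814194437854437439651649150910977),mkR x303 x388 (nat_lit 26677018861278227784139264),mkR x300 x419 (nat_lit 7167207737865983456352590943373075022081),mkR x266 x381 (nat_lit 27918980208341872402895680437944976129)] = true := by decide +kernel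
theorem cc749 : certOK x749 s138 [mkR x436 x358 (nat_lit 6222144891518976),mkR x482 x279 (nat_lit 6222144891584512),mkR x390 x357 (nat_lit 407348364199841497600),mkR x436 x303 (nat_lit 407637720475900182528),mkR x374 x357 (nat_lit 9219535763357893564116069048843973493249),mkR x415 x304 (nat_lit 26686537381789808935895552),mkR x374 x303 (nat_lit 604567803347830221461276707124471648296829441)] = true := by decide +kernel
theorem cc750 : certOK x750 s136 [mkR x419 x345 (nat_lit 6782895821750528),mkR x414 x295 (nat_lit 10583323687033217249715375657840583705088),mkR x390 x344 (nat_lit 444241287198283989504),mkR x461 x279 (nat_lit 444242413098190766592),mkR x374 x344 (nat_lit 2185323948187060441031351402107083480498689),mkR x414 x340 (nat_lit 33235892191481431651961285032823292161)] = true := by decide +kernel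
theorem cc751 : certOK x751 s136 [mkR x419 x347 (nat_lit 6782895821750528),mkR x414 x291 (nat_lit 9902758953191340322788626442977047282176),mkR x461 x282 (nat_lit 444242413098190766592),mkR x497 x261 (nat_lit 445108230126552743936),mkR x374 x346 (nat_lit 2185323948187060441031351402107083480498689),mkR x390 x296 (nat_lit 29113797436392262483378944),mkR x374 x292 (nat_lit 143217920799195428193840924102703385525266547457)] = true := by decide +kernel
theorem cc752 : certOK x752 s136 [mkR x419 x361 (nat_lit 6785094844940544),mkR x479 x284 (nat_lit 6785094845005824),mkR x434 x285 (nat_lit 444386530485289943552),mkR x479 x235 (nat_lit 444820001949424418816),mkR x345 x362 (nat_lit 29123204410055025015980800),mkR x390 x307 (nat_lit 29113797004611847232553472),mkR x341 x361 (nat_lit 9216877307366323732814495376075921687041),mkR x374 x307 (nat_lit 154769357001761096256415985818838796927643091457)] = true := by decide +kernel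
theorem cc753 : certOK x753 s136 [mkR x419 x372 (nat_lit 7345845775171584),mkR x477 x284 (nat_lit 7345845775106304),mkR x414 x372 (nat_lit 33235892191481431650223735594951966721),mkR x436 x297 (nat_lit 481855351286082371840),mkR x390 x293 (nat_lit 31569464179270785127482112),mkR x374 x293 (nat_lit 2185323948187060441031353283767311381168897)] = true := by decide +kernel
theorem cc754 : certOK x754 s138 [mkR x381 x391 (nat_lit 6219945868329216),mkR x380 x357 (nat_lit 9900100497199770491042818265906533171712),mkR x357 x390 (nat_lit 407347236100911464960),mkR x381 x358 (nat_lit 407924822753121731072),mkR x323 x390 (nat_lit 2184643383453218564104424652890020920820225),mkR x380 x358 (nat_lit 33235892191481431651817163247677669889)] = true := by decide +kernel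
theorem cc755 : certOK x755 s135 [mkR x403 x400 (nat_lit 5659194938097664),mkR x449 x344 (nat_lit 5659194938163200),mkR x357 x400 (nat_lit 370454313102468973056),mkR x402 x369 (nat_lit 370743669378527657984),mkR x399 x345 (nat_lit 9219535763357893564116068488093043392769),mkR x402 x304 (nat_lit 24297020373803332685463808),mkR x399 x295 (nat_lit 2360922941798222537337183185801242447315457)] = true := by decide +kernel
theorem cc756 : certOK x756 s123 [mkR x381 x393 (nat_lit 6219945868329216),mkR x380 x359 (nat_lit 9900100497199770491042818265906533171712),mkR x357 x393 (nat_lit 407347236100911464960),mkR x381 x360 (nat_lit 407924822753121731072),mkR x355 x394 (nat_lit 8528337205549737310206089377498194379009),mkR x380 x360 (nat_lit 33235892191481431651817163247677669889)] = true := by decide +kernel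
theorem cc757 : certOK x757 s135 [mkR x403 x402 (nat_lit 5659194938097664),mkR x449 x346 (nat_lit 5659194938163200),mkR x357 x402 (nat_lit 370454313102468973056),mkR x402 x370 (nat_lit 370743669378527657984),mkR x399 x347 (nat_lit 9219535763357893564116068488093043392769),mkR x402 x311 (nat_lit 24297131053141875035930880),mkR x399 x291 (nat_lit 35894348183051358306411829938576556545)] = true := by decide +kernel
theorem cc758 : certOK x758 s135 [mkR x446 x348 (nat_lit 6222144891584512),mkR x443 x293 (nat_lit 10583323687033217249715375097089653539072),mkR x358 x404 (nat_lit 407347238299934654976),mkR x400 x349 (nat_lit 407492479387917419008),mkR x354 x404 (nat_lit 2358187390582897180470745702680222708596993),mkR x380 x379 (nat_lit 35894348183051263397625340318191714817)] = true := by decide +kernel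
theorem cc759 : certOK x759 s135 [mkR x444 x348 (nat_lit 6782895821684992),mkR x507 x284 (nat_lit 6782895821684736),mkR x402 x361 (nat_lit 444817185000633991424),mkR x444 x294 (nat_lit 444962989038570045952),mkR x356 x412 (nat_lit 33235892191481431651959022237893329153),mkR x399 x348 (nat_lit 2184648700365201703767916268120461065453825)] = true := by decide +kernel
theorem cc760 : certOK x760 s135 [mkR x411 x400 (nat_lit 6219945868263424),mkR x456 x344 (nat_lit 6219945868328960),mkR x369 x400 (nat_lit 407204246812742386176),mkR x409 x369 (nat_lit 407493603088801071104),mkR x266 x465 (nat_lit 2184640724997226994272678845275900360000001),mkR x333 x400 (nat_lit 8538971029516016637189319831781413814785)] = true := by decide +kernel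
theorem cc761 : certOK x761 s138 [mkR x387 x391 (nat_lit 6780696798494976),mkR x475 x345 (nat_lit 6780696798429184),mkR x369 x390 (nat_lit 444097169811184878080),mkR x430 x344 (nat_lit 444098295711091655168),mkR x333 x390 (nat_lit 2011096717867548377906357795487897595544065),mkR x385 x357 (nat_lit 30577436199911599906153103564262670849)] = true := by decide +kernel
theorem cc762 : certOK x762 s123 [mkR x387 x393 (nat_lit 6780696798494976),mkR x475 x347 (nat_lit 6780696798429184),mkR x369 x393 (nat_lit 444097169811184878080),mkR x430 x346 (nat_lit 444098295711091655168),mkR x385 x359 (nat_lit 30577436199911599906153103564262670849),mkR x430 x311 (nat_lit 29104426203859092716454400),mkR x385 x291 (nat_lit 515366186341631404218819433340487198883054337)] = true := by decide +kernel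
theorem cc763 : certOK x763 s135 [mkR x454 x348 (nat_lit 6782895821750272),mkR x451 x293 (nat_lit 9905417409182910154534434057097607971072),mkR x372 x404 (nat_lit 444240161298377146624),mkR x407 x349 (nat_lit 444242413098190832128),mkR x385 x379 (nat_lit 33235892191481431651961280634776715777),mkR x407 x293 (nat_lit 29113907972741516664832768),mkR x385 x293 (nat_lit 559967676738692650501890869885781722871759617)] = true := by decide +kernel
theorem cc764 : certOK x764 s157 [mkR x419 x385 (nat_lit 7345845775171584),mkR x477 x312 (nat_lit 7345845775106304),mkR x414 x385 (nat_lit 33235892191481431650223735594951966721),mkR x437 x312 (nat_lit 481567120909930725632),mkR x390 x323 (nat_lit 31569464179270785127482112),mkR x374 x323 (nat_lit 2185323948187060441031353283767311381168897)] = true := by decide +kernel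
theorem cc765 : certOK x765 s138 [mkR x314 x441 (nat_lit 7853089383691000046770955393074802459136),mkR x436 x375 (nat_lit 6219945868328960),mkR x344 x426 (nat_lit 407203120912835543552),mkR x390 x388 (nat_lit 407348924950771728640),mkR x341 x426 (nat_lit 2183960160263385117345752096061036823642369),mkR x374 x398 (nat_lit 33235892191481431651817163247677604353)] = true := by decide +kernel
theorem cc766 : certOK x766 s138 [mkR x313 x450 (nat_lit 7175183105840692951590014353082757021696),mkR x434 x375 (nat_lit 6780696798429440),mkR x374 x432 (nat_lit 30577436199911599904416119275368022017),mkR x394 x382 (nat_lit 444673067613534880000),mkR x374 x382 (nat_lit 2011104693235523087401595218330259277545985)] = true := by decide +kernel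
theorem cc767 : certOK x767 s135 [mkR x381 x429 (nat_lit 6782895821750272),mkR x444 x374 (nat_lit 6782895821684992),mkR x380 x429 (nat_lit 33235892191481431650223733395928711169),mkR x402 x374 (nat_lit 444673069812558201088),mkR x399 x380 (nat_lit 2184651358821193273599662075734581626077441)] = true := by decide +kernel
theorem cc768 : certOK x768 s135 [mkR x329 x471 (nat_lit 5656995914842368),mkR x402 x419 (nat_lit 5656995914907648),mkR x357 x431 (nat_lit 370454873853399204096),mkR x402 x388 (nat_lit 370887782367580258304),mkR x323 x420 (nat_lit 8536312573524446805443511656909923025409),mkR x399 x381 (nat_lit 33235892191481431651673048059601813761)] = true := by decide +kernel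
theorem cc769 : certOK x769 s135 [mkR x329 x476 (nat_lit 6217746845073408),mkR x400 x419 (nat_lit 6217746845008128),mkR x323 x476 (nat_lit 30577436199911599904416117076344766465),mkR x359 x426 (nat_lit 407779016516162355456),mkR x354 x426 (nat_lit 2009743563767839333547741719898333181444353)] = true := by decide +kernel
theorem cc770 : certOK x770 s148 [mkR x455 x374 (nat_lit 6782895821750272),mkR x451 x323 (nat_lit 9905417409182910154534434057097607971072),mkR x338 x424 (nat_lit 444241287198283989504),mkR x407 x374 (nat_lit 444242413098190832128),mkR x385 x374 (nat_lit 8541629485507586468935128011050951246337),mkR x407 x323 (nat_lit 29113907972741516664832768),mkR x385 x323 (nat_lit 559967676738692650501890869885781722871759617)] = true := by decide +kernel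
theorem cc771 : certOK x771 s155 [mkR x453 x374 (nat_lit 7343646751850752),mkR x513 x312 (nat_lit 7343646751850496),mkR x409 x374 (nat_lit 481423003522831614208),mkR x452 x323 (nat_lit 481712922748843459072),mkR x367 x429 (nat_lit 30577436199911599906294962554478330113),mkR x406 x380 (nat_lit 2011104693235523087401595218332458300801281)] = true := by decide +kernel
theorem cc772 : certOK x772 s135 [mkR x338 x471 (nat_lit 6217746845008128),mkR x409 x419 (nat_lit 6217746845073408),mkR x369 x431 (nat_lit 407204807563672617216),mkR x409 x388 (nat_lit 407637716077853671424),mkR x301 x471 (nat_lit 2009732929943873054220758489441850938687745),mkR x333 x420 (nat_lit 7858406295674139710262570616917877457409)] = true := by decide +kernel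
theorem cc773 : certOK x773 s135 [mkR x338 x476 (nat_lit 6778497775239168),mkR x407 x421 (nat_lit 6778497775173888),mkR x333 x476 (nat_lit 27918980208341768158608505154807332865),mkR x371 x426 (nat_lit 444528950226435768576),mkR x303 x425 (nat_lit 29132685891824176626467584),mkR x266 x426 (nat_lit 1836869487548036314781365925283453582050049)] = true := by decide +kernel
theorem cc774 : certOK x774 s124 [mkR x421 x407 (nat_lit 7345845775171584),mkR x477 x344 (nat_lit 7345845775106304),mkR x392 x407 (nat_lit 480990660157627236608),mkR x436 x358 (nat_lit 481711236098006515968),mkR x461 x288 (nat_lit 31531685969672618205250304),mkR x477 x224 (nat_lit 31597872743856849954079488),mkR x314 x407 (nat_lit 559442272788798746804808182069627661024690689),mkR x374 x357 (nat_lit 2185323948187060441031353283767311381168897)] = true := by decide +kernel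
theorem cc775 : certOK x775 s135 [mkR x419 x402 (nat_lit 6785094844940544),mkR x479 x346 (nat_lit 6785094845005824),mkR x434 x370 (nat_lit 444387093435243364608),mkR x479 x296 (nat_lit 445107669375622643968),mkR x374 x402 (nat_lit 2359548520050580934324599201112148804698625),mkR x414 x378 (nat_lit 35894348183051263397769457705290826241)] = true := by decide +kernel
theorem cc776 : certOK x776 s135 [mkR x419 x409 (nat_lit 7345845775171584),mkR x477 x346 (nat_lit 7345845775106304),mkR x414 x409 (nat_lit 33235892191481431650223735594951966721),mkR x436 x360 (nat_lit 481711236098006515968),mkR x390 x359 (nat_lit 31569464179270785127482112),mkR x374 x359 (nat_lit 2185323948187060441031353283767311381168897)] = true := by decide +kernel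
theorem cc777 : certOK x777 s135 [mkR x421 x427 (nat_lit 7348044798361600),mkR x462 x349 (nat_lit 7348044798427392),mkR x496 x284 (nat_lit 481280581582662402560),mkR x460 x225 (nat_lit 9908075865174479986762380161033464578816),mkR x414 x348 (nat_lit 2360231743240414381083271757943331925131777),mkR x458 x293 (nat_lit 35894348183051263397913575092390003201)] = true := by decide +kernel
theorem cc778 : certOK x778 s105 [mkR x479 x375 (nat_lit 0),mkR x518 x321 (nat_lit 0)] = true := by decide +kernel
theorem cc779 : certOK x779 s135 [mkR x444 x390 (nat_lit 6782895821684992),mkR x507 x344 (nat_lit 6782895821684736),mkR x404 x400 (nat_lit 444816622050680570112),mkR x444 x358 (nat_lit 444962989038570045952),mkR x356 x452 (nat_lit 33235892191481431651959022237893329153),mkR x399 x390 (nat_lit 2184648700365201703767916268120461065453825)] = true := by decide +kernel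
theorem cc780 : certOK x780 s138 [mkR x446 x393 (nat_lit 6222144891584512),mkR x443 x359 (nat_lit 10583323687033217249715375097089653539072),mkR x357 x447 (nat_lit 407347238299934654976),mkR x400 x410 (nat_lit 407493042337870840064),mkR x354 x446 (nat_lit 2358187390582897180470745702680222708596993),mkR x357 x409 (nat_lit 26695908471331491510616576),mkR x354 x410 (nat_lit 154724579928321159797455599026803677333771452673)] = true := by decide +kernel
theorem cc781 : certOK x781 s138 [mkR x444 x393 (nat_lit 6782895821684992),mkR x507 x346 (nat_lit 6782895821684736),mkR x380 x455 (nat_lit 33235892191481431650223733395928711169),mkR x404 x402 (nat_lit 444816622050680570112),mkR x380 x402 (nat_lit 2185331923555035150526588824949445162500609)] = true := by decide +kernel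
theorem cc782 : certOK x782 s138 [mkR x426 x397 (nat_lit 6785094845006080),mkR x506 x349 (nat_lit 6785094844940288),mkR x422 x396 (nat_lit 35894348183051263396031347516489400577),mkR x470 x348 (nat_lit 444386530485289878016),mkR x423 x349 (nat_lit 35894348183051263397768894755337536001),mkR x380 x396 (nat_lit 2359551178506572504156345008726269365453313)] = true := by decide +kernel
theorem cc783 : certOK x783 s135 [mkR x447 x404 (nat_lit 6224343914774528),mkR x489 x348 (nat_lit 6224343914840064),mkR x400 x404 (nat_lit 407492481586940609024),mkR x446 x372 (nat_lit 407781837862999293952),mkR x443 x348 (nat_lit 9902758953191340322788625882226117181697),mkR x446 x294 (nat_lit 26724353927719052919308800),mkR x443 x293 (nat_lit 649172018662282826821887596474246344061616641)] = true := by decide +kernel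
theorem cc784 : certOK x784 s109 [mkR x454 x390 (nat_lit 6782895821750272),mkR x451 x357 (nat_lit 9905417409182910154534434057097607971072),mkR x369 x445 (nat_lit 444097172010208068096),mkR x407 x391 (nat_lit 444242413098190832128),mkR x370 x391 (nat_lit 29113759966443362760983040),mkR x407 x357 (nat_lit 29113907972741516664832768),mkR x385 x357 (nat_lit 559967676738692650501890869885781722871759617),mkR x451 x304 (nat_lit 33235892191481545524288347653802230017)] = true := by decide +kernel
theorem cc785 : certOK x785 s135 [mkR x453 x390 (nat_lit 7343646751850752),mkR x513 x344 (nat_lit 7343646751850496),mkR x385 x452 (nat_lit 30577436199911599904416121474391277569),mkR x412 x400 (nat_lit 481566555760953983232),mkR x406 x390 (nat_lit 2011102034779531517569849410718337740177665)] = true := by decide +kernel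
theorem cc786 : certOK x786 s138 [mkR x455 x393 (nat_lit 6782895821750272),mkR x451 x359 (nat_lit 9905417409182910154534434057097607971072),mkR x369 x447 (nat_lit 444097172010208068096),mkR x408 x409 (nat_lit 444098860860068397312),mkR x333 x447 (nat_lit 2185321289731068871199605594492962919744001),mkR x369 x409 (nat_lit 29104352127528720843014656),mkR x333 x409 (nat_lit 143351201232883097695886573069636216650696163841)] = true := by decide +kernel
theorem cc787 : certOK x787 s135 [mkR x432 x396 (nat_lit 7345845775171840),mkR x429 x362 (nat_lit 9905417409182910154534434620047561392640),mkR x428 x396 (nat_lit 33235892191481431650223735594951966977),mkR x474 x348 (nat_lit 481136464195563291136),mkR x428 x372 (nat_lit 33235892191481431652104837270945792257)] = true := by decide +kernel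
theorem cc788 : certOK x788 s142 [mkR x414 x380 (nat_lit 8541629485507586468935128017648020947456),mkR x518 x312 (nat_lit 6787293868261376),mkR x419 x380 (nat_lit 444530647872389054976),mkR x497 x333 (nat_lit 444531773772295897088),mkR x392 x380 (nat_lit 29132686037637010655609600),mkR x461 x312 (nat_lit 29113870791590341093950208),mkR x374 x380 (nat_lit 166142737053011714058599202137889461295693038337),mkR x414 x353 (nat_lit 38552804174621208941830055874770567937)] = true := by decide +kernel
theorem cc789 : certOK x789 s135 [mkR x462 x374 (nat_lit 7348044798427392),mkR x458 x363 (nat_lit 11269205332858233840133740666094218182912),mkR x434 x374 (nat_lit 481279455682755625472),mkR x496 x313 (nat_lit 481280581582662402560),mkR x414 x374 (nat_lit 2360231743240414381083271757943331925131777),mkR x458 x323 (nat_lit 35894348183051263397913575092390003201)] = true := by decide +kernel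
theorem cc790 : certOK x790 s138 [mkR x436 x426 (nat_lit 6222144891518976),mkR x482 x375 (nat_lit 6222144891584512),mkR x390 x425 (nat_lit 407348364199841497600),mkR x436 x387 (nat_lit 407637720475900182528),mkR x374 x425 (nat_lit 9219535763357893564116069048843973493249),mkR x415 x388 (nat_lit 26686537381789808935895552),mkR x374 x387 (nat_lit 604567803347830221461276707124471648296829441)] = true := by decide +kernel
theorem cc791 : certOK x791 s136 [mkR x419 x420 (nat_lit 6782895821750528),mkR x414 x381 (nat_lit 9902758953191340322788626442977047282176),mkR x390 x419 (nat_lit 444241287198283989504),mkR x461 x375 (nat_lit 444242413098190766592),mkR x374 x419 (nat_lit 2185323948187060441031351402107083480498689),mkR x390 x388 (nat_lit 29113797148724836285153792),mkR x374 x382 (nat_lit 143217920799195428193840924102703385525266547457)] = true := by decide +kernel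
theorem cc792 : certOK x792 s135 [mkR x426 x414 (nat_lit 6785094845006080),mkR x506 x374 (nat_lit 6785094844940288),mkR x400 x414 (nat_lit 444385404585383100928),mkR x425 x385 (nat_lit 444819438999470997760),mkR x361 x414 (nat_lit 29132686323050438017090048),mkR x423 x374 (nat_lit 35894348183051263397768894755337536001),mkR x354 x414 (nat_lit 2358187390582897180470747439099362626699777)] = true := by decide +kernel
theorem cc793 : certOK x793 s142 [mkR x447 x424 (nat_lit 6224343914774528),mkR x489 x374 (nat_lit 6224343914840064),mkR x446 x385 (nat_lit 407781837862999293952),mkR x489 x363 (nat_lit 408358861565256073216),mkR x328 x484 (nat_lit 26686353056214659125740032),mkR x358 x424 (nat_lit 26695908470770740580385536),mkR x380 x385 (nat_lit 2535817444571618628230374648242827094589953),mkR x443 x323 (nat_lit 649172018662282826821887596474246344061616641)] = true := by decide +kernel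
theorem cc794 : certOK x794 s138 [mkR x381 x463 (nat_lit 6219945868329216),mkR x380 x425 (nat_lit 9900100497199770491042818265906533171712),mkR x357 x462 (nat_lit 407347236100911464960),mkR x381 x426 (nat_lit 407924822753121731072),mkR x355 x464 (nat_lit 8528337205549737310206089377498194379009),mkR x380 x426 (nat_lit 33235892191481431651817163247677669889)] = true := by decide +kernel
theorem cc795 : certOK x795 s135 [mkR x403 x471 (nat_lit 5659194938097664),mkR x449 x419 (nat_lit 5659194938163200),mkR x357 x471 (nat_lit 370454313102468973056),mkR x402 x431 (nat_lit 370743669378527657984),mkR x399 x420 (nat_lit 9219535763357893564116068488093043392769),mkR x402 x388 (nat_lit 24297020373803332685463808),mkR x399 x381 (nat_lit 35894348183051358306411829938576556545)] = true := by decide +kernel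
theorem cc796 : certOK x796 s158 [mkR x455 x424 (nat_lit 6785094844940288),mkR x494 x374 (nat_lit 6785094845005824),mkR x454 x385 (nat_lit 444531771573272707072),mkR x494 x363 (nat_lit 445108795275529486336),mkR x430 x374 (nat_lit 29104425914507214704411392),mkR x475 x324 (nat_lit 29123389743875740426895872),mkR x302 x484 (nat_lit 604044438433681851825143053748343658451632641),mkR x367 x424 (nat_lit 604391534423309183767370933270770821755896577)] = true := by decide +kernel
theorem cc797 : certOK x797 s135 [mkR x431 x414 (nat_lit 7345845775171840),mkR x429 x405 (nat_lit 10588640599016356913206991449031658504448),mkR x409 x414 (nat_lit 481278890533779013888),mkR x432 x385 (nat_lit 481569372709744410880),mkR x385 x414 (nat_lit 2186004512920902317958278151324146040177153),mkR x428 x385 (nat_lit 33235892191481431652104837270945792257)] = true := by decide +kernel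
theorem cc798 : certOK x798 s135 [mkR x411 x471 (nat_lit 6219945868263424),mkR x456 x419 (nat_lit 6219945868328960),mkR x369 x471 (nat_lit 407204246812742386176),mkR x409 x431 (nat_lit 407493603088801071104),mkR x406 x420 (nat_lit 8541629485507586468935127448100997824769),mkR x409 x388 (nat_lit 26705464030000562017861888),mkR x406 x381 (nat_lit 33235892191481535968587247847032881665)] = true := by decide +kernel
theorem cc799 : certOK x799 s138 [mkR x387 x463 (nat_lit 6780696798494976),mkR x475 x420 (nat_lit 6780696798429184),mkR x369 x462 (nat_lit 444097169811184878080),mkR x430 x419 (nat_lit 444098295711091655168),mkR x333 x462 (nat_lit 2011096717867548377906357795487897595544065),mkR x385 x425 (nat_lit 30577436199911599906153103564262670849)] = true := by decide +kernel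
theorem cc800 : certOK x800 s135 [mkR x481 x400 (nat_lit 6787293868195840),mkR x518 x344 (nat_lit 6787293868261376),mkR x434 x400 (nat_lit 444386532684313133568),mkR x497 x369 (nat_lit 444531773772295897088),mkR x347 x465 (nat_lit 29113723215948901557273088),mkR x414 x400 (nat_lit 9902758953191340322788626442977047282177),mkR x414 x377 (nat_lit 38552804174621208941830055874770567937)] = true := by decide +kernel
theorem cc801 : certOK x801 s138 [mkR x462 x391 (nat_lit 7348044798427392),mkR x458 x358 (nat_lit 10585982143024787081461183837110121071104),mkR x496 x344 (nat_lit 481280581582662402560),mkR x459 x340 (nat_lit 9905417409182910155016430120574688297472),mkR x414 x390 (nat_lit 2360231743240414381083271757943331925131777),mkR x458 x357 (nat_lit 35894348183051263397913575092390003201)] = true := by decide +kernel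
theorem cc802 : certOK x802 s123 [mkR x462 x393 (nat_lit 7348044798427392),mkR x458 x360 (nat_lit 10585982143024787081461183837110121071104),mkR x434 x393 (nat_lit 481279455682755625472),mkR x496 x346 (nat_lit 481280581582662402560),mkR x458 x359 (nat_lit 35894348183051263397913575092390003201),mkR x496 x291 (nat_lit 31541204634294989386416896),mkR x458 x291 (nat_lit 604744755495541092601941153536696905864708865)] = true := by decide +kernel
theorem cc803 : certOK x803 s135 [mkR x462 x404 (nat_lit 7350243821617408),mkR x516 x348 (nat_lit 7350243821682688),mkR x435 x404 (nat_lit 481279457881778815488),mkR x477 x349 (nat_lit 481424698969761579520),mkR x458 x379 (nat_lit 38552804174621095143721752162904048129),mkR x477 x293 (nat_lit 31550649367262927700165376),mkR x458 x293 (nat_lit 649346245892602338885012590081991429853414145)] = true := by decide +kernel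
theorem cc804 : certOK x804 s135 [mkR x462 x412 (nat_lit 7910994751848448),mkR x515 x349 (nat_lit 7910994751783168),mkR x458 x412 (nat_lit 35894348183051263396031351914535911425),mkR x479 x361 (nat_lit 518749404582478151936),mkR x459 x362 (nat_lit 2360920283342230967505435930002756166812161),mkR x414 x361 (nat_lit 2360231743240414381083273784281697855079169)] = true := by decide +kernel
theorem cc805 : certOK x805 s135 [mkR x425 x435 (nat_lit 6785094845006080),mkR x422 x400 (nat_lit 10583323687033217249715375660039606960640),mkR x400 x434 (nat_lit 444385404585383100928),mkR x470 x390 (nat_lit 444386530485289878016),mkR x358 x465 (nat_lit 29161020378958367719162624),mkR x423 x400 (nat_lit 35894348183051263397769457705290891777),mkR x354 x465 (nat_lit 35894348183051377305979511108274291201)] = true := by decide +kernel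
theorem cc806 : certOK x806 s135 [mkR x446 x445 (nat_lit 6224343914774528),mkR x489 x390 (nat_lit 6224343914840064),mkR x400 x444 (nat_lit 407492481586940609024),mkR x447 x407 (nat_lit 407781837862999293952),mkR x443 x390 (nat_lit 9902758953191340322788625882226117181697),mkR x446 x358 (nat_lit 26724353927719052919308800),mkR x443 x357 (nat_lit 649172018662282826821887596474246344061616641)] = true := by decide +kernel
theorem cc807 : certOK x807 s135 [mkR x425 x437 (nat_lit 6785094845006080),mkR x422 x402 (nat_lit 10583323687033217249715375660039606960640),mkR x400 x436 (nat_lit 444385404585383100928),mkR x425 x402 (nat_lit 444962991237593367040),mkR x361 x436 (nat_lit 29132686323050438017090048),mkR x422 x409 (nat_lit 35894348183051263397768896954360791297),mkR x354 x436 (nat_lit 2358187390582897180470747439099362626699777),mkR x423 x402 (nat_lit 35894348183051263397769457705290891777)] = true := by decide +kernel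
theorem cc808 : certOK x808 s135 [mkR x446 x447 (nat_lit 6224343914774528),mkR x490 x394 (nat_lit 6224343914840064),mkR x400 x446 (nat_lit 407492481586940609024),mkR x446 x409 (nat_lit 407781837862999293952),mkR x443 x394 (nat_lit 9902758953191340322788625882226117181697),mkR x446 x360 (nat_lit 26724353927719052919308800),mkR x443 x359 (nat_lit 649172018662282826821887596474246344061616641)] = true := by decide +kernel
theorem cc809 : certOK x809 s136 [mkR x425 x448 (nat_lit 6787293868196096),mkR x488 x395 (nat_lit 6787293868261376),mkR x422 x448 (nat_lit 38552804174621095141838961637050024193),mkR x445 x397 (nat_lit 444530647872389054976),mkR x423 x395 (nat_lit 9902758953191340322788626445176070603265),mkR x399 x448 (nat_lit 2533095185636251120522666058516471153230081)] = true := by decide +kernel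
theorem cc810 : certOK x810 s136 [mkR x425 x456 (nat_lit 7348044798427136),mkR x486 x395 (nat_lit 7348044798361856),mkR x423 x456 (nat_lit 35894348183051263396031349715512655873),mkR x447 x397 (nat_lit 481711238297029837056),mkR x422 x404 (nat_lit 9219535763357893564116070183539973358081),mkR x443 x395 (nat_lit 2359556495418555643819836623956709510086913)] = true := by decide +kernel
theorem cc811 : certOK x811 s136 [mkR x454 x444 (nat_lit 6785094844940288),mkR x494 x390 (nat_lit 6785094845005824),mkR x407 x445 (nat_lit 444242415297214022144),mkR x454 x391 (nat_lit 444531208623319286016),mkR x385 x444 (nat_lit 9222194219349463395861877225914487603713),mkR x430 x413 (nat_lit 29104425915633114611253760),mkR x302 x500 (nat_lit 604044438433681851825143053748343658451632641)] = true := by decide +kernel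
theorem cc812 : certOK x812 s135 [mkR x432 x435 (nat_lit 7345845775171840),mkR x428 x400 (nat_lit 9905417409182910154534434620047561392640),mkR x409 x434 (nat_lit 481278890533779013888),mkR x474 x390 (nat_lit 481136464195563291136),mkR x385 x434 (nat_lit 2186004512920902317958278151324146040177153),mkR x428 x390 (nat_lit 2187370959300569211475623264982114234401281)] = true := by decide +kernel
theorem cc813 : certOK x813 s135 [mkR x432 x437 (nat_lit 7345845775171840),mkR x428 x402 (nat_lit 9905417409182910154534434620047561392640),mkR x409 x436 (nat_lit 481278890533779013888),mkR x432 x402 (nat_lit 481712924947866780160),mkR x385 x436 (nat_lit 2186004512920902317958278151324146040177153),mkR x428 x409 (nat_lit 33235892191481431652104837270945792257)] = true := by decide +kernel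
theorem cc814 : certOK x814 s136 [mkR x432 x448 (nat_lit 7348044798361856),mkR x492 x395 (nat_lit 7348044798427136),mkR x428 x448 (nat_lit 35894348183051263396031349715512590593),mkR x432 x397 (nat_lit 481424696770738389504),mkR x428 x395 (nat_lit 2361592872708098134937125256373058997977601)] = true := by decide +kernel
theorem cc815 : certOK x815 s135 [mkR x464 x429 (nat_lit 7910994751848448),mkR x515 x374 (nat_lit 7910994751783168),mkR x459 x429 (nat_lit 35894348183051263396031351914535911425),mkR x479 x374 (nat_lit 518605289394402361600),mkR x390 x429 (nat_lit 33968389459645566453678592),mkR x458 x380 (nat_lit 2360920283342230967505435930002756166812161)] = true := by decide +kernel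
theorem cc816 : certOK x816 s135 [mkR x419 x471 (nat_lit 6785094844940544),mkR x479 x419 (nat_lit 6785094845005824),mkR x434 x431 (nat_lit 444387093435243364608),mkR x479 x388 (nat_lit 444820001949424418816),mkR x374 x471 (nat_lit 2359548520050580934324599201112148804698625),mkR x414 x420 (nat_lit 9222194219349463395861877228113510924801)] = true := by decide +kernel
theorem cc817 : certOK x817 s135 [mkR x419 x476 (nat_lit 7345845775171584),mkR x477 x419 (nat_lit 7345845775106304),mkR x414 x476 (nat_lit 33235892191481431650223735594951966721),mkR x436 x426 (nat_lit 481711236098006515968),mkR x390 x425 (nat_lit 31569464179270785127482112),mkR x374 x425 (nat_lit 2185323948187060441031353283767311381168897)] = true := by decide +kernel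
theorem cc818 : certOK x818 s148 [mkR x425 x473 (nat_lit 7348044798427136),mkR x486 x414 (nat_lit 7348044798361856),mkR x423 x473 (nat_lit 35894348183051263396031349715512655873),mkR x447 x424 (nat_lit 481855353485105627392),mkR x422 x414 (nat_lit 35894348183051263397913007744390136321),mkR x443 x414 (nat_lit 2359556495418555643819836623956709510086913)] = true := by decide +kernel
theorem cc819 : certOK x819 s135 [mkR x446 x462 (nat_lit 6222144891584512),mkR x443 x425 (nat_lit 10583323687033217249715375097089653539072),mkR x357 x509 (nat_lit 407347238299934654976),mkR x381 x462 (nat_lit 407636594575993340416),mkR x354 x508 (nat_lit 2358187390582897180470745702680222708596993),mkR x357 x476 (nat_lit 26695908471331491510616576),mkR x355 x476 (nat_lit 35894348183051367714249609884494659841)] = true := by decide +kernel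
theorem cc820 : certOK x820 s135 [mkR x444 x462 (nat_lit 6782895821684992),mkR x507 x419 (nat_lit 6782895821684736),mkR x404 x471 (nat_lit 444816622050680570112),mkR x444 x426 (nat_lit 444962989038570045952),mkR x356 x514 (nat_lit 33235892191481431651959022237893329153),mkR x399 x462 (nat_lit 2184648700365201703767916268120461065453825)] = true := by decide +kernel
theorem cc821 : certOK x821 s135 [mkR x432 x468 (nat_lit 7348044798361856),mkR x492 x414 (nat_lit 7348044798427136),mkR x428 x468 (nat_lit 35894348183051263396031349715512590593),mkR x453 x429 (nat_lit 481281144532615889152),mkR x428 x429 (nat_lit 2362273437441940011864052005587922534400257)] = true := by decide +kernel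
theorem cc822 : certOK x822 s148 [mkR x432 x473 (nat_lit 7908795728592896),mkR x491 x414 (nat_lit 7908795728527616),mkR x408 x473 (nat_lit 517884711254999761152),mkR x455 x424 (nat_lit 518605287195379040512),mkR x386 x473 (nat_lit 33949536598406710163472896),mkR x428 x414 (nat_lit 33235892191481431652248948060975137281),mkR x428 x405 (nat_lit 143441276705641373449382531272643111910142771713)] = true := by decide +kernel
theorem cc823 : certOK x823 s135 [mkR x454 x462 (nat_lit 6782895821750272),mkR x451 x425 (nat_lit 9905417409182910154534434057097607971072),mkR x369 x509 (nat_lit 444097172010208068096),mkR x408 x476 (nat_lit 444098860860068397312),mkR x333 x509 (nat_lit 2185321289731068871199605594492962919744001),mkR x369 x476 (nat_lit 29104352127528720843014656),mkR x333 x476 (nat_lit 143351201232883097695886573069636216650696163841)] = true := by decide +kernel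
theorem cc824 : certOK x824 s135 [mkR x453 x462 (nat_lit 7343646751850752),mkR x513 x419 (nat_lit 7343646751850496),mkR x385 x514 (nat_lit 30577436199911599904416121474391277569),mkR x412 x471 (nat_lit 481566555760953983232),mkR x406 x462 (nat_lit 2011102034779531517569849410718337740177665)] = true := by decide +kernel
theorem cc825 : certOK x825 s138 [mkR x462 x452 (nat_lit 7910994751848448),mkR x515 x391 (nat_lit 7910994751783168),mkR x458 x452 (nat_lit 35894348183051263396031351914535911425),mkR x482 x400 (nat_lit 518748841632524730624),mkR x460 x400 (nat_lit 2360920283342230967505435930002756166812161)] = true := by decide +kernel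
theorem cc826 : certOK x826 s138 [mkR x462 x446 (nat_lit 7350243821617408),mkR x516 x393 (nat_lit 7350243821682688),mkR x434 x447 (nat_lit 481279457881778815488),mkR x477 x410 (nat_lit 481425261919715000576),mkR x414 x447 (nat_lit 2534456315103934874376519556948397249331713),mkR x459 x394 (nat_lit 9905417409182910154534434622246584713729),mkR x414 x409 (nat_lit 166232114941600889905105396931335890990161658369)] = true := by decide +kernel

end Pool.Agent.Lib.MP84
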