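import Pool.Agent.Lib.MP_84c3e0_co.Defs

set_option maxRecDepth 100000

namespace Pool.Agent.Lib.MP84

theorem cc827 : certOK x827 s138 [mkR x462 x454 (nat_lit 7910994751848448),mkR x515 x393 (nat_lit 7910994751783168),mkR x458 x454 (nat_lit 35894348183051263396031351914535911425),mkR x482 x402 (nat_lit 518748841632524730624),mkR x460 x402 (nat_lit 2360920283342230967505435930002756166812161)] = true := by decide +kernel
theorem cc828 : certOK x828 s135 [mkR x498 x396 (nat_lit 7913193775104256),mkR x495 x362 (nat_lit 11269205332858233840133741231243194860032),mkR x477 x395 (nat_lit 518317624167227261440),mkR x498 x361 (nat_lit 518895210819437527552),mkR x458 x395 (nat_lit 2535139538293768321135192113779580369764865),mkR x495 x361 (nat_lit 38552804174621095143865869550003225089)] = true := by decide +kernel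
theorem cc829 : certOK x829 s135 [mkR x419 x514 (nat_lit 0),mkR x462 x462 (nat_lit 256)] = true := by decide +kernel
theorem cc830 : certOK x830 s135 [mkR x425 x491 (nat_lit 7348044798427136),mkR x486 x434 (nat_lit 7348044798361856),mkR x423 x491 (nat_lit 35894348183051263396031349715512655873),mkR x446 x445 (nat_lit 481855353485105627392),mkR x443 x434 (nat_lit 2359556495418555643819836623956709510086913)] = true := by decide +kernel
theorem cc831 : certOK x831 s135 [mkR x425 x487 (nat_lit 6787293868196096),mkR x488 x436 (nat_lit 6787293868261376),mkR x422 x487 (nat_lit 38552804174621095141838961637050024193),mkR x444 x454 (nat_lit 444531210822342476032),mkR x423 x436 (nat_lit 9902758953191340322788626445176070603265),mkR x399 x487 (nat_lit 2533095185636251120522666058516471153230081)] = true := by decide +kernel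
theorem cc832 : certOK x832 s135 [mkR x425 x492 (nat_lit 7348044798427136),mkR x486 x436 (nat_lit 7348044798361856),mkR x423 x492 (nat_lit 35894348183051263396031349715512655873),mkR x446 x447 (nat_lit 481855353485105627392),mkR x443 x436 (nat_lit 2359556495418555643819836623956709510086913)] = true := by decide +kernel
theorem cc833 : certOK x833 s135 [mkR x471 x439 (nat_lit 7350243821682944),mkR x469 x427 (nat_lit 11269205332858233840133740668293241438464),mkR x467 x438 (nat_lit 38552804174621095141838963836073345281),mkR x505 x395 (nat_lit 481424698969761513984),mkR x467 x412 (nat_lit 2536505984673435214652537227435349540733185)] = true := by decide +kernel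
theorem cc834 : certOK x834 s135 [mkR x488 x448 (nat_lit 6789492891451392),mkR x524 x395 (nat_lit 6789492891516928),mkR x444 x448 (nat_lit 444530650071412244992),mkR x507 x412 (nat_lit 444531775971319152640),mkR x357 x503 (nat_lit 29113760253554436075422464),mkR x423 x449 (nat_lit 10583323687033217249715375660039606960641),mkR x422 x412 (nat_lit 177650271391043622307511736607287683931621753345),mkR x423 x412 (nat_lit 693946372501739909844398427320681355278483969)] = true := by decide +kernel
theorem cc835 : certOK x835 s135 [mkR x432 x485 (nat_lit 7348044798361856),mkR x492 x434 (nat_lit 7348044798427136),mkR x428 x485 (nat_lit 35894348183051263396031349715512590593),mkR x453 x452 (nat_lit 481281144532615889152),mkR x428 x434 (nat_lit 2361592872708098134937125256373058997977601)] = true := by decide +kernel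
theorem cc836 : certOK x836 s135 [mkR x432 x491 (nat_lit 7908795728592896),mkR x491 x434 (nat_lit 7908795728527616),mkR x454 x444 (nat_lit 518605287195379040512),mkR x491 x413 (nat_lit 518608101945146147072),mkR x386 x491 (nat_lit 33949536598406710163472896),mkR x428 x444 (nat_lit 8541629485507586468935129143547927790081),mkR x428 x401 (nat_lit 33235892191481564450503649892703011585)] = true := by decide +kernel
theorem cc837 : certOK x837 s135 [mkR x432 x487 (nat_lit 7348044798361856),mkR x492 x436 (nat_lit 7348044798427136),mkR x428 x487 (nat_lit 35894348183051263396031349715512590593),mkR x453 x454 (nat_lit 481281144532615889152),mkR x428 x455 (nat_lit 2362273437441940011864052005587922534400257)] = true := by decide +kernel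
theorem cc838 : certOK x838 s135 [mkR x476 x439 (nat_lit 7910994751848704),mkR x541 x395 (nat_lit 7910994751782912),mkR x472 x438 (nat_lit 35894348183051263396031351914535911681),mkR x512 x395 (nat_lit 518174632680034927104),mkR x472 x412 (nat_lit 2362959319087765028454470370033226215457025)] = true := by decide +kernel
theorem cc839 : certOK x839 s158 [mkR x517 x424 (nat_lit 7352442844872704),mkR x547 x374 (nat_lit 7352442844938240),mkR x516 x385 (nat_lit 481714057444843454464),mkR x547 x363 (nat_lit 482291081147100233728),mkR x418 x484 (nat_lit 31531574999858496959152640),mkR x460 x424 (nat_lit 10585982143024787081461183837110121071105),mkR x389 x484 (nat_lit 693423007587591540208264773944553365433287169)] = true := by decide +kernel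
theorem cc840 : certOK x840 s135 [mkR x499 x414 (nat_lit 7913193775104256),mkR x495 x405 (nat_lit 11952428522691680598806298060227291971840),mkR x477 x414 (nat_lit 518317624167227261440),mkR x498 x385 (nat_lit 518751658581315158272),mkR x458 x414 (nat_lit 2535139538293768321135192113779580369764865),mkR x495 x380 (nat_lit 38552804174621095143865869550003225089)] = true := by decide +kernel
theorem cc841 : certOK x841 s135 [mkR x481 x471 (nat_lit 6787293868195840),mkR x518 x419 (nat_lit 6787293868261376),mkR x434 x471 (nat_lit 444386532684313133568),mkR x497 x432 (nat_lit 444531773772295897088),mkR x414 x471 (nat_lit 9902758953191340322788626442977047282177),mkR x461 x432 (nat_lit 29113870792153291047371264),mkR x414 x442 (nat_lit 38552804174621208941830055874770567937)] = true := by decide +kernel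
theorem cc842 : certOK x842 s138 [mkR x462 x463 (nat_lit 7348044798427392),mkR x458 x426 (nat_lit 10585982143024787081461183837110121071104),mkR x434 x462 (nat_lit 481279455682755625472),mkR x496 x419 (nat_lit 481280581582662402560),mkR x414 x462 (nat_lit 2360231743240414381083271757943331925131777),mkR x458 x425 (nat_lit 35894348183051263397913575092390003201)] = true := by decide +kernel
theorem cc843 : certOK x843 s147 [mkR x471 x459 (nat_lit 7350243821682944),mkR x468 x424 (nat_lit 11266546876866664008387933054172680749568),mkR x467 x458 (nat_lit 38552804174621095141838963836073345281),mkR x505 x433 (nat_lit 481425824869668356352),mkR x467 x429 (nat_lit 38552804174621095143721191411974013185)] = true := by decide +kernel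
theorem cc844 : certOK x844 s135 [mkR x488 x468 (nat_lit 6789492891451392),mkR x524 x414 (nat_lit 6789492891516928),mkR x444 x468 (nat_lit 444530650071412244992),mkR x506 x429 (nat_lit 444675891159395008512),mkR x423 x469 (nat_lit 10583323687033217249715375660039606960641),mkR x470 x414 (nat_lit 29123315668673467483489024),mkR x422 x433 (nat_lit 41211260166191040724818262618995360257),mkR x423 x429 (nat_lit 2710725239624972568282295148757213568500225)] = true := by decide +kernel
theorem cc845 : certOK x845 s135 [mkR x425 x499 (nat_lit 6785094845006080),mkR x422 x471 (nat_lit 10583323687033217249715375660039606960640),mkR x400 x498 (nat_lit 444385404585383100928),mkR x470 x462 (nat_lit 444386530485289878016),mkR x361 x498 (nat_lit 29132686323050438017090048),mkR x422 x476 (nat_lit 35894348183051263397768896954360791297),mkR x354 x498 (nat_lit 2358187390582897180470747439099362626699777),mkR x423 x471 (nat_lit 35894348183051263397769457705290891777)] = true := by decide +kernel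
theorem cc846 : certOK x846 s135 [mkR x446 x509 (nat_lit 6224343914774528),mkR x489 x462 (nat_lit 6224343914840064),mkR x400 x508 (nat_lit 407492481586940609024),mkR x446 x476 (nat_lit 407781837862999293952),mkR x443 x462 (nat_lit 9902758953191340322788625882226117181697),mkR x446 x426 (nat_lit 26724353927719052919308800),mkR x443 x425 (nat_lit 649172018662282826821887596474246344061616641)] = true := by decide +kernel
theorem cc847 : certOK x847 s135 [mkR x492 x468 (nat_lit 7350243821617152),mkR x527 x414 (nat_lit 7350243821682688),mkR x453 x468 (nat_lit 481280583781685658112),mkR x493 x429 (nat_lit 481569940057744343040),mkR x428 x468 (nat_lit 2535817444571618628230373055378124322177537),mkR x474 x414 (nat_lit 31531759324870696815887104),mkR x428 x433 (nat_lit 38552804174621218386993680527451685377)] = true := by decide +kernel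
theorem cc848 : certOK x848 s147 [mkR x476 x459 (nat_lit 7910994751848704),mkR x541 x414 (nat_lit 7910994751782912),mkR x472 x458 (nat_lit 35894348183051263396031351914535911681),mkR x512 x433 (nat_lit 518175758579941769472),mkR x472 x429 (nat_lit 35894348183051263398057131728559014145)] = true := by decide +kernel
theorem cc849 : certOK x849 s135 [mkR x454 x508 (nat_lit 6785094844940288),mkR x494 x462 (nat_lit 6785094845005824),mkR x407 x509 (nat_lit 444242415297214022144),mkR x454 x476 (nat_lit 444531771573272707072),mkR x451 x462 (nat_lit 9224852675341033227607684842234071613697),mkR x454 x425 (nat_lit 29132797583916282251706880),mkR x451 x425 (nat_lit 604744074930807250725014226786914694328353281)] = true := by decide +kernel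
theorem cc850 : certOK x850 s135 [mkR x432 x499 (nat_lit 7345845775171840),mkR x428 x471 (nat_lit 9905417409182910154534434620047561392640),mkR x409 x498 (nat_lit 481278890533779013888),mkR x474 x462 (nat_lit 481136464195563291136),mkR x385 x498 (nat_lit 2186004512920902317958278151324146040177153),mkR x428 x476 (nat_lit 33235892191481431652104837270945792257)] = true := by decide +kernel
theorem cc851 : certOK x851 s135 [mkR x516 x445 (nat_lit 7352442844872704),mkR x547 x390 (nat_lit 7352442844938240),mkR x477 x444 (nat_lit 481424701168784769536),mkR x517 x407 (nat_lit 481714057444843454464),mkR x418 x500 (nat_lit 31531574999858496959152640),mkR x458 x444 (nat_lit 10585982143024787081461183837110121071105),mkR x389 x500 (nat_lit 693423007587591540208264773944553365433287169)] = true := by decide +kernel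
theorem cc852 : certOK x852 s135 [mkR x498 x435 (nat_lit 7913193775104256),mkR x495 x400 (nat_lit 11269205332858233840133741231243194860032),mkR x477 x434 (nat_lit 518317624167227261440),mkR x498 x400 (nat_lit 518895210819437527552),mkR x458 x434 (nat_lit 2535139538293768321135192113779580369764865),mkR x495 x413 (nat_lit 38552804174621095143865310998096380161)] = true := by decide +kernel
theorem cc853 : certOK x853 s135 [mkR x498 x437 (nat_lit 7913193775104256),mkR x495 x402 (nat_lit 11269205332858233840133741231243194860032),mkR x477 x436 (nat_lit 518317624167227261440),mkR x498 x402 (nat_lit 518895210819437527552),mkR x458 x436 (nat_lit 2535139538293768321135192113779580369764865),mkR x495 x410 (nat_lit 9910734321166049818026050417835706024193)] = true := by decide +kernel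
theorem cc854 : certOK x854 s136 [mkR x498 x448 (nat_lit 7915392798294272),mkR x546 x395 (nat_lit 7915392798359552),mkR x515 x397 (nat_lit 518462867454233215488),mkR x546 x372 (nat_lit 518896338918367690752),mkR x458 x448 (nat_lit 2709364110157288814428439912784645693964801),mkR x495 x395 (nat_lit 10588640599016356913206992016379658502657)] = true := by decide +kernel
theorem cc855 : certOK x855 s136 [mkR x498 x456 (nat_lit 8476143728525312),mkR x544 x395 (nat_lit 8476143728460032),mkR x517 x397 (nat_lit 555643457878873997568),mkR x544 x361 (nat_lit 555933377104885842432),mkR x516 x361 (nat_lit 36433649952285347706700288),mkR x544 x294 (nat_lit 36424242546842169923142400),mkR x414 x457 (nat_lit 9902758953191340323343974320235947950593),mkR x458 x404 (nat_lit 2535139538293768321135194284796084328989441)] = true := by decide +kernel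
theorem cc856 : certOK x856 s138 [mkR x471 x478 (nat_lit 7350243821682944),mkR x467 x445 (nat_lit 11266546876866664008387933054172680749568),mkR x467 x477 (nat_lit 38552804174621095141838963836073345281),mkR x505 x434 (nat_lit 481424698969761513984),mkR x467 x453 (nat_lit 2536505984673435214652537227435349540733185)] = true := by decide +kernel
theorem cc857 : certOK x857 s135 [mkR x488 x485 (nat_lit 6789492891451392),mkR x524 x434 (nat_lit 6789492891516928),mkR x444 x485 (nat_lit 444530650071412244992),mkR x507 x452 (nat_lit 444531775971319152640),mkR x422 x485 (nat_lit 2709364110157288814428439912780247647453697),mkR x470 x453 (nat_lit 29123315669236417436910080),mkR x423 x453 (nat_lit 693946372501739909844398427320681355278483969),mkR x423 x486 (nat_lit 10583323687033217249715375660039606960641)] = true := by decide +kernel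
theorem cc858 : certOK x858 s138 [mkR x471 x480 (nat_lit 7350243821682944),mkR x467 x447 (nat_lit 11266546876866664008387933054172680749568),mkR x467 x479 (nat_lit 38552804174621095141838963836073345281),mkR x505 x436 (nat_lit 481424698969761513984),mkR x467 x455 (nat_lit 38552804174621095143721191411974013185)] = true := by decide +kernel
theorem cc859 : certOK x859 s135 [mkR x488 x487 (nat_lit 6789492891451392),mkR x524 x436 (nat_lit 6789492891516928),mkR x444 x487 (nat_lit 444530650071412244992),mkR x506 x455 (nat_lit 444675891159395008512),mkR x422 x487 (nat_lit 2709364110157288814428439912780247647453697),mkR x470 x436 (nat_lit 29123315668673467483489024),mkR x423 x455 (nat_lit 2710725239624972568282295148757213568500225),mkR x423 x488 (nat_lit 10583323687033217249715375660039606960641)] = true := by decide +kernel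
theorem cc860 : certOK x860 s135 [mkR x471 x489 (nat_lit 7352442844872960),mkR x521 x438 (nat_lit 7352442844938240),mkR x467 x489 (nat_lit 41211260166190926887646577956633968897),mkR x486 x457 (nat_lit 481569379306814112000),mkR x467 x466 (nat_lit 41211260166190926889529929233418158593)] = true := by decide +kernel
theorem cc861 : certOK x861 s135 [mkR x471 x494 (nat_lit 7913193775104000),mkR x520 x439 (nat_lit 7913193775038720),mkR x469 x494 (nat_lit 38552804174621095141838966035096600577),mkR x488 x448 (nat_lit 518893521969577263360),mkR x467 x448 (nat_lit 9902758953191340322788627577673047147009)] = true := by decide +kernel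
theorem cc862 : certOK x862 s135 [mkR x492 x485 (nat_lit 7350243821617152),mkR x527 x434 (nat_lit 7350243821682688),mkR x453 x485 (nat_lit 481280583781685658112),mkR x513 x452 (nat_lit 481281709681592565760),mkR x385 x533 (nat_lit 2534456315103934874376519556948397249266177),mkR x428 x485 (nat_lit 2535817444571618628230373055378124322177537)] = true := by decide +kernel
theorem cc863 : certOK x863 s138 [mkR x476 x478 (nat_lit 7910994751848704),mkR x541 x434 (nat_lit 7910994751782912),mkR x472 x477 (nat_lit 35894348183051263396031351914535911681),mkR x512 x434 (nat_lit 518174632680034927104),mkR x472 x453 (nat_lit 2362959319087765028454470370033226215457025)] = true := by decide +kernel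
theorem cc864 : certOK x864 s138 [mkR x476 x480 (nat_lit 7910994751848704),mkR x541 x436 (nat_lit 7910994751782912),mkR x472 x479 (nat_lit 35894348183051263396031351914535911681),mkR x512 x436 (nat_lit 518174632680034927104),mkR x472 x455 (nat_lit 35894348183051263398057131728559014145)] = true := by decide +kernel
theorem cc865 : certOK x865 s135 [mkR x476 x489 (nat_lit 7913193775038720),mkR x526 x438 (nat_lit 7913193775104000),mkR x472 x489 (nat_lit 38552804174621095141838966035096535297),mkR x491 x457 (nat_lit 518319313017087525120),mkR x472 x466 (nat_lit 38552804174621095143865869550003159553)] = true := by decide +kernel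
theorem cc866 : certOK x866 s159 [mkR x498 x473 (nat_lit 8476143728525312),mkR x544 x414 (nat_lit 8476143728460032),mkR x517 x424 (nat_lit 555787573066949787904),mkR x545 x380 (nat_lit 555933377104885842432),mkR x516 x405 (nat_lit 36414797812187580772516096),mkR x545 x324 (nat_lit 36424242546842169923142400),mkR x460 x414 (nat_lit 2535139538293768321135194284233134375633665),mkR x495 x405 (nat_lit 166322190414359165658601355134342786249608266241)] = true := by decide +kernel
theorem cc867 : certOK x867 s135 [mkR x462 x508 (nat_lit 7350243821617408),mkR x516 x462 (nat_lit 7350243821682688),mkR x434 x509 (nat_lit 481279457881778815488),mkR x462 x464 (nat_lit 481568814157837500928),mkR x414 x509 (nat_lit 2534456315103934874376519556948397249331713),mkR x459 x462 (nat_lit 9905417409182910154534434622246584713729),mkR x414 x476 (nat_lit 166232114941600889905105396931335890990161658369)] = true := by decide +kernel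
theorem cc868 : certOK x868 s135 [mkR x462 x514 (nat_lit 7910994751848448),mkR x515 x464 (nat_lit 7910994751783168),mkR x458 x514 (nat_lit 35894348183051263396031351914535911425),mkR x482 x471 (nat_lit 518748841632524730624),mkR x460 x471 (nat_lit 2360920283342230967505435930002756166812161)] = true := by decide +kernel
theorem cc869 : certOK x869 s135 [mkR x471 x511 (nat_lit 7913193775104000),mkR x520 x460 (nat_lit 7913193775038720),mkR x469 x511 (nat_lit 38552804174621095141838966035096600577),mkR x488 x468 (nat_lit 518893521969577263360),mkR x467 x468 (nat_lit 9902758953191340322788627577673047147009)] = true := by decide +kernel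
theorem cc870 : certOK x870 s135 [mkR x425 x536 (nat_lit 6787293868196096),mkR x488 x498 (nat_lit 6787293868261376),mkR x422 x536 (nat_lit 38552804174621095141838961637050024193),mkR x444 x499 (nat_lit 444530647872389054976),mkR x423 x498 (nat_lit 9902758953191340322788626445176070603265),mkR x399 x536 (nat_lit 2533095185636251120522666058516471153230081)] = true := by decide +kernel
theorem cc871 : certOK x871 s135 [mkR x425 x542 (nat_lit 7348044798427136),mkR x486 x498 (nat_lit 7348044798361856),mkR x423 x542 (nat_lit 35894348183051263396031349715512655873),mkR x446 x509 (nat_lit 481855353485105627392),mkR x443 x498 (nat_lit 2359556495418555643819836623956709510086913)] = true := by decide +kernel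
theorem cc872 : certOK x872 s135 [mkR x428 x504 (nat_lit 8541629485507586468935129143547927790080),mkR x526 x458 (nat_lit 7913193775104000),mkR x453 x504 (nat_lit 518173508979151340032),mkR x476 x460 (nat_lit 518462865255210025472),mkR x451 x504 (nat_lit 2534456315103934874376519556950596272587009),mkR x472 x483 (nat_lit 38552804174621095143865869550003159553)] = true := by decide +kernel
theorem cc873 : certOK x873 s135 [mkR x476 x511 (nat_lit 8473944705269760),mkR x525 x458 (nat_lit 8473944705204480),mkR x473 x511 (nat_lit 35894348183051263396031354113559166977),mkR x492 x468 (nat_lit 555643455679850676480),mkR x472 x468 (nat_lit 9224852675341033227607686537681001579009)] = true := by decide +kernel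
theorem cc874 : certOK x874 s135 [mkR x432 x536 (nat_lit 7348044798361856),mkR x492 x498 (nat_lit 7348044798427136),mkR x428 x536 (nat_lit 35894348183051263396031349715512590593),mkR x453 x499 (nat_lit 481280581582662468096),mkR x428 x498 (nat_lit 2361592872708098134937125256373058997977601)] = true := by decide +kernel
theorem cc875 : certOK x875 s135 [mkR x432 x542 (nat_lit 7908795728592896),mkR x491 x498 (nat_lit 7908795728527616),mkR x429 x543 (nat_lit 33235892191481431650223737793975222273),mkR x454 x508 (nat_lit 518605287195379040512),mkR x428 x508 (nat_lit 8541629485507586468935129143547927790081)] = true := by decide +kernel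
theorem cc876 : certOK x876 s135 [mkR x498 x491 (nat_lit 8476143728525312),mkR x544 x434 (nat_lit 8476143728460032),mkR x516 x445 (nat_lit 555787573066949787904),mkR x544 x413 (nat_lit 555790387816716894464),mkR x516 x400 (nat_lit 36433649952285347706700288),mkR x544 x358 (nat_lit 36424242546842169923142400),mkR x458 x444 (nat_lit 2535139538293768321135194284796084328989441),mkR x495 x413 (nat_lit 166366443455612499863897840075290072841971761665)] = true := by decide +kernel
theorem cc877 : certOK x877 s135 [mkR x498 x487 (nat_lit 7915392798294272),mkR x546 x436 (nat_lit 7915392798359552),mkR x515 x436 (nat_lit 518462867454233215488),mkR x546 x409 (nat_lit 518896338918367690752),mkR x458 x487 (nat_lit 2709364110157288814428439912784645693964801),mkR x495 x436 (nat_lit 10588640599016356913206992016379658502657)] = true := by decide +kernel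
theorem cc878 : certOK x878 s135 [mkR x498 x492 (nat_lit 8476143728525312),mkR x544 x436 (nat_lit 8476143728460032),mkR x495 x493 (nat_lit 38552804174621095141838968234119856129),mkR x516 x447 (nat_lit 555787573066949787904),mkR x477 x446 (nat_lit 36424130999997749350433536),mkR x458 x446 (nat_lit 2535139538293768321135194284796084328989441)] = true := by decide +kernel
theorem cc879 : certOK x879 s135 [mkR x530 x439 (nat_lit 8478342751781120),mkR x528 x427 (nat_lit 11955086978683250430552106239496829337856),mkR x515 x439 (nat_lit 555355792651698897408),mkR x530 x404 (nat_lit 555933379303909163520),mkR x495 x439 (nat_lit 2710047333347122261187112469615828814397953),mkR x528 x404 (nat_lit 41211260166190926889818164007616446977)] = true := by decide +kernel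
theorem cc880 : certOK x880 s135 [mkR x546 x462 (nat_lit 0),mkR x573 x420 (nat_lit 0)] = true := by decide +kernel
theorem cc881 : certOK x881 s138 [mkR x471 x525 (nat_lit 7913193775104000),mkR x520 x478 (nat_lit 7913193775038720),mkR x469 x525 (nat_lit 38552804174621095141838966035096600577),mkR x488 x485 (nat_lit 518893521969577263360),mkR x467 x485 (nat_lit 9902758953191340322788627577673047147009)] = true := by decide +kernel
theorem cc882 : certOK x882 s135 [mkR x471 x521 (nat_lit 7352442844872960),mkR x521 x479 (nat_lit 7352442844938240),mkR x467 x521 (nat_lit 41211260166190926887646577956633968897),mkR x485 x492 (nat_lit 481569379306814112000),mkR x467 x492 (nat_lit 2710727898080964138114039218826294304309505)] = true := by decide +kernel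
theorem cc883 : certOK x883 s138 [mkR x471 x526 (nat_lit 7913193775104000),mkR x520 x480 (nat_lit 7913193775038720),mkR x469 x526 (nat_lit 38552804174621095141838966035096600577),mkR x488 x487 (nat_lit 518893521969577263360),mkR x467 x487 (nat_lit 9902758953191340322788627577673047147009)] = true := by decide +kernel
theorem cc884 : certOK x884 s135 [mkR x509 x482 (nat_lit 7915392798359808),mkR x504 x449 (nat_lit 11949770066700110767060490448305754538496),mkR x486 x482 (nat_lit 518461741554326372864),mkR x508 x448 (nat_lit 519039328206536638976),mkR x467 x502 (nat_lit 41211260166190926889674042222470758913),mkR x504 x448 (nat_lit 41211260166190926889674046620517335553)] = true := by decide +kernel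
theorem cc885 : certOK x885 s135 [mkR x521 x490 (nat_lit 7354641868128256),mkR x553 x438 (nat_lit 7354641868193792),mkR x486 x489 (nat_lit 481568818555883880960),mkR x521 x456 (nat_lit 481858174831942565888),mkR x467 x489 (nat_lit 2884271905210642754480360268616496092086785),mkR x505 x456 (nat_lit 31550649079599899548385792),mkR x469 x457 (nat_lit 738722770693854510067521784222377276688499201)] = true := by decide +kernel
theorem cc886 : certOK x886 s135 [mkR x428 x520 (nat_lit 8541629485507586468935129143547927790080),mkR x526 x477 (nat_lit 7913193775104000),mkR x453 x520 (nat_lit 518173508979151340032),mkR x428 x477 (nat_lit 8541629485507586469453584095609362776832),mkR x451 x520 (nat_lit 2534456315103934874376519556950596272587009),mkR x472 x491 (nat_lit 2537181232495293951915972361424170979033345)] = true := by decide +kernel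
theorem cc887 : certOK x887 s135 [mkR x476 x525 (nat_lit 8473944705269760),mkR x525 x477 (nat_lit 8473944705204480),mkR x473 x525 (nat_lit 35894348183051263396031354113559166977),mkR x492 x485 (nat_lit 555643455679850676480),mkR x472 x485 (nat_lit 9224852675341033227607686537681001579009)] = true := by decide +kernel
theorem cc888 : certOK x888 s135 [mkR x476 x521 (nat_lit 7913193775038720),mkR x526 x479 (nat_lit 7913193775104000),mkR x472 x521 (nat_lit 38552804174621095141838966035096535297),mkR x428 x479 (nat_lit 8541629485507586469453584095609362776832),mkR x472 x492 (nat_lit 2537181232495293951915972361424170979033345)] = true := by decide +kernel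
theorem cc889 : certOK x889 s135 [mkR x472 x482 (nat_lit 9224852675341033227607686535481978388992),mkR x510 x449 (nat_lit 11271863788849803671879549408313708970496),mkR x491 x482 (nat_lit 555211675264599785984),mkR x540 x438 (nat_lit 555212801164506563072),mkR x472 x502 (nat_lit 38552804174621095144009982539055759873),mkR x510 x456 (nat_lit 38552804174621095144009426186172236033)] = true := by decide +kernel
theorem cc890 : certOK x890 s135 [mkR x546 x469 (nat_lit 7917591821549568),mkR x573 x414 (nat_lit 7917591821615104),mkR x515 x468 (nat_lit 518462869653256405504),mkR x546 x429 (nat_lit 518752225929315090432),mkR x495 x468 (nat_lit 11269205332858233840133741231243194860033),mkR x498 x433 (nat_lit 33987537902265464277631488),mkR x495 x433 (nat_lit 43869716157760891397274094089707651585)] = true := by decide +kernel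
theorem cc891 : certOK x891 s147 [mkR x530 x459 (nat_lit 8478342751781120),mkR x529 x424 (nat_lit 11952428522691680598806298625376268648960),mkR x560 x433 (nat_lit 555502159639588372736),mkR x529 x405 (nat_lit 11271863788849803672435763667749948228096),mkR x495 x460 (nat_lit 2710047333347122261187112469615828814397953),mkR x516 x433 (nat_lit 36424094397556926873534720),mkR x495 x433 (nat_lit 177784076550774907862947373081095637922945892865)] = true := by decide +kernel
theorem cc892 : certOK x892 s135 [mkR x516 x509 (nat_lit 7352442844872704),mkR x547 x462 (nat_lit 7352442844938240),mkR x477 x508 (nat_lit 481424701168784769536),mkR x516 x476 (nat_lit 481714057444843454464),mkR x458 x508 (nat_lit 10585982143024787081461183837110121071105),mkR x496 x476 (nat_lit 31541204202516773158846976),mkR x458 x464 (nat_lit 693946375160195901414230173128858425792594689)] = true := by decide +kernel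
theorem cc893 : certOK x893 s135 [mkR x498 x499 (nat_lit 7913193775104256),mkR x495 x471 (nat_lit 11269205332858233840133741231243194860032),mkR x477 x498 (nat_lit 518317624167227261440),mkR x498 x471 (nat_lit 518895210819437527552),mkR x458 x498 (nat_lit 2535139538293768321135192113779580369764865),mkR x495 x462 (nat_lit 38552804174621095143865306600049869313)] = true := by decide +kernel
theorem cc894 : certOK x894 s135 [mkR x508 x495 (nat_lit 7915392798359808),mkR x504 x469 (nat_lit 11949770066700110767060490448305754538496),mkR x485 x495 (nat_lit 518461741554326372864),mkR x508 x468 (nat_lit 519039328206536638976),mkR x468 x495 (nat_lit 2709366768613280384260185720398766254719489),mkR x504 x468 (nat_lit 41211260166190926889674046620517335553)] = true := by decide +kernel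
theorem cc895 : certOK x895 s135 [mkR x521 x504 (nat_lit 7354641868128256),mkR x553 x458 (nat_lit 7354641868193792),mkR x485 x504 (nat_lit 481568818555883880960),mkR x521 x473 (nat_lit 481858174831942565888),mkR x468 x504 (nat_lit 11266546876866664008387933054172680749569),mkR x505 x473 (nat_lit 31550649079599899548385792),mkR x467 x484 (nat_lit 43869716157760881952110469437026534145)] = true := by decide +kernel
theorem cc896 : certOK x896 s138 [mkR x471 x531 (nat_lit 7350243821682944),mkR x467 x509 (nat_lit 11266546876866664008387933054172680749568),mkR x467 x530 (nat_lit 38552804174621095141838963836073345281),mkR x505 x498 (nat_lit 481424698969761513984),mkR x467 x514 (nat_lit 2536505984673435214652537227435349540733185)] = true := by decide +kernel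
theorem cc897 : certOK x897 s135 [mkR x488 x536 (nat_lit 6789492891451392),mkR x524 x498 (nat_lit 6789492891516928),mkR x444 x536 (nat_lit 444530650071412244992),mkR x507 x514 (nat_lit 444531775971319152640),mkR x423 x537 (nat_lit 10583323687033217249715375660039606960641),mkR x470 x514 (nat_lit 29123315669236417436910080),mkR x422 x514 (nat_lit 177650271391043622307511736607287683931621753345),mkR x423 x514 (nat_lit 693946372501739909844398427320681355278483969)] = true := by decide +kernel
theorem cc898 : certOK x898 s135 [mkR x526 x504 (nat_lit 7915392798294016),mkR x558 x458 (nat_lit 7915392798359552),mkR x476 x504 (nat_lit 518462867454233215488),mkR x526 x473 (nat_lit 518608108542215979008),mkR x512 x473 (nat_lit 33959092735797128880783872),mkR x526 x429 (nat_lit 33987464261091008352289024),mkR x451 x504 (nat_lit 177649922261335161424648223184940463335483245057),mkR x472 x484 (nat_lit 41211260166191059614285887345482859265)] = true := by decide +kernel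
theorem cc899 : certOK x899 s135 [mkR x514 x495 (nat_lit 8476143728525568),mkR x510 x469 (nat_lit 11271863788849803671879549408313708970496),mkR x510 x495 (nat_lit 38552804174621095141838968234119856385),mkR x540 x458 (nat_lit 555212801164506563072),mkR x510 x473 (nat_lit 38552804174621095144009426186172236033)] = true := by decide +kernel
theorem cc900 : certOK x900 s135 [mkR x492 x536 (nat_lit 7350243821617152),mkR x527 x498 (nat_lit 7350243821682688),mkR x453 x536 (nat_lit 481280583781685658112),mkR x513 x514 (nat_lit 481281709681592565760),mkR x428 x536 (nat_lit 2535817444571618628230373055378124322177537),mkR x474 x514 (nat_lit 31531759325433646769308160),mkR x428 x514 (nat_lit 166276717793127418835142322221379617440246465025)] = true := by decide +kernel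
theorem cc901 : certOK x901 s138 [mkR x476 x531 (nat_lit 7910994751848704),mkR x541 x498 (nat_lit 7910994751782912),mkR x472 x530 (nat_lit 35894348183051263396031351914535911681),mkR x512 x498 (nat_lit 518174632680034927104),mkR x472 x514 (nat_lit 2362959319087765028454470370033226215457025)] = true := by decide +kernel
theorem cc902 : certOK x902 s135 [mkR x546 x486 (nat_lit 7917591821549568),mkR x573 x434 (nat_lit 7917591821615104),mkR x515 x485 (nat_lit 518462869653256405504),mkR x546 x453 (nat_lit 518752225929315090432),mkR x458 x533 (nat_lit 2883591340476800877553433519403831578853889),mkR x495 x485 (nat_lit 11269205332858233840133741231243194860033)] = true := by decide +kernel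
theorem cc903 : certOK x903 s138 [mkR x530 x478 (nat_lit 8478342751781120),mkR x528 x445 (nat_lit 11952428522691680598806298625376268648960),mkR x516 x477 (nat_lit 555499344889821397248),mkR x530 x444 (nat_lit 555933379303909163520),mkR x528 x444 (nat_lit 41211260166190926889818164007616446977),mkR x530 x413 (nat_lit 36424205510929883311833600),mkR x528 x401 (nat_lit 2711413779726789154704459755420598921200385)] = true := by decide +kernel
theorem cc904 : certOK x904 s138 [mkR x530 x480 (nat_lit 8478342751781120),mkR x528 x447 (nat_lit 11952428522691680598806298625376268648960),mkR x516 x479 (nat_lit 555499344889821397248),mkR x530 x446 (nat_lit 555933379303909163520),mkR x482 x479 (nat_lit 36405241677057757961978368),mkR x528 x446 (nat_lit 41211260166190926889818164007616446977),mkR x528 x410 (nat_lit 41211260166191069169987550102205694465)] = true := by decide +kernel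
theorem cc905 : certOK x905 s135 [mkR x530 x489 (nat_lit 8480541774971136),mkR x571 x438 (nat_lit 8480541775036416),mkR x515 x489 (nat_lit 555355794850722087424),mkR x544 x457 (nat_lit 555501598888658272512),mkR x495 x489 (nat_lit 2884271905210642754480360268620894138597889),mkR x528 x466 (nat_lit 43869716157760758635626341078130491905)] = true := by decide +kernel
theorem cc906 : certOK x906 s135 [mkR x530 x494 (nat_lit 9041292705202176),mkR x570 x439 (nat_lit 9041292705136896),mkR x528 x494 (nat_lit 41211260166190926887646584553703800833),mkR x546 x449 (nat_lit 592825741551421423872),mkR x515 x448 (nat_lit 38851464410361231461909248),mkR x495 x448 (nat_lit 2710047333347122261187114785310470802899713)] = true := by decide +kernel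
theorem cc907 : certOK x907 s135 [mkR x508 x515 (nat_lit 7915392798359808),mkR x504 x486 (nat_lit 11949770066700110767060490448305754538496),mkR x485 x515 (nat_lit 518461741554326372864),mkR x508 x485 (nat_lit 519039328206536638976),mkR x468 x515 (nat_lit 2709366768613280384260185720398766254719489),mkR x504 x485 (nat_lit 41211260166190926889674046620517335553)] = true := by decide +kernel
theorem cc908 : certOK x908 s135 [mkR x521 x520 (nat_lit 7354641868128256),mkR x553 x477 (nat_lit 7354641868193792),mkR x485 x520 (nat_lit 481568818555883880960),mkR x521 x491 (nat_lit 481858174831942565888),mkR x467 x532 (nat_lit 11266546876866664008387933056371703939585),mkR x505 x491 (nat_lit 31550649079599899548385792),mkR x467 x500 (nat_lit 43869716157760881952110469437026534145)] = true := by decide +kernel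
theorem cc909 : certOK x909 s135 [mkR x508 x517 (nat_lit 7915392798359808),mkR x504 x488 (nat_lit 11949770066700110767060490448305754538496),mkR x486 x516 (nat_lit 518461741554326372864),mkR x508 x487 (nat_lit 519039328206536638976),mkR x469 x516 (nat_lit 2709366768613280384260185720398766254719489),mkR x504 x487 (nat_lit 41211260166190926889674046620517335553)] = true := by decide +kernel
theorem cc910 : certOK x910 s135 [mkR x521 x522 (nat_lit 7354641868128256),mkR x553 x479 (nat_lit 7354641868193792),mkR x486 x521 (nat_lit 481568818555883880960),mkR x521 x492 (nat_lit 481858174831942565888),mkR x467 x521 (nat_lit 2884271905210642754480360268616496092086785),mkR x505 x492 (nat_lit 31550649079599899548385792),mkR x467 x501 (nat_lit 43869716157760881952110469437026534145)] = true := by decide +kernel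
theorem cc911 : certOK x911 s135 [mkR x508 x523 (nat_lit 7917591821549824),mkR x552 x482 (nat_lit 7917591821615104),mkR x520 x494 (nat_lit 518607547791285747968),mkR x552 x457 (nat_lit 519040456305466802176),mkR x467 x523 (nat_lit 11263888420875094176642126003002073481729),mkR x504 x502 (nat_lit 43869716157760758635482223691031380481)] = true := by decide +kernel
theorem cc912 : certOK x912 s135 [mkR x508 x527 (nat_lit 8478342751780864),mkR x550 x482 (nat_lit 8478342751715584),mkR x504 x527 (nat_lit 41211260166190926887646582354680545281),mkR x521 x490 (nat_lit 555931690454048899328),mkR x486 x489 (nat_lit 36433575877080875739972352),mkR x467 x490 (nat_lit 2710047333347122261187114641190884680532737)] = true := by decide +kernel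
theorem cc913 : certOK x913 s135 [mkR x526 x520 (nat_lit 7915392798294016),mkR x558 x477 (nat_lit 7915392798359552),mkR x476 x520 (nat_lit 518462867454233215488),mkR x526 x491 (nat_lit 518608108542215979008),mkR x472 x532 (nat_lit 10588640599016356913206992016379658371585),mkR x512 x491 (nat_lit 33959092735797128880783872),mkR x472 x500 (nat_lit 41211260166191059614285887345482859265)] = true := by decide +kernel
theorem cc914 : certOK x914 s135 [mkR x514 x515 (nat_lit 8476143728525568),mkR x510 x486 (nat_lit 11271863788849803671879549408313708970496),mkR x510 x515 (nat_lit 38552804174621095141838968234119856385),mkR x540 x477 (nat_lit 555212801164506563072),mkR x510 x491 (nat_lit 38552804174621095144009426186172236033)] = true := by decide +kernel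
theorem cc915 : certOK x915 s135 [mkR x514 x517 (nat_lit 8476143728525568),mkR x510 x488 (nat_lit 11271863788849803671879549408313708970496),mkR x510 x517 (nat_lit 38552804174621095141838968234119856385),mkR x540 x479 (nat_lit 555212801164506563072),mkR x510 x492 (nat_lit 38552804174621095144009426186172236033)] = true := by decide +kernel
theorem cc916 : certOK x916 s135 [mkR x514 x523 (nat_lit 8478342751715584),mkR x557 x482 (nat_lit 8478342751780864),mkR x510 x523 (nat_lit 41211260166190926887646582354680480001),mkR x472 x494 (nat_lit 9224852675341033228163179656027884945920),mkR x510 x502 (nat_lit 41211260166190926889818164007616381441)] = true := by decide +kernel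
theorem cc917 : certOK x917 s135 [mkR x530 x511 (nat_lit 9041292705202176),mkR x570 x460 (nat_lit 9041292705136896),mkR x528 x511 (nat_lit 41211260166190926887646584553703800833),mkR x546 x469 (nat_lit 592825741551421423872),mkR x515 x468 (nat_lit 38851464410361231461909248),mkR x495 x468 (nat_lit 2710047333347122261187114785310470802899713)] = true := by decide +kernel
theorem cc918 : certOK x918 s135 [mkR x498 x536 (nat_lit 7915392798294272),mkR x546 x498 (nat_lit 7915392798359552),mkR x515 x514 (nat_lit 518463430404186636544),mkR x546 x476 (nat_lit 518896338918367690752),mkR x458 x536 (nat_lit 2709364110157288814428439912784645693964801),mkR x495 x498 (nat_lit 10588640599016356913206992016379658502657)] = true := by decide +kernel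
theorem cc919 : certOK x919 s135 [mkR x498 x542 (nat_lit 8476143728525312),mkR x544 x498 (nat_lit 8476143728460032),mkR x495 x543 (nat_lit 38552804174621095141838968234119856129),mkR x516 x509 (nat_lit 555787573066949787904),mkR x477 x508 (nat_lit 36424130999997749350433536),mkR x458 x508 (nat_lit 2535139538293768321135194284796084328989441)] = true := by decide +kernel
theorem cc920 : certOK x920 s135 [mkR x508 x538 (nat_lit 8478342751780864),mkR x549 x495 (nat_lit 8478342751715584),mkR x504 x539 (nat_lit 41211260166190926887646582354680545281),mkR x521 x504 (nat_lit 555931690454048899328),mkR x486 x504 (nat_lit 36433538984155678274290432),mkR x467 x504 (nat_lit 2710047333347122261187114641190884680532737)] = true := by decide +kernel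
theorem cc921 : certOK x921 s135 [mkR x471 x564 (nat_lit 7352442844872960),mkR x521 x530 (nat_lit 7352442844938240),mkR x467 x564 (nat_lit 41211260166190926887646577956633968897),mkR x486 x543 (nat_lit 481569379306814112000),mkR x467 x542 (nat_lit 2710727898080964138114039218826294304309505)] = true := by decide +kernel
theorem cc922 : certOK x922 s138 [mkR x471 x568 (nat_lit 7913193775104000),mkR x520 x531 (nat_lit 7913193775038720),mkR x469 x568 (nat_lit 38552804174621095141838966035096600577),mkR x488 x536 (nat_lit 518893521969577263360),mkR x467 x536 (nat_lit 9902758953191340322788627577673047147009)] = true := by decide +kernel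
theorem cc923 : certOK x923 s135 [mkR x514 x534 (nat_lit 8478342751715584),mkR x557 x495 (nat_lit 8478342751780864),mkR x510 x534 (nat_lit 41211260166190926887646582354680480001),mkR x525 x495 (nat_lit 555356918551605740032),mkR x511 x495 (nat_lit 10591299055007926744952800193450172613121)] = true := by decide +kernel
theorem cc924 : certOK x924 s135 [mkR x514 x538 (nat_lit 9039093681946624),mkR x556 x495 (nat_lit 9039093681881344),mkR x511 x538 (nat_lit 38552804174621095141838970433143111681),mkR x526 x504 (nat_lit 592681624164322312448),mkR x510 x504 (nat_lit 38552804174621095144154099926154936833)] = true := by decide +kernel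
theorem cc925 : certOK x925 s135 [mkR x476 x564 (nat_lit 7913193775038720),mkR x526 x530 (nat_lit 7913193775104000),mkR x472 x564 (nat_lit 38552804174621095141838966035096535297),mkR x491 x543 (nat_lit 518319313017087525120),mkR x472 x542 (nat_lit 2537181232495293951915972361424170979033345)] = true := by decide +kernel
theorem cc926 : certOK x926 s135 [mkR x476 x568 (nat_lit 8473944705269760),mkR x525 x530 (nat_lit 8473944705204480),mkR x473 x568 (nat_lit 35894348183051263396031354113559166977),mkR x492 x536 (nat_lit 555643455679850676480),mkR x472 x536 (nat_lit 9224852675341033227607686537681001579009)] = true := by decide +kernel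
theorem cc927 : certOK x927 s138 [mkR x530 x525 (nat_lit 9041292705202176),mkR x570 x478 (nat_lit 9041292705136896),mkR x528 x525 (nat_lit 41211260166190926887646584553703800833),mkR x546 x486 (nat_lit 592825741551421423872),mkR x515 x485 (nat_lit 38851464410361231461909248),mkR x495 x485 (nat_lit 2710047333347122261187114785310470802899713)] = true := by decide +kernel
theorem cc928 : certOK x928 s135 [mkR x530 x521 (nat_lit 8480541774971136),mkR x571 x479 (nat_lit 8480541775036416),mkR x515 x521 (nat_lit 555355794850722087424),mkR x545 x492 (nat_lit 555501598888658272512),mkR x495 x521 (nat_lit 2884271905210642754480360268620894138597889),mkR x529 x501 (nat_lit 43869716157760758635626341078130491905)] = true := by decide +kernel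
theorem cc929 : certOK x929 s138 [mkR x530 x526 (nat_lit 9041292705202176),mkR x570 x480 (nat_lit 9041292705136896),mkR x528 x526 (nat_lit 41211260166190926887646584553703800833),mkR x546 x488 (nat_lit 592825741551421423872),mkR x515 x487 (nat_lit 38851464410361231461909248),mkR x495 x487 (nat_lit 2710047333347122261187114785310470802899713)] = true := by decide +kernel
theorem cc930 : certOK x930 s135 [mkR x562 x482 (nat_lit 9043491728457984),mkR x559 x449 (nat_lit 12635651712525127357478856019509342437888),mkR x544 x482 (nat_lit 592393961136170533376),mkR x561 x448 (nat_lit 592971547788380799488),mkR x528 x482 (nat_lit 2884955128400476201239032825452077259031041),mkR x559 x448 (nat_lit 43869716157760758635770458465229668865)] = true := by decide +kernel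
theorem cc931 : certOK x931 s135 [mkR x571 x498 (nat_lit 0),mkR x600 x462 (nat_lit 0)] = true := by decide +kernel
theorem cc932 : certOK x932 s135 [mkR x508 x555 (nat_lit 8478342751780864),mkR x549 x515 (nat_lit 8478342751715584),mkR x504 x556 (nat_lit 41211260166190926887646582354680545281),mkR x521 x520 (nat_lit 555931690454048899328),mkR x486 x520 (nat_lit 36433538984155678274290432),mkR x467 x520 (nat_lit 2710047333347122261187114641190884680532737)] = true := by decide +kernel
theorem cc933 : certOK x933 s135 [mkR x508 x551 (nat_lit 7917591821549824),mkR x552 x516 (nat_lit 7917591821615104),mkR x520 x526 (nat_lit 518607547791285747968),mkR x551 x492 (nat_lit 519040456305466802176),mkR x467 x551 (nat_lit 11263888420875094176642126003002073481729),mkR x504 x516 (nat_lit 11269205332858233840133741233442218181121)] = true := by decide +kernel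
theorem cc934 : certOK x934 s135 [mkR x508 x557 (nat_lit 8478342751780864),mkR x550 x516 (nat_lit 8478342751715584),mkR x504 x557 (nat_lit 41211260166190926887646582354680545281),mkR x521 x522 (nat_lit 555931690454048899328),mkR x486 x521 (nat_lit 36433575877080875739972352),mkR x467 x522 (nat_lit 2710047333347122261187114641190884680532737)] = true := by decide +kernel
theorem cc935 : certOK x935 s135 [mkR x537 x518 (nat_lit 8480541775036672),mkR x535 x490 (nat_lit 12632993256533557525733047842438828327424),mkR x520 x518 (nat_lit 555499910038798008832),mkR x537 x489 (nat_lit 556077496691008274944),mkR x504 x518 (nat_lit 2884274563666634324312106076235014699352577),mkR x535 x489 (nat_lit 43869716157760758635626341078130557441)] = true := by decide +kernel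
theorem cc936 : certOK x936 s135 [mkR x552 x523 (nat_lit 7919790844805120),mkR x579 x482 (nat_lit 7919790844870656),mkR x520 x523 (nat_lit 518606987040355516928),mkR x552 x494 (nat_lit 518896343316414201856),mkR x504 x523 (nat_lit 11949770066700110767060490448305754538497),mkR x520 x502 (nat_lit 33987464691752120765907712),mkR x504 x503 (nat_lit 46528172149330723179689217781349286657)] = true := by decide +kernel
theorem cc937 : certOK x937 s135 [mkR x514 x549 (nat_lit 8478342751715584),mkR x557 x515 (nat_lit 8478342751780864),mkR x510 x549 (nat_lit 41211260166190926887646582354680480001),mkR x525 x515 (nat_lit 555356918551605740032),mkR x511 x515 (nat_lit 10591299055007926744952800193450172613121)] = true := by decide +kernel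
theorem cc938 : certOK x938 s135 [mkR x514 x555 (nat_lit 9039093681946624),mkR x556 x515 (nat_lit 9039093681881344),mkR x511 x555 (nat_lit 38552804174621095141838970433143111681),mkR x526 x520 (nat_lit 592681624164322312448),mkR x510 x520 (nat_lit 38552804174621095144154099926154936833)] = true := by decide +kernel
theorem cc939 : certOK x939 s135 [mkR x514 x551 (nat_lit 8478342751715584),mkR x557 x516 (nat_lit 8478342751780864),mkR x510 x551 (nat_lit 41211260166190926887646582354680480001),mkR x525 x517 (nat_lit 555356918551605740032),mkR x510 x516 (nat_lit 2711408462814806015040965968045555887243777)] = true := by decide +kernel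
theorem cc940 : certOK x940 s135 [mkR x542 x518 (nat_lit 9041292705202432),mkR x538 x490 (nat_lit 11955086978683250430552106802446782759424),mkR x525 x518 (nat_lit 592249843749071421952),mkR x542 x489 (nat_lit 592827430401281688064),mkR x511 x518 (nat_lit 2710727898080964138114039218832891374076417),mkR x538 x489 (nat_lit 41211260166190926889962281394715558401)] = true := by decide +kernel
theorem cc941 : certOK x941 s135 [mkR x571 x504 (nat_lit 8482740798226432),mkR x599 x458 (nat_lit 8482740798291968),mkR x545 x504 (nat_lit 555501038137728041472),mkR x571 x473 (nat_lit 555790394413786726400),mkR x529 x504 (nat_lit 11952428522691680598806298625376268648961),mkR x544 x483 (nat_lit 36405353225032476487844608),mkR x528 x484 (nat_lit 46528172149330732624566300907738825473)] = true := by decide +kernel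
theorem cc942 : certOK x942 s135 [mkR x561 x495 (nat_lit 9043491728457984),mkR x559 x469 (nat_lit 12635651712525127357478856019509342437888),mkR x545 x495 (nat_lit 592393961136170533376),mkR x561 x468 (nat_lit 592971547788380799488),mkR x529 x495 (nat_lit 2884955128400476201239032825452077259031041),mkR x559 x468 (nat_lit 43869716157760758635770458465229668865)] = true := by decide +kernel
theorem cc943 : certOK x943 s135 [mkR x546 x537 (nat_lit 7917591821549568),mkR x573 x498 (nat_lit 7917591821615104),mkR x515 x536 (nat_lit 518462869653256405504),mkR x546 x514 (nat_lit 518752225929315090432),mkR x495 x536 (nat_lit 11269205332858233840133741231243194860033),mkR x515 x514 (nat_lit 33977982489961182636671488),mkR x495 x514 (nat_lit 738896997924174022130646777829559412526875137)] = true := by decide +kernel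
theorem cc944 : certOK x944 s138 [mkR x530 x531 (nat_lit 8478342751781120),mkR x528 x509 (nat_lit 11952428522691680598806298625376268648960),mkR x516 x530 (nat_lit 555499344889821397248),mkR x530 x508 (nat_lit 555933379303909163520),mkR x482 x530 (nat_lit 36405241677057757961978368),mkR x528 x508 (nat_lit 41211260166190926889818164007616446977),mkR x529 x471 (nat_lit 41211260166191069169843997864083194625)] = true := by decide +kernel
theorem cc945 : certOK x945 s135 [mkR x537 x529 (nat_lit 8480541775036672),mkR x535 x504 (nat_lit 12632993256533557525733047842438828327424),mkR x520 x529 (nat_lit 555499910038798008832),mkR x537 x511 (nat_lit 555933944452885905664),mkR x504 x529 (nat_lit 2884274563666634324312106076235014699352577),mkR x535 x495 (nat_lit 43869716157760758635625778128177201665)] = true := by decide +kernel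
theorem cc946 : certOK x946 s135 [mkR x552 x534 (nat_lit 7919790844805120),mkR x578 x495 (nat_lit 7919790844870656),mkR x520 x534 (nat_lit 518606987040355516928),mkR x552 x511 (nat_lit 518896343316414201856),mkR x504 x534 (nat_lit 11949770066700110767060490448305754538497),mkR x520 x511 (nat_lit 33987427367044309026210304),mkR x504 x511 (nat_lit 783499168885969110290645141124073198098514433)] = true := by decide +kernel
theorem cc947 : certOK x947 s135 [mkR x508 x562 (nat_lit 7915392798359808),mkR x504 x537 (nat_lit 11949770066700110767060490448305754538496),mkR x486 x561 (nat_lit 518461741554326372864),mkR x508 x536 (nat_lit 519039328206536638976),mkR x469 x561 (nat_lit 2709366768613280384260185720398766254719489),mkR x504 x536 (nat_lit 41211260166190926889674046620517335553)] = true := by decide +kernel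
theorem cc948 : certOK x948 s135 [mkR x521 x565 (nat_lit 7354641868128256),mkR x553 x530 (nat_lit 7354641868193792),mkR x486 x564 (nat_lit 481568818555883880960),mkR x521 x542 (nat_lit 481858174831942565888),mkR x467 x564 (nat_lit 2884271905210642754480360268616496092086785),mkR x505 x542 (nat_lit 31550649079599899548385792),mkR x467 x543 (nat_lit 189113029330883415956201147719784777994140320257)] = true := by decide +kernel
theorem cc949 : certOK x949 s135 [mkR x557 x535 (nat_lit 8480541774970880),mkR x583 x495 (nat_lit 8480541775036416),mkR x525 x534 (nat_lit 555356920750628930048),mkR x557 x511 (nat_lit 555646277026687614976),mkR x510 x534 (nat_lit 2885633034678326508334213767050621211443713),mkR x540 x495 (nat_lit 36386426145597661038838528),mkR x510 x511 (nat_lit 189202233672807006132521144446373805565283598849)] = true := by decide +kernel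
theorem cc950 : certOK x950 s135 [mkR x542 x529 (nat_lit 9041292705202432),mkR x538 x504 (nat_lit 11955086978683250430552106802446782759424),mkR x525 x528 (nat_lit 592249843749071421952),mkR x542 x511 (nat_lit 592683878163159318784),mkR x511 x528 (nat_lit 2710727898080964138114039218832891374076417),mkR x538 x495 (nat_lit 41211260166190926889961718444762202625)] = true := by decide +kernel
theorem cc951 : certOK x951 s135 [mkR x526 x565 (nat_lit 7915392798294016),mkR x558 x530 (nat_lit 7915392798359552),mkR x491 x564 (nat_lit 518318752266157294080),mkR x541 x543 (nat_lit 518463993354140057600),mkR x472 x564 (nat_lit 2710725239624972568282293411214372766810625),mkR x512 x542 (nat_lit 33959092735797128880783872),mkR x472 x543 (nat_lit 177739475732967212483831733333876711502765031937)] = true := by decide +kernel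
theorem cc952 : certOK x952 s135 [mkR x514 x562 (nat_lit 8476143728525568),mkR x510 x537 (nat_lit 11271863788849803671879549408313708970496),mkR x510 x562 (nat_lit 38552804174621095141838968234119856385),mkR x540 x530 (nat_lit 555212801164506563072),mkR x510 x542 (nat_lit 38552804174621095144009426186172236033)] = true := by decide +kernel
theorem cc953 : certOK x953 s135 [mkR x571 x520 (nat_lit 8482740798226432),mkR x599 x477 (nat_lit 8482740798291968),mkR x545 x520 (nat_lit 555501038137728041472),mkR x571 x491 (nat_lit 555790394413786726400),mkR x528 x532 (nat_lit 11952428522691680598806298627575291838977),mkR x545 x500 (nat_lit 36405353225032476487844608),mkR x528 x500 (nat_lit 46528172149330732624566300907738825473)] = true := by decide +kernel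
theorem cc954 : certOK x954 s135 [mkR x561 x515 (nat_lit 9043491728457984),mkR x559 x486 (nat_lit 12635651712525127357478856019509342437888),mkR x545 x515 (nat_lit 592393961136170533376),mkR x561 x485 (nat_lit 592971547788380799488),mkR x529 x515 (nat_lit 2884955128400476201239032825452077259031041),mkR x559 x485 (nat_lit 43869716157760758635770458465229668865)] = true := by decide +kernel
theorem cc955 : certOK x955 s135 [mkR x561 x517 (nat_lit 9043491728457984),mkR x559 x488 (nat_lit 12635651712525127357478856019509342437888),mkR x544 x516 (nat_lit 592393961136170533376),mkR x561 x487 (nat_lit 592971547788380799488),mkR x528 x516 (nat_lit 2884955128400476201239032825452077259031041),mkR x559 x487 (nat_lit 43869716157760758635770458465229668865)] = true := by decide +kernel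
theorem cc956 : certOK x956 s135 [mkR x561 x523 (nat_lit 9045690751648000),mkR x598 x482 (nat_lit 9045690751713280),mkR x544 x523 (nat_lit 592393963335193723392),mkR x570 x494 (nat_lit 592539767373129908480),mkR x528 x523 (nat_lit 3059179700263996694532280624457142583230977),mkR x559 x502 (nat_lit 46528172149330590381578635535743713793)] = true := by decide +kernel
theorem cc957 : certOK x957 s135 [mkR x561 x527 (nat_lit 9606441681879040),mkR x596 x482 (nat_lit 9606441681813760),mkR x559 x527 (nat_lit 43869716157760758633454200873287745537),mkR x571 x490 (nat_lit 629863910035893059840),mkR x544 x489 (nat_lit 41278797820724713573384960),mkR x528 x489 (nat_lit 2884955128400476201239035285824857276809985)] = true := by decide +kernel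
theorem cc958 : certOK x958 s135 [mkR x537 x545 (nat_lit 8480541775036672),mkR x535 x520 (nat_lit 12632993256533557525733047842438828327424),mkR x520 x545 (nat_lit 555499910038798008832),mkR x537 x525 (nat_lit 555933944452885905664),mkR x504 x545 (nat_lit 2884274563666634324312106076235014699352577),mkR x535 x515 (nat_lit 43869716157760758635625778128177201665)] = true := by decide +kernel
theorem cc959 : certOK x959 s135 [mkR x552 x549 (nat_lit 7919790844805120),mkR x578 x515 (nat_lit 7919790844870656),mkR x520 x549 (nat_lit 518606987040355516928),mkR x552 x525 (nat_lit 518896343316414201856),mkR x504 x549 (nat_lit 11949770066700110767060490448305754538497),mkR x520 x533 (nat_lit 33987464691752120765907712),mkR x504 x525 (nat_lit 783499168885969110290645141124073198098514433)] = true := by decide +kernel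
theorem cc960 : certOK x960 s135 [mkR x537 x546 (nat_lit 8480541775036672),mkR x535 x522 (nat_lit 12632993256533557525733047842438828327424),mkR x520 x546 (nat_lit 555499910038798008832),mkR x537 x521 (nat_lit 556077496691008274944),mkR x504 x546 (nat_lit 2884274563666634324312106076235014699352577),mkR x535 x521 (nat_lit 43869716157760758635626341078130557441)] = true := by decide +kernel
theorem cc961 : certOK x961 s135 [mkR x552 x551 (nat_lit 7919790844805120),mkR x579 x516 (nat_lit 7919790844870656),mkR x520 x551 (nat_lit 518606987040355516928),mkR x552 x526 (nat_lit 518896343316414201856),mkR x504 x551 (nat_lit 11949770066700110767060490448305754538497),mkR x520 x526 (nat_lit 33987427367044309026210304),mkR x504 x526 (nat_lit 783499168885969110290645141124073198098514433)] = true := by decide +kernel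
theorem cc962 : certOK x962 s135 [mkR x537 x553 (nat_lit 8482740798226688),mkR x576 x518 (nat_lit 8482740798291968),mkR x520 x553 (nat_lit 555499912237821198848),mkR x550 x527 (nat_lit 555645716275757383936),mkR x504 x553 (nat_lit 3058499135530154817605353875240080023552513),mkR x535 x518 (nat_lit 11952428522691680598806298627575291970049)] = true := by decide +kernel
theorem cc963 : certOK x963 s135 [mkR x537 x558 (nat_lit 9043491728457728),mkR x575 x518 (nat_lit 9043491728392448),mkR x535 x558 (nat_lit 43869716157760758633454198674264489985),mkR x552 x523 (nat_lit 592969858938520535296),mkR x520 x523 (nat_lit 38860909287444357851448064),mkR x504 x523 (nat_lit 2884274563666634324312108392492606641275649)] = true := by decide +kernel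
theorem cc964 : certOK x964 s135 [mkR x557 x550 (nat_lit 8480541774970880),mkR x583 x515 (nat_lit 8480541775036416),mkR x525 x549 (nat_lit 555356920750628930048),mkR x557 x525 (nat_lit 555646277026687614976),mkR x510 x549 (nat_lit 2885633034678326508334213767050621211443713),mkR x540 x515 (nat_lit 36386426145597661038838528),mkR x510 x533 (nat_lit 189113554046293208043311808243429442178768765697)] = true := by decide +kernel
theorem cc965 : certOK x965 s135 [mkR x542 x545 (nat_lit 9041292705202432),mkR x538 x520 (nat_lit 11955086978683250430552106802446782759424),mkR x525 x544 (nat_lit 592249843749071421952),mkR x542 x525 (nat_lit 592683878163159318784),mkR x511 x544 (nat_lit 2710727898080964138114039218832891374076417),mkR x538 x515 (nat_lit 41211260166190926889961718444762202625)] = true := by decide +kernel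
theorem cc966 : certOK x966 s135 [mkR x542 x546 (nat_lit 9041292705202432),mkR x538 x522 (nat_lit 11955086978683250430552106802446782759424),mkR x525 x546 (nat_lit 592249843749071421952),mkR x542 x521 (nat_lit 592827430401281688064),mkR x511 x546 (nat_lit 2710727898080964138114039218832891374076417),mkR x538 x521 (nat_lit 41211260166190926889962281394715558401)] = true := by decide +kernel
theorem cc967 : certOK x967 s135 [mkR x542 x553 (nat_lit 9043491728392448),mkR x582 x518 (nat_lit 9043491728457728),mkR x525 x554 (nat_lit 592249845948094611968),mkR x555 x527 (nat_lit 592395649986030797056),mkR x510 x553 (nat_lit 11269205332858233840133742357143101702657),mkR x538 x518 (nat_lit 11274522244841373503625357587583246402049)] = true := by decide +kernel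
theorem cc968 : certOK x968 s135 [mkR x561 x538 (nat_lit 9606441681879040),mkR x597 x495 (nat_lit 9606441681813760),mkR x559 x539 (nat_lit 43869716157760758633454200873287745537),mkR x571 x504 (nat_lit 629863910035893059840),mkR x544 x504 (nat_lit 41278760927799516107703040),mkR x528 x504 (nat_lit 11271863788849803672509404840006850315009)] = true := by decide +kernel
theorem cc969 : certOK x969 s135 [mkR x530 x564 (nat_lit 8480541774971136),mkR x571 x530 (nat_lit 8480541775036416),mkR x515 x564 (nat_lit 555355794850722087424),mkR x544 x543 (nat_lit 555501598888658272512),mkR x495 x564 (nat_lit 2884271905210642754480360268620894138597889),mkR x529 x530 (nat_lit 11271863788849803671879549410512732291585)] = true := by decide +kernel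
theorem cc970 : certOK x970 s138 [mkR x530 x568 (nat_lit 9041292705202176),mkR x570 x531 (nat_lit 9041292705136896),mkR x528 x568 (nat_lit 41211260166190926887646584553703800833),mkR x546 x537 (nat_lit 592825741551421423872),mkR x515 x536 (nat_lit 38851464410361231461909248),mkR x495 x536 (nat_lit 2710047333347122261187114785310470802899713)] = true := by decide +kernel
theorem cc971 : certOK x971 s135 [mkR x537 x566 (nat_lit 9043491728457728),mkR x575 x529 (nat_lit 9043491728392448),mkR x535 x566 (nat_lit 43869716157760758633454198674264489985),mkR x552 x534 (nat_lit 592969858938520535296),mkR x520 x534 (nat_lit 38860909287444357851448064),mkR x504 x534 (nat_lit 2884274563666634324312108392492606641275649)] = true := by decide +kernel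
theorem cc972 : certOK x972 s135 [mkR x508 x590 (nat_lit 7917591821549824),mkR x552 x561 (nat_lit 7917591821615104),mkR x520 x568 (nat_lit 518607547791285747968),mkR x552 x543 (nat_lit 519040456305466802176),mkR x467 x590 (nat_lit 11263888420875094176642126003002073481729),mkR x504 x561 (nat_lit 11269205332858233840133741233442218181121)] = true := by decide +kernel
theorem cc973 : certOK x973 s135 [mkR x508 x594 (nat_lit 8478342751780864),mkR x550 x561 (nat_lit 8478342751715584),mkR x504 x595 (nat_lit 41211260166190926887646582354680545281),mkR x521 x565 (nat_lit 555931690454048899328),mkR x486 x564 (nat_lit 36433575877080875739972352),mkR x467 x565 (nat_lit 2710047333347122261187114641190884680532737)] = true := by decide +kernel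
theorem cc974 : certOK x974 s135 [mkR x543 x563 (nat_lit 9043491728392448),mkR x582 x528 (nat_lit 9043491728457728),mkR x525 x563 (nat_lit 592249845948094611968),mkR x555 x539 (nat_lit 592395649986030797056),mkR x511 x563 (nat_lit 2884952469944484631407287017837956698276353),mkR x538 x529 (nat_lit 11274522244841373503625357587583246402049)] = true := by decide +kernel
theorem cc975 : certOK x975 s135 [mkR x542 x566 (nat_lit 9604242658623488),mkR x580 x528 (nat_lit 9604242658558208),mkR x538 x566 (nat_lit 41211260166190926887646586752727056385),mkR x557 x535 (nat_lit 629719792648793948416),mkR x525 x534 (nat_lit 41269352943641587183846144),mkR x510 x535 (nat_lit 2711408462814806015040968427855385951601409)] = true := by decide +kernel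
theorem cc976 : certOK x976 s135 [mkR x514 x590 (nat_lit 8478342751715584),mkR x557 x561 (nat_lit 8478342751780864),mkR x510 x590 (nat_lit 41211260166190926887646582354680480001),mkR x525 x569 (nat_lit 555357481501559161088),mkR x510 x569 (nat_lit 2712089027548647891967892717260419423666433)] = true := by decide +kernel
theorem cc977 : certOK x977 s135 [mkR x514 x594 (nat_lit 9039093681946624),mkR x555 x561 (nat_lit 9039093681881344),mkR x511 x594 (nat_lit 38552804174621095141838970433143111681),mkR x526 x565 (nat_lit 592681624164322312448),mkR x510 x564 (nat_lit 9908075865174479986280243931814075367937)] = true := by decide +kernel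
theorem cc978 : certOK x978 s135 [mkR x561 x555 (nat_lit 9606441681879040),mkR x597 x515 (nat_lit 9606441681813760),mkR x559 x556 (nat_lit 43869716157760758633454200873287745537),mkR x571 x520 (nat_lit 629863910035893059840),mkR x544 x520 (nat_lit 41278760927799516107703040),mkR x528 x520 (nat_lit 11271863788849803672509404840006850315009)] = true := by decide +kernel
theorem cc979 : certOK x979 s135 [mkR x561 x551 (nat_lit 9045690751648000),mkR x598 x516 (nat_lit 9045690751713280),mkR x544 x551 (nat_lit 592393963335193723392),mkR x570 x526 (nat_lit 592539767373129908480),mkR x528 x551 (nat_lit 3059179700263996694532280624457142583230977),mkR x559 x516 (nat_lit 11955086978683250430552106804645806080513)] = true := by decide +kernel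
theorem cc980 : certOK x980 s135 [mkR x561 x557 (nat_lit 9606441681879040),mkR x596 x516 (nat_lit 9606441681813760),mkR x559 x557 (nat_lit 43869716157760758633454200873287745537),mkR x571 x522 (nat_lit 629863910035893059840),mkR x544 x521 (nat_lit 41278797820724713573384960),mkR x528 x521 (nat_lit 2884955128400476201239035285824857276809985)] = true := by decide +kernel
theorem cc981 : certOK x981 s135 [mkR x586 x518 (nat_lit 9608640705134848),mkR x584 x490 (nat_lit 13318874902358574116151413413642416226816),mkR x570 x518 (nat_lit 629432129620642169344),mkR x586 x489 (nat_lit 630009716272852435456),mkR x559 x518 (nat_lit 3059862923453830141290953181288325703664129),mkR x584 x489 (nat_lit 46528172149330590381722752922842890753)] = true := by decide +kernel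
theorem cc982 : certOK x982 s135 [mkR x598 x530 (nat_lit 0),mkR x624 x499 (nat_lit 0)] = true := by decide +kernel

end Pool.Agent.Lib.MP84
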