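import Pool.Agent.Lib.MP_84c3e0_co.Tab0
import Pool.Agent.Lib.MP_84c3e0_co.Tab1
import Pool.Agent.Lib.MP_84c3e0_co.Tab2
import Pool.Agent.Lib.MP_84c3e0_co.Tab3
import Pool.Agent.Lib.MP_84c3e0_co.Tab4
import Pool.Agent.Lib.MP_84c3e0_co.Tab5
import Pool.Agent.Lib.MP_84c3e0_co.Tab6
import Pool.Agent.Lib.MP_84c3e0_co.Tab7
import Pool.Agent.Lib.MP_84c3e0_co.Rul0
import Pool.Agent.Lib.MP_84c3e0_co.Rul1
import Pool.Agent.Lib.MP_84c3e0_co.Rul2
import Pool.Agent.Lib.MP_84c3e0_co.Rul3

set_option maxRecDepth 100000

namespace Pool.Agent.Lib.MP84

theorem g0 : Good x0 := good0 cc0 trivial t0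
theorem g1 : Good x1 := good0 cc1 trivial t1
theorem g2 : Good x2 := good0 cc2 trivial t2
theorem g3 : Good x3 := good0 cc3 trivial t3
theorem g4 : Good x4 := good0 cc4 trivial t4
theorem g5 : Good x5 := good0 cc5 trivial t5
theorem g6 : Good x6 := good0 cc6 trivial t6
theorem g7 : Good x7 := good0 cc7 trivial t7
theorem g8 : Good x8 := good0 cc8 trivial t8
theorem g9 : Good x9 := good0 cc9 trivial t9
theorem g10 : Good x10 := good0 cc10 trivial t10
theorem g11 : Good x11 := good0 cc11 trivial t11
theorem g12 : Good x12 := good0 cc12 trivial t12
theorem g13 : Good x13 := good0 cc13 trivial t13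
theorem g14 : Good x14 := good0 cc14 trivial t14
theorem g15 : Good x15 := good0 cc15 trivial t15
theorem g16 : Good x16 := good0 cc16 trivial t16
theorem g17 : Good x17 := good0 cc17 trivial t17
theorem g18 : Good x18 := good0 cc18 trivial t18
theorem g19 : Good x19 := good0 cc19 trivial t19
theorem g20 : Good x20 := good0 cc20 trivial t20
theorem g21 : Good x21 := good0 cc21 trivial t21
theorem g22 : Good x22 := good0 cc22 trivial t22
theorem g23 : Good x23 := good0 cc23 trivial t23
theorem g24 : Good x24 := good0 cc24 trivial t24
theorem g25 : Good x25 := good0 cc25 trivial t25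
theorem g26 : Good x26 := good0 cc26 trivial t26
theorem g27 : Good x27 := good0 cc27 trivial t27
theorem g28 : Good x28 := good0 cc28 trivial t28
theorem g29 : Good x29 := good0 cc29 trivial t29
theorem g30 : Good x30 := good0 cc30 trivial t30
theorem g31 : Good x31 := good0 cc31 trivial t31
theorem g32 : Good x32 := good0 cc32 trivial t32
theorem g33 : Good x33 := good0 cc33 trivial t33
theorem g34 : Good x34 := good0 cc34 trivial t34
theorem g35 : Good x35 := good0 cc35 trivial t35
theorem g36 : Good x36 := good0 cc36 trivial t36
theorem g37 : Good x37 := good0 cc37 trivial t37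
theorem g38 : Good x38 := good0 cc38 trivial t38
theorem g39 : Good x39 := good0 cc39 trivial t39
theorem g40 : Good x40 := good0 cc40 trivial t40
theorem g41 : Good x41 := good0 cc41 trivial t41
theorem g42 : Good x42 := good0 cc42 trivial t42
theorem g43 : Good x43 := good0 cc43 trivial t43
theorem g44 : Good x44 := good0 cc44 trivial t44
theorem g45 : Good x45 := good0 cc45 trivial t45
theorem g46 : Good x46 := good0 cc46 trivial t46
theorem g47 : Good x47 := good0 cc47 trivial t47
theorem g48 : Good x48 := good0 cc48 trivial t48
theorem g49 : Good x49 := good0 cc49 trivial t49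
theorem g50 : Good x50 := good0 cc50 trivial t50
theorem g51 : Good x51 := good0 cc51 trivial t51
theorem g52 : Good x52 := good0 cc52 trivial t52
theorem g53 : Good x53 := good0 cc53 trivial t53
theorem g54 : Good x54 := good0 cc54 trivial t54
theorem g55 : Good x55 := good0 cc55 trivial t55
theorem g56 : Good x56 := good0 cc56 trivial t56
theorem g57 : Good x57 := good0 cc57 trivial t57
theorem g58 : Good x58 := good0 cc58 trivial t58
theorem g59 : Good x59 := good0 cc59 trivial t59
theorem g60 : Good x60 := good0 cc60 trivial t60
theorem g61 : Good x61 := good0 cc61 trivial t61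
theorem g62 : Good x62 := good0 cc62 trivial t62
theorem g63 : Good x63 := good0 cc63 trivial t63
theorem g64 : Good x64 := good0 cc64 trivial t64
theorem g65 : Good x65 := good0 cc65 trivial t65
theorem g66 : Good x66 := good0 cc66 trivial t66
theorem g67 : Good x67 := good0 cc67 trivial t67
theorem g68 : Good x68 := good0 cc68 trivial t68
theorem g69 : Good x69 := good0 cc69 trivial t69
theorem g70 : Good x70 := good0 cc70 trivial t70
theorem g71 : Good x71 := good0 cc71 trivial t71
theorem g72 : Good x72 := good0 cc72 trivial t72
theorem g73 : Good x73 := good0 cc73 trivial t73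
theorem g74 : Good x74 := good0 cc74 trivial t74
theorem g75 : Good x75 := good0 cc75 trivial t75
theorem g76 : Good x76 := good0 cc76 trivial t76
theorem g77 : Good x77 := good0 cc77 trivial t77
theorem g78 : Good x78 := good0 cc78 trivial t78
theorem g79 : Good x79 := good0 cc79 trivial t79
theorem g80 : Good x80 := good0 cc80 trivial t80
theorem g81 : Good x81 := good0 cc81 trivial t81
theorem g82 : Good x82 := good0 cc82 trivial t82
theorem g83 : Good x83 := good0 cc83 trivial t83
theorem g84 : Good x84 := good0 cc84 trivial t84
theorem g85 : Good x85 := good0 cc85 trivial t85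
theorem g86 : Good x86 := good0 cc86 trivial t86
theorem g87 : Good x87 := good0 cc87 trivial t87
theorem g88 : Good x88 := good0 cc88 trivial t88
theorem g89 : Good x89 := good0 cc89 trivial t89
theorem g90 : Good x90 := good0 cc90 trivial t90
theorem g91 : Good x91 := good0 cc91 trivial t91
theorem g92 : Good x92 := good0 cc92 trivial t92
theorem g93 : Good x93 := good0 cc93 trivial t93
theorem g94 : Good x94 := good0 cc94 trivial t94
theorem g95 : Good x95 := good0 cc95 trivial t95
theorem g96 : Good x96 := good0 cc96 trivial t96
theorem g97 : Good x97 := good0 cc97 trivial t97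
theorem g98 : Good x98 := good0 cc98 trivial t98
theorem g99 : Good x99 := good0 cc99 trivial t99
theorem g100 : Good x100 := good0 cc100 trivial t100
theorem g101 : Good x101 := good0 cc101 trivial t101
theorem g102 : Good x102 := good0 cc102 trivial t102
theorem g103 : Good x103 := good0 cc103 trivial t103
theorem g104 : Good x104 := good0 cc104 trivial t104
theorem g105 : Good x105 := good0 cc105 trivial t105
theorem g106 : Good x106 := good0 cc106 trivial t106
theorem g107 : Good x107 := good0 cc107 trivial t107
theorem g108 : Good x108 := good0 cc108 trivial t108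
theorem g109 : Good x109 := good0 cc109 trivial t109
theorem g110 : Good x110 := good0 cc110 trivial t110
theorem g111 : Good x111 := good0 cc111 trivial t111
theorem g112 : Good x112 := good0 cc112 trivial t112
theorem g113 : Good x113 := good0 cc113 trivial t113
theorem g114 : Good x114 := good0 cc114 trivial t114
theorem g115 : Good x115 := good0 cc115 trivial t115
theorem g116 : Good x116 := good0 cc116 trivial t116
theorem g117 : Good x117 := good0 cc117 trivial t117
theorem g118 : Good x118 := good0 cc118 trivial t118
theorem g119 : Good x119 := good0 cc119 trivial t119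
theorem g120 : Good x120 := good0 cc120 trivial t120
theorem g121 : Good x121 := good0 cc121 trivial t121
theorem g122 : Good x122 := good0 cc122 trivial t122
theorem g123 : Good x123 := good0 cc123 trivial t123
theorem g124 : Good x124 := good0 cc124 trivial t124
theorem g125 : Good x125 := good0 cc125 trivial t125
theorem g126 : Good x126 := good0 cc126 trivial t126
theorem g127 : Good x127 := good0 cc127 trivial t127
theorem g128 : Good x128 := good0 cc128 trivial t128
theorem g129 : Good x129 := good0 cc129 trivial t129
theorem g130 : Good x130 := good0 cc130 trivial t130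
theorem g131 : Good x131 := good0 cc131 trivial t131
theorem g132 : Good x132 := good0 cc132 trivial t132
theorem g133 : Good x133 := good0 cc133 trivial t133
theorem g134 : Good x134 := good0 cc134 trivial t134
theorem g135 : Good x135 := good0 cc135 trivial t135
theorem g136 : Good x136 := good0 cc136 trivial t136
theorem g137 : Good x137 := good0 cc137 trivial t137
theorem g138 : Good x138 := good0 cc138 trivial t138
theorem g139 : Good x139 := good0 cc139 trivial t139
theorem g140 : Good x140 := good0 cc140 trivial t140
theorem g141 : Good x141 := good0 cc141 trivial t141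
theorem g142 : Good x142 := good0 cc142 trivial t142
theorem g143 : Good x143 := good0 cc143 trivial t143
theorem g144 : Good x144 := good0 cc144 trivial t144
theorem g145 : Good x145 := good0 cc145 trivial t145
theorem g146 : Good x146 := good0 cc146 trivial t146
theorem g147 : Good x147 := good0 cc147 trivial t147
theorem g148 : Good x148 := good0 cc148 trivial t148
theorem g149 : Good x149 := good0 cc149 trivial t149
theorem g150 : Good x150 := good0 cc150 trivial t150
theorem g151 : Good x151 := good0 cc151 trivial t151
theorem g152 : Good x152 := good0 cc152 trivial t152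
theorem g153 : Good x153 := good0 cc153 trivial t153
theorem g154 : Good x154 := good0 cc154 trivial t154
theorem g155 : Good x155 := good0 cc155 trivial t155
theorem g156 : Good x156 := good0 cc156 trivial t156
theorem g157 : Good x157 := good0 cc157 trivial t157
theorem g158 : Good x158 := good0 cc158 trivial t158
theorem g159 : Good x159 := good0 cc159 trivial t159
theorem g160 : Good x160 := good0 cc160 trivial t160
theorem g161 : Good x161 := good0 cc161 trivial t161
theorem g162 : Good x162 := good0 cc162 trivial t162
theorem g163 : Good x163 := good0 cc163 trivial t163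
theorem g164 : Good x164 := good0 cc164 trivial t164
theorem g165 : Good x165 := good0 cc165 trivial t165
theorem g166 : Good x166 := good0 cc166 trivial t166
theorem g167 : Good x167 := good0 cc167 trivial t167
theorem g168 : Good x168 := good0 cc168 trivial t168
theorem g169 : Good x169 := good0 cc169 trivial t169
theorem g170 : Good x170 := good0 cc170 trivial t170
theorem g171 : Good x171 := good0 cc171 trivial t171
theorem g172 : Good x172 := good0 cc172 trivial t172
theorem g173 : Good x173 := good0 cc173 trivial t173
theorem g174 : Good x174 := good0 cc174 trivial t174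
theorem g175 : Good x175 := good0 cc175 trivial t175
theorem g176 : Good x176 := good0 cc176 trivial t176
theorem g177 : Good x177 := good0 cc177 trivial t177
theorem g178 : Good x178 := good0 cc178 trivial t178
theorem g179 : Good x179 := good0 cc179 trivial t179
theorem g180 : Good x180 := good0 cc180 trivial t180
theorem g181 : Good x181 := good0 cc181 trivial t181
theorem g182 : Good x182 := good0 cc182 trivial t182
theorem g183 : Good x183 := good0 cc183 trivial t183
theorem g184 : Good x184 := good0 cc184 trivial t184
theorem g185 : Good x185 := good0 cc185 trivial t185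
theorem g186 : Good x186 := good0 cc186 trivial t186
theorem g187 : Good x187 := good0 cc187 trivial t187
theorem g188 : Good x188 := good0 cc188 trivial t188
theorem g189 : Good x189 := good0 cc189 trivial t189
theorem g190 : Good x190 := good0 cc190 trivial t190
theorem g191 : Good x191 := good0 cc191 trivial t191
theorem g192 : Good x192 := good0 cc192 trivial t192
theorem g193 : Good x193 := good0 cc193 trivial t193
theorem g194 : Good x194 := good0 cc194 trivial t194
theorem g195 : Good x195 := good0 cc195 trivial t195
theorem g196 : Good x196 := good0 cc196 trivial t196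
theorem g197 : Good x197 := good0 cc197 trivial t197
theorem g198 : Good x198 := good0 cc198 trivial t198
theorem g199 : Good x199 := good0 cc199 trivial t199
theorem g200 : Good x200 := good0 cc200 trivial t200
theorem g201 : Good x201 := good0 cc201 trivial t201
theorem g202 : Good x202 := good0 cc202 trivial t202
theorem g203 : Good x203 := good0 cc203 trivial t203
theorem g204 : Good x204 := good0 cc204 trivial t204
theorem g205 : Good x205 := good0 cc205 trivial t205
theorem g206 : Good x206 := good0 cc206 trivial t206
theorem g207 : Good x207 := good0 cc207 trivial t207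
theorem g208 : Good x208 := good0 cc208 trivial t208
theorem g209 : Good x209 := good0 cc209 trivial t209
theorem g210 : Good x210 := good0 cc210 trivial t210
theorem g211 : Good x211 := good0 cc211 trivial t211
theorem g212 : Good x212 := good0 cc212 trivial t212
theorem g213 : Good x213 := good0 cc213 trivial t213
theorem g214 : Good x214 := good0 cc214 trivial t214
theorem g215 : Good x215 := good0 cc215 trivial t215
theorem g216 : Good x216 := good0 cc216 trivial t216
theorem g217 : Good x217 := good0 cc217 trivial t217
theorem g218 : Good x218 := good0 cc218 trivial t218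
theorem g219 : Good x219 := good0 cc219 trivial t219
theorem g220 : Good x220 := good0 cc220 trivial t220
theorem g221 : Good x221 := good0 cc221 trivial t221
theorem g222 : Good x222 := good0 cc222 trivial t222
theorem g223 : Good x223 := good0 cc223 trivial t223
theorem g224 : Good x224 := good0 cc224 trivial t224
theorem g225 : Good x225 := good0 cc225 trivial t225
theorem g226 : Good x226 := good0 cc226 trivial t226
theorem g227 : Good x227 := good0 cc227 trivial t227
theorem g228 : Good x228 := good0 cc228 trivial t228
theorem g229 : Good x229 := good0 cc229 trivial t229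
theorem g230 : Good x230 := good0 cc230 trivial t230
theorem g231 : Good x231 := good0 cc231 trivial t231
theorem g232 : Good x232 := good0 cc232 trivial t232
theorem g233 : Good x233 := good0 cc233 trivial t233
theorem g234 : Good x234 := good0 cc234 trivial t234
theorem g235 : Good x235 := good0 cc235 trivial t235
theorem g236 : Good x236 := good0 cc236 trivial t236
theorem g237 : Good x237 := good0 cc237 trivial t237
theorem g238 : Good x238 := good0 cc238 trivial t238
theorem g239 : Good x239 := good0 cc239 trivial t239
theorem g240 : Good x240 := good0 cc240 trivial t240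
theorem g241 : Good x241 := good0 cc241 trivial t241
theorem g242 : Good x242 := good0 cc242 trivial t242
theorem g243 : Good x243 := good0 cc243 trivial t243
theorem g244 : Good x244 := good0 cc244 trivial t244
theorem g245 : Good x245 := good0 cc245 trivial t245
theorem g246 : Good x246 := good0 cc246 trivial t246
theorem g247 : Good x247 := good0 cc247 trivial t247
theorem g248 : Good x248 := good0 cc248 trivial t248
theorem g249 : Good x249 := good0 cc249 trivial t249
theorem g250 : Good x250 := good0 cc250 trivial t250
theorem g251 : Good x251 := good0 cc251 trivial t251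
theorem g252 : Good x252 := good0 cc252 trivial t252
theorem g253 : Good x253 := good0 cc253 trivial t253
theorem g254 : Good x254 := good0 cc254 trivial t254
theorem g255 : Good x255 := good0 cc255 trivial t255
theorem g256 : Good x256 := good0 cc256 trivial t256
theorem g257 : Good x257 := good0 cc257 trivial t257
theorem g258 : Good x258 := good0 cc258 trivial t258
theorem g259 : Good x259 := good0 cc259 trivial t259
theorem g260 : Good x260 := good0 cc260 trivial t260
theorem g261 : Good x261 := good0 cc261 trivial t261
theorem g262 : Good x262 := good0 cc262 trivial t262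
theorem g263 : Good x263 := good0 cc263 trivial t263
theorem g264 : Good x264 := good0 cc264 trivial t264
theorem g265 : Good x265 := good0 cc265 trivial t265
theorem g266 : Good x266 := good0 cc266 trivial t266
theorem g267 : Good x267 := good0 cc267 trivial t267
theorem g268 : Good x268 := good0 cc268 trivial t268
theorem g269 : Good x269 := good0 cc269 trivial t269
theorem g270 : Good x270 := good0 cc270 trivial t270
theorem g271 : Good x271 := good0 cc271 trivial t271
theorem g272 : Good x272 := good0 cc272 trivial t272
theorem g273 : Good x273 := good0 cc273 trivial t273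
theorem g274 : Good x274 := good0 cc274 trivial t274
theorem g275 : Good x275 := good0 cc275 trivial t275
theorem g276 : Good x276 := good0 cc276 trivial t276
theorem g277 : Good x277 := good0 cc277 trivial t277
theorem g278 : Good x278 := good0 cc278 trivial t278
theorem g279 : Good x279 := good0 cc279 trivial t279
theorem g280 : Good x280 := good0 cc280 trivial t280
theorem g281 : Good x281 := good0 cc281 trivial t281
theorem g282 : Good x282 := good0 cc282 trivial t282
theorem g283 : Good x283 := good0 cc283 trivial t283
theorem g284 : Good x284 := good0 cc284 trivial t284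
theorem g285 : Good x285 := good0 cc285 trivial t285
theorem g286 : Good x286 := good0 cc286 trivial t286
theorem g287 : Good x287 := good0 cc287 trivial t287
theorem g288 : Good x288 := good0 cc288 trivial t288
theorem g289 : Good x289 := good0 cc289 trivial t289
theorem g290 : Good x290 := good0 cc290 trivial t290
theorem g291 : Good x291 := good0 cc291 trivial t291
theorem g292 : Good x292 := good0 cc292 trivial t292
theorem g293 : Good x293 := good0 cc293 trivial t293
theorem g294 : Good x294 := good0 cc294 trivial t294
theorem g295 : Good x295 := good0 cc295 trivial t295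
theorem g296 : Good x296 := good0 cc296 trivial t296
theorem g297 : Good x297 := good0 cc297 trivial t297
theorem g298 : Good x298 := good0 cc298 trivial t298
theorem g299 : Good x299 := good0 cc299 trivial t299
theorem g300 : Good x300 := good0 cc300 trivial t300
theorem g301 : Good x301 := good0 cc301 trivial t301
theorem g302 : Good x302 := good0 cc302 trivial t302
theorem g303 : Good x303 := good0 cc303 trivial t303
theorem g304 : Good x304 := good0 cc304 trivial t304
theorem g305 : Good x305 := good0 cc305 trivial t305
theorem g306 : Good x306 := good0 cc306 trivial t306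
theorem g307 : Good x307 := good0 cc307 trivial t307
theorem g308 : Good x308 := good0 cc308 trivial t308
theorem g309 : Good x309 := good0 cc309 trivial t309
theorem g310 : Good x310 := good0 cc310 trivial t310
theorem g311 : Good x311 := good0 cc311 trivial t311
theorem g312 : Good x312 := good0 cc312 trivial t312
theorem g313 : Good x313 := good0 cc313 trivial t313
theorem g314 : Good x314 := good0 cc314 trivial t314
theorem g315 : Good x315 := good0 cc315 trivial t315
theorem g316 : Good x316 := good0 cc316 trivial t316
theorem g317 : Good x317 := good0 cc317 trivial t317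
theorem g318 : Good x318 := good0 cc318 trivial t318
theorem g319 : Good x319 := good0 cc319 trivial t319
theorem g320 : Good x320 := good0 cc320 trivial t320
theorem g321 : Good x321 := good0 cc321 trivial t321
theorem g322 : Good x322 := good0 cc322 trivial t322
theorem g323 : Good x323 := good0 cc323 trivial t323
theorem g324 : Good x324 := good0 cc324 trivial t324
theorem g325 : Good x325 := good0 cc325 trivial t325
theorem g326 : Good x326 := good0 cc326 trivial t326
theorem g327 : Good x327 := good0 cc327 trivial t327
theorem g328 : Good x328 := good0 cc328 trivial t328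
theorem g329 : Good x329 := good0 cc329 trivial t329
theorem g330 : Good x330 := good0 cc330 trivial t330
theorem g331 : Good x331 := good0 cc331 trivial t331
theorem g332 : Good x332 := good0 cc332 trivial t332
theorem g333 : Good x333 := good0 cc333 trivial t333
theorem g334 : Good x334 := good0 cc334 trivial t334
theorem g335 : Good x335 := good0 cc335 trivial t335
theorem g336 : Good x336 := good0 cc336 trivial t336
theorem g337 : Good x337 := good0 cc337 trivial t337
theorem g338 : Good x338 := good0 cc338 trivial t338
theorem g339 : Good x339 := good0 cc339 trivial t339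
theorem g340 : Good x340 := good0 cc340 trivial t340
theorem g341 : Good x341 := good0 cc341 trivial t341
theorem g342 : Good x342 := good0 cc342 trivial t342
theorem g343 : Good x343 := good0 cc343 trivial t343
theorem g344 : Good x344 := good0 cc344 trivial t344
theorem g345 : Good x345 := good0 cc345 trivial t345
theorem g346 : Good x346 := good0 cc346 trivial t346
theorem g347 : Good x347 := good0 cc347 trivial t347
theorem g348 : Good x348 := good0 cc348 trivial t348
theorem g349 : Good x349 := good0 cc349 trivial t349
theorem g350 : Good x350 := good0 cc350 trivial t350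
theorem g351 : Good x351 := good0 cc351 trivial t351
theorem g352 : Good x352 := good0 cc352 trivial t352
theorem g353 : Good x353 := good0 cc353 trivial t353
theorem g354 : Good x354 := good0 cc354 trivial t354
theorem g355 : Good x355 := good0 cc355 trivial t355
theorem g356 : Good x356 := good0 cc356 trivial t356
theorem g357 : Good x357 := good0 cc357 trivial t357
theorem g358 : Good x358 := good0 cc358 trivial t358
theorem g359 : Good x359 := good0 cc359 trivial t359
theorem g360 : Good x360 := good0 cc360 trivial t360
theorem g361 : Good x361 := good0 cc361 trivial t361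
theorem g362 : Good x362 := good0 cc362 trivial t362
theorem g363 : Good x363 := good0 cc363 trivial t363
theorem g364 : Good x364 := good0 cc364 trivial t364
theorem g365 : Good x365 := good0 cc365 trivial t365
theorem g366 : Good x366 := good0 cc366 trivial t366
theorem g367 : Good x367 := good0 cc367 trivial t367
theorem g368 : Good x368 := good0 cc368 trivial t368
theorem g369 : Good x369 := good0 cc369 trivial t369
theorem g370 : Good x370 := good0 cc370 trivial t370
theorem g371 : Good x371 := good0 cc371 trivial t371
theorem g372 : Good x372 := good0 cc372 trivial t372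
theorem g373 : Good x373 := good0 cc373 trivial t373
theorem g374 : Good x374 := good0 cc374 trivial t374
theorem g375 : Good x375 := good0 cc375 trivial t375
theorem g376 : Good x376 := good0 cc376 trivial t376
theorem g377 : Good x377 := good0 cc377 trivial t377
theorem g378 : Good x378 := good0 cc378 trivial t378
theorem g379 : Good x379 := good0 cc379 trivial t379
theorem g380 : Good x380 := good0 cc380 trivial t380
theorem g381 : Good x381 := good0 cc381 trivial t381
theorem g382 : Good x382 := good0 cc382 trivial t382
theorem g383 : Good x383 := good0 cc383 trivial t383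
theorem g384 : Good x384 := good0 cc384 trivial t384
theorem g385 : Good x385 := good0 cc385 trivial t385
theorem g386 : Good x386 := good0 cc386 trivial t386
theorem g387 : Good x387 := good0 cc387 trivial t387
theorem g388 : Good x388 := good0 cc388 trivial t388
theorem g389 : Good x389 := good0 cc389 trivial t389
theorem g390 : Good x390 := good0 cc390 trivial t390
theorem g391 : Good x391 := good0 cc391 trivial t391
theorem g392 : Good x392 := good0 cc392 trivial t392
theorem g393 : Good x393 := good0 cc393 trivial t393
theorem g394 : Good x394 := good0 cc394 trivial t394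
theorem g395 : Good x395 := good0 cc395 trivial t395
theorem g396 : Good x396 := good0 cc396 trivial t396
theorem g397 : Good x397 := good0 cc397 trivial t397
theorem g398 : Good x398 := good0 cc398 trivial t398
theorem g399 : Good x399 := good0 cc399 trivial t399
theorem g400 : Good x400 := good0 cc400 trivial t400
theorem g401 : Good x401 := good0 cc401 trivial t401
theorem g402 : Good x402 := good0 cc402 trivial t402
theorem g403 : Good x403 := good0 cc403 trivial t403
theorem g404 : Good x404 := good0 cc404 trivial t404
theorem g405 : Good x405 := good0 cc405 trivial t405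
theorem g406 : Good x406 := good0 cc406 trivial t406
theorem g407 : Good x407 := good0 cc407 trivial t407
theorem g408 : Good x408 := good0 cc408 trivial t408
theorem g409 : Good x409 := good0 cc409 trivial t409
theorem g410 : Good x410 := good0 cc410 trivial t410
theorem g411 : Good x411 := good0 cc411 trivial t411
theorem g412 : Good x412 := good0 cc412 trivial t412
theorem g413 : Good x413 := good0 cc413 trivial t413
theorem g414 : Good x414 := good0 cc414 trivial t414
theorem g415 : Good x415 := good0 cc415 trivial t415
theorem g416 : Good x416 := good0 cc416 trivial t416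
theorem g417 : Good x417 := good0 cc417 trivial t417
theorem g418 : Good x418 := good0 cc418 trivial t418
theorem g419 : Good x419 := good0 cc419 trivial t419
theorem g420 : Good x420 := good0 cc420 trivial t420
theorem g421 : Good x421 := good0 cc421 trivial t421
theorem g422 : Good x422 := good0 cc422 trivial t422
theorem g423 : Good x423 := good0 cc423 trivial t423
theorem g424 : Good x424 := good0 cc424 trivial t424
theorem g425 : Good x425 := good0 cc425 (.consR g1 g114 (.consR g6 g74 trivial)) t425
theorem g426 : Good x426 := good0 cc426 trivial t426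
theorem g427 : Good x427 := good0 cc427 trivial t427
theorem g428 : Good x428 := good0 cc428 trivial t428
theorem g429 : Good x429 := good0 cc429 (.consR g7 g162 (.consR g29 g65 (.consR g31 g18 trivial))) t429
theorem g430 : Good x430 := good0 cc430 trivial t430
theorem g431 : Good x431 := good0 cc431 trivial t431
theorem g432 : Good x432 := good0 cc432 trivial t432
theorem g433 : Good x433 := good0 cc433 trivial t433
theorem g434 : Good x434 := good0 cc434 trivial t434
theorem g435 : Good x435 := good0 cc435 trivial t435
theorem g436 : Good x436 := good0 cc436 trivial t436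
theorem g437 : Good x437 := good0 cc437 trivial t437
theorem g438 : Good x438 := good0 cc438 trivial t438
theorem g439 : Good x439 := good0 cc439 trivial t439
theorem g440 : Good x440 := good0 cc440 trivial t440
theorem g441 : Good x441 := good0 cc441 trivial t441
theorem g442 : Good x442 := good0 cc442 trivial t442
theorem g443 : Good x443 := good0 cc443 trivial t443
theorem g444 : Good x444 := good0 cc444 trivial t444
theorem g445 : Good x445 := good0 cc445 trivial t445
theorem g446 : Good x446 := good0 cc446 trivial t446
theorem g447 : Good x447 := good0 cc447 trivial t447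
theorem g448 : Good x448 := good0 cc448 (.consR g57 g36 (.consR g54 g11 (.consR g58 g11 trivial))) t448
theorem g449 : Good x449 := good0 cc449 trivial t449
theorem g450 : Good x450 := good0 cc450 trivial t450
theorem g451 : Good x451 := good0 cc451 trivial t451
theorem g452 : Good x452 := good0 cc452 trivial t452
theorem g453 : Good x453 := good0 cc453 trivial t453
theorem g454 : Good x454 := good0 cc454 trivial t454
theorem g455 : Good x455 := good0 cc455 trivial t455
theorem g456 : Good x456 := good0 cc456 trivial t456
theorem g457 : Good x457 := good0 cc457 trivial t457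
theorem g458 : Good x458 := good0 cc458 trivial t458
theorem g459 : Good x459 := good0 cc459 trivial t459
theorem g460 : Good x460 := good0 cc460 trivial t460
theorem g461 : Good x461 := good0 cc461 trivial t461
theorem g462 : Good x462 := good0 cc462 trivial t462
theorem g463 : Good x463 := good0 cc463 (.consR g18 g90 (.consR g50 g25 trivial)) t463
theorem g464 : Good x464 := good0 cc464 trivial t464
theorem g465 : Good x465 := good0 cc465 trivial t465
theorem g466 : Good x466 := good0 cc466 trivial t466
theorem g467 : Good x467 := good0 cc467 trivial t467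
theorem g468 : Good x468 := good0 cc468 (.consR g55 g50 (.consR g56 g18 trivial)) t468
theorem g469 : Good x469 := good0 cc469 (.consR g23 g115 (.consR g24 g56 trivial)) t469
theorem g470 : Good x470 := good0 cc470 trivial t470
theorem g471 : Good x471 := good0 cc471 (.consR g1 g188 (.consR g5 g137 trivial)) t471
theorem g472 : Good x472 := good0 cc472 trivial t472
theorem g473 : Good x473 := good0 cc473 (.consR g30 g115 (.consR g28 g56 (.consR g7 g56 trivial))) t473
theorem g474 : Good x474 := good0 cc474 trivial t474
theorem g475 : Good x475 := good0 cc475 trivial t475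
theorem g476 : Good x476 := good0 cc476 trivial t476
theorem g477 : Good x477 := good0 cc477 trivial t477
theorem g478 : Good x478 := good0 cc478 (.consR g51 g120 (.consR g103 g34 trivial)) t478
theorem g479 : Good x479 := good0 cc479 trivial t479
theorem g480 : Good x480 := good0 cc480 (.consR g50 g35 (.consR g103 g33 (.consR g106 g10 trivial))) t480
theorem g481 : Good x481 := good0 cc481 trivial t481
theorem g482 : Good x482 := good0 cc482 (.consR g107 g38 (.consR g103 g16 (.consR g50 g16 trivial))) t482
theorem g483 : Good x483 := good0 cc483 trivial t483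
theorem g484 : Good x484 := good0 cc484 trivial t484
theorem g485 : Good x485 := good0 cc485 (.consR g24 g69 (.consR g56 g37 (.consR g22 g46 trivial))) t485
theorem g486 : Good x486 := good0 cc486 (.consR g23 g148 (.consR g21 g120 (.consR g6 g120 trivial))) t486
theorem g487 : Good x487 := good0 cc487 (.consR g57 g71 (.consR g54 g41 (.consR g55 g70 (.consR g56 g35 trivial)))) t487
theorem g488 : Good x488 := good0 cc488 trivial t488
theorem g489 : Good x489 := good0 cc489 (.consR g54 g83 (.consR g57 g45 trivial)) t489
theorem g490 : Good x490 := good0 cc490 (.consR g56 g95 (.consR g54 g38 (.consR g57 g38 trivial))) t490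
theorem g491 : Good x491 := good0 cc491 (.consR g28 g148 (.consR g7 g120 trivial)) t491
theorem g492 : Good x492 := good0 cc492 trivial t492
theorem g493 : Good x493 := good0 cc493 trivial t493
theorem g494 : Good x494 := good0 cc494 (.consR g64 g83 (.consR g66 g45 (.consR g64 g45 trivial))) t494
theorem g495 : Good x495 := good0 cc495 (.consR g52 g162 (.consR g105 g65 (.consR g104 g65 (.consR g106 g18 trivial)))) t495
theorem g496 : Good x496 := good0 cc496 trivial t496
theorem g497 : Good x497 := good0 cc497 trivial t497
theorem g498 : Good x498 := good0 cc498 (.consR g18 g114 (.consR g52 g74 trivial)) t498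
theorem g499 : Good x499 := good0 cc499 trivial t499
theorem g500 : Good x500 := good0 cc500 trivial t500
theorem g501 : Good x501 := good0 cc501 trivial t501
theorem g502 : Good x502 := good0 cc502 trivial t502
theorem g503 : Good x503 := good0 cc503 trivial t503
theorem g504 : Good x504 := good0 cc504 (.consR g56 g126 (.consR g54 g56 (.consR g56 g60 (.consR g58 g18 trivial)))) t504
theorem g505 : Good x505 := good0 cc505 trivial t505
theorem g506 : Good x506 := good0 cc506 trivial t506
theorem g507 : Good x507 := good0 cc507 trivial t507
theorem g508 : Good x508 := good0 cc508 (.consR g5 g298 (.consR g22 g186 (.consR g6 g186 trivial))) t508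
theorem g509 : Good x509 := good0 cc509 (.consR g77 g59 (.consR g183 g25 (.consR g77 g25 (.consR g183 g8 (.consR g23 g114 (.consR g21 g61 trivial)))))) t509
theorem g510 : Good x510 := good0 cc510 (.consR g30 g123 (.consR g30 g54 trivial)) t510
theorem g511 : Good x511 := good0 cc511 (.consR g64 g110 (.consR g66 g65 (.consR g67 g65 trivial))) t511
theorem g512 : Good x512 := good0 cc512 trivial t512
theorem g513 : Good x513 := good0 cc513 trivial t513
theorem g514 : Good x514 := good0 cc514 (.consR g30 g185 (.consR g31 g108 (.consR g28 g186 (.consR g7 g128 trivial)))) t514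
theorem g515 : Good x515 := good0 cc515 (.consR g104 g91 (.consR g103 g37 (.consR g50 g37 (.consR g103 g26 trivial)))) t515
theorem g516 : Good x516 := good0 cc516 (.consR g106 g35 (.consR g105 g10 (.consR g104 g27 trivial))) t516
theorem g517 : Good x517 := good0 cc517 (.consR g204 g10 (.consR g317 g2 (.consR g174 g10 (.consR g205 g2 (.consR g104 g93 (.consR g106 g35 (.consR g103 g27 trivial))))))) t517
theorem g518 : Good x518 := good0 cc518 (.consR g132 g14 (.consR g243 g4 (.consR g170 g16 (.consR g172 g3 trivial)))) t518
theorem g519 : Good x519 := good0 cc519 (.consR g207 g53 (.consR g284 g19 trivial)) t519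
theorem g520 : Good x520 := good0 cc520 (.consR g56 g156 (.consR g54 g84 (.consR g57 g69 trivial))) t520
theorem g521 : Good x521 := good0 cc521 (.consR g184 g41 (.consR g253 g33 (.consR g77 g41 (.consR g144 g27 (.consR g23 g142 (.consR g57 g97 (.consR g21 g261 trivial))))))) t521
theorem g522 : Good x522 := good0 cc522 (.consR g56 g159 (.consR g54 g86 (.consR g21 g161 (.consR g56 g85 trivial)))) t522
theorem g523 : Good x523 := good0 cc523 (.consR g80 g36 (.consR g184 g17 (.consR g112 g72 (.consR g113 g39 (.consR g110 g39 (.consR g113 g16 (.consR g110 g12 trivial))))))) t523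
theorem g524 : Good x524 := good0 cc524 (.consR g144 g81 (.consR g222 g36 (.consR g183 g17 (.consR g252 g3 (.consR g58 g151 (.consR g54 g81 (.consR g54 g151 (.consR g57 g81 trivial)))))))) t524
theorem g525 : Good x525 := good0 cc525 (.consR g64 g141 (.consR g66 g96 (.consR g64 g69 (.consR g66 g46 trivial)))) t525
theorem g526 : Good x526 := good0 cc526 (.consR g64 g143 (.consR g66 g97 (.consR g29 g142 (.consR g64 g70 trivial)))) t526
theorem g527 : Good x527 := good0 cc527 (.consR g92 g38 (.consR g196 g12 (.consR g123 g72 (.consR g126 g39 (.consR g124 g45 (.consR g126 g12 (.consR g123 g14 trivial))))))) t527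
theorem g528 : Good x528 := good0 cc528 (.consR g208 g56 (.consR g284 g18 (.consR g107 g115 (.consR g105 g56 (.consR g52 g56 trivial))))) t528
theorem g529 : Good x529 := good0 cc529 (.consR g170 g50 (.consR g172 g18 trivial)) t529
theorem g530 : Good x530 := good0 cc530 (.consR g18 g188 (.consR g50 g137 (.consR g18 g114 trivial))) t530
theorem g531 : Good x531 := good0 cc531 (.consR g51 g226 (.consR g105 g108 (.consR g50 g108 (.consR g103 g61 (.consR g104 g32 trivial))))) t531
theorem g532 : Good x532 := good0 cc532 trivial t532
theorem g533 : Good x533 := good0 cc533 trivial t533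
theorem g534 : Good x534 := good0 cc534 (.consR g112 g104 (.consR g113 g65 (.consR g110 g56 (.consR g21 g136 trivial)))) t534
theorem g535 : Good x535 := good0 cc535 (.consR g54 g187 (.consR g56 g110 (.consR g54 g110 trivial))) t535
theorem g536 : Good x536 := good0 cc536 (.consR g57 g175 (.consR g54 g117 (.consR g56 g114 (.consR g54 g74 (.consR g5 g212 trivial))))) t536
theorem g537 : Good x537 := good0 cc537 (.consR g23 g258 (.consR g24 g186 trivial)) t537
theorem g538 : Good x538 := good0 cc538 (.consR g64 g187 (.consR g66 g110 (.consR g64 g110 trivial))) t538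
theorem g539 : Good x539 := good0 cc539 (.consR g123 g104 (.consR g126 g56 (.consR g67 g136 (.consR g123 g65 (.consR g31 g136 trivial))))) t539
theorem g540 : Good x540 := good0 cc540 trivial t540
theorem g541 : Good x541 := good0 cc541 trivial t541
theorem g542 : Good x542 := good0 cc542 (.consR g31 g257 (.consR g28 g186 (.consR g7 g226 trivial))) t542
theorem g543 : Good x543 := good0 cc543 (.consR g30 g212 (.consR g64 g117 trivial)) t543
theorem g544 : Good x544 := good0 cc544 (.consR g207 g75 (.consR g284 g34 (.consR g207 g44 (.consR g284 g26 (.consR g174 g49 (.consR g207 g15 (.consR g107 g148 (.consR g106 g120 trivial)))))))) t544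
theorem g545 : Good x545 := good0 cc545 (.consR g132 g37 (.consR g243 g13 (.consR g170 g68 (.consR g172 g37 (.consR g172 g15 trivial))))) t545
theorem g546 : Good x546 := good0 cc546 (.consR g132 g122 (.consR g243 g35 (.consR g132 g43 (.consR g243 g27 (.consR g170 g70 (.consR g172 g35 trivial)))))) t546
theorem g547 : Good x547 := good0 cc547 (.consR g204 g36 (.consR g318 g11 (.consR g132 g36 (.consR g276 g11 (.consR g203 g12 (.consR g276 g4 (.consR g105 g83 (.consR g173 g45 trivial)))))))) t547
theorem g548 : Good x548 := good0 cc548 (.consR g207 g38 (.consR g315 g17 (.consR g132 g38 (.consR g207 g16 (.consR g202 g14 (.consR g278 g4 (.consR g104 g198 (.consR g172 g95 (.consR g170 g38 trivial))))))))) t548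
theorem g549 : Good x549 := good0 cc549 (.consR g77 g99 (.consR g184 g46 (.consR g112 g131 (.consR g113 g96 (.consR g110 g84 trivial))))) t549
theorem g550 : Good x550 := good0 cc550 (.consR g144 g141 (.consR g222 g69 (.consR g214 g69 (.consR g183 g46 (.consR g214 g37 (.consR g21 g179 trivial)))))) t550
theorem g551 : Good x551 := good0 cc551 (.consR g79 g93 (.consR g184 g47 (.consR g112 g133 (.consR g113 g97 (.consR g110 g86 trivial))))) t551
theorem g552 : Good x552 := good0 cc552 (.consR g144 g143 (.consR g222 g71 (.consR g56 g142 (.consR g54 g97 (.consR g56 g70 trivial))))) t552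
theorem g553 : Good x553 := good0 cc553 (.consR g219 g45 (.consR g328 g14 (.consR g113 g146 (.consR g77 g98 (.consR g113 g98 (.consR g140 g38 (.consR g58 g147 (.consR g112 g95 (.consR g55 g147 trivial))))))))) t553
theorem g554 : Good x554 := good0 cc554 (.consR g216 g72 (.consR g215 g45 (.consR g217 g38 (.consR g215 g17 (.consR g139 g87 (.consR g144 g48 (.consR g139 g36 (.consR g215 g16 (.consR g109 g160 (.consR g109 g82 trivial)))))))))) t554
theorem g555 : Good x555 := good0 cc555 (.consR g64 g224 (.consR g66 g141 (.consR g67 g179 (.consR g65 g179 trivial)))) t555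
theorem g556 : Good x556 := good0 cc556 (.consR g92 g75 (.consR g196 g40 (.consR g123 g131 (.consR g126 g84 (.consR g123 g69 trivial))))) t556
theorem g557 : Good x557 := good0 cc557 (.consR g92 g88 (.consR g196 g42 (.consR g123 g133 (.consR g126 g86 (.consR g124 g85 trivial))))) t557
theorem g558 : Good x558 := good0 cc558 (.consR g233 g72 (.consR g229 g39 (.consR g232 g36 (.consR g229 g12 (.consR g158 g38 (.consR g233 g16 (.consR g155 g38 (.consR g229 g11 (.consR g123 g147 (.consR g123 g95 trivial)))))))))) t558
theorem g559 : Good x559 := good0 cc559 (.consR g132 g153 (.consR g207 g62 (.consR g105 g237 (.consR g172 g126 (.consR g172 g60 trivial))))) t559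
theorem g560 : Good x560 := good0 cc560 trivial t560
theorem g561 : Good x561 := good0 cc561 (.consR g132 g61 (.consR g207 g25 (.consR g50 g298 (.consR g103 g185 (.consR g107 g185 (.consR g18 g186 trivial)))))) t561
theorem g562 : Good x562 := good0 cc562 (.consR g205 g59 (.consR g317 g25 (.consR g204 g32 (.consR g317 g8 (.consR g104 g197 (.consR g103 g117 (.consR g50 g114 trivial))))))) t562
theorem g563 : Good x563 := good0 cc563 (.consR g216 g104 (.consR g215 g65 (.consR g109 g194 (.consR g110 g115 trivial)))) t563
theorem g564 : Good x564 := good0 cc564 (.consR g184 g117 (.consR g253 g63 (.consR g139 g117 (.consR g144 g90 (.consR g56 g212 (.consR g55 g197 (.consR g57 g117 trivial))))))) t564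
theorem g565 : Good x565 := good0 cc565 (.consR g57 g271 (.consR g54 g186 (.consR g56 g188 (.consR g54 g117 trivial)))) t565
theorem g566 : Good x566 := good0 cc566 (.consR g233 g104 (.consR g229 g56 (.consR g94 g127 (.consR g157 g60 (.consR g123 g181 (.consR g126 g138 (.consR g124 g126 trivial))))))) t566
theorem g567 : Good x567 := good0 cc567 (.consR g126 g195 (.consR g92 g109 (.consR g126 g115 (.consR g154 g56 (.consR g67 g194 (.consR g123 g110 trivial)))))) t567
theorem g568 : Good x568 := good0 cc568 (.consR g64 g255 (.consR g66 g197 (.consR g64 g197 (.consR g154 g117 trivial)))) t568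
theorem g569 : Good x569 := good0 cc569 (.consR g196 g128 (.consR g270 g89 (.consR g155 g128 (.consR g157 g74 (.consR g65 g271 (.consR g64 g186 (.consR g64 g117 trivial))))))) t569
theorem g570 : Good x570 := good0 cc570 (.consR g207 g69 (.consR g315 g46 (.consR g132 g84 (.consR g209 g46 (.consR g202 g46 (.consR g278 g20 (.consR g172 g156 (.consR g172 g84 trivial)))))))) t570
theorem g571 : Good x571 := good0 cc571 (.consR g204 g101 (.consR g318 g41 (.consR g203 g97 (.consR g205 g41 (.consR g203 g42 (.consR g276 g10 (.consR g170 g142 (.consR g173 g70 trivial)))))))) t571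
theorem g572 : Good x572 := good0 cc572 (.consR g207 g78 (.consR g315 g47 (.consR g209 g47 (.consR g315 g27 (.consR g202 g35 (.consR g278 g10 (.consR g171 g161 (.consR g172 g86 trivial)))))))) t572
theorem g573 : Good x573 := good0 cc573 (.consR g316 g48 (.consR g241 g12 (.consR g242 g45 (.consR g315 g12 (.consR g202 g38 (.consR g240 g14 (.consR g240 g72 trivial))))))) t573
theorem g574 : Good x574 := good0 cc574 (.consR g283 g108 (.consR g348 g53 trivial)) t574
theorem g575 : Good x575 := good0 cc575 (.consR g216 g130 (.consR g215 g91 (.consR g216 g69 (.consR g215 g46 (.consR g139 g149 (.consR g144 g96 (.consR g110 g236 (.consR g113 g131 trivial)))))))) t575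
theorem g576 : Good x576 := good0 cc576 (.consR g219 g133 (.consR g328 g70 (.consR g219 g70 (.consR g328 g43 (.consR g113 g223 (.consR g80 g165 (.consR g54 g220 (.consR g113 g164 (.consR g110 g133 trivial))))))))) t576
theorem g577 : Good x577 := good0 cc577 (.consR g216 g133 (.consR g215 g93 (.consR g216 g101 (.consR g215 g47 (.consR g139 g150 (.consR g144 g97 (.consR g112 g232 (.consR g113 g133 trivial)))))))) t577
theorem g578 : Good x578 := good0 cc578 (.consR g145 g180 (.consR g186 g95 (.consR g139 g178 (.consR g145 g95 (.consR g182 g134 (.consR g139 g95 (.consR g113 g121 trivial))))))) t578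
theorem g579 : Good x579 := good0 cc579 (.consR g219 g146 (.consR g293 g72 (.consR g219 g95 (.consR g293 g39 (.consR g219 g38 (.consR g293 g17 (.consR g140 g95 (.consR g287 g39 (.consR g57 g225 (.consR g110 g147 trivial)))))))))) t579
theorem g580 : Good x580 := good0 cc580 (.consR g233 g130 (.consR g229 g76 (.consR g233 g69 (.consR g229 g40 (.consR g157 g84 (.consR g232 g46 (.consR g124 g216 (.consR g126 g131 (.consR g123 g156 (.consR g64 g163 trivial)))))))))) t580
theorem g581 : Good x581 := good0 cc581 (.consR g231 g130 (.consR g335 g69 (.consR g231 g99 (.consR g335 g49 (.consR g126 g236 (.consR g92 g149 (.consR g66 g231 (.consR g126 g148 (.consR g65 g340 trivial))))))))) t581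
theorem g582 : Good x582 := good0 cc582 (.consR g233 g133 (.consR g229 g78 (.consR g233 g88 (.consR g229 g42 (.consR g94 g165 (.consR g157 g86 (.consR g123 g219 (.consR g126 g133 (.consR g123 g159 trivial))))))))) t582
theorem g583 : Good x583 := good0 cc583 (.consR g158 g192 (.consR g197 g81 (.consR g154 g178 (.consR g158 g82 (.consR g126 g193 (.consR g154 g95 (.consR g126 g95 trivial))))))) t583
theorem g584 : Good x584 := good0 cc584 (.consR g283 g111 (.consR g348 g50 (.consR g203 g65 (.consR g277 g18 (.consR g170 g187 (.consR g172 g110 trivial)))))) t584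
theorem g585 : Good x585 := good0 cc585 (.consR g209 g138 (.consR g319 g60 (.consR g240 g104 (.consR g203 g56 (.consR g173 g136 (.consR g241 g56 trivial)))))) t585
theorem g586 : Good x586 := good0 cc586 (.consR g207 g185 (.consR g284 g108 (.consR g207 g108 (.consR g284 g89 (.consR g174 g129 (.consR g207 g59 (.consR g50 g257 (.consR g105 g186 (.consR g52 g186 trivial))))))))) t586
theorem g587 : Good x587 := good0 cc587 (.consR g132 g227 (.consR g243 g108 (.consR g132 g114 (.consR g243 g63 (.consR g103 g212 (.consR g172 g114 (.consR g107 g212 (.consR g171 g117 trivial)))))))) t587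
theorem g588 : Good x588 := good0 cc588 (.consR g145 g213 (.consR g252 g115 (.consR g145 g125 (.consR g186 g62 (.consR g182 g172 (.consR g181 g110 trivial)))))) t588
theorem g589 : Good x589 := good0 cc589 (.consR g220 g181 (.consR g293 g104 (.consR g219 g126 (.consR g327 g60 (.consR g140 g126 (.consR g287 g56 (.consR g56 g256 (.consR g110 g181 trivial)))))))) t589
theorem g590 : Good x590 := good0 cc590 (.consR g79 g197 (.consR g184 g128 (.consR g112 g245 (.consR g113 g197 (.consR g110 g186 (.consR g109 g117 trivial)))))) t590
theorem g591 : Good x591 := good0 cc591 (.consR g144 g255 (.consR g222 g177 (.consR g183 g128 (.consR g222 g90 (.consR g214 g177 (.consR g214 g114 (.consR g54 g212 (.consR g56 g197 trivial)))))))) t591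
theorem g592 : Good x592 := good0 cc592 (.consR g233 g181 (.consR g229 g138 (.consR g270 g126 (.consR g229 g60 (.consR g92 g237 (.consR g300 g104 (.consR g123 g256 (.consR g126 g181 (.consR g123 g181 trivial))))))))) t592
theorem g593 : Good x593 := good0 cc593 (.consR g158 g228 (.consR g197 g109 (.consR g158 g109 (.consR g269 g56 (.consR g126 g172 (.consR g195 g110 (.consR g194 g115 (.consR g195 g60 trivial)))))))) t593
theorem g594 : Good x594 := good0 cc594 (.consR g64 g331 (.consR g66 g255 (.consR g64 g255 trivial))) t594
theorem g595 : Good x595 := good0 cc595 (.consR g92 g190 (.consR g196 g118 (.consR g123 g245 (.consR g126 g186 (.consR g124 g189 (.consR g124 g117 trivial)))))) t595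
theorem g596 : Good x596 := good0 cc596 (.consR g283 g141 (.consR g350 g69 (.consR g204 g141 (.consR g343 g68 (.consR g204 g69 (.consR g317 g46 (.consR g203 g99 (.consR g276 g37 (.consR g170 g224 (.consR g173 g179 trivial)))))))))) t596
theorem g597 : Good x597 := good0 cc597 (.consR g240 g131 (.consR g316 g96 (.consR g240 g69 (.consR g318 g46 (.consR g203 g99 trivial))))) t597
theorem g598 : Good x598 := good0 cc598 (.consR g240 g133 (.consR g316 g97 (.consR g241 g85 (.consR g315 g42 (.consR g202 g101 trivial))))) t598
theorem g599 : Good x599 := good0 cc599 (.consR g241 g98 (.consR g341 g39 (.consR g240 g147 (.consR g281 g95 (.consR g132 g147 (.consR g240 g95 (.consR g202 g95 trivial))))))) t599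
theorem g600 : Good x600 := good0 cc600 (.consR g240 g87 (.consR g416 g36 (.consR g241 g160 (.consR g284 g81 (.consR g240 g81 (.consR g283 g48 (.consR g202 g82 (.consR g173 g83 trivial)))))))) t600
theorem g601 : Good x601 := good0 cc601 (.consR g145 g246 (.consR g252 g148 (.consR g145 g156 (.consR g186 g100 (.consR g182 g204 (.consR g181 g148 (.consR g109 g163 trivial))))))) t601
theorem g602 : Good x602 := good0 cc602 (.consR g219 g216 (.consR g293 g131 (.consR g219 g156 (.consR g327 g84 (.consR g287 g131 (.consR g219 g100 (.consR g287 g76 (.consR g110 g218 (.consR g113 g163 trivial))))))))) t602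
theorem g603 : Good x603 := good0 cc603 (.consR g145 g247 (.consR g186 g142 (.consR g145 g169 (.consR g186 g101 (.consR g182 g207 (.consR g181 g142 (.consR g112 g150 trivial))))))) t603
theorem g604 : Good x604 := good0 cc604 (.consR g219 g220 (.consR g293 g133 (.consR g220 g133 (.consR g327 g86 (.consR g287 g133 (.consR g219 g101 (.consR g287 g78 (.consR g110 g219 trivial)))))))) t604
theorem g605 : Good x605 := good0 cc605 (.consR g186 g221 (.consR g291 g135 (.consR g216 g160 (.consR g291 g95 (.consR g216 g95 (.consR g291 g45 (.consR g181 g134 (.consR g215 g82 (.consR g110 g221 trivial))))))))) t605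
theorem g606 : Good x606 := good0 cc606 (.consR g219 g134 (.consR g325 g98 (.consR g145 g134 (.consR g219 g121 (.consR g182 g234 (.consR g214 g134 trivial)))))) t606
theorem g607 : Good x607 := good0 cc607 (.consR g232 g216 (.consR g307 g131 (.consR g270 g156 (.consR g229 g84 (.consR g158 g131 (.consR g232 g99 (.consR g126 g218 (.consR g155 g156 (.consR g124 g216 (.consR g126 g163 (.consR g31 g295 trivial))))))))))) t607
theorem g608 : Good x608 := good0 cc608 (.consR g158 g262 (.consR g197 g156 (.consR g158 g131 (.consR g269 g100 (.consR g126 g264 (.consR g195 g148 (.consR g126 g163 (.consR g195 g84 trivial)))))))) t608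
theorem g609 : Good x609 := good0 cc609 (.consR g158 g263 (.consR g269 g164 (.consR g158 g142 (.consR g197 g101 (.consR g126 g207 (.consR g195 g142 (.consR g194 g150 (.consR g195 g86 trivial)))))))) t609
theorem g610 : Good x610 := good0 cc610 (.consR g231 g134 (.consR g336 g87 (.consR g158 g135 (.consR g197 g121 (.consR g126 g221 (.consR g195 g134 (.consR g123 g222 (.consR g230 g160 trivial)))))))) t610
theorem g611 : Good x611 := good0 cc611 (.consR g240 g115 (.consR g342 g65 (.consR g241 g194 (.consR g284 g109 (.consR g174 g194 (.consR g240 g110 (.consR g202 g109 trivial))))))) t611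
theorem g612 : Good x612 := good0 cc612 (.consR g204 g201 (.consR g318 g117 (.consR g276 g117 (.consR g283 g90 (.consR g203 g114 (.consR g276 g74 (.consR g172 g212 (.consR g170 g197 trivial)))))))) t612
theorem g613 : Good x613 := good0 cc613 (.consR g210 g186 (.consR g315 g128 (.consR g132 g189 (.consR g207 g114 (.consR g202 g119 (.consR g278 g74 (.consR g171 g271 (.consR g172 g189 trivial)))))))) t613
theorem g614 : Good x614 := good0 cc614 (.consR g220 g181 (.consR g325 g127 (.consR g145 g171 (.consR g219 g109 (.consR g182 g268 (.consR g181 g187 trivial)))))) t614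
theorem g615 : Good x615 := good0 cc615 (.consR g219 g245 (.consR g328 g176 (.consR g219 g197 (.consR g328 g119 (.consR g113 g329 (.consR g77 g275 (.consR g54 g330 (.consR g113 g275 (.consR g112 g275 trivial))))))))) t615
theorem g616 : Good x616 := good0 cc616 (.consR g216 g245 (.consR g215 g197 (.consR g216 g186 (.consR g215 g128 (.consR g139 g254 (.consR g144 g199 (.consR g110 g339 (.consR g113 g245 (.consR g139 g257 trivial))))))))) t616
theorem g617 : Good x617 := good0 cc617 (.consR g197 g195 (.consR g336 g116 (.consR g158 g172 (.consR g231 g110 (.consR g126 g251 (.consR g155 g200 (.consR g123 g250 (.consR g194 g172 trivial)))))))) t617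
theorem g618 : Good x618 := good0 cc618 (.consR g197 g268 (.consR g303 g171 (.consR g233 g181 (.consR g334 g127 (.consR g158 g172 (.consR g197 g110 (.consR g194 g268 (.consR g195 g187 (.consR g126 g187 trivial))))))))) t618
theorem g619 : Good x619 := good0 cc619 (.consR g233 g245 (.consR g229 g186 (.consR g232 g197 (.consR g229 g118 (.consR g157 g189 (.consR g233 g129 (.consR g124 g329 (.consR g126 g245 (.consR g123 g271 (.consR g64 g275 trivial)))))))))) t619
theorem g620 : Good x620 := good0 cc620 (.consR g231 g244 (.consR g335 g177 (.consR g231 g185 (.consR g335 g129 (.consR g126 g339 (.consR g92 g254 (.consR g126 g255 (.consR g230 g199 (.consR g124 g257 trivial))))))))) t620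
theorem g621 : Good x621 := good0 cc621 (.consR g344 g131 (.consR g416 g69 (.consR g344 g69 (.consR g342 g46 (.consR g276 g149 (.consR g342 g96 (.consR g202 g149 (.consR g171 g340 (.consR g173 g231 trivial))))))))) t621
theorem g622 : Good x622 := good0 cc622 (.consR g346 g133 (.consR g418 g70 (.consR g240 g219 (.consR g281 g169 (.consR g174 g223 (.consR g242 g165 (.consR g202 g133 trivial))))))) t622
theorem g623 : Good x623 := good0 cc623 (.consR g344 g133 (.consR g342 g93 (.consR g241 g233 (.consR g284 g142 (.consR g174 g232 (.consR g276 g150 (.consR g202 g150 trivial))))))) t623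
theorem g624 : Good x624 := good0 cc624 (.consR g321 g134 (.consR g313 g81 (.consR g280 g192 (.consR g320 g95 (.consR g276 g178 (.consR g314 g95 (.consR g202 g135 trivial))))))) t624
theorem g625 : Good x625 := good0 cc625 (.consR g240 g186 (.consR g341 g114 trivial)) t625
theorem g626 : Good x626 := good0 cc626 (.consR g219 g216 (.consR g325 g163 (.consR g181 g309 (.consR g145 g204 (.consR g214 g204 trivial))))) t626
theorem g627 : Good x627 := good0 cc627 (.consR g291 g207 (.consR g286 g142 (.consR g216 g232 (.consR g291 g152 (.consR g216 g142 (.consR g291 g101 (.consR g139 g233 (.consR g215 g142 (.consR g110 g292 (.consR g182 g232 trivial)))))))))) t627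
theorem g628 : Good x628 := good0 cc628 (.consR g219 g220 (.consR g325 g165 (.consR g145 g206 (.consR g219 g159 (.consR g182 g306 (.consR g214 g206 (.consR g182 g219 trivial))))))) t628
theorem g629 : Good x629 := good0 cc629 (.consR g248 g210 (.consR g326 g167 (.consR g248 g151 (.consR g326 g102 (.consR g249 g151 trivial))))) t629
theorem g630 : Good x630 := good0 cc630 (.consR g291 g221 (.consR g361 g134 (.consR g216 g221 (.consR g291 g160 (.consR g216 g193 (.consR g355 g98 (.consR g215 g193 (.consR g181 g166 trivial)))))))) t630
theorem g631 : Good x631 := good0 cc631 (.consR g231 g204 (.consR g336 g149 (.consR g299 g148 (.consR g336 g99 (.consR g126 g288 (.consR g230 g204 trivial)))))) t631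
theorem g632 : Good x632 := good0 cc632 (.consR g197 g303 (.consR g303 g204 (.consR g232 g216 (.consR g303 g168 (.consR g229 g216 (.consR g269 g156 (.consR g194 g303 (.consR g195 g224 (.consR g194 g218 trivial))))))))) t632
theorem g633 : Good x633 := good0 cc633 (.consR g231 g233 (.consR g336 g150 (.consR g158 g207 (.consR g231 g142 (.consR g126 g292 (.consR g154 g233 (.consR g123 g291 (.consR g194 g207 trivial)))))))) t633
theorem g634 : Good x634 := good0 cc634 (.consR g267 g210 (.consR g337 g135 (.consR g266 g160 (.consR g336 g98 trivial)))) t634
theorem g635 : Good x635 := good0 cc635 (.consR g346 g181 (.consR g341 g138 (.consR g347 g125 (.consR g341 g60 (.consR g174 g256 (.consR g240 g181 (.consR g240 g256 (.consR g202 g181 trivial)))))))) t635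
theorem g636 : Good x636 := good0 cc636 (.consR g320 g172 (.consR g314 g126 (.consR g280 g228 (.consR g321 g110 (.consR g241 g172 (.consR g313 g110 (.consR g202 g172 trivial))))))) t636
theorem g637 : Good x637 := good0 cc637 (.consR g283 g255 (.consR g348 g176 (.consR g204 g254 (.consR g343 g175 (.consR g243 g201 (.consR g317 g128 (.consR g203 g197 (.consR g276 g114 (.consR g170 g331 (.consR g172 g254 trivial)))))))))) t637
theorem g638 : Good x638 := good0 cc638 (.consR g240 g245 (.consR g316 g199 (.consR g241 g186 (.consR g315 g118 (.consR g202 g197 (.consR g241 g117 trivial)))))) t638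
theorem g639 : Good x639 := good0 cc639 (.consR g248 g241 (.consR g326 g171 (.consR g217 g187 (.consR g325 g116 (.consR g215 g200 (.consR g214 g200 trivial)))))) t639
theorem g640 : Good x640 := good0 cc640 (.consR g291 g251 (.consR g361 g172 (.consR g218 g251 (.consR g355 g172 (.consR g355 g110 (.consR g113 g353 (.consR g110 g251 trivial))))))) t640
theorem g641 : Good x641 := good0 cc641 (.consR g145 g352 (.consR g186 g254 (.consR g145 g245 (.consR g252 g197 (.consR g182 g320 (.consR g181 g254 (.consR g109 g258 trivial))))))) t641
theorem g642 : Good x642 := good0 cc642 (.consR g219 g329 (.consR g293 g245 (.consR g220 g245 (.consR g327 g189 (.consR g287 g245 (.consR g219 g197 (.consR g287 g186 (.consR g113 g275 trivial)))))))) t642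
theorem g643 : Good x643 := good0 cc643 (.consR g197 g250 (.consR g335 g200 (.consR g301 g200 (.consR g335 g109 (.consR g195 g250 (.consR g126 g251 (.consR g67 g353 trivial))))))) t643
theorem g644 : Good x644 := good0 cc644 (.consR g267 g241 (.consR g337 g187 (.consR g266 g187 (.consR g334 g116 trivial)))) t644
theorem g645 : Good x645 := good0 cc645 (.consR g232 g329 (.consR g307 g245 (.consR g233 g271 (.consR g229 g189 (.consR g158 g245 (.consR g233 g186 (.consR g155 g271 (.consR g300 g186 (.consR g67 g398 (.consR g124 g329 (.consR g65 g398 trivial))))))))))) t645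
theorem g646 : Good x646 := good0 cc646 (.consR g158 g366 (.consR g197 g254 (.consR g158 g254 (.consR g269 g186 (.consR g126 g321 (.consR g195 g254 (.consR g194 g257 (.consR g195 g189 trivial)))))))) t646
theorem g647 : Good x647 := good0 cc647 (.consR g347 g216 (.consR g395 g131 (.consR g346 g156 (.consR g341 g84 (.consR g241 g216 (.consR g341 g131 (.consR g202 g218 (.consR g106 g295 trivial)))))))) t647
theorem g648 : Good x648 := good0 cc648 (.consR g321 g204 (.consR g313 g141 (.consR g280 g262 (.consR g320 g141 (.consR g241 g264 (.consR g280 g131 (.consR g203 g204 (.consR g312 g148 (.consR g240 g163 trivial))))))))) t648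
theorem g649 : Good x649 := good0 cc649 (.consR g320 g207 (.consR g313 g143 (.consR g280 g263 (.consR g320 g142 (.consR g241 g207 (.consR g280 g142 (.consR g202 g207 (.consR g312 g150 trivial)))))))) t649
theorem g650 : Good x650 := good0 cc650 (.consR g320 g221 (.consR g394 g135 (.consR g314 g221 (.consR g344 g160 (.consR g313 g134 trivial))))) t650
theorem g651 : Good x651 := good0 cc651 (.consR g320 g234 (.consR g390 g134 (.consR g346 g147 (.consR g390 g102 (.consR g312 g234 (.consR g341 g151 trivial)))))) t651
theorem g652 : Good x652 := good0 cc652 (.consR g248 g279 (.consR g326 g204 (.consR g248 g231 (.consR g326 g168 (.consR g249 g204 (.consR g248 g163 trivial)))))) t652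
theorem g653 : Good x653 := good0 cc653 (.consR g291 g288 (.consR g361 g204 (.consR g216 g288 (.consR g291 g204 (.consR g216 g264 (.consR g355 g163 (.consR g215 g264 (.consR g181 g231 trivial)))))))) t653
theorem g654 : Good x654 := good0 cc654 (.consR g248 g282 (.consR g326 g238 (.consR g249 g233 (.consR g326 g142 (.consR g248 g273 trivial))))) t654
theorem g655 : Good x655 := good0 cc655 (.consR g291 g292 (.consR g361 g207 (.consR g218 g291 (.consR g355 g207 (.consR g291 g142 (.consR g181 g291 trivial)))))) t655
theorem g656 : Good x656 := good0 cc656 (.consR g249 g234 (.consR g354 g146 (.consR g248 g294 (.consR g289 g234 (.consR g249 g294 (.consR g249 g210 (.consR g248 g234 trivial))))))) t656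
theorem g657 : Good x657 := good0 cc657 (.consR g357 g210 (.consR g356 g198 (.consR g219 g307 (.consR g291 g221 (.consR g250 g308 (.consR g248 g222 (.consR g249 g221 trivial))))))) t657
theorem g658 : Good x658 := good0 cc658 (.consR g335 g239 (.consR g299 g148 (.consR g299 g204 (.consR g336 g163 (.consR g301 g231 (.consR g301 g163 trivial)))))) t658
theorem g659 : Good x659 := good0 cc659 (.consR g231 g279 (.consR g337 g224 (.consR g267 g231 (.consR g336 g163 (.consR g266 g224 (.consR g266 g163 trivial)))))) t659
theorem g660 : Good x660 := good0 cc660 (.consR g267 g282 (.consR g337 g207 (.consR g266 g233 (.consR g337 g152 trivial)))) t660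
theorem g661 : Good x661 := good0 cc661 (.consR g371 g210 (.consR g368 g191 (.consR g267 g294 (.consR g303 g235 (.consR g158 g294 (.consR g266 g235 trivial)))))) t661
theorem g662 : Good x662 := good0 cc662 (.consR g320 g268 (.consR g390 g171 (.consR g346 g172 (.consR g314 g110 (.consR g312 g268 (.consR g341 g172 trivial)))))) t662
theorem g663 : Good x663 := good0 cc663 (.consR g346 g245 (.consR g341 g186 (.consR g346 g190 (.consR g418 g119 (.consR g204 g271 (.consR g341 g189 (.consR g341 g117 trivial))))))) t663
theorem g664 : Good x664 := good0 cc664 (.consR g344 g245 (.consR g342 g197 (.consR g241 g338 (.consR g284 g254 (.consR g174 g338 (.consR g276 g257 (.consR g202 g257 trivial))))))) t664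
theorem g665 : Good x665 := good0 cc665 (.consR g219 g333 (.consR g291 g251 (.consR g145 g333 (.consR g248 g251 (.consR g214 g333 (.consR g249 g250 trivial)))))) t665
theorem g666 : Good x666 := good0 cc666 (.consR g291 g321 (.consR g286 g254 (.consR g216 g339 (.consR g291 g244 (.consR g216 g254 (.consR g291 g197 (.consR g181 g320 (.consR g215 g254 (.consR g110 g382 trivial))))))))) t666
theorem g667 : Good x667 := good0 cc667 (.consR g219 g329 (.consR g325 g275 (.consR g145 g320 (.consR g219 g254 (.consR g182 g387 (.consR g214 g320 trivial)))))) t667
theorem g668 : Good x668 := good0 cc668 (.consR g266 g323 (.consR g303 g241 (.consR g267 g268 (.consR g266 g268 trivial)))) t668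
theorem g669 : Good x669 := good0 cc669 (.consR g369 g241 (.consR g367 g195 (.consR g268 g333 (.consR g229 g256 (.consR g267 g251 (.consR g367 g200 (.consR g266 g250 trivial))))))) t669
theorem g670 : Good x670 := good0 cc670 (.consR g231 g338 (.consR g336 g257 (.consR g158 g321 (.consR g231 g254 (.consR g126 g382 (.consR g195 g320 (.consR g123 g381 (.consR g194 g321 trivial)))))))) t670
theorem g671 : Good x671 := good0 cc671 (.consR g197 g387 (.consR g303 g320 (.consR g233 g321 (.consR g303 g254 (.consR g229 g329 (.consR g269 g254 (.consR g194 g387 (.consR g195 g331 (.consR g194 g330 trivial))))))))) t671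
theorem g672 : Good x672 := good0 cc672 (.consR g320 g303 (.consR g390 g204 (.consR g281 g309 (.consR g347 g216 (.consR g312 g303 (.consR g341 g216 trivial)))))) (tabReal_nil _)
theorem g673 : Good x673 := good0 cc673 (.consR g321 g291 (.consR g394 g207 (.consR g344 g232 (.consR g394 g152 (.consR g240 g291 (.consR g280 g207 (.consR g202 g292 (.consR g312 g207 trivial)))))))) t673
theorem g674 : Good x674 := good0 cc674 (.consR g320 g306 (.consR g390 g206 (.consR g346 g219 (.consR g390 g142 (.consR g243 g306 (.consR g341 g207 (.consR g314 g150 trivial))))))) t674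
theorem g675 : Good x675 := good0 cc675 (.consR g344 g210 (.consR g415 g167 (.consR g374 g147 (.consR g417 g95 (.consR g312 g265 trivial))))) t675
theorem g676 : Good x676 := good0 cc676 (.consR g320 g320 (.consR g313 g258 trivial)) (tabReal_nil _)
theorem g677 : Good x677 := good0 cc677 (.consR g357 g279 (.consR g356 g272 (.consR g219 g369 (.consR g291 g295 (.consR g248 g295 (.consR g291 g218 (.consR g214 g369 (.consR g249 g295 trivial)))))))) t677
theorem g678 : Good x678 := good0 cc678 (.consR g359 g282 (.consR g354 g273 (.consR g248 g360 (.consR g290 g311 (.consR g249 g311 (.consR g289 g219 (.consR g214 g311 trivial))))))) t678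
theorem g679 : Good x679 := good0 cc679 (.consR g357 g282 (.consR g356 g274 (.consR g219 g371 (.consR g291 g292 (.consR g248 g291 (.consR g326 g219 (.consR g214 g371 (.consR g249 g291 trivial)))))))) t679
theorem g680 : Good x680 := good0 cc680 (.consR g329 g285 (.consR g323 g222 (.consR g291 g285 (.consR g330 g222 (.consR g249 g332 (.consR g323 g225 (.consR g287 g285 trivial))))))) t680
theorem g681 : Good x681 := good0 cc681 (.consR g359 g294 (.consR g404 g210 (.consR g249 g265 (.consR g354 g166 (.consR g248 g294 (.consR g354 g210 (.consR g249 g294 trivial))))))) t681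
theorem g682 : Good x682 := good0 cc682 (.consR g371 g279 (.consR g368 g259 (.consR g267 g358 (.consR g303 g304 (.consR g267 g303 (.consR g303 g216 (.consR g266 g303 trivial))))))) t682
theorem g683 : Good x683 := good0 cc683 (.consR g369 g279 (.consR g367 g204 (.consR g268 g369 (.consR g307 g295 (.consR g267 g295 (.consR g307 g218 (.consR g229 g295 trivial))))))) t683
theorem g684 : Good x684 := good0 cc684 (.consR g371 g282 (.consR g368 g260 (.consR g267 g360 (.consR g303 g311 (.consR g266 g306 (.consR g303 g219 (.consR g230 g311 trivial))))))) t684
theorem g685 : Good x685 := good0 cc685 (.consR g338 g285 (.consR g333 g222 (.consR g303 g284 (.consR g386 g210 (.consR g268 g284 (.consR g333 g225 (.consR g300 g284 trivial))))))) t685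
theorem g686 : Good x686 := good0 cc686 (.consR g240 g353 (.consR g394 g251 (.consR g321 g251 (.consR g416 g200 (.consR g313 g250 (.consR g345 g194 (.consR g342 g200 trivial))))))) t686
theorem g687 : Good x687 := good0 cc687 (.consR g344 g241 (.consR g417 g187 (.consR g281 g241 (.consR g374 g187 (.consR g312 g241 trivial))))) t687
theorem g688 : Good x688 := good0 cc688 (.consR g347 g329 (.consR g395 g245 (.consR g346 g271 (.consR g341 g189 (.consR g241 g329 (.consR g341 g245 (.consR g341 g186 (.consR g173 g398 trivial)))))))) t688
theorem g689 : Good x689 := good0 cc689 (.consR g320 g321 (.consR g313 g258 (.consR g280 g366 (.consR g320 g254 (.consR g241 g320 (.consR g280 g254 (.consR g202 g321 (.consR g312 g257 trivial)))))))) t689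
theorem g690 : Good x690 := good0 cc690 (.consR g329 g313 (.consR g323 g250 (.consR g291 g313 (.consR g330 g251 (.consR g218 g365 (.consR g323 g256 (.consR g287 g353 trivial))))))) t690
theorem g691 : Good x691 := good0 cc691 (.consR g360 g323 (.consR g404 g241 (.consR g359 g268 (.consR g354 g187 (.consR g354 g241 (.consR g359 g200 (.consR g354 g200 trivial))))))) t691
theorem g692 : Good x692 := good0 cc692 (.consR g216 g375 (.consR g326 g320 (.consR g248 g339 (.consR g326 g254 (.consR g214 g398 (.consR g249 g338 trivial)))))) t692
theorem g693 : Good x693 := good0 cc693 (.consR g291 g382 (.consR g361 g320 (.consR g218 g381 (.consR g355 g321 (.consR g355 g275 trivial))))) (tabReal_nil _)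
theorem g694 : Good x694 := good0 cc694 (.consR g370 g323 (.consR g412 g241 (.consR g303 g323 (.consR g371 g268 (.consR g266 g323 (.consR g368 g241 trivial)))))) t694
theorem g695 : Good x695 := good0 cc695 (.consR g338 g313 (.consR g333 g250 (.consR g303 g312 (.consR g386 g241 (.consR g268 g312 (.consR g333 g256 (.consR g300 g313 trivial))))))) t695
theorem g696 : Good x696 := good0 cc696 (.consR g197 g381 (.consR g335 g339 (.consR g299 g320 (.consR g336 g275 (.consR g301 g339 (.consR g301 g275 trivial)))))) t696
theorem g697 : Good x697 := good0 cc697 (.consR g231 g375 (.consR g337 g331 (.consR g267 g339 (.consR g336 g275 (.consR g266 g331 (.consR g266 g275 trivial)))))) t697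
theorem g698 : Good x698 := good0 cc698 (.consR g394 g288 (.consR g438 g204 (.consR g344 g288 (.consR g416 g239 (.consR g344 g264 (.consR g394 g156 (.consR g312 g288 (.consR g313 g231 (.consR g240 g340 trivial))))))))) t698
theorem g699 : Good x699 := good0 cc699 (.consR g344 g279 (.consR g415 g204 (.consR g374 g216 (.consR g415 g168 (.consR g312 g279 trivial))))) t699
theorem g700 : Good x700 := good0 cc700 (.consR g344 g282 (.consR g415 g238 (.consR g374 g219 (.consR g415 g142 (.consR g374 g150 trivial))))) t700
theorem g701 : Good x701 := good0 cc701 (.consR g314 g322 (.consR g436 g210 (.consR g344 g294 (.consR g390 g235 (.consR g341 g294 (.consR g346 g235 (.consR g341 g210 trivial))))))) t701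
theorem g702 : Good x702 := good0 cc702 (.consR g313 g332 (.consR g434 g210 (.consR g374 g307 (.consR g394 g221 (.consR g374 g225 trivial))))) t702
theorem g703 : Good x703 := good0 cc703 (.consR g329 g345 (.consR g323 g295 (.consR g291 g345 (.consR g329 g288 (.consR g249 g383 (.consR g323 g340 (.consR g287 g377 trivial))))))) t703
theorem g704 : Good x704 := good0 cc704 (.consR g359 g358 (.consR g404 g279 (.consR g359 g303 (.consR g404 g218 (.consR g326 g304 (.consR g359 g231 (.consR g248 g304 (.consR g354 g216 (.consR g249 g303 trivial))))))))) t704
theorem g705 : Good x705 := good0 cc705 (.consR g329 g347 (.consR g323 g291 (.consR g329 g306 (.consR g323 g261 (.consR g248 g378 (.consR g290 g291 (.consR g249 g378 (.consR g324 g291 trivial)))))))) t705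
theorem g706 : Good x706 := good0 cc706 (.consR g359 g360 (.consR g404 g282 (.consR g359 g306 (.consR g404 g220 (.consR g326 g311 (.consR g359 g219 (.consR g249 g306 (.consR g354 g219 (.consR g250 g311 trivial))))))))) t706
theorem g707 : Good x707 := good0 cc707 (.consR g329 g361 (.consR g402 g284 (.consR g357 g285 (.consR g402 g235 (.consR g249 g361 (.consR g290 g284 (.consR g249 g307 (.consR g286 g361 (.consR g286 g307 trivial))))))))) t707
theorem g708 : Good x708 := good0 cc708 (.consR g329 g372 (.consR g400 g284 (.consR g323 g372 (.consR g359 g297 (.consR g354 g294 trivial))))) t708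
theorem g709 : Good x709 := good0 cc709 (.consR g371 g358 (.consR g368 g303 (.consR g303 g357 (.consR g371 g303 (.consR g231 g357 (.consR g368 g310 (.consR g368 g216 trivial))))))) (tabReal_nil _)
theorem g710 : Good x710 := good0 cc710 (.consR g338 g345 (.consR g333 g295 (.consR g303 g344 (.consR g386 g279 (.consR g268 g344 (.consR g333 g340 (.consR g300 g344 trivial))))))) t710
theorem g711 : Good x711 := good0 cc711 (.consR g338 g347 (.consR g333 g291 (.consR g386 g282 (.consR g333 g261 (.consR g267 g378 (.consR g303 g296 (.consR g300 g378 (.consR g267 g291 (.consR g266 g291 trivial))))))))) t711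
theorem g712 : Good x712 := good0 cc712 (.consR g338 g361 (.consR g409 g284 (.consR g369 g285 (.consR g409 g235 (.consR g266 g361 (.consR g367 g307 trivial)))))) t712
theorem g713 : Good x713 := good0 cc713 (.consR g313 g365 (.consR g434 g241 (.consR g374 g333 (.consR g394 g251 (.consR g374 g251 trivial))))) t713
theorem g714 : Good x714 := good0 cc714 (.consR g321 g381 (.consR g394 g321 (.consR g344 g339 (.consR g313 g258 (.consR g240 g381 (.consR g280 g321 (.consR g202 g382 (.consR g312 g321 trivial)))))))) (tabReal_nil _)
theorem g715 : Good x715 := good0 cc715 (.consR g320 g387 (.consR g390 g320 (.consR g346 g321 (.consR g390 g254 (.consR g312 g387 (.consR g341 g329 trivial)))))) t715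
theorem g716 : Good x716 := good0 cc716 (.consR g329 g385 (.consR g355 g323 (.consR g323 g385 (.consR g360 g324 (.consR g355 g313 trivial))))) t716
theorem g717 : Good x717 := good0 cc717 (.consR g359 g375 (.consR g354 g329 (.consR g248 g426 (.consR g289 g387 (.consR g248 g398 (.consR g290 g329 (.consR g215 g388 trivial))))))) t717
theorem g718 : Good x718 := good0 cc718 (.consR g357 g375 (.consR g356 g373 (.consR g219 g432 (.consR g291 g382 (.consR g248 g381 (.consR g326 g339 (.consR g214 g432 (.consR g249 g381 trivial)))))))) t718
theorem g719 : Good x719 := good0 cc719 (.consR g339 g380 (.consR g409 g312 (.consR g308 g380 (.consR g369 g313 (.consR g267 g380 (.consR g333 g313 (.consR g406 g250 trivial))))))) t719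
theorem g720 : Good x720 := good0 cc720 (.consR g338 g385 (.consR g407 g313 (.consR g333 g385 (.consR g370 g312 (.consR g303 g323 (.consR g299 g323 (.consR g300 g323 trivial))))))) t720
theorem g721 : Good x721 := good0 cc721 (.consR g371 g375 (.consR g368 g364 (.consR g266 g425 (.consR g303 g388 (.consR g267 g398 (.consR g266 g387 trivial)))))) t721
theorem g722 : Good x722 := good0 cc722 (.consR g369 g375 (.consR g367 g339 (.consR g268 g431 (.consR g308 g381 (.consR g266 g381 (.consR g307 g330 trivial)))))) t722
theorem g723 : Good x723 := good0 cc723 (.consR g313 g383 (.consR g434 g279 (.consR g374 g369 (.consR g394 g295 (.consR g344 g288 (.consR g341 g295 trivial)))))) t723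
theorem g724 : Good x724 := good0 cc724 (.consR g314 g376 (.consR g436 g282 (.consR g344 g360 (.consR g390 g311 (.consR g341 g360 (.consR g374 g282 (.consR g342 g311 trivial))))))) t724
theorem g725 : Good x725 := good0 cc725 (.consR g313 g384 (.consR g434 g282 (.consR g374 g371 (.consR g394 g292 (.consR g374 g292 trivial))))) t725
theorem g726 : Good x726 := good0 cc726 (.consR g419 g285 (.consR g497 g210 (.consR g390 g284 (.consR g420 g235 (.consR g374 g284 (.consR g414 g225 trivial)))))) t726
theorem g727 : Good x727 := good0 cc727 (.consR g436 g320 (.consR g482 g245 trivial)) t727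
theorem g728 : Good x728 := good0 cc728 (.consR g330 g407 (.consR g400 g344 (.consR g359 g358 (.consR g355 g310 (.consR g324 g407 (.consR g354 g358 trivial)))))) (tabReal_nil _)
theorem g729 : Good x729 := good0 cc729 (.consR g329 g402 (.consR g402 g346 (.consR g357 g370 (.consR g402 g296 (.consR g323 g378 (.consR g399 g291 trivial)))))) (tabReal_nil _)
theorem g730 : Good x730 := good0 cc730 (.consR g329 g409 (.consR g400 g346 (.consR g323 g409 (.consR g359 g360 (.consR g354 g360 trivial))))) (tabReal_nil _)
theorem g731 : Good x731 := good0 cc731 (.consR g381 g349 (.consR g380 g293 (.consR g381 g294 (.consR g380 g225 (.consR g355 g350 (.consR g380 g294 trivial)))))) (tabReal_nil _)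
theorem g732 : Good x732 := good0 cc732 (.consR g402 g361 (.consR g449 g284 (.consR g357 g361 (.consR g402 g307 (.consR g399 g285 (.consR g402 g235 (.consR g323 g308 (.consR g399 g222 trivial)))))))) t732
theorem g733 : Good x733 := good0 cc733 (.consR g409 g344 (.consR g406 g288 (.consR g369 g345 (.consR g409 g304 (.consR g301 g400 (.consR g333 g345 trivial)))))) t733
theorem g734 : Good x734 := good0 cc734 (.consR g339 g407 (.consR g407 g345 (.consR g371 g358 (.consR g407 g310 (.consR g267 g407 (.consR g303 g357 (.consR g300 g407 (.consR g266 g358 trivial)))))))) (tabReal_nil _)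
theorem g735 : Good x735 := good0 cc735 (.consR g338 g402 (.consR g409 g346 (.consR g369 g370 (.consR g409 g296 (.consR g301 g402 (.consR g333 g378 trivial)))))) (tabReal_nil _)
theorem g736 : Good x736 := good0 cc736 (.consR g339 g427 (.consR g387 g349 (.consR g369 g348 (.consR g430 g284 (.consR g333 g348 (.consR g385 g293 trivial)))))) (tabReal_nil _)
theorem g737 : Good x737 := good0 cc737 (.consR g437 g323 (.consR g482 g241 (.consR g390 g323 (.consR g436 g268 (.consR g374 g323 (.consR g415 g241 (.consR g374 g268 trivial))))))) t737
theorem g738 : Good x738 := good0 cc738 (.consR g419 g313 (.consR g414 g250 (.consR g390 g312 (.consR g419 g268 (.consR g374 g313 (.consR g414 g256 trivial)))))) t738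
theorem g739 : Good x739 := good0 cc739 (.consR g394 g382 (.consR g438 g320 (.consR g345 g381 (.consR g416 g339 (.consR g313 g381 (.consR g344 g339 (.consR g313 g338 trivial))))))) (tabReal_nil _)
theorem g740 : Good x740 := good0 cc740 (.consR g344 g375 (.consR g415 g320 (.consR g374 g329 (.consR g415 g254 (.consR g374 g257 trivial))))) t740
theorem g741 : Good x741 := good0 cc741 (.consR g381 g374 (.consR g380 g323 (.consR g357 g374 (.consR g381 g324 (.consR g323 g374 (.consR g358 g333 (.consR g354 g333 trivial))))))) t741
theorem g742 : Good x742 := good0 cc742 (.consR g323 g380 (.consR g449 g312 (.consR g358 g380 (.consR g402 g333 (.consR g290 g380 (.consR g399 g313 (.consR g324 g380 trivial))))))) t742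
theorem g743 : Good x743 := good0 cc743 (.consR g329 g420 (.consR g323 g381 (.consR g291 g421 (.consR g329 g387 (.consR g249 g450 (.consR g290 g381 (.consR g324 g381 (.consR g287 g442 trivial)))))))) (tabReal_nil _)
theorem g744 : Good x744 := good0 cc744 (.consR g359 g426 (.consR g404 g375 (.consR g359 g387 (.consR g404 g330 (.consR g326 g388 (.consR g359 g339 (.consR g248 g388 (.consR g354 g329 (.consR g249 g398 trivial))))))))) t744
theorem g745 : Good x745 := good0 cc745 (.consR g333 g380 (.consR g456 g312 (.consR g338 g380 (.consR g409 g333 (.consR g305 g380 (.consR g406 g313 (.consR g299 g380 (.consR g406 g250 trivial)))))))) t745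
theorem g746 : Good x746 := good0 cc746 (.consR g387 g374 (.consR g475 g313 (.consR g369 g374 (.consR g387 g323 (.consR g333 g374 (.consR g385 g323 trivial)))))) (tabReal_nil _)
theorem g747 : Good x747 := good0 cc747 (.consR g371 g426 (.consR g368 g387 (.consR g303 g425 (.consR g371 g387 (.consR g231 g441 (.consR g303 g388 (.consR g266 g398 (.consR g368 g329 trivial)))))))) (tabReal_nil _)
theorem g748 : Good x748 := good0 cc748 (.consR g338 g420 (.consR g333 g381 (.consR g303 g419 (.consR g386 g375 (.consR g268 g419 (.consR g303 g388 (.consR g300 g419 (.consR g266 g381 trivial)))))))) t748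
theorem g749 : Good x749 := good0 cc749 (.consR g436 g358 (.consR g482 g279 (.consR g390 g357 (.consR g436 g303 (.consR g374 g357 (.consR g415 g304 (.consR g374 g303 trivial))))))) t749
theorem g750 : Good x750 := good0 cc750 (.consR g419 g345 (.consR g414 g295 (.consR g390 g344 (.consR g461 g279 (.consR g374 g344 (.consR g414 g340 trivial)))))) t750
theorem g751 : Good x751 := good0 cc751 (.consR g419 g347 (.consR g414 g291 (.consR g461 g282 (.consR g497 g261 (.consR g374 g346 (.consR g390 g296 (.consR g374 g292 trivial))))))) t751
theorem g752 : Good x752 := good0 cc752 (.consR g419 g361 (.consR g479 g284 (.consR g434 g285 (.consR g479 g235 (.consR g345 g362 (.consR g390 g307 (.consR g341 g361 (.consR g374 g307 trivial)))))))) t752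
theorem g753 : Good x753 := good0 cc753 (.consR g419 g372 (.consR g477 g284 (.consR g414 g372 (.consR g436 g297 (.consR g390 g293 (.consR g374 g293 trivial)))))) t753
theorem g754 : Good x754 := good0 cc754 (.consR g381 g391 (.consR g380 g357 (.consR g357 g390 (.consR g381 g358 (.consR g323 g390 (.consR g380 g358 trivial)))))) t754
theorem g755 : Good x755 := good0 cc755 (.consR g403 g400 (.consR g449 g344 (.consR g357 g400 (.consR g402 g369 (.consR g399 g345 (.consR g402 g304 (.consR g399 g295 trivial))))))) (tabReal_nil _)
theorem g756 : Good x756 := good0 cc756 (.consR g381 g393 (.consR g380 g359 (.consR g357 g393 (.consR g381 g360 (.consR g355 g394 (.consR g380 g360 trivial)))))) t756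
theorem g757 : Good x757 := good0 cc757 (.consR g403 g402 (.consR g449 g346 (.consR g357 g402 (.consR g402 g370 (.consR g399 g347 (.consR g402 g311 (.consR g399 g291 trivial))))))) (tabReal_nil _)
theorem g758 : Good x758 := good0 cc758 (.consR g446 g348 (.consR g443 g293 (.consR g358 g404 (.consR g400 g349 (.consR g354 g404 (.consR g380 g379 trivial)))))) (tabReal_nil _)
theorem g759 : Good x759 := good0 cc759 (.consR g444 g348 (.consR g507 g284 (.consR g402 g361 (.consR g444 g294 (.consR g356 g412 (.consR g399 g348 trivial)))))) (tabReal_nil _)
theorem g760 : Good x760 := good0 cc760 (.consR g411 g400 (.consR g456 g344 (.consR g369 g400 (.consR g409 g369 (.consR g266 g465 (.consR g333 g400 trivial)))))) (tabReal_nil _)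
theorem g761 : Good x761 := good0 cc761 (.consR g387 g391 (.consR g475 g345 (.consR g369 g390 (.consR g430 g344 (.consR g333 g390 (.consR g385 g357 trivial)))))) t761
theorem g762 : Good x762 := good0 cc762 (.consR g387 g393 (.consR g475 g347 (.consR g369 g393 (.consR g430 g346 (.consR g385 g359 (.consR g430 g311 (.consR g385 g291 trivial))))))) t762
theorem g763 : Good x763 := good0 cc763 (.consR g454 g348 (.consR g451 g293 (.consR g372 g404 (.consR g407 g349 (.consR g385 g379 (.consR g407 g293 (.consR g385 g293 trivial))))))) (tabReal_nil _)
theorem g764 : Good x764 := good0 cc764 (.consR g419 g385 (.consR g477 g312 (.consR g414 g385 (.consR g437 g312 (.consR g390 g323 (.consR g374 g323 trivial)))))) t764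
theorem g765 : Good x765 := good0 cc765 (.consR g314 g441 (.consR g436 g375 (.consR g344 g426 (.consR g390 g388 (.consR g341 g426 (.consR g374 g398 trivial)))))) t765
theorem g766 : Good x766 := good0 cc766 (.consR g313 g450 (.consR g434 g375 (.consR g374 g432 (.consR g394 g382 (.consR g374 g382 trivial))))) t766
theorem g767 : Good x767 := good0 cc767 (.consR g381 g429 (.consR g444 g374 (.consR g380 g429 (.consR g402 g374 (.consR g399 g380 trivial))))) (tabReal_nil _)
theorem g768 : Good x768 := good0 cc768 (.consR g329 g471 (.consR g402 g419 (.consR g357 g431 (.consR g402 g388 (.consR g323 g420 (.consR g399 g381 trivial)))))) (tabReal_nil _)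
theorem g769 : Good x769 := good0 cc769 (.consR g329 g476 (.consR g400 g419 (.consR g323 g476 (.consR g359 g426 (.consR g354 g426 trivial))))) (tabReal_nil _)
theorem g770 : Good x770 := good0 cc770 (.consR g455 g374 (.consR g451 g323 (.consR g338 g424 (.consR g407 g374 (.consR g385 g374 (.consR g407 g323 (.consR g385 g323 trivial))))))) t770
theorem g771 : Good x771 := good0 cc771 (.consR g453 g374 (.consR g513 g312 (.consR g409 g374 (.consR g452 g323 (.consR g367 g429 (.consR g406 g380 trivial)))))) t771
theorem g772 : Good x772 := good0 cc772 (.consR g338 g471 (.consR g409 g419 (.consR g369 g431 (.consR g409 g388 (.consR g301 g471 (.consR g333 g420 trivial)))))) (tabReal_nil _)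
theorem g773 : Good x773 := good0 cc773 (.consR g338 g476 (.consR g407 g421 (.consR g333 g476 (.consR g371 g426 (.consR g303 g425 (.consR g266 g426 trivial)))))) (tabReal_nil _)
theorem g774 : Good x774 := good0 cc774 (.consR g421 g407 (.consR g477 g344 (.consR g392 g407 (.consR g436 g358 (.consR g461 g288 (.consR g477 g224 (.consR g314 g407 (.consR g374 g357 trivial)))))))) t774
theorem g775 : Good x775 := good0 cc775 (.consR g419 g402 (.consR g479 g346 (.consR g434 g370 (.consR g479 g296 (.consR g374 g402 (.consR g414 g378 trivial)))))) (tabReal_nil _)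
theorem g776 : Good x776 := good0 cc776 (.consR g419 g409 (.consR g477 g346 (.consR g414 g409 (.consR g436 g360 (.consR g390 g359 (.consR g374 g359 trivial)))))) (tabReal_nil _)
theorem g777 : Good x777 := good0 cc777 (.consR g421 g427 (.consR g462 g349 (.consR g496 g284 (.consR g460 g225 (.consR g414 g348 (.consR g458 g293 trivial)))))) (tabReal_nil _)
theorem g778 : Good x778 := good0 cc778 (.consR g479 g375 (.consR g518 g321 trivial)) t778
theorem g779 : Good x779 := good0 cc779 (.consR g444 g390 (.consR g507 g344 (.consR g404 g400 (.consR g444 g358 (.consR g356 g452 (.consR g399 g390 trivial)))))) (tabReal_nil _)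
theorem g780 : Good x780 := good0 cc780 (.consR g446 g393 (.consR g443 g359 (.consR g357 g447 (.consR g400 g410 (.consR g354 g446 (.consR g357 g409 (.consR g354 g410 trivial))))))) t780
theorem g781 : Good x781 := good0 cc781 (.consR g444 g393 (.consR g507 g346 (.consR g380 g455 (.consR g404 g402 (.consR g380 g402 trivial))))) t781
theorem g782 : Good x782 := good0 cc782 (.consR g426 g397 (.consR g506 g349 (.consR g422 g396 (.consR g470 g348 (.consR g423 g349 (.consR g380 g396 trivial)))))) t782
theorem g783 : Good x783 := good0 cc783 (.consR g447 g404 (.consR g489 g348 (.consR g400 g404 (.consR g446 g372 (.consR g443 g348 (.consR g446 g294 (.consR g443 g293 trivial))))))) (tabReal_nil _)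
theorem g784 : Good x784 := good0 cc784 (.consR g454 g390 (.consR g451 g357 (.consR g369 g445 (.consR g407 g391 (.consR g370 g391 (.consR g407 g357 (.consR g385 g357 (.consR g451 g304 trivial)))))))) t784
theorem g785 : Good x785 := good0 cc785 (.consR g453 g390 (.consR g513 g344 (.consR g385 g452 (.consR g412 g400 (.consR g406 g390 trivial))))) (tabReal_nil _)
theorem g786 : Good x786 := good0 cc786 (.consR g455 g393 (.consR g451 g359 (.consR g369 g447 (.consR g408 g409 (.consR g333 g447 (.consR g369 g409 (.consR g333 g409 trivial))))))) t786
theorem g787 : Good x787 := good0 cc787 (.consR g432 g396 (.consR g429 g362 (.consR g428 g396 (.consR g474 g348 (.consR g428 g372 trivial))))) (tabReal_nil _)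
theorem g788 : Good x788 := good0 cc788 (.consR g414 g380 (.consR g518 g312 (.consR g419 g380 (.consR g497 g333 (.consR g392 g380 (.consR g461 g312 (.consR g374 g380 (.consR g414 g353 trivial)))))))) t788
theorem g789 : Good x789 := good0 cc789 (.consR g462 g374 (.consR g458 g363 (.consR g434 g374 (.consR g496 g313 (.consR g414 g374 (.consR g458 g323 trivial)))))) (tabReal_nil _)
theorem g790 : Good x790 := good0 cc790 (.consR g436 g426 (.consR g482 g375 (.consR g390 g425 (.consR g436 g387 (.consR g374 g425 (.consR g415 g388 (.consR g374 g387 trivial))))))) t790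
theorem g791 : Good x791 := good0 cc791 (.consR g419 g420 (.consR g414 g381 (.consR g390 g419 (.consR g461 g375 (.consR g374 g419 (.consR g390 g388 (.consR g374 g382 trivial))))))) t791
theorem g792 : Good x792 := good0 cc792 (.consR g426 g414 (.consR g506 g374 (.consR g400 g414 (.consR g425 g385 (.consR g361 g414 (.consR g423 g374 (.consR g354 g414 trivial))))))) (tabReal_nil _)
theorem g793 : Good x793 := good0 cc793 (.consR g447 g424 (.consR g489 g374 (.consR g446 g385 (.consR g489 g363 (.consR g328 g484 (.consR g358 g424 (.consR g380 g385 (.consR g443 g323 trivial)))))))) t793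
theorem g794 : Good x794 := good0 cc794 (.consR g381 g463 (.consR g380 g425 (.consR g357 g462 (.consR g381 g426 (.consR g355 g464 (.consR g380 g426 trivial)))))) t794
theorem g795 : Good x795 := good0 cc795 (.consR g403 g471 (.consR g449 g419 (.consR g357 g471 (.consR g402 g431 (.consR g399 g420 (.consR g402 g388 (.consR g399 g381 trivial))))))) (tabReal_nil _)
theorem g796 : Good x796 := good0 cc796 (.consR g455 g424 (.consR g494 g374 (.consR g454 g385 (.consR g494 g363 (.consR g430 g374 (.consR g475 g324 (.consR g302 g484 (.consR g367 g424 trivial)))))))) t796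
theorem g797 : Good x797 := good0 cc797 (.consR g431 g414 (.consR g429 g405 (.consR g409 g414 (.consR g432 g385 (.consR g385 g414 (.consR g428 g385 trivial)))))) (tabReal_nil _)
theorem g798 : Good x798 := good0 cc798 (.consR g411 g471 (.consR g456 g419 (.consR g369 g471 (.consR g409 g431 (.consR g406 g420 (.consR g409 g388 (.consR g406 g381 trivial))))))) (tabReal_nil _)
theorem g799 : Good x799 := good0 cc799 (.consR g387 g463 (.consR g475 g420 (.consR g369 g462 (.consR g430 g419 (.consR g333 g462 (.consR g385 g425 trivial)))))) t799
theorem g800 : Good x800 := good0 cc800 (.consR g481 g400 (.consR g518 g344 (.consR g434 g400 (.consR g497 g369 (.consR g347 g465 (.consR g414 g400 (.consR g414 g377 trivial))))))) (tabReal_nil _)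
theorem g801 : Good x801 := good0 cc801 (.consR g462 g391 (.consR g458 g358 (.consR g496 g344 (.consR g459 g340 (.consR g414 g390 (.consR g458 g357 trivial)))))) t801
theorem g802 : Good x802 := good0 cc802 (.consR g462 g393 (.consR g458 g360 (.consR g434 g393 (.consR g496 g346 (.consR g458 g359 (.consR g496 g291 (.consR g458 g291 trivial))))))) t802
theorem g803 : Good x803 := good0 cc803 (.consR g462 g404 (.consR g516 g348 (.consR g435 g404 (.consR g477 g349 (.consR g458 g379 (.consR g477 g293 (.consR g458 g293 trivial))))))) (tabReal_nil _)
theorem g804 : Good x804 := good0 cc804 (.consR g462 g412 (.consR g515 g349 (.consR g458 g412 (.consR g479 g361 (.consR g459 g362 (.consR g414 g361 trivial)))))) (tabReal_nil _)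
theorem g805 : Good x805 := good0 cc805 (.consR g425 g435 (.consR g422 g400 (.consR g400 g434 (.consR g470 g390 (.consR g358 g465 (.consR g423 g400 (.consR g354 g465 trivial))))))) (tabReal_nil _)
theorem g806 : Good x806 := good0 cc806 (.consR g446 g445 (.consR g489 g390 (.consR g400 g444 (.consR g447 g407 (.consR g443 g390 (.consR g446 g358 (.consR g443 g357 trivial))))))) (tabReal_nil _)
theorem g807 : Good x807 := good0 cc807 (.consR g425 g437 (.consR g422 g402 (.consR g400 g436 (.consR g425 g402 (.consR g361 g436 (.consR g422 g409 (.consR g354 g436 (.consR g423 g402 trivial)))))))) (tabReal_nil _)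
theorem g808 : Good x808 := good0 cc808 (.consR g446 g447 (.consR g490 g394 (.consR g400 g446 (.consR g446 g409 (.consR g443 g394 (.consR g446 g360 (.consR g443 g359 trivial))))))) (tabReal_nil _)
theorem g809 : Good x809 := good0 cc809 (.consR g425 g448 (.consR g488 g395 (.consR g422 g448 (.consR g445 g397 (.consR g423 g395 (.consR g399 g448 trivial)))))) t809
theorem g810 : Good x810 := good0 cc810 (.consR g425 g456 (.consR g486 g395 (.consR g423 g456 (.consR g447 g397 (.consR g422 g404 (.consR g443 g395 trivial)))))) t810
theorem g811 : Good x811 := good0 cc811 (.consR g454 g444 (.consR g494 g390 (.consR g407 g445 (.consR g454 g391 (.consR g385 g444 (.consR g430 g413 (.consR g302 g500 trivial))))))) t811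
theorem g812 : Good x812 := good0 cc812 (.consR g432 g435 (.consR g428 g400 (.consR g409 g434 (.consR g474 g390 (.consR g385 g434 (.consR g428 g390 trivial)))))) (tabReal_nil _)
theorem g813 : Good x813 := good0 cc813 (.consR g432 g437 (.consR g428 g402 (.consR g409 g436 (.consR g432 g402 (.consR g385 g436 (.consR g428 g409 trivial)))))) (tabReal_nil _)
theorem g814 : Good x814 := good0 cc814 (.consR g432 g448 (.consR g492 g395 (.consR g428 g448 (.consR g432 g397 (.consR g428 g395 trivial))))) t814
theorem g815 : Good x815 := good0 cc815 (.consR g464 g429 (.consR g515 g374 (.consR g459 g429 (.consR g479 g374 (.consR g390 g429 (.consR g458 g380 trivial)))))) (tabReal_nil _)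
theorem g816 : Good x816 := good0 cc816 (.consR g419 g471 (.consR g479 g419 (.consR g434 g431 (.consR g479 g388 (.consR g374 g471 (.consR g414 g420 trivial)))))) (tabReal_nil _)
theorem g817 : Good x817 := good0 cc817 (.consR g419 g476 (.consR g477 g419 (.consR g414 g476 (.consR g436 g426 (.consR g390 g425 (.consR g374 g425 trivial)))))) (tabReal_nil _)
theorem g818 : Good x818 := good0 cc818 (.consR g425 g473 (.consR g486 g414 (.consR g423 g473 (.consR g447 g424 (.consR g422 g414 (.consR g443 g414 trivial)))))) t818
theorem g819 : Good x819 := good0 cc819 (.consR g446 g462 (.consR g443 g425 (.consR g357 g509 (.consR g381 g462 (.consR g354 g508 (.consR g357 g476 (.consR g355 g476 trivial))))))) (tabReal_nil _)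
theorem g820 : Good x820 := good0 cc820 (.consR g444 g462 (.consR g507 g419 (.consR g404 g471 (.consR g444 g426 (.consR g356 g514 (.consR g399 g462 trivial)))))) (tabReal_nil _)
theorem g821 : Good x821 := good0 cc821 (.consR g432 g468 (.consR g492 g414 (.consR g428 g468 (.consR g453 g429 (.consR g428 g429 trivial))))) (tabReal_nil _)
theorem g822 : Good x822 := good0 cc822 (.consR g432 g473 (.consR g491 g414 (.consR g408 g473 (.consR g455 g424 (.consR g386 g473 (.consR g428 g414 (.consR g428 g405 trivial))))))) t822
theorem g823 : Good x823 := good0 cc823 (.consR g454 g462 (.consR g451 g425 (.consR g369 g509 (.consR g408 g476 (.consR g333 g509 (.consR g369 g476 (.consR g333 g476 trivial))))))) (tabReal_nil _)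
theorem g824 : Good x824 := good0 cc824 (.consR g453 g462 (.consR g513 g419 (.consR g385 g514 (.consR g412 g471 (.consR g406 g462 trivial))))) (tabReal_nil _)
theorem g825 : Good x825 := good0 cc825 (.consR g462 g452 (.consR g515 g391 (.consR g458 g452 (.consR g482 g400 (.consR g460 g400 trivial))))) t825
theorem g826 : Good x826 := good0 cc826 (.consR g462 g446 (.consR g516 g393 (.consR g434 g447 (.consR g477 g410 (.consR g414 g447 (.consR g459 g394 (.consR g414 g409 trivial))))))) t826
theorem g827 : Good x827 := good0 cc827 (.consR g462 g454 (.consR g515 g393 (.consR g458 g454 (.consR g482 g402 (.consR g460 g402 trivial))))) t827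
theorem g828 : Good x828 := good0 cc828 (.consR g498 g396 (.consR g495 g362 (.consR g477 g395 (.consR g498 g361 (.consR g458 g395 (.consR g495 g361 trivial)))))) (tabReal_nil _)
theorem g829 : Good x829 := good0 cc829 (.consR g419 g514 (.consR g462 g462 trivial)) (tabReal_nil _)
theorem g830 : Good x830 := good0 cc830 (.consR g425 g491 (.consR g486 g434 (.consR g423 g491 (.consR g446 g445 (.consR g443 g434 trivial))))) (tabReal_nil _)
theorem g831 : Good x831 := good0 cc831 (.consR g425 g487 (.consR g488 g436 (.consR g422 g487 (.consR g444 g454 (.consR g423 g436 (.consR g399 g487 trivial)))))) (tabReal_nil _)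
theorem g832 : Good x832 := good0 cc832 (.consR g425 g492 (.consR g486 g436 (.consR g423 g492 (.consR g446 g447 (.consR g443 g436 trivial))))) (tabReal_nil _)
theorem g833 : Good x833 := good0 cc833 (.consR g471 g439 (.consR g469 g427 (.consR g467 g438 (.consR g505 g395 (.consR g467 g412 trivial))))) (tabReal_nil _)
theorem g834 : Good x834 := good0 cc834 (.consR g488 g448 (.consR g524 g395 (.consR g444 g448 (.consR g507 g412 (.consR g357 g503 (.consR g423 g449 (.consR g422 g412 (.consR g423 g412 trivial)))))))) (tabReal_nil _)
theorem g835 : Good x835 := good0 cc835 (.consR g432 g485 (.consR g492 g434 (.consR g428 g485 (.consR g453 g452 (.consR g428 g434 trivial))))) (tabReal_nil _)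
theorem g836 : Good x836 := good0 cc836 (.consR g432 g491 (.consR g491 g434 (.consR g454 g444 (.consR g491 g413 (.consR g386 g491 (.consR g428 g444 (.consR g428 g401 trivial))))))) (tabReal_nil _)
theorem g837 : Good x837 := good0 cc837 (.consR g432 g487 (.consR g492 g436 (.consR g428 g487 (.consR g453 g454 (.consR g428 g455 trivial))))) (tabReal_nil _)
theorem g838 : Good x838 := good0 cc838 (.consR g476 g439 (.consR g541 g395 (.consR g472 g438 (.consR g512 g395 (.consR g472 g412 trivial))))) (tabReal_nil _)
theorem g839 : Good x839 := good0 cc839 (.consR g517 g424 (.consR g547 g374 (.consR g516 g385 (.consR g547 g363 (.consR g418 g484 (.consR g460 g424 (.consR g389 g484 trivial))))))) t839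
theorem g840 : Good x840 := good0 cc840 (.consR g499 g414 (.consR g495 g405 (.consR g477 g414 (.consR g498 g385 (.consR g458 g414 (.consR g495 g380 trivial)))))) (tabReal_nil _)
theorem g841 : Good x841 := good0 cc841 (.consR g481 g471 (.consR g518 g419 (.consR g434 g471 (.consR g497 g432 (.consR g414 g471 (.consR g461 g432 (.consR g414 g442 trivial))))))) (tabReal_nil _)
theorem g842 : Good x842 := good0 cc842 (.consR g462 g463 (.consR g458 g426 (.consR g434 g462 (.consR g496 g419 (.consR g414 g462 (.consR g458 g425 trivial)))))) t842
theorem g843 : Good x843 := good0 cc843 (.consR g471 g459 (.consR g468 g424 (.consR g467 g458 (.consR g505 g433 (.consR g467 g429 trivial))))) t843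
theorem g844 : Good x844 := good0 cc844 (.consR g488 g468 (.consR g524 g414 (.consR g444 g468 (.consR g506 g429 (.consR g423 g469 (.consR g470 g414 (.consR g422 g433 (.consR g423 g429 trivial)))))))) (tabReal_nil _)
theorem g845 : Good x845 := good0 cc845 (.consR g425 g499 (.consR g422 g471 (.consR g400 g498 (.consR g470 g462 (.consR g361 g498 (.consR g422 g476 (.consR g354 g498 (.consR g423 g471 trivial)))))))) (tabReal_nil _)
theorem g846 : Good x846 := good0 cc846 (.consR g446 g509 (.consR g489 g462 (.consR g400 g508 (.consR g446 g476 (.consR g443 g462 (.consR g446 g426 (.consR g443 g425 trivial))))))) (tabReal_nil _)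
theorem g847 : Good x847 := good0 cc847 (.consR g492 g468 (.consR g527 g414 (.consR g453 g468 (.consR g493 g429 (.consR g428 g468 (.consR g474 g414 (.consR g428 g433 trivial))))))) (tabReal_nil _)
theorem g848 : Good x848 := good0 cc848 (.consR g476 g459 (.consR g541 g414 (.consR g472 g458 (.consR g512 g433 (.consR g472 g429 trivial))))) t848
theorem g849 : Good x849 := good0 cc849 (.consR g454 g508 (.consR g494 g462 (.consR g407 g509 (.consR g454 g476 (.consR g451 g462 (.consR g454 g425 (.consR g451 g425 trivial))))))) (tabReal_nil _)
theorem g850 : Good x850 := good0 cc850 (.consR g432 g499 (.consR g428 g471 (.consR g409 g498 (.consR g474 g462 (.consR g385 g498 (.consR g428 g476 trivial)))))) (tabReal_nil _)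
theorem g851 : Good x851 := good0 cc851 (.consR g516 g445 (.consR g547 g390 (.consR g477 g444 (.consR g517 g407 (.consR g418 g500 (.consR g458 g444 (.consR g389 g500 trivial))))))) (tabReal_nil _)
theorem g852 : Good x852 := good0 cc852 (.consR g498 g435 (.consR g495 g400 (.consR g477 g434 (.consR g498 g400 (.consR g458 g434 (.consR g495 g413 trivial)))))) (tabReal_nil _)
theorem g853 : Good x853 := good0 cc853 (.consR g498 g437 (.consR g495 g402 (.consR g477 g436 (.consR g498 g402 (.consR g458 g436 (.consR g495 g410 trivial)))))) (tabReal_nil _)
theorem g854 : Good x854 := good0 cc854 (.consR g498 g448 (.consR g546 g395 (.consR g515 g397 (.consR g546 g372 (.consR g458 g448 (.consR g495 g395 trivial)))))) t854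
theorem g855 : Good x855 := good0 cc855 (.consR g498 g456 (.consR g544 g395 (.consR g517 g397 (.consR g544 g361 (.consR g516 g361 (.consR g544 g294 (.consR g414 g457 (.consR g458 g404 trivial)))))))) t855
theorem g856 : Good x856 := good0 cc856 (.consR g471 g478 (.consR g467 g445 (.consR g467 g477 (.consR g505 g434 (.consR g467 g453 trivial))))) t856
theorem g857 : Good x857 := good0 cc857 (.consR g488 g485 (.consR g524 g434 (.consR g444 g485 (.consR g507 g452 (.consR g422 g485 (.consR g470 g453 (.consR g423 g453 (.consR g423 g486 trivial)))))))) (tabReal_nil _)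
theorem g858 : Good x858 := good0 cc858 (.consR g471 g480 (.consR g467 g447 (.consR g467 g479 (.consR g505 g436 (.consR g467 g455 trivial))))) t858
theorem g859 : Good x859 := good0 cc859 (.consR g488 g487 (.consR g524 g436 (.consR g444 g487 (.consR g506 g455 (.consR g422 g487 (.consR g470 g436 (.consR g423 g455 (.consR g423 g488 trivial)))))))) (tabReal_nil _)
theorem g860 : Good x860 := good0 cc860 (.consR g471 g489 (.consR g521 g438 (.consR g467 g489 (.consR g486 g457 (.consR g467 g466 trivial))))) (tabReal_nil _)
theorem g861 : Good x861 := good0 cc861 (.consR g471 g494 (.consR g520 g439 (.consR g469 g494 (.consR g488 g448 (.consR g467 g448 trivial))))) (tabReal_nil _)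
theorem g862 : Good x862 := good0 cc862 (.consR g492 g485 (.consR g527 g434 (.consR g453 g485 (.consR g513 g452 (.consR g385 g533 (.consR g428 g485 trivial)))))) (tabReal_nil _)
theorem g863 : Good x863 := good0 cc863 (.consR g476 g478 (.consR g541 g434 (.consR g472 g477 (.consR g512 g434 (.consR g472 g453 trivial))))) t863
theorem g864 : Good x864 := good0 cc864 (.consR g476 g480 (.consR g541 g436 (.consR g472 g479 (.consR g512 g436 (.consR g472 g455 trivial))))) t864
theorem g865 : Good x865 := good0 cc865 (.consR g476 g489 (.consR g526 g438 (.consR g472 g489 (.consR g491 g457 (.consR g472 g466 trivial))))) (tabReal_nil _)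
theorem g866 : Good x866 := good0 cc866 (.consR g498 g473 (.consR g544 g414 (.consR g517 g424 (.consR g545 g380 (.consR g516 g405 (.consR g545 g324 (.consR g460 g414 (.consR g495 g405 trivial)))))))) t866
theorem g867 : Good x867 := good0 cc867 (.consR g462 g508 (.consR g516 g462 (.consR g434 g509 (.consR g462 g464 (.consR g414 g509 (.consR g459 g462 (.consR g414 g476 trivial))))))) (tabReal_nil _)
theorem g868 : Good x868 := good0 cc868 (.consR g462 g514 (.consR g515 g464 (.consR g458 g514 (.consR g482 g471 (.consR g460 g471 trivial))))) (tabReal_nil _)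
theorem g869 : Good x869 := good0 cc869 (.consR g471 g511 (.consR g520 g460 (.consR g469 g511 (.consR g488 g468 (.consR g467 g468 trivial))))) (tabReal_nil _)
theorem g870 : Good x870 := good0 cc870 (.consR g425 g536 (.consR g488 g498 (.consR g422 g536 (.consR g444 g499 (.consR g423 g498 (.consR g399 g536 trivial)))))) (tabReal_nil _)
theorem g871 : Good x871 := good0 cc871 (.consR g425 g542 (.consR g486 g498 (.consR g423 g542 (.consR g446 g509 (.consR g443 g498 trivial))))) (tabReal_nil _)
theorem g872 : Good x872 := good0 cc872 (.consR g428 g504 (.consR g526 g458 (.consR g453 g504 (.consR g476 g460 (.consR g451 g504 (.consR g472 g483 trivial)))))) (tabReal_nil _)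
theorem g873 : Good x873 := good0 cc873 (.consR g476 g511 (.consR g525 g458 (.consR g473 g511 (.consR g492 g468 (.consR g472 g468 trivial))))) (tabReal_nil _)
theorem g874 : Good x874 := good0 cc874 (.consR g432 g536 (.consR g492 g498 (.consR g428 g536 (.consR g453 g499 (.consR g428 g498 trivial))))) (tabReal_nil _)
theorem g875 : Good x875 := good0 cc875 (.consR g432 g542 (.consR g491 g498 (.consR g429 g543 (.consR g454 g508 (.consR g428 g508 trivial))))) (tabReal_nil _)
theorem g876 : Good x876 := good0 cc876 (.consR g498 g491 (.consR g544 g434 (.consR g516 g445 (.consR g544 g413 (.consR g516 g400 (.consR g544 g358 (.consR g458 g444 (.consR g495 g413 trivial)))))))) (tabReal_nil _)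
theorem g877 : Good x877 := good0 cc877 (.consR g498 g487 (.consR g546 g436 (.consR g515 g436 (.consR g546 g409 (.consR g458 g487 (.consR g495 g436 trivial)))))) (tabReal_nil _)
theorem g878 : Good x878 := good0 cc878 (.consR g498 g492 (.consR g544 g436 (.consR g495 g493 (.consR g516 g447 (.consR g477 g446 (.consR g458 g446 trivial)))))) (tabReal_nil _)
theorem g879 : Good x879 := good0 cc879 (.consR g530 g439 (.consR g528 g427 (.consR g515 g439 (.consR g530 g404 (.consR g495 g439 (.consR g528 g404 trivial)))))) (tabReal_nil _)
theorem g880 : Good x880 := good0 cc880 (.consR g546 g462 (.consR g573 g420 trivial)) (tabReal_nil _)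
theorem g881 : Good x881 := good0 cc881 (.consR g471 g525 (.consR g520 g478 (.consR g469 g525 (.consR g488 g485 (.consR g467 g485 trivial))))) t881
theorem g882 : Good x882 := good0 cc882 (.consR g471 g521 (.consR g521 g479 (.consR g467 g521 (.consR g485 g492 (.consR g467 g492 trivial))))) (tabReal_nil _)
theorem g883 : Good x883 := good0 cc883 (.consR g471 g526 (.consR g520 g480 (.consR g469 g526 (.consR g488 g487 (.consR g467 g487 trivial))))) t883
theorem g884 : Good x884 := good0 cc884 (.consR g509 g482 (.consR g504 g449 (.consR g486 g482 (.consR g508 g448 (.consR g467 g502 (.consR g504 g448 trivial)))))) (tabReal_nil _)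
theorem g885 : Good x885 := good0 cc885 (.consR g521 g490 (.consR g553 g438 (.consR g486 g489 (.consR g521 g456 (.consR g467 g489 (.consR g505 g456 (.consR g469 g457 trivial))))))) (tabReal_nil _)
theorem g886 : Good x886 := good0 cc886 (.consR g428 g520 (.consR g526 g477 (.consR g453 g520 (.consR g428 g477 (.consR g451 g520 (.consR g472 g491 trivial)))))) (tabReal_nil _)
theorem g887 : Good x887 := good0 cc887 (.consR g476 g525 (.consR g525 g477 (.consR g473 g525 (.consR g492 g485 (.consR g472 g485 trivial))))) (tabReal_nil _)
theorem g888 : Good x888 := good0 cc888 (.consR g476 g521 (.consR g526 g479 (.consR g472 g521 (.consR g428 g479 (.consR g472 g492 trivial))))) (tabReal_nil _)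
theorem g889 : Good x889 := good0 cc889 (.consR g472 g482 (.consR g510 g449 (.consR g491 g482 (.consR g540 g438 (.consR g472 g502 (.consR g510 g456 trivial)))))) (tabReal_nil _)
theorem g890 : Good x890 := good0 cc890 (.consR g546 g469 (.consR g573 g414 (.consR g515 g468 (.consR g546 g429 (.consR g495 g468 (.consR g498 g433 (.consR g495 g433 trivial))))))) (tabReal_nil _)
theorem g891 : Good x891 := good0 cc891 (.consR g530 g459 (.consR g529 g424 (.consR g560 g433 (.consR g529 g405 (.consR g495 g460 (.consR g516 g433 (.consR g495 g433 trivial))))))) t891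
theorem g892 : Good x892 := good0 cc892 (.consR g516 g509 (.consR g547 g462 (.consR g477 g508 (.consR g516 g476 (.consR g458 g508 (.consR g496 g476 (.consR g458 g464 trivial))))))) (tabReal_nil _)
theorem g893 : Good x893 := good0 cc893 (.consR g498 g499 (.consR g495 g471 (.consR g477 g498 (.consR g498 g471 (.consR g458 g498 (.consR g495 g462 trivial)))))) (tabReal_nil _)
theorem g894 : Good x894 := good0 cc894 (.consR g508 g495 (.consR g504 g469 (.consR g485 g495 (.consR g508 g468 (.consR g468 g495 (.consR g504 g468 trivial)))))) (tabReal_nil _)
theorem g895 : Good x895 := good0 cc895 (.consR g521 g504 (.consR g553 g458 (.consR g485 g504 (.consR g521 g473 (.consR g468 g504 (.consR g505 g473 (.consR g467 g484 trivial))))))) (tabReal_nil _)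
theorem g896 : Good x896 := good0 cc896 (.consR g471 g531 (.consR g467 g509 (.consR g467 g530 (.consR g505 g498 (.consR g467 g514 trivial))))) t896
theorem g897 : Good x897 := good0 cc897 (.consR g488 g536 (.consR g524 g498 (.consR g444 g536 (.consR g507 g514 (.consR g423 g537 (.consR g470 g514 (.consR g422 g514 (.consR g423 g514 trivial)))))))) (tabReal_nil _)
theorem g898 : Good x898 := good0 cc898 (.consR g526 g504 (.consR g558 g458 (.consR g476 g504 (.consR g526 g473 (.consR g512 g473 (.consR g526 g429 (.consR g451 g504 (.consR g472 g484 trivial)))))))) (tabReal_nil _)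
theorem g899 : Good x899 := good0 cc899 (.consR g514 g495 (.consR g510 g469 (.consR g510 g495 (.consR g540 g458 (.consR g510 g473 trivial))))) (tabReal_nil _)
theorem g900 : Good x900 := good0 cc900 (.consR g492 g536 (.consR g527 g498 (.consR g453 g536 (.consR g513 g514 (.consR g428 g536 (.consR g474 g514 (.consR g428 g514 trivial))))))) (tabReal_nil _)
theorem g901 : Good x901 := good0 cc901 (.consR g476 g531 (.consR g541 g498 (.consR g472 g530 (.consR g512 g498 (.consR g472 g514 trivial))))) t901
theorem g902 : Good x902 := good0 cc902 (.consR g546 g486 (.consR g573 g434 (.consR g515 g485 (.consR g546 g453 (.consR g458 g533 (.consR g495 g485 trivial)))))) (tabReal_nil _)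
theorem g903 : Good x903 := good0 cc903 (.consR g530 g478 (.consR g528 g445 (.consR g516 g477 (.consR g530 g444 (.consR g528 g444 (.consR g530 g413 (.consR g528 g401 trivial))))))) t903
theorem g904 : Good x904 := good0 cc904 (.consR g530 g480 (.consR g528 g447 (.consR g516 g479 (.consR g530 g446 (.consR g482 g479 (.consR g528 g446 (.consR g528 g410 trivial))))))) t904
theorem g905 : Good x905 := good0 cc905 (.consR g530 g489 (.consR g571 g438 (.consR g515 g489 (.consR g544 g457 (.consR g495 g489 (.consR g528 g466 trivial)))))) (tabReal_nil _)
theorem g906 : Good x906 := good0 cc906 (.consR g530 g494 (.consR g570 g439 (.consR g528 g494 (.consR g546 g449 (.consR g515 g448 (.consR g495 g448 trivial)))))) (tabReal_nil _)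
theorem g907 : Good x907 := good0 cc907 (.consR g508 g515 (.consR g504 g486 (.consR g485 g515 (.consR g508 g485 (.consR g468 g515 (.consR g504 g485 trivial)))))) (tabReal_nil _)
theorem g908 : Good x908 := good0 cc908 (.consR g521 g520 (.consR g553 g477 (.consR g485 g520 (.consR g521 g491 (.consR g467 g532 (.consR g505 g491 (.consR g467 g500 trivial))))))) (tabReal_nil _)
theorem g909 : Good x909 := good0 cc909 (.consR g508 g517 (.consR g504 g488 (.consR g486 g516 (.consR g508 g487 (.consR g469 g516 (.consR g504 g487 trivial)))))) (tabReal_nil _)
theorem g910 : Good x910 := good0 cc910 (.consR g521 g522 (.consR g553 g479 (.consR g486 g521 (.consR g521 g492 (.consR g467 g521 (.consR g505 g492 (.consR g467 g501 trivial))))))) (tabReal_nil _)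
theorem g911 : Good x911 := good0 cc911 (.consR g508 g523 (.consR g552 g482 (.consR g520 g494 (.consR g552 g457 (.consR g467 g523 (.consR g504 g502 trivial)))))) (tabReal_nil _)
theorem g912 : Good x912 := good0 cc912 (.consR g508 g527 (.consR g550 g482 (.consR g504 g527 (.consR g521 g490 (.consR g486 g489 (.consR g467 g490 trivial)))))) (tabReal_nil _)
theorem g913 : Good x913 := good0 cc913 (.consR g526 g520 (.consR g558 g477 (.consR g476 g520 (.consR g526 g491 (.consR g472 g532 (.consR g512 g491 (.consR g472 g500 trivial))))))) (tabReal_nil _)
theorem g914 : Good x914 := good0 cc914 (.consR g514 g515 (.consR g510 g486 (.consR g510 g515 (.consR g540 g477 (.consR g510 g491 trivial))))) (tabReal_nil _)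
theorem g915 : Good x915 := good0 cc915 (.consR g514 g517 (.consR g510 g488 (.consR g510 g517 (.consR g540 g479 (.consR g510 g492 trivial))))) (tabReal_nil _)
theorem g916 : Good x916 := good0 cc916 (.consR g514 g523 (.consR g557 g482 (.consR g510 g523 (.consR g472 g494 (.consR g510 g502 trivial))))) (tabReal_nil _)
theorem g917 : Good x917 := good0 cc917 (.consR g530 g511 (.consR g570 g460 (.consR g528 g511 (.consR g546 g469 (.consR g515 g468 (.consR g495 g468 trivial)))))) (tabReal_nil _)
theorem g918 : Good x918 := good0 cc918 (.consR g498 g536 (.consR g546 g498 (.consR g515 g514 (.consR g546 g476 (.consR g458 g536 (.consR g495 g498 trivial)))))) (tabReal_nil _)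
theorem g919 : Good x919 := good0 cc919 (.consR g498 g542 (.consR g544 g498 (.consR g495 g543 (.consR g516 g509 (.consR g477 g508 (.consR g458 g508 trivial)))))) (tabReal_nil _)
theorem g920 : Good x920 := good0 cc920 (.consR g508 g538 (.consR g549 g495 (.consR g504 g539 (.consR g521 g504 (.consR g486 g504 (.consR g467 g504 trivial)))))) (tabReal_nil _)
theorem g921 : Good x921 := good0 cc921 (.consR g471 g564 (.consR g521 g530 (.consR g467 g564 (.consR g486 g543 (.consR g467 g542 trivial))))) (tabReal_nil _)
theorem g922 : Good x922 := good0 cc922 (.consR g471 g568 (.consR g520 g531 (.consR g469 g568 (.consR g488 g536 (.consR g467 g536 trivial))))) t922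
theorem g923 : Good x923 := good0 cc923 (.consR g514 g534 (.consR g557 g495 (.consR g510 g534 (.consR g525 g495 (.consR g511 g495 trivial))))) (tabReal_nil _)
theorem g924 : Good x924 := good0 cc924 (.consR g514 g538 (.consR g556 g495 (.consR g511 g538 (.consR g526 g504 (.consR g510 g504 trivial))))) (tabReal_nil _)
theorem g925 : Good x925 := good0 cc925 (.consR g476 g564 (.consR g526 g530 (.consR g472 g564 (.consR g491 g543 (.consR g472 g542 trivial))))) (tabReal_nil _)
theorem g926 : Good x926 := good0 cc926 (.consR g476 g568 (.consR g525 g530 (.consR g473 g568 (.consR g492 g536 (.consR g472 g536 trivial))))) (tabReal_nil _)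
theorem g927 : Good x927 := good0 cc927 (.consR g530 g525 (.consR g570 g478 (.consR g528 g525 (.consR g546 g486 (.consR g515 g485 (.consR g495 g485 trivial)))))) t927
theorem g928 : Good x928 := good0 cc928 (.consR g530 g521 (.consR g571 g479 (.consR g515 g521 (.consR g545 g492 (.consR g495 g521 (.consR g529 g501 trivial)))))) (tabReal_nil _)
theorem g929 : Good x929 := good0 cc929 (.consR g530 g526 (.consR g570 g480 (.consR g528 g526 (.consR g546 g488 (.consR g515 g487 (.consR g495 g487 trivial)))))) t929
theorem g930 : Good x930 := good0 cc930 (.consR g562 g482 (.consR g559 g449 (.consR g544 g482 (.consR g561 g448 (.consR g528 g482 (.consR g559 g448 trivial)))))) (tabReal_nil _)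
theorem g931 : Good x931 := good0 cc931 (.consR g571 g498 (.consR g600 g462 trivial)) (tabReal_nil _)
theorem g932 : Good x932 := good0 cc932 (.consR g508 g555 (.consR g549 g515 (.consR g504 g556 (.consR g521 g520 (.consR g486 g520 (.consR g467 g520 trivial)))))) (tabReal_nil _)
theorem g933 : Good x933 := good0 cc933 (.consR g508 g551 (.consR g552 g516 (.consR g520 g526 (.consR g551 g492 (.consR g467 g551 (.consR g504 g516 trivial)))))) (tabReal_nil _)
theorem g934 : Good x934 := good0 cc934 (.consR g508 g557 (.consR g550 g516 (.consR g504 g557 (.consR g521 g522 (.consR g486 g521 (.consR g467 g522 trivial)))))) (tabReal_nil _)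
theorem g935 : Good x935 := good0 cc935 (.consR g537 g518 (.consR g535 g490 (.consR g520 g518 (.consR g537 g489 (.consR g504 g518 (.consR g535 g489 trivial)))))) (tabReal_nil _)
theorem g936 : Good x936 := good0 cc936 (.consR g552 g523 (.consR g579 g482 (.consR g520 g523 (.consR g552 g494 (.consR g504 g523 (.consR g520 g502 (.consR g504 g503 trivial))))))) (tabReal_nil _)
theorem g937 : Good x937 := good0 cc937 (.consR g514 g549 (.consR g557 g515 (.consR g510 g549 (.consR g525 g515 (.consR g511 g515 trivial))))) (tabReal_nil _)
theorem g938 : Good x938 := good0 cc938 (.consR g514 g555 (.consR g556 g515 (.consR g511 g555 (.consR g526 g520 (.consR g510 g520 trivial))))) (tabReal_nil _)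
theorem g939 : Good x939 := good0 cc939 (.consR g514 g551 (.consR g557 g516 (.consR g510 g551 (.consR g525 g517 (.consR g510 g516 trivial))))) (tabReal_nil _)
theorem g940 : Good x940 := good0 cc940 (.consR g542 g518 (.consR g538 g490 (.consR g525 g518 (.consR g542 g489 (.consR g511 g518 (.consR g538 g489 trivial)))))) (tabReal_nil _)
theorem g941 : Good x941 := good0 cc941 (.consR g571 g504 (.consR g599 g458 (.consR g545 g504 (.consR g571 g473 (.consR g529 g504 (.consR g544 g483 (.consR g528 g484 trivial))))))) (tabReal_nil _)
theorem g942 : Good x942 := good0 cc942 (.consR g561 g495 (.consR g559 g469 (.consR g545 g495 (.consR g561 g468 (.consR g529 g495 (.consR g559 g468 trivial)))))) (tabReal_nil _)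
theorem g943 : Good x943 := good0 cc943 (.consR g546 g537 (.consR g573 g498 (.consR g515 g536 (.consR g546 g514 (.consR g495 g536 (.consR g515 g514 (.consR g495 g514 trivial))))))) (tabReal_nil _)
theorem g944 : Good x944 := good0 cc944 (.consR g530 g531 (.consR g528 g509 (.consR g516 g530 (.consR g530 g508 (.consR g482 g530 (.consR g528 g508 (.consR g529 g471 trivial))))))) t944
theorem g945 : Good x945 := good0 cc945 (.consR g537 g529 (.consR g535 g504 (.consR g520 g529 (.consR g537 g511 (.consR g504 g529 (.consR g535 g495 trivial)))))) (tabReal_nil _)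
theorem g946 : Good x946 := good0 cc946 (.consR g552 g534 (.consR g578 g495 (.consR g520 g534 (.consR g552 g511 (.consR g504 g534 (.consR g520 g511 (.consR g504 g511 trivial))))))) (tabReal_nil _)
theorem g947 : Good x947 := good0 cc947 (.consR g508 g562 (.consR g504 g537 (.consR g486 g561 (.consR g508 g536 (.consR g469 g561 (.consR g504 g536 trivial)))))) (tabReal_nil _)
theorem g948 : Good x948 := good0 cc948 (.consR g521 g565 (.consR g553 g530 (.consR g486 g564 (.consR g521 g542 (.consR g467 g564 (.consR g505 g542 (.consR g467 g543 trivial))))))) (tabReal_nil _)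
theorem g949 : Good x949 := good0 cc949 (.consR g557 g535 (.consR g583 g495 (.consR g525 g534 (.consR g557 g511 (.consR g510 g534 (.consR g540 g495 (.consR g510 g511 trivial))))))) (tabReal_nil _)
theorem g950 : Good x950 := good0 cc950 (.consR g542 g529 (.consR g538 g504 (.consR g525 g528 (.consR g542 g511 (.consR g511 g528 (.consR g538 g495 trivial)))))) (tabReal_nil _)
theorem g951 : Good x951 := good0 cc951 (.consR g526 g565 (.consR g558 g530 (.consR g491 g564 (.consR g541 g543 (.consR g472 g564 (.consR g512 g542 (.consR g472 g543 trivial))))))) (tabReal_nil _)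
theorem g952 : Good x952 := good0 cc952 (.consR g514 g562 (.consR g510 g537 (.consR g510 g562 (.consR g540 g530 (.consR g510 g542 trivial))))) (tabReal_nil _)
theorem g953 : Good x953 := good0 cc953 (.consR g571 g520 (.consR g599 g477 (.consR g545 g520 (.consR g571 g491 (.consR g528 g532 (.consR g545 g500 (.consR g528 g500 trivial))))))) (tabReal_nil _)
theorem g954 : Good x954 := good0 cc954 (.consR g561 g515 (.consR g559 g486 (.consR g545 g515 (.consR g561 g485 (.consR g529 g515 (.consR g559 g485 trivial)))))) (tabReal_nil _)
theorem g955 : Good x955 := good0 cc955 (.consR g561 g517 (.consR g559 g488 (.consR g544 g516 (.consR g561 g487 (.consR g528 g516 (.consR g559 g487 trivial)))))) (tabReal_nil _)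
theorem g956 : Good x956 := good0 cc956 (.consR g561 g523 (.consR g598 g482 (.consR g544 g523 (.consR g570 g494 (.consR g528 g523 (.consR g559 g502 trivial)))))) (tabReal_nil _)
theorem g957 : Good x957 := good0 cc957 (.consR g561 g527 (.consR g596 g482 (.consR g559 g527 (.consR g571 g490 (.consR g544 g489 (.consR g528 g489 trivial)))))) (tabReal_nil _)
theorem g958 : Good x958 := good0 cc958 (.consR g537 g545 (.consR g535 g520 (.consR g520 g545 (.consR g537 g525 (.consR g504 g545 (.consR g535 g515 trivial)))))) (tabReal_nil _)
theorem g959 : Good x959 := good0 cc959 (.consR g552 g549 (.consR g578 g515 (.consR g520 g549 (.consR g552 g525 (.consR g504 g549 (.consR g520 g533 (.consR g504 g525 trivial))))))) (tabReal_nil _)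
theorem g960 : Good x960 := good0 cc960 (.consR g537 g546 (.consR g535 g522 (.consR g520 g546 (.consR g537 g521 (.consR g504 g546 (.consR g535 g521 trivial)))))) (tabReal_nil _)
theorem g961 : Good x961 := good0 cc961 (.consR g552 g551 (.consR g579 g516 (.consR g520 g551 (.consR g552 g526 (.consR g504 g551 (.consR g520 g526 (.consR g504 g526 trivial))))))) (tabReal_nil _)
theorem g962 : Good x962 := good0 cc962 (.consR g537 g553 (.consR g576 g518 (.consR g520 g553 (.consR g550 g527 (.consR g504 g553 (.consR g535 g518 trivial)))))) (tabReal_nil _)
theorem g963 : Good x963 := good0 cc963 (.consR g537 g558 (.consR g575 g518 (.consR g535 g558 (.consR g552 g523 (.consR g520 g523 (.consR g504 g523 trivial)))))) (tabReal_nil _)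
theorem g964 : Good x964 := good0 cc964 (.consR g557 g550 (.consR g583 g515 (.consR g525 g549 (.consR g557 g525 (.consR g510 g549 (.consR g540 g515 (.consR g510 g533 trivial))))))) (tabReal_nil _)
theorem g965 : Good x965 := good0 cc965 (.consR g542 g545 (.consR g538 g520 (.consR g525 g544 (.consR g542 g525 (.consR g511 g544 (.consR g538 g515 trivial)))))) (tabReal_nil _)
theorem g966 : Good x966 := good0 cc966 (.consR g542 g546 (.consR g538 g522 (.consR g525 g546 (.consR g542 g521 (.consR g511 g546 (.consR g538 g521 trivial)))))) (tabReal_nil _)
theorem g967 : Good x967 := good0 cc967 (.consR g542 g553 (.consR g582 g518 (.consR g525 g554 (.consR g555 g527 (.consR g510 g553 (.consR g538 g518 trivial)))))) (tabReal_nil _)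
theorem g968 : Good x968 := good0 cc968 (.consR g561 g538 (.consR g597 g495 (.consR g559 g539 (.consR g571 g504 (.consR g544 g504 (.consR g528 g504 trivial)))))) (tabReal_nil _)
theorem g969 : Good x969 := good0 cc969 (.consR g530 g564 (.consR g571 g530 (.consR g515 g564 (.consR g544 g543 (.consR g495 g564 (.consR g529 g530 trivial)))))) (tabReal_nil _)
theorem g970 : Good x970 := good0 cc970 (.consR g530 g568 (.consR g570 g531 (.consR g528 g568 (.consR g546 g537 (.consR g515 g536 (.consR g495 g536 trivial)))))) t970
theorem g971 : Good x971 := good0 cc971 (.consR g537 g566 (.consR g575 g529 (.consR g535 g566 (.consR g552 g534 (.consR g520 g534 (.consR g504 g534 trivial)))))) (tabReal_nil _)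
theorem g972 : Good x972 := good0 cc972 (.consR g508 g590 (.consR g552 g561 (.consR g520 g568 (.consR g552 g543 (.consR g467 g590 (.consR g504 g561 trivial)))))) (tabReal_nil _)
theorem g973 : Good x973 := good0 cc973 (.consR g508 g594 (.consR g550 g561 (.consR g504 g595 (.consR g521 g565 (.consR g486 g564 (.consR g467 g565 trivial)))))) (tabReal_nil _)
theorem g974 : Good x974 := good0 cc974 (.consR g543 g563 (.consR g582 g528 (.consR g525 g563 (.consR g555 g539 (.consR g511 g563 (.consR g538 g529 trivial)))))) (tabReal_nil _)
theorem g975 : Good x975 := good0 cc975 (.consR g542 g566 (.consR g580 g528 (.consR g538 g566 (.consR g557 g535 (.consR g525 g534 (.consR g510 g535 trivial)))))) (tabReal_nil _)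
theorem g976 : Good x976 := good0 cc976 (.consR g514 g590 (.consR g557 g561 (.consR g510 g590 (.consR g525 g569 (.consR g510 g569 trivial))))) (tabReal_nil _)
theorem g977 : Good x977 := good0 cc977 (.consR g514 g594 (.consR g555 g561 (.consR g511 g594 (.consR g526 g565 (.consR g510 g564 trivial))))) (tabReal_nil _)
theorem g978 : Good x978 := good0 cc978 (.consR g561 g555 (.consR g597 g515 (.consR g559 g556 (.consR g571 g520 (.consR g544 g520 (.consR g528 g520 trivial)))))) (tabReal_nil _)
theorem g979 : Good x979 := good0 cc979 (.consR g561 g551 (.consR g598 g516 (.consR g544 g551 (.consR g570 g526 (.consR g528 g551 (.consR g559 g516 trivial)))))) (tabReal_nil _)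
theorem g980 : Good x980 := good0 cc980 (.consR g561 g557 (.consR g596 g516 (.consR g559 g557 (.consR g571 g522 (.consR g544 g521 (.consR g528 g521 trivial)))))) (tabReal_nil _)
theorem g981 : Good x981 := good0 cc981 (.consR g586 g518 (.consR g584 g490 (.consR g570 g518 (.consR g586 g489 (.consR g559 g518 (.consR g584 g489 trivial)))))) (tabReal_nil _)
theorem g982 : Good x982 := good0 cc982 (.consR g598 g530 (.consR g624 g499 trivial)) (tabReal_nil _)

end Pool.Agent.Lib.MP84
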