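import Pool.Agent.Lib.MP_84c3e0_co.Table

/-!
The periodic part of the induction: a finite family of block types closed under the rules.
-/

namespace Pool.Agent.Lib.MP84

deriving instance DecidableEq for Ty
deriving instance DecidableEq for Pr

structure PRule where
  i1 : ℕ
  j1 : ℕ
  i3 : ℕ
  j3 : ℕ
  c : Core

structure PT where
  x : Pr
  n0 : ℕ
  r0 : List PRule
  r1 : List PRule

def dfl : Pr := ⟨⟨0, 0, none, [], [], [], [], [], none⟩, 0, []⟩

def toRule (B : List Pr) (r : PRule) : Rule :=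
  ⟨(B.getD r.i1 dfl).at r.j1, (B.getD r.i3 dfl).at r.j3, r.c⟩

def prOK (B : List Pr) (x : Pr) (rs : List PRule) : Bool :=
  rs.all (fun r => decide (r.i1 < B.length) && decide (r.i3 < B.length)) &&
    certOK x [] (rs.map (toRule B))

def ptOK (B : List Pr) (t : PT) : Bool :=
  prOK B (t.x.at t.n0) t.r0 && prOK B (t.x.at (t.n0 + 1)) t.r1

theorem prOK_good {B : List Pr} {x : Pr} {rs : List PRule} (h : prOK B x rs = true) (j : ℕ)
    (ih : ∀ y ∈ B, ∀ n, (y.at n).g.p + (y.at n).g.q < (x.at (2 * j)).g.p + (x.at (2 * j)).g.q →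
      Good (y.at n)) : Good (x.at (2 * j)) := by
  simp only [prOK, Bool.and_eq_true, List.all_eq_true, decide_eq_true_eq] at h
  refine good_of_cert h.2 j ?_ (tabReal_nil _)
  intro r hr
  have h2 := h.2
  simp only [certOK, Bool.and_eq_true, List.all_eq_true] at h2
  have h3 := h2.1 r hr
  simp only [ruleOK, Bool.and_eq_true] at h3
  have k := (rulePB_sound h3.1.1).lift j
  obtain ⟨r', hr', rfl⟩ := List.mem_map.1 hr
  have := h.1 r' hr'
  have hp := k.hp
  have hq := k.hq
  have h1 := k.h1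
  have h3 := k.h3
  have m1 : B.getD r'.i1 dfl ∈ B := by
    rw [List.getD_eq_getElem _ _ this.1]; exact List.getElem_mem _
  have m3 : B.getD r'.i3 dfl ∈ B := by
    rw [List.getD_eq_getElem _ _ this.2]; exact List.getElem_mem _
  constructor
  · have := ih _ m1 (r'.j1 + j)
    rw [← Pr.at_at] at this
    apply this
    simp only [toRule, Pr.at] at hp hq h1 h3 ⊢
    omega
  · have := ih _ m3 (r'.j3 + j)
    rw [← Pr.at_at] at this
    apply this
    simp only [toRule, Pr.at] at hp hq h1 h3 ⊢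
    omega

theorem good_per (T : List PT) (h : T.all (ptOK (T.map PT.x)) = true)
    (hfin : ∀ y ∈ T.flatMap fun t => (List.range t.n0).map t.x.at, Good y) :
    ∀ y ∈ T.map PT.x, ∀ n, Good (y.at n) := by
  suffices H : ∀ w, ∀ y ∈ T.map PT.x, ∀ n, (y.at n).g.p + (y.at n).g.q < w → Good (y.at n) from
    fun y hy n => H _ y hy n (Nat.lt_succ_self _)
  intro w
  induction w with
  | zero => intro y _ n h; omega
  | succ w ih =>
    intro y hy n hn
    obtain ⟨t, ht, rfl⟩ := List.mem_map.1 hy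
    by_cases h0 : n < t.n0
    · exact hfin _ (List.mem_flatMap.2 ⟨t, ht, List.mem_map.2 ⟨n, List.mem_range.2 h0, rfl⟩⟩)
    have ho := List.all_eq_true.1 h t ht
    simp only [ptOK, Bool.and_eq_true] at ho
    rcases Nat.even_or_odd' (n - t.n0) with ⟨j, hj | hj⟩
    · have e : t.x.at n = (t.x.at t.n0).at (2 * j) := by rw [Pr.at_at]; congr 1; omega
      rw [e] at hn ⊢
      exact prOK_good ho.1 j (fun y hy m hm => ih y hy m (by omega))
    · have e : t.x.at n = (t.x.at (t.n0 + 1)).at (2 * j) := by rw [Pr.at_at]; congr 1; omega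
      rw [e] at hn ⊢
      exact prOK_good ho.2 j (fun y hy m hm => ih y hy m (by omega))

def AllG : List Pr → Prop
  | [] => True
  | x :: xs => Good x ∧ AllG xs

theorem AllG.mem : ∀ {xs : List Pr}, AllG xs → ∀ x ∈ xs, Good x
  | [], _, r, hr => by simp at hr
  | r' :: rs, h, r, hr => by
    rcases List.mem_cons.1 hr with rfl | hr
    · exact h.1
    · exact AllG.mem h.2 r hr

theorem AllG.cons {x xs} (h : Good x) (h' : AllG xs) : AllG (x :: xs) := ⟨h, h'⟩
theorem AllGood.cons {x1 x3 c rs} (h1 : Good x1) (h3 : Good x3) (h' : AllGood rs) :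
    AllGood (⟨x1, x3, c⟩ :: rs) := ⟨h1, h3, h'⟩

/-! Compact encodings of the certificate data (base 256 digits). -/

noncomputable def dl (N k : ℕ) : List ℕ := Nat.rec [] (fun i ih => dig N i :: ih) k
noncomputable def dls (N o : ℕ) : List ℕ := dl (drp N (Nat.succ o)) (dig N o)
def dop (N o : ℕ) : Option (ℕ × ℕ) :=
  cond (Nat.beq (dig N o) 1) (some (dig N (o + 1), dig N (o + 2))) none
noncomputable def mkE (N : ℕ) : Ex := (dig N 0, dls N 2, dig N 1)
noncomputable def mkP (N : ℕ) (E : List ℕ) : Pr :=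
  ⟨⟨dig N 0, dig N 1, dop N 3, dls N 9, dls N 13, dls N 17, dls N 21, dls N 25, dop N 6⟩,
    dig N 2, E.map mkE⟩
noncomputable def mkC (N : ℕ) : Core :=
  ⟨Nat.beq (dig N 0) 1, dls N 4, dls N 14, dig N 1, dig N 2, Nat.beq (dig N 3) 1, true⟩
noncomputable def mkR (x1 x3 : Pr) (N : ℕ) : Rule := ⟨x1, x3, mkC N⟩
noncomputable def mkQ (N : ℕ) : PRule := ⟨dig N 0, dig N 1, dig N 2, dig N 3, mkC (drp N 4)⟩
noncomputable def mkS (N : ℕ) : List Spec :=
  (dls N 0).map fun d => (d % 32 * 2, d / 32 % 7 * 2, Nat.beq d 255)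

theorem AllGood.consR {x1 x3 N rs} (h1 : Good x1) (h3 : Good x3) (h' : AllGood rs) :
    AllGood (mkR x1 x3 N :: rs) := ⟨h1, h3, h'⟩

end Pool.Agent.Lib.MP84
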