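import Pool.Agent.Lib.MP_84c3e0_co.Cert

/-!
Verified checker for explicit labelings.  A labeling is a natural number whose base 256 digits
are the labels, listed component by component.
-/

namespace Pool.Agent.Lib.MP84

def dig (N i : ℕ) : ℕ := Nat.land (Nat.shiftRight N (Nat.shiftLeft i 3)) 255
def drp (N o : ℕ) : ℕ := Nat.shiftRight N (Nat.shiftLeft o 3)

theorem dig_eq (N i : ℕ) : dig N i = N / 256 ^ i % 256 := by
  change (N >>> (i <<< 3)) &&& (2 ^ 8 - 1) = _
  rw [Nat.and_two_pow_sub_one_eq_mod, Nat.shiftRight_eq_div_pow, Nat.shiftLeft_eq, mul_comm,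
    pow_mul]
  norm_num

theorem drp_eq (N i : ℕ) : drp N i = N / 256 ^ i := by
  change N >>> (i <<< 3) = _
  rw [Nat.shiftRight_eq_div_pow, Nat.shiftLeft_eq, mul_comm, pow_mul]
  norm_num

theorem dig_drp (N o i : ℕ) : dig (drp N o) i = dig N (o + i) := by
  rw [dig_eq, dig_eq, drp_eq, Nat.div_div_eq_div_mul, pow_add]

theorem dig_succ (N i : ℕ) : dig N (i + 1) = dig (N / 256) i := by
  rw [dig_eq, dig_eq, Nat.div_div_eq_div_mul, pow_succ']

theorem dig_add : ∀ (i A B : ℕ), (∀ j ≤ i, dig A j + dig B j < 256) →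
    dig (A + B) i = dig A i + dig B i
  | 0, A, B, h => by
    have := h 0 le_rfl
    simp only [dig_eq, pow_zero, Nat.div_one] at this ⊢
    omega
  | i + 1, A, B, h => by
    have h0 := h 0 (by omega)
    simp only [dig_eq, pow_zero, Nat.div_one] at h0
    rw [dig_succ, dig_succ, dig_succ, show (A + B) / 256 = A / 256 + B / 256 by omega]
    apply dig_add
    intro j hj
    rw [← dig_succ, ← dig_succ]
    exact h _ (by omega)

noncomputable def om (N acc k : ℕ) : ℕ :=
  Nat.rec acc (fun i ih => Nat.lor ih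
    (Nat.shiftLeft 1 (Nat.land (Nat.shiftRight N (Nat.shiftLeft i 3)) 255))) k

def digs (N o m : ℕ) : List ℕ := (List.range m).map fun i => dig N (o + i)

theorem digs_succ (N o m : ℕ) : digs N o (m + 1) = digs N o m ++ [dig N (o + m)] := by
  simp [digs, List.range_succ]

theorem digs_add (N o m k : ℕ) : digs N o (m + k) = digs N o m ++ digs N (o + m) k := by
  induction k with
  | zero => simp [digs]
  | succ k ih => rw [← Nat.add_assoc, digs_succ, digs_succ, ih, List.append_assoc, Nat.add_assoc]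

theorem digs_drp (N o m : ℕ) : digs (drp N o) 0 m = digs N o m := by
  simp [digs, dig_drp]

theorem length_digs (N o m : ℕ) : (digs N o m).length = m := by simp [digs]

theorem testBit_bit (d x : ℕ) (h : (Nat.shiftLeft 1 d).testBit x = true) : x = d := by
  change ((1 : ℕ) <<< d).testBit x = true at h
  rw [Nat.one_shiftLeft, Nat.testBit_two_pow] at h
  simpa [eq_comm] using h

theorem testBit_lor (a b x : ℕ) (h : (Nat.lor a b).testBit x = true) :
    a.testBit x = true ∨ b.testBit x = true := by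
  change (a ||| b).testBit x = true at h
  simpa [Nat.testBit_or] using h

theorem testBit_om (N acc x : ℕ) : ∀ k, (om N acc k).testBit x = true →
    acc.testBit x = true ∨ x ∈ digs N 0 k
  | 0, h => Or.inl h
  | k + 1, h => by
    change (Nat.lor (om N acc k) (Nat.shiftLeft 1 (dig N k))).testBit x = true at h
    rw [digs_succ]
    rcases testBit_lor _ _ _ h with h | h
    · rcases testBit_om N acc x k h with h | h
      · exact Or.inl h
      · exact Or.inr (by simp [h])
    · exact Or.inr (by simp [testBit_bit _ _ h])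

noncomputable def maskL (l : List ℕ) : ℕ :=
  List.rec 0 (fun x _ ih => Nat.lor ih (Nat.shiftLeft 1 x)) l

theorem testBit_maskL (x : ℕ) : ∀ l : List ℕ, (maskL l).testBit x = true ↔ x ∈ l
  | [] => by simp [maskL]
  | a :: l => by
    have ih := testBit_maskL x l
    change (maskL l ||| (1 : ℕ) <<< a).testBit x = true ↔ _
    rw [Nat.testBit_or, Nat.one_shiftLeft, Nat.testBit_two_pow, Bool.or_eq_true, ih]
    simp [eq_comm, or_comm]

theorem perm_of_sub {L T : List ℕ} (hT : T.Nodup) (hs : ∀ x ∈ T, x ∈ L)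
    (hl : L.length ≤ T.length) : L.Perm T :=
  ((List.subperm_of_subset hT hs).perm_of_length_le hl).symm

theorem nodup_od (o m : ℕ) : (od o m).Nodup :=
  (List.nodup_range' (s := o) (n := m)).map (fun a b h => by simpa using h)

theorem nodup_evod (p q : ℕ) : (ev 0 p ++ od 0 q).Nodup := by
  rw [List.nodup_append]
  refine ⟨(List.nodup_range' (s := 0) (n := p)).map (fun a b h => by simpa using h),
    nodup_od _ _, ?_⟩
  intro a ha b hb
  have := od_odd hb
  simp only [ev, List.mem_map] at ha
  obtain ⟨c, -, rfl⟩ := ha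
  omega

theorem lt_of_mem_evod {p q x : ℕ} (hp : p ≤ 64) (hq : q ≤ 64) (h : x ∈ ev 0 p ++ od 0 q) :
    x < 128 := by
  simp only [ev, od, List.mem_append, List.mem_map, List.mem_range'_1] at h
  rcases h with ⟨c, h, rfl⟩ | ⟨c, h, rfl⟩ <;> omega

theorem head_digs (N o m : ℕ) (h : 0 < m) : (digs N o m).head? = some (dig N o) := by
  obtain ⟨k, rfl⟩ : ∃ k, m = 1 + k := ⟨m - 1, by omega⟩
  rw [digs_add]
  simp [digs]

theorem last_digs (N o m : ℕ) (h : 0 < m) : (digs N o m).getLast? = some (dig N (o + m - 1)) := by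
  obtain ⟨k, rfl⟩ : ∃ k, m = k + 1 := ⟨m - 1, by omega⟩
  rw [digs_succ]
  simp

def sm (N : ℕ) : ℕ := Nat.add N (Nat.shiftRight N 8)

theorem dig_sm {N n : ℕ} (h : ∀ i < n, dig N i < 128) (i : ℕ) (hi : i + 1 < n) :
    dig (sm N) i = dig N i + dig N (i + 1) := by
  have e : sm N = N + N / 256 := by
    change N + N >>> 8 = _
    rw [Nat.shiftRight_eq_div_pow]
  rw [e, dig_add, dig_succ]
  intro j hj
  rw [← dig_succ]
  have := h j (by omega)
  have := h (j + 1) (by omega)
  omega

theorem psums_digs {N n : ℕ} (h : ∀ i < n, dig N i < 128) (o : ℕ) : ∀ m, o + m ≤ n →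
    psums (digs N o m) = digs (sm N) o (m - 1)
  | 0, _ => rfl
  | 1, _ => rfl
  | m + 2, hm => by
    rw [digs_succ, psums_append _ _ _ _ (last_digs N o (m + 1) (by omega)) rfl,
      psums_digs h o (m + 1) (by omega), show m + 2 - 1 = m + 1 by omega, digs_succ (sm N),
      dig_sm h _ (by omega)]
    rfl

theorem csums_digs {N n : ℕ} (h : ∀ i < n, dig N i < 128) (o m : ℕ) (h0 : 0 < m)
    (hm : o + m ≤ n) :
    csums (digs N o m) = digs (sm N) o (m - 1) ++ [dig N (o + m - 1) + dig N o] := by
  have ht : (digs N o m).take 1 = [dig N o] := by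
    have := head_digs N o m h0
    cases hd : digs N o m with
    | nil => simp [hd] at this
    | cons a l => simp [hd] at this; simp [this]
  rw [csums, ht, psums_append _ _ _ _ (last_digs N o m h0) rfl, psums_digs h o m hm]
  rfl

noncomputable def cyc (N M : ℕ) (ms : List ℕ) : ℕ → ℕ :=
  List.rec (fun _ => 0) (fun m _ ih o => Nat.lor (ih (Nat.add o m))
    (om (drp M o) (Nat.shiftLeft 1 (Nat.add (dig N (Nat.pred (Nat.add o m))) (dig N o)))
      (Nat.pred m))) ms

def cycL (N : ℕ) : List ℕ → ℕ → List (List ℕ)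
  | [], _ => []
  | m :: ms, o => digs N o m :: cycL N ms (o + m)

theorem cycL_length (N : ℕ) : ∀ (ms : List ℕ) (o : ℕ), (cycL N ms o).map List.length = ms
  | [], _ => rfl
  | m :: ms, o => by simp [cycL, length_digs, cycL_length N ms]

theorem cycL_flatten (N : ℕ) : ∀ (ms : List ℕ) (o : ℕ), (cycL N ms o).flatten = digs N o ms.sum
  | [], _ => rfl
  | m :: ms, o => by simp [cycL, digs_add, cycL_flatten N ms]

theorem sum_cw : ∀ Cs : List (List ℕ), (Cs.map cw).sum = lw Cs.flatten (Cs.flatMap csums)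
  | [] => rfl
  | l :: Cs => by
    rw [List.map_cons, List.sum_cons, sum_cw Cs, List.flatten_cons, List.flatMap_cons, ← lw_add]
    rfl

theorem cyc_spec {N n : ℕ} (h : ∀ i < n, dig N i < 128) : ∀ (ms : List ℕ) (o : ℕ),
    (∀ m ∈ ms, 0 < m) → o + ms.sum ≤ n →
    ((cycL N ms o).flatMap csums).length = ms.sum ∧
      ∀ x, (cyc N (sm N) ms o).testBit x = true → x ∈ (cycL N ms o).flatMap csums
  | [], o, _, _ => ⟨rfl, fun x hx => by simp [cyc] at hx⟩
  | m :: ms, o, h0, hn => by
    simp only [List.sum_cons] at hn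
    have hm := h0 m (by simp)
    obtain ⟨i1, i2⟩ := cyc_spec h ms (o + m) (fun k hk => h0 k (by simp [hk])) (by omega)
    simp only [cycL, List.flatMap_cons, csums_digs h o m hm (by omega), List.length_append,
      length_digs, i1, List.sum_cons, List.mem_append, List.length_singleton]
    refine ⟨by omega, fun x hx => ?_⟩
    change (Nat.lor (cyc N (sm N) ms (o + m)) (om (drp (sm N) o)
      (Nat.shiftLeft 1 (dig N (o + m - 1) + dig N o)) (m - 1))).testBit x = true at hx
    rcases testBit_lor _ _ _ hx with hx | hx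
    · exact Or.inr (i2 x hx)
    · rcases testBit_om _ _ _ _ hx with hx | hx
      · exact Or.inl (Or.inr (by simp [testBit_bit _ _ hx]))
      · exact Or.inl (Or.inl (digs_drp _ _ _ ▸ hx))

noncomputable def endsOK (o : Option (ℕ × ℕ)) (N i j : ℕ) : Bool :=
  Option.rec true (fun e => and (Nat.beq (dig N i) e.1) (Nat.beq (dig N j) e.2)) o

theorem arc_digs {o : Option (ℕ × ℕ)} {N i m : ℕ} (hp : Pc o m)
    (h : endsOK o N i (i + m - 1) = true) : Arc o m (pw (digs N i m)) := by
  cases o with
  | none => rw [hp.2 rfl]; exact ⟨rfl, rfl⟩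
  | some e =>
    have := (hp.1 rfl).1
    simp only [endsOK, Bool.and_eq_true, Nat.beq_eq] at h
    exact ⟨_, h.1 ▸ head_digs N i m (by omega), h.2 ▸ last_digs N i m (by omega),
      length_digs _ _ _, rfl⟩

structure Mk where
  hm : ℕ
  fv : ℕ
  um : ℕ
  fs : ℕ

noncomputable def Ty.mask (G : Ty) : Mk :=
  ⟨maskL (G.LH ++ G.CH ++ G.RH), maskL (ev 0 G.p ++ od 0 G.q), maskL (G.LU ++ G.RU),
    maskL (od 0 (G.p + G.q - 1))⟩

def oc (o : Option (ℕ × ℕ)) : ℕ := cond o.isSome 1 0

def basicOK (x : Pr) : Bool :=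
  decide (x.n + (x.g.LH ++ x.g.CH ++ x.g.RH).length = x.g.p + x.g.q) &&
  decide (x.n + (x.g.LU ++ x.g.RU).length + 1 = x.g.p + x.g.q + oc x.g.Z + oc x.g.Y) &&
  decide (x.g.p ≤ 64) && decide (x.g.q ≤ 64)

theorem vcheck {x : Pr} (hb : basicOK x = true) {N : ℕ}
    (h : Nat.beq (om N x.g.mask.hm x.n) x.g.mask.fv = true) :
    (digs N 0 x.n ++ (x.g.LH ++ x.g.CH ++ x.g.RH)).Perm (ev 0 x.g.p ++ od 0 x.g.q) ∧
      ∀ i < x.n, dig N i < 128 := by
  simp only [basicOK, Bool.and_eq_true, decide_eq_true_eq] at hb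
  obtain ⟨⟨⟨b1, -⟩, b3⟩, b4⟩ := hb
  have h := Nat.eq_of_beq_eq_true h
  have hp : (digs N 0 x.n ++ (x.g.LH ++ x.g.CH ++ x.g.RH)).Perm (ev 0 x.g.p ++ od 0 x.g.q) := by
    apply perm_of_sub (nodup_evod _ _)
    · intro y hy
      have := (testBit_maskL y _).2 hy
      change x.g.mask.fv.testBit y = true at this
      rw [← h] at this
      rcases testBit_om _ _ _ _ this with k | k
      · exact List.mem_append_right _ ((testBit_maskL y _).1 k)
      · exact List.mem_append_left _ k
    · rw [List.length_append, length_digs, b1]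
      simp [ev, od]
  refine ⟨hp, fun i hi => lt_of_mem_evod b3 b4 (hp.subset (List.mem_append_left _ ?_))⟩
  simp only [digs, List.mem_map, List.mem_range]
  exact ⟨i, hi, by simp⟩

theorem bal_of_perm {G : Ty} {V S : List ℕ}
    (hv : (V ++ (G.LH ++ G.CH ++ G.RH)).Perm (ev 0 G.p ++ od 0 G.q))
    (hs : (S ++ (G.LU ++ G.RU)).Perm (od 0 (G.p + G.q - 1))) : lw V S + G.holes = G.full := by
  rw [Ty.holes, lw_add, Ty.full]
  simp only [lw, Prod.mk.injEq]
  exact ⟨Multiset.coe_eq_coe.2 hv, Multiset.coe_eq_coe.2 hs⟩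

noncomputable def lab (Z Y : Option (ℕ × ℕ)) (n : ℕ) (K : Mk) (a b : ℕ) (ms : List ℕ) (N : ℕ) :
    Bool :=
  and (and (endsOK Z N 0 (Nat.pred a)) (endsOK Y N (Nat.sub n b) (Nat.pred n)))
    (and (Nat.beq (om N K.hm n) K.fv)
      (Nat.beq (Nat.lor (om (sm N) (cyc N (sm N) ms a) (Nat.pred a))
        (om (drp (sm N) (Nat.sub n b)) K.um (Nat.pred b))) K.fs))

theorem Pc.oc {o a} (h : Pc o a) : a - 1 + oc o = a := by
  cases o with
  | none => simp [MP84.oc, h.2 rfl]
  | some e => have := (h.1 rfl).1; simp [MP84.oc]; omega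

theorem lab_sound {x : Pr} (hb : basicOK x = true) {a b N : ℕ} {l : List ℕ}
    (hv : Valid x a l b) (h : lab x.g.Z x.g.Y x.n x.g.mask a b l N = true) :
    Real x.g (.brk a l b) := by
  obtain ⟨hs, pa, pb, hm⟩ := hv
  simp only [Multiset.sum_coe] at hs
  simp only [lab, Bool.and_eq_true] at h
  obtain ⟨⟨e1, e2⟩, v, s⟩ := h
  obtain ⟨v1, v2⟩ := vcheck hb v
  have s := Nat.eq_of_beq_eq_true s
  have nb : Nat.sub x.n b = a + l.sum := by change x.n - b = _; omega
  rw [nb] at e2 s
  have A1 : Arc x.g.Z a (pw (digs N 0 a)) := arc_digs pa (by simpa using e1)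
  have A3 : Arc x.g.Y b (pw (digs N (a + l.sum) b)) := arc_digs pb (by rw [hs]; exact e2)
  obtain ⟨c1, c2⟩ := cyc_spec v2 l a (fun m hm' => by have := (hm m (by simpa using hm')).1; omega)
    (by omega)
  refine ⟨_, ⟨_, _, _, A1, ⟨cycL N l a, by rw [cycL_length], rfl⟩, A3, rfl⟩, ?_⟩
  rw [sum_cw, cycL_flatten]
  change lw _ _ + lw _ _ + lw _ _ + _ = _
  rw [lw_add, lw_add]
  apply bal_of_perm
  · have := digs_add N 0 a l.sum
    have h2 := digs_add N 0 (a + l.sum) b
    simp only [Nat.zero_add] at this h2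
    rw [← this, ← h2, hs]
    exact v1
  · rw [psums_digs v2 0 a (by omega), psums_digs v2 (a + l.sum) b (by omega)]
    apply perm_of_sub (nodup_od _ _)
    · intro y hy
      have := (testBit_maskL y _).2 hy
      change x.g.mask.fs.testBit y = true at this
      rw [← s] at this
      simp only [List.mem_append]
      rcases testBit_lor _ _ _ this with k | k
      · rcases testBit_om _ _ _ _ k with k | k
        · exact Or.inl (Or.inl (Or.inr (c2 y k)))
        · exact Or.inl (Or.inl (Or.inl k))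
      · rcases testBit_om _ _ _ _ k with k | k
        · exact Or.inr (List.mem_append.1 ((testBit_maskL y _).1 k))
        · exact Or.inl (Or.inr (digs_drp _ _ _ ▸ k))
    · simp only [basicOK, Bool.and_eq_true, decide_eq_true_eq] at hb
      have := hb.1.1.2
      have := pa.oc
      have := pb.oc
      simp only [List.length_append, length_digs, c1, od, List.length_map, List.length_range'] at *
      omega

noncomputable def labT (x : Pr) (k N : ℕ) : Bool :=
  and (and (Nat.ble 1 k) (Nat.ble (Nat.succ k) x.n))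
    (and (and (endsOK x.g.Z N 0 k)
      (or (endsOK x.g.Y N (Nat.pred k) (Nat.pred x.n)) (endsOK x.g.Y N (Nat.pred x.n) (Nat.pred k))))
    (and (Nat.beq (om N x.g.mask.hm x.n) x.g.mask.fv)
      (Nat.beq (Nat.lor (om (sm N) 0 (Nat.pred k))
        (om (drp (sm N) k) x.g.mask.um (Nat.pred (Nat.sub x.n k)))) x.g.mask.fs)))

theorem labT_sound {x : Pr} (hb : basicOK x = true) {k N : ℕ} (hz : x.g.Z.isSome = true)
    (hy : x.g.Y.isSome = true) (h : labT x k N = true) : Real x.g (.thru x.n) := by
  simp only [labT, Bool.and_eq_true, Nat.ble_eq, Bool.or_eq_true] at h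
  obtain ⟨⟨k1, k2⟩, ⟨e1, e2⟩, v, s⟩ := h
  obtain ⟨v1, v2⟩ := vcheck hb v
  have s := Nat.eq_of_beq_eq_true s
  obtain ⟨z, hz'⟩ := Option.isSome_iff_exists.1 hz
  obtain ⟨y, hy'⟩ := Option.isSome_iff_exists.1 hy
  simp only [hz', hy', endsOK, Bool.and_eq_true, Nat.beq_eq, Nat.pred_eq_sub_one] at e1 e2
  have k2 : k < x.n := k2
  have T : Thru (dig N 0) (dig N k) (dig N (k - 1)) (dig N (x.n - 1)) x.n
      (pw (digs N 0 k) + pw (digs N k (x.n - k))) := by
    refine ⟨k, x.n - k, _, _, ⟨_, head_digs N 0 k (by omega), ?_, length_digs _ _ _, rfl⟩,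
      ⟨_, head_digs N k _ (by omega), ?_, length_digs _ _ _, rfl⟩, by omega, rfl⟩
    · rw [last_digs N 0 k (by omega), Nat.zero_add]
    · rw [last_digs N k _ (by omega), show k + (x.n - k) = x.n by omega]
  refine ⟨pw (digs N 0 k) + pw (digs N k (x.n - k)), ⟨z, y, hz', hy', ?_⟩, ?_⟩
  · rw [← e1.1, ← e1.2]
    rcases e2 with e2 | e2
    · left; rw [← e2.1, ← e2.2]; exact T
    · right; rw [← e2.1, ← e2.2]; exact T
  change lw _ _ + lw _ _ + _ = _
  rw [lw_add]
  apply bal_of_perm
  · have := digs_add N 0 k (x.n - k)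
    simp only [Nat.zero_add] at this
    rw [← this, show k + (x.n - k) = x.n by omega]
    exact v1
  · rw [psums_digs v2 0 k (by omega), psums_digs v2 k _ (by omega)]
    apply perm_of_sub (nodup_od _ _)
    · intro y hy
      have := (testBit_maskL y _).2 hy
      change x.g.mask.fs.testBit y = true at this
      rw [← s] at this
      simp only [List.mem_append]
      rcases testBit_lor _ _ _ this with k | k
      · rcases testBit_om _ _ _ _ k with k | k
        · simp at k
        · exact Or.inl (Or.inl k)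
      · rcases testBit_om _ _ _ _ k with k | k
        · exact Or.inr (List.mem_append.1 ((testBit_maskL y _).1 k))
        · exact Or.inl (Or.inr (digs_drp _ _ _ ▸ k))
    · simp only [basicOK, Bool.and_eq_true, decide_eq_true_eq, oc, hz, hy, cond_true] at hb
      have := hb.1.1.2
      simp only [List.length_append, length_digs, od, List.length_map, List.length_range'] at *
      omega

inductive DT
  | leaf (N : ℕ)
  | node (l r : DT)

noncomputable def chkT (f : List ℕ → ℕ → Bool) (full : Bool) (hi : ℕ) (t : DT) :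
    ℕ → ℕ → List ℕ → Bool :=
  DT.rec (fun N lo n acc => and (or (Nat.ble (Nat.succ n) (Nat.add lo lo)) (Nat.ble (Nat.succ hi) lo))
      (cond (and (Nat.ble lo n) (Nat.ble n hi)) (f (n :: acc) N)
        (cond (and full (Nat.beq n 0)) (f acc N) true)))
    (fun _ _ ihl ihr lo n acc => and (Nat.ble (Nat.add lo lo) n)
      (and (ihl lo (Nat.sub n lo) (lo :: acc)) (ihr (Nat.add lo 2) n acc))) t

theorem chkT_spec (f : List ℕ → ℕ → Bool) (full : Bool) (hi : ℕ) (t : DT) :
    ∀ lo n acc, chkT f full hi t lo n acc = true → 0 < lo → lo % 2 = 0 → ∀ l : List ℕ,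
      l.Pairwise (· ≤ ·) → (∀ m ∈ l, lo ≤ m ∧ m ≤ hi ∧ m % 2 = 0) → l.sum = n →
      (l ≠ [] ∨ full = true) → ∃ N, f (l.reverse ++ acc) N = true := by
  induction t with
  | leaf N =>
    intro lo n acc h l0 l2 l hp hm hs hf
    simp only [chkT, Bool.and_eq_true, Bool.or_eq_true, Nat.ble_eq, Nat.add_eq,
      Nat.succ_eq_add_one] at h
    obtain ⟨h1, h2⟩ := h
    refine ⟨N, ?_⟩
    match l, hp, hm, hs, hf with
    | [], _, _, hs, hf =>
      have hf : full = true := by simpa using hf
      simp only [List.sum_nil] at hs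
      subst hs
      have : Nat.ble lo 0 = false := by
        rw [Bool.eq_false_iff]; simp only [ne_eq, Nat.ble_eq]; omega
      simpa [this, hf] using h2
    | [m], _, hm, hs, _ =>
      have := hm m (by simp)
      simp only [List.sum_cons, List.sum_nil, Nat.add_zero] at hs
      subst hs
      have e1 : Nat.ble lo m = true := by simp only [Nat.ble_eq]; omega
      have e2 : Nat.ble m hi = true := by simp only [Nat.ble_eq]; omega
      simpa [e1, e2] using h2
    | m :: m' :: l, _, hm, hs, _ =>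
      have := hm m (by simp)
      have := hm m' (by simp)
      simp only [List.sum_cons] at hs
      omega
  | node t1 t2 ih1 ih2 =>
    intro lo n acc h l0 l2 l hp hm hs hf
    change and (Nat.ble (lo + lo) n) (and (chkT f full hi t1 lo (n - lo) (lo :: acc))
      (chkT f full hi t2 (lo + 2) n acc)) = true at h
    simp only [Bool.and_eq_true, Nat.ble_eq] at h
    obtain ⟨h0, h1, h2⟩ := h
    cases l with
    | nil => simp at hs; omega
    | cons m l =>
      have hm0 := hm m (by simp)
      simp only [List.sum_cons] at hs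
      by_cases e : m = lo
      · subst e
        have := ih1 _ _ _ h1 l0 l2 l (List.pairwise_cons.1 hp).2
          (fun k hk => hm k (by simp [hk])) (by omega) (Or.inl (by rintro rfl; simp at hs; omega))
        simpa using this
      · refine ih2 _ _ _ h2 (by omega) (by omega) (m :: l) hp ?_ (by simpa using hs) hf
        intro k hk
        have := hm k hk
        rcases List.mem_cons.1 hk with rfl | hk
        · omega
        · have := (List.pairwise_cons.1 hp).1 k hk
          omega

noncomputable def chkL {α : Type} (f : α → ℕ → Bool) (stop : ℕ → Bool) (ts : List α) : ℕ → Bool :=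
  List.rec stop (fun t _ ih b => and (f t b) (ih (Nat.add b 2))) ts

theorem chkL_spec {α : Type} (f : α → ℕ → Bool) (stop : ℕ → Bool) (b : ℕ)
    (hb : ∀ c ≤ b, c % 2 = b % 2 → stop c = false) : ∀ (ts : List α) (b0 : ℕ),
    chkL f stop ts b0 = true → b0 ≤ b → b0 % 2 = b % 2 → ∃ t, f t b = true
  | [], b0, h, h1, h2 => by
    have := hb b0 h1 h2
    simp [chkL, this] at h
  | t :: ts, b0, h, h1, h2 => by
    change and (f t b0) (chkL f stop ts (b0 + 2)) = true at h
    simp only [Bool.and_eq_true] at h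
    by_cases e : b0 = b
    · exact ⟨t, e ▸ h.1⟩
    · exact chkL_spec f stop b hb ts _ h.2 (by omega) (by omega)

def memE (E : List Ex) (a b : ℕ) (ms : List ℕ) : Bool :=
  E.any fun e => decide (e.1 = a) && decide (e.2.1 = ms) && decide (e.2.2 = b)

def emp (s : Spec) : Bool := !s.2.2 && Nat.ble s.1 3

noncomputable def chkA (x : Pr) (K : Mk) (s : Spec) (ts : List DT) (a : ℕ) : Bool :=
  chkL (fun t b => chkT (fun ms N => cond (Nat.beq N 0) (memE x.e a b ms)
      (lab x.g.Z x.g.Y x.n K a b ms N)) s.2.2 (cond s.2.2 x.n s.1) t 4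
      (Nat.sub (Nat.sub x.n a) b) [])
    (fun b => emp s || Nat.ble (Nat.succ x.n) (Nat.add a b) ||
      Nat.ble (Nat.succ (cond x.g.Y.isSome (cond s.2.2 x.n s.2.1) 0)) b)
    ts (cond x.g.Y.isSome 2 0)

noncomputable def tabOK (x : Pr) (sp : List Spec) (k N : ℕ) (d : List (List DT)) : Bool :=
  basicOK x && cond ((spec sp 8).2.2 && x.g.Z.isSome && x.g.Y.isSome) (labT x k N) true &&
  chkL (fun ts a => chkA x x.g.mask (spec sp (min (a / 2) 8)) ts a)
    (fun a => (Nat.ble 16 a && emp (spec sp 8)) ||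
      Nat.ble (Nat.succ (cond x.g.Z.isSome x.n 0)) a) d (cond x.g.Z.isSome 2 0)

theorem emp_false {s : Spec} {ms : Multiset ℕ} {b : ℕ} (h : InFam s ms b)
    (hm : ∀ m ∈ ms, 4 ≤ m ∧ m % 2 = 0) : emp s = false := by
  rcases h with h | ⟨h1, h2, -⟩
  · simp [emp, h]
  · obtain ⟨m, hm'⟩ := Multiset.exists_mem_of_ne_zero h1
    have := hm m hm'
    have := h2 m hm'
    have : Nat.ble s.1 3 = false := by
      rw [Bool.eq_false_iff]; simp only [ne_eq, Nat.ble_eq]; omega
    simp [emp, this]

theorem Pc.start {o a} (h : Pc o a) : cond o.isSome 2 0 ≤ a ∧ cond o.isSome 2 0 % 2 = a % 2 := by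
  cases ho : o.isSome
  · simp [h.2 ho]
  · have := h.1 ho
    simp only [cond_true]
    omega

theorem tabReal_of_ok {x : Pr} {sp k N d} (h : tabOK x sp k N d = true) : TabReal x sp := by
  simp only [tabOK, Bool.and_eq_true] at h
  obtain ⟨⟨hb, ht⟩, hd⟩ := h
  refine ⟨?_, fun h1 h2 h3 => labT_sound hb h2 h3 (by simpa [h1, h2, h3] using ht)⟩
  intro a ms b hv hn hf
  have hl : ((ms.sort (· ≤ ·) : List ℕ) : Multiset ℕ) = ms := Multiset.sort_eq _ _
  have hp : (ms.sort (· ≤ ·)).Pairwise (· ≤ ·) := Multiset.pairwise_sort _ _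
  generalize ms.sort (· ≤ ·) = l at hl hp
  subst hl
  obtain ⟨hs, pa, pb, hm⟩ := id hv
  simp only [Multiset.sum_coe] at hs
  have he := emp_false hf hm
  obtain ⟨ts, h1⟩ := chkL_spec _ _ a (by
    intro c hc _
    rw [Bool.or_eq_false_iff]
    constructor
    · by_cases h16 : 16 ≤ c
      · rw [show min (a / 2) 8 = 8 by omega] at he
        simp [he]
      · have : Nat.ble 16 c = false := by
          rw [Bool.eq_false_iff]; simpa only [ne_eq, Nat.ble_eq] using h16
        simp [this]
    · rw [Bool.eq_false_iff]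
      simp only [ne_eq, Nat.ble_eq, Nat.succ_eq_add_one]
      cases hz : x.g.Z.isSome
      · have := pa.2 hz
        simp only [cond_false]; omega
      · simp only [cond_true]; omega) d _ hd pa.start.1 pa.start.2
  generalize spec sp (min (a / 2) 8) = s at hf he h1
  obtain ⟨t, h2⟩ := chkL_spec _ _ b (by
    intro c hc _
    rw [he, Bool.false_or, Bool.or_eq_false_iff, Bool.eq_false_iff, Bool.eq_false_iff]
    simp only [ne_eq, Nat.ble_eq, Nat.succ_eq_add_one, Nat.add_eq]
    refine ⟨by omega, ?_⟩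
    cases hy : x.g.Y.isSome
    · have := pb.2 hy
      simp only [cond_false]; omega
    · rcases hf with hf | ⟨-, -, hf⟩
      · simp only [hf, cond_true]; omega
      · cases s.2.2
        · simp only [cond_true, cond_false]; omega
        · simp only [cond_true]; omega) ts _ h1 pb.start.1 pb.start.2
  obtain ⟨M, h3⟩ := chkT_spec _ _ _ _ _ _ _ h2 (by omega) (by omega) l hp (by
    intro m hm'
    have := hm m (by simpa using hm')
    refine ⟨this.1, ?_, this.2⟩
    have hle : m ≤ l.sum := List.single_le_sum (by simp) m hm'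
    rcases hf with hf | ⟨-, hf, -⟩
    · simp only [hf, cond_true]; omega
    · cases s.2.2
      · exact hf m (by simpa using hm')
      · simp only [cond_true]; omega) (by change l.sum = x.n - a - b; omega) (by
    rcases hf with hf | ⟨hf, -⟩
    · exact Or.inr hf
    · exact Or.inl (by simpa using hf))
  rw [List.append_nil] at h3
  rw [← Multiset.coe_reverse] at hv hn ⊢
  cases hM : Nat.beq M 0
  · rw [hM, cond_false] at h3
    exact lab_sound hb hv h3
  · rw [hM, cond_true] at h3
    simp only [memE, List.any_eq_true, Bool.and_eq_true, decide_eq_true_eq] at h3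
    obtain ⟨e, he1, ⟨j1, j2⟩, j3⟩ := h3
    exact absurd ⟨j1, by rw [j2], j3⟩ (hn e he1)

/-- all children of a list of rules are good -/
def AllGood : List Rule → Prop
  | [] => True
  | r :: rs => Good r.x1 ∧ Good r.x3 ∧ AllGood rs

theorem AllGood.mem : ∀ {rs : List Rule}, AllGood rs → ∀ r ∈ rs, Good r.x1 ∧ Good r.x3
  | [], _, r, hr => by simp at hr
  | r' :: rs, h, r, hr => by
    rcases List.mem_cons.1 hr with rfl | hr
    · exact ⟨h.1, h.2.1⟩
    · exact AllGood.mem h.2.2 r hr

theorem good0 {x : Pr} {sp : List Spec} {rs : List Rule} (h : certOK x sp rs = true)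
    (hg : AllGood rs) (ht : TabReal x sp) : Good x := by
  have := good_of_cert h 0 (fun r hr => by simpa only [Pr.at_zero] using hg.mem r hr)
    (by simpa only [Nat.mul_zero, Pr.at_zero] using ht)
  simpa only [Nat.mul_zero, Pr.at_zero] using this

end Pool.Agent.Lib.MP84
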